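import Pool.Agent.H81Sel.Main

/-! From the ratios in the boxes to the average over all curves, for every `n`. -/

namespace SelAvg.FF

open WeierstrassCurve WithZero Filter Topology
open scoped Classical

variable {F : Type} [Field F]

/-- the size of the `n`-Selmer group of a class -/
noncomputable def selG (n : ℕ) (c : IsoClass F) : ℝ := (Sel (Quot.out c).1 n).ncard

/-- the size of the `n`-Selmer group of the chosen representative of the class of `W` -/
noncomputable def selW (n : ℕ) (W : WeierstrassCurve F) : ℝ :=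
  if h : W.Δ ≠ 0 then selG n (exists_models h).exists.choose else 0

lemma selG_eq (n : ℕ) {c : IsoClass F} {W : WeierstrassCurve F} (h : Models c W) :
    selG n c = selW n W := by
  rw [selW, dif_pos h.Delta_ne]
  exact congrArg (selG n)
    ((exists_models h.Delta_ne).unique h (exists_models h.Delta_ne).exists.choose_spec)

lemma exists_selW (n : ℕ) {W : WeierstrassCurve F} (h : W.Δ ≠ 0) :
    ∃ (W' : WeierstrassCurve F) (C : VariableChange F), W'.Δ ≠ 0 ∧ C • W' = W ∧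
      selW n W = (Sel W' n).ncard := by
  obtain ⟨c, ⟨C, hC⟩, -⟩ := exists_models h
  exact ⟨_, C, out_Delta_ne_zero c, hC, (selG_eq n ⟨C, hC⟩).symm⟩

variable [Cv F]

/-- the normalised sum of a function of the curve -/
noncomputable def AvD (φ : WeierstrassCurve F → ℝ) (D : Div F) : ℝ :=
  avg (WB D) fun W => ind (MinW D W) * aut W * φ W

lemma AvD_mono {φ ψ : WeierstrassCurve F → ℝ} (h : ∀ W, W.Δ ≠ 0 → φ W ≤ ψ W) (D : Div F) :
    AvD φ D ≤ AvD ψ D := by
  refine avg_mono fun W _ => ?_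
  by_cases hm : MinW D W
  · exact mul_le_mul_of_nonneg_left (h W hm.1) (mul_nonneg (ind_nonneg _) (Nat.cast_nonneg _))
  · simp only [ind_neg hm, zero_mul, le_refl]

lemma AvD_add (φ ψ : WeierstrassCurve F → ℝ) (D : Div F) :
    AvD (fun W => φ W + ψ W) D = AvD φ D + AvD ψ D := by
  simp only [AvD, mul_add, avg_add]

lemma AvD_sub (φ ψ : WeierstrassCurve F → ℝ) (D : Div F) :
    AvD (fun W => φ W - ψ W) D = AvD φ D - AvD ψ D := by
  simp only [AvD, mul_sub, avg_sub]

lemma AvD_one (D : Div F) : AvD (fun _ => 1) D = TD D := by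
  simp only [AvD, TD, mul_one]

lemma htG_type (n : ℕ) (a : ℝ) {D : Div F} (hD : (c0 F : ℤ) ≤ deg D) (S : Finset (IsoClass F))
    (hS : ∀ c, c ∈ S ↔ ∃ u : Fˣ, DC c + dv (u : F) = D) (hT : TD D ≠ 0) :
    ∑ c ∈ S, (selG n c - a) = (AvD (selW n) D / TD D - a) * S.card := by
  have hN : ((WB D).card : ℝ) ≠ 0 := by exact_mod_cast (WB_nonempty D).card_pos.ne'
  have hG : ((GB D).card : ℝ) ≠ 0 := by
    exact_mod_cast (Finset.card_pos.2 ⟨_, one_mem_GB D⟩).ne'
  have e1 := ht_card hD S hS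
  have e2 := classes_sum hD S hS (selG n) (selW n) fun _ _ h => selG_eq n h
  have e3 : ∑ W ∈ WB D, ind (MinW D W) * aut W * selW n W = AvD (selW n) D * (WB D).card := by
    rw [AvD, avg, div_mul_cancel₀ _ hN]
  rw [e3] at e2
  rw [Finset.sum_sub_distrib, Finset.sum_const, nsmul_eq_mul, eq_div_of_mul_eq hG e1,
    eq_div_of_mul_eq hG e2]
  field_simp

lemma htG_est (n : ℕ) (a : ℝ) (h : ∀ R : Div F, (c0 F : ℤ) ≤ deg R →
      Tendsto (fun m : ℕ => AvD (selW n) (R + m • PP F) / TD (R + m • PP F)) atTop (𝓝 a))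
    {ε : ℝ} (hε : 0 < ε) : ∃ d : ℤ, ∀ S : Finset (IsoClass F), (∀ c ∈ S, d ≤ deg (DC c)) →
      (∀ c ∈ S, ∀ c', deg (DC c') = deg (DC c) → c' ∈ S) →
        |∑ c ∈ S, (selG n c - a)| ≤ ε * S.card := by
  obtain ⟨RR, -, h1, h2, h3, h4⟩ := exists_reps (F := F)
  obtain ⟨m₀, hm⟩ := eventually_atTop.1 ((eventually_all_finset RR).2 fun R hR =>
    (Metric.tendsto_nhds.1 (h R (h1 R hR)) ε hε).and (TD_pos R))
  have h5 : ∀ c : IsoClass F, ∃ (R : Div F) (m : ℕ) (u : Fˣ), (c0 F : ℤ) ≤ deg (DC c) →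
      R ∈ RR ∧ DC c + dv (u : F) = R + m • PP F := fun c => by
    by_cases hc : (c0 F : ℤ) ≤ deg (DC c)
    · obtain ⟨R, hR, m, u, e⟩ := h3 _ hc
      exact ⟨R, m, u, fun _ => ⟨hR, e⟩⟩
    · exact ⟨0, 0, 1, fun h => absurd h hc⟩
  choose R m u h5 using h5
  have hp : (0 : ℤ) < pp F := by exact_mod_cast ht_pp_pos (F := F)
  have hp' : (0 : ℤ) ≤ m₀ * pp F := by positivity
  refine ⟨c0 F + pp F + m₀ * pp F, fun S hS hS' => ?_⟩
  have h6 : ∀ c ∈ S, (c0 F : ℤ) ≤ deg (DC c) := fun c hc => by have := hS c hc; omega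
  rw [← Finset.sum_fiberwise_of_maps_to (g := fun c => R c + m c • PP F)
    (fun c hc => Finset.mem_image_of_mem _ hc),
    Finset.card_eq_sum_card_image (fun c => R c + m c • PP F), Nat.cast_sum, Finset.mul_sum]
  refine (Finset.abs_sum_le_sum_abs _ _).trans (Finset.sum_le_sum fun D hD => ?_)
  obtain ⟨c, hc, rfl⟩ := Finset.mem_image.1 hD
  obtain ⟨a', b⟩ := h5 c (h6 c hc)
  have e1 : deg (DC c) = deg (R c + m c • PP F) := by rw [← b, map_add, deg_dv, add_zero]
  have e2 : m₀ ≤ m c := by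
    have e3 := hS c hc
    have e4 := h2 _ a'
    rw [e1, map_add, map_nsmul, deg_PP, nsmul_eq_mul] at e3
    have e5 : (m₀ : ℤ) * pp F < m c * pp F := by omega
    exact_mod_cast (lt_of_mul_lt_mul_right e5 hp.le).le
  obtain ⟨e3, e4⟩ := hm _ e2 _ a'
  rw [htG_type n a (e1 ▸ h6 c hc) _ (fun c' => ?_) e4.ne', abs_mul, Nat.abs_cast]
  · exact mul_le_mul_of_nonneg_right (le_of_lt e3) (Nat.cast_nonneg _)
  rw [Finset.mem_filter]
  constructor
  · rintro ⟨hc', e⟩
    exact ⟨u c', (h5 c' (h6 c' hc')).2.trans e⟩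
  · rintro ⟨u', e⟩
    have hc' : c' ∈ S := hS' c hc c' (by rw [e1, ← e, map_add, deg_dv, add_zero])
    obtain ⟨a'', b'⟩ := h5 c' (h6 c' hc')
    obtain ⟨f1, f2⟩ := h4 _ a'' _ a' (m c') (m c) (u' * (u c')⁻¹) (by
      rw [← b', ← e, Units.val_mul, dv_mul u'.ne_zero (u c')⁻¹.ne_zero, Units.val_inv_eq_inv_val,
        dv_inv]
      abel)
    exact ⟨hc', by rw [f1, f2]⟩

theorem selmerAverage_selW (n : ℕ) (a : ℝ)
    (hfin : ∀ W : WeierstrassCurve F, W.Δ ≠ 0 → (Sel W n).Finite)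
    (h : ∀ R : Div F, (c0 F : ℤ) ≤ deg R →
      Tendsto (fun m : ℕ => AvD (selW n) (R + m • PP F) / TD (R + m • PP F)) atTop (𝓝 a)) :
    SelmerAverage F n a := by
  refine ⟨fun W hW => hfin W hW.isUnit.ne_zero,
    finite_classesLE, Metric.tendsto_nhds.2 fun ε hε => ?_⟩
  have := ht_infinite (F := F) fun R _ => TD_pos R
  obtain ⟨d, hd⟩ := htG_est n a h (half_pos hε)
  obtain ⟨K, hK⟩ : ∃ K, K = ∑ c ∈ (finite_DC_le (F := F) d).toFinset, |selG n c - a| := ⟨_, rfl⟩
  filter_upwards [eventually_ge_atTop (qq F ^ (12 * (c0 F + pp F : ℤ))),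
    (tendsto_ncard_classesLE (F := F)).eventually_gt_atTop (max 0 (K / (ε / 2)))] with X h1 h2
  have hS : ∀ c, c ∈ (finite_classesLE (F := F) X).toFinset ↔ qq F ^ (12 * deg (DC c)) ≤ X :=
    fun c => (finite_classesLE X).mem_toFinset.trans (height_le_iff (out_Delta_ne_zero c) h1)
  rw [Set.ncard_eq_toFinset_card _ (finite_classesLE X)] at h2
  rw [finsum_mem_eq_finite_toFinset_sum _ (finite_classesLE X),
    Set.ncard_eq_toFinset_card _ (finite_classesLE X)]
  generalize (finite_classesLE (F := F) X).toFinset = S at hS h2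
  have hN : (0 : ℝ) < S.card := (le_max_left _ _).trans_lt h2
  have h3 : K < S.card * (ε / 2) := (div_lt_iff₀ (half_pos hε)).1 ((le_max_right _ _).trans_lt h2)
  have h4 := hd (S.filter fun c => d ≤ deg (DC c)) (fun c hc => (Finset.mem_filter.1 hc).2)
    fun c hc c' e => by
      rw [Finset.mem_filter, hS] at hc ⊢
      rwa [e]
  have h5 : |∑ c ∈ S with ¬d ≤ deg (DC c), (selG n c - a)| ≤ K := by
    rw [hK]
    refine (Finset.abs_sum_le_sum_abs _ _).trans (Finset.sum_le_sum_of_subset_of_nonneg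
      (fun c hc => ?_) fun _ _ _ => abs_nonneg _)
    exact (Set.Finite.mem_toFinset _).2 (not_le.1 (Finset.mem_filter.1 hc).2).le
  have h6 : ((S.filter fun c => d ≤ deg (DC c)).card : ℝ) ≤ S.card := by
    exact_mod_cast Finset.card_filter_le _ _
  have h7 := Finset.sum_filter_add_sum_filter_not S (fun c => d ≤ deg (DC c)) fun c => selG n c - a
  have h8 : (∑ c ∈ S, selG n c) / S.card - a = (∑ c ∈ S, (selG n c - a)) / S.card := by
    rw [Finset.sum_sub_distrib, Finset.sum_const, nsmul_eq_mul]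
    field_simp
  change |(∑ c ∈ S, selG n c) / S.card - a| < ε
  rw [h8, abs_div, abs_of_pos hN, div_lt_iff₀ hN, ← h7]
  have h9 := mul_le_mul_of_nonneg_left h6 (half_pos hε).le
  exact (abs_add_le _ _).trans_lt (by linarith)

/-- the final step, from a lower and an upper bound with the same limit -/
theorem selmerAverage_gen (n : ℕ) (a : ℝ) (lo hi : WeierstrassCurve F → ℝ)
    (hfin : ∀ W : WeierstrassCurve F, W.Δ ≠ 0 → (Sel W n).Finite)
    (hlo : ∀ (W : WeierstrassCurve F) (C : VariableChange F), W.Δ ≠ 0 →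
      lo (C • W) ≤ (Sel W n).ncard)
    (hhi : ∀ (W : WeierstrassCurve F) (C : VariableChange F), W.Δ ≠ 0 →
      (Sel W n).ncard ≤ hi (C • W))
    (h1 : ∀ R : Div F,
      Tendsto (fun m : ℕ => AvD lo (R + m • PP F) / TD (R + m • PP F)) atTop (𝓝 a))
    (h2 : ∀ R : Div F,
      Tendsto (fun m : ℕ => AvD hi (R + m • PP F) / TD (R + m • PP F)) atTop (𝓝 a)) :
    SelmerAverage F n a := by
  refine selmerAverage_selW n a hfin fun R _ =>
    tendsto_of_tendsto_of_tendsto_of_le_of_le' (h1 R) (h2 R) ?_ ?_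
  · filter_upwards [TD_pos R] with m hm
    refine div_le_div_of_nonneg_right (AvD_mono (fun W hW => ?_) _) hm.le
    obtain ⟨W', C, h3, rfl, h4⟩ := exists_selW n hW
    rw [h4]
    exact hlo W' C h3
  · filter_upwards [TD_pos R] with m hm
    refine div_le_div_of_nonneg_right (AvD_mono (fun W hW => ?_) _) hm.le
    obtain ⟨W', C, h3, rfl, h4⟩ := exists_selW n hW
    rw [h4]
    exact hhi W' C h3

/-- from an absolute estimate to the ratio -/
theorem tendsto_div_TD {A : Div F → ℝ} {a : ℝ} (R : Div F)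
    (h : ∀ ε : ℝ, 0 < ε → ∀ᶠ m : ℕ in atTop, |A (R + m • PP F) - a * TD (R + m • PP F)| ≤ ε) :
    Tendsto (fun m : ℕ => A (R + m • PP F) / TD (R + m • PP F)) atTop (𝓝 a) := by
  refine Metric.tendsto_nhds.2 fun ε hε => ?_
  have ha : 0 < ε / 2 * (1 / zt F) ^ 5 :=
    mul_pos (half_pos hε) (pow_pos (one_div_pos.2 fin2_zt_pos) _)
  filter_upwards [h _ ha, TD_pos R, TD_ge R] with m h1 h2 h4
  have h3 : A (R + m • PP F) / TD (R + m • PP F) - a =
      (A (R + m • PP F) - a * TD (R + m • PP F)) / TD (R + m • PP F) := by field_simp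
  rw [Real.dist_eq, h3, abs_div, abs_of_pos h2]
  exact ((div_le_iff₀ h2).2 (h1.trans (mul_le_mul_of_nonneg_left h4 (half_pos hε).le))).trans_lt
    (half_lt_self hε)

end SelAvg.FF
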