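import Mathlib

/-! Row GRP: from generic triples to all triples. -/

namespace SelAvg.Q4

/-- The statement after transport to the group itself. -/
theorem grp_core {E : Type*} [AddCommGroup E] [Infinite E] (t : E → E → E) (π a : E)
    (hs : ∀ x y, t x y = t y x) (hsurj : ∀ x, Function.Surjective (t x))
    (hinj : ∀ x, Function.Injective (t x)) (ha : ∀ q, t a q = q)
    (hgen : ∀ x y z, t x x ≠ t x y → t x x + t x y ≠ π → t x x ≠ t x z → t x x + t x z ≠ π →
      t x y ≠ t x z → t x y + t x z ≠ π → t x x + t y z = t x y + t x z) (b q : E) :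
    t b q = b + q - a := by
  classical
  have G : ∀ b q, a + b ≠ π → a + q ≠ π → b ≠ q → b + q ≠ π → t b q = b + q - a := by
    intro b q h1 h2 h3 h4
    by_cases hb : a = b
    · subst hb; rw [ha]; abel
    by_cases hq : a = q
    · subst hq; rw [hs, ha]; abel
    have := hgen a b q (by simpa only [ha] using hb) (by simpa only [ha] using h1)
      (by simpa only [ha] using hq) (by simpa only [ha] using h2) (by simpa only [ha] using h3)
      (by simpa only [ha] using h4)
    simp only [ha] at this
    rw [← this]; abel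
  have D : ∀ b (F : Finset E), (∀ x, x ∉ F → t b x = b + x - a) → t b b = b + b - a := by
    intro b F hF
    obtain ⟨u, hu⟩ := hsurj b (π - t b b)
    obtain ⟨x, hx⟩ := Infinite.exists_notMem_finset (insert b (insert u (insert (π - a) F)))
    obtain ⟨w, hw⟩ := hsurj b (π - t b x)
    obtain ⟨y, hy⟩ := Infinite.exists_notMem_finset
      (insert b (insert u (insert (π - a) (insert x (insert w (insert (π - x) F))))))
    simp only [Finset.mem_insert, not_or] at hx hy
    obtain ⟨x1, x2, x3, x4⟩ := hx
    obtain ⟨y1, y2, y3, y4, y5, y6, y7⟩ := hy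
    have h := hgen b x y (fun e => x1 (hinj b e).symm)
      (fun e => x2 (hinj b (by rw [hu, ← e]; abel)))
      (fun e => y1 (hinj b e).symm) (fun e => y2 (hinj b (by rw [hu, ← e]; abel)))
      (fun e => y4 (hinj b e).symm) (fun e => y5 (hinj b (by rw [hw, ← e]; abel)))
    have hxy := G x y (fun e => x3 (by rw [← e]; abel)) (fun e => y3 (by rw [← e]; abel))
      (fun e => y4 e.symm) (fun e => y6 (by rw [← e]; abel))
    rw [hxy, hF x x4, hF y y7] at h
    have : t b b = b + x - a + (b + y - a) - (x + y - a) := by rw [← h]; abel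
    rw [this]; abel
  have one : ∀ b p, (∀ x, x ≠ p → t b x = b + x - a) → ∀ x, t b x = b + x - a := by
    intro b p hp x
    by_cases hx : x = p
    · obtain ⟨y, hy⟩ := hsurj b (b + x - a)
      by_cases hyp : y = p
      · rw [hx, ← hyp, hy, hx, hyp]
      · rw [hp y hyp] at hy
        have : y = x := by simpa using hy
        exact absurd (this.trans hx) hyp
    · exact hp x hx
  have two : ∀ b, b ≠ π - a → ∀ x, x ≠ π - a → x ≠ π - b → t b x = b + x - a := by
    intro b hb x h1 h2
    have G' : ∀ x, x ≠ π - a → x ≠ π - b → x ≠ b → t b x = b + x - a := fun x h1 h2 h3 =>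
      G b x (fun e => hb (by rw [← e]; abel)) (fun e => h1 (by rw [← e]; abel)) h3.symm
        (fun e => h2 (by rw [← e]; abel))
    by_cases hx : x = b
    · rw [hx]
      refine D b {π - a, π - b, b} fun y hy => ?_
      simp only [Finset.mem_insert, Finset.mem_singleton, not_or] at hy
      exact G' y hy.1 hy.2.1 hy.2.2
    · exact G' x h1 h2 hx
  have sw : ∀ b, b ≠ π - a → t (π - a) b = π - a + b - a ∨ t (π - a) b = π - a := by
    intro b hb
    by_cases h1 : t b (π - a) - b + a = π - a
    · left; rw [hs]
      have : t b (π - a) = π - a - a + b := by rw [← h1, h1]; rw [← sub_eq_iff_eq_add, ← h1, h1, eq_sub_iff_add_eq]; exact h1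
      rw [this]; abel
    by_cases h2 : t b (π - a) - b + a = π - b
    · right; rw [hs]
      have : t b (π - a) = (t b (π - a) - b + a) + b - a := by abel
      rw [this, h2]; abel
    · have := two b hb _ h1 h2
      have e : t b (t b (π - a) - b + a) = t b (π - a) := by rw [this]; abel
      exact absurd (hinj b e) h1
  obtain ⟨b₀, hb₀⟩ := hsurj (π - a) (π - a)
  have c1 : ∀ x, x ≠ π - a → x ≠ b₀ → t (π - a) x = π - a + x - a := fun x h1 h2 =>
    (sw x h1).resolve_right fun e => h2 (hinj _ (e.trans hb₀.symm))
  have c2 : ∀ x, t (π - a) x = π - a + x - a := by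
    refine one _ b₀ fun x hx => ?_
    by_cases h : x = π - a
    · rw [h]
      refine D _ {π - a, b₀} fun y hy => ?_
      simp only [Finset.mem_insert, Finset.mem_singleton, not_or] at hy
      exact c1 y hy.1 hy.2
    · exact c1 x h hx
  by_cases hb : b = π - a
  · rw [hb]; exact c2 q
  refine one b (π - b) (fun x hx => ?_) q
  by_cases h : x = π - a
  · rw [h, hs, c2]; abel
  · exact two b hb x h hx

/-- Fix `A`, put `a = s A A`, and call `(B, Q)` correct if `s B Q = s A B + s A Q - a`.
(1) `(B, B)` is correct as soon as `(B, X)` is correct for all `X` with `s A X` outside a finite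
set (use `hgen B X Y` with generic `X, Y`).  (2) If `s A B ≠ a, π - a` then `(B, X)` is correct
unless `s A X = π - a` or `π - s A B`, and `s B` is a bijection on classes, so either both are
correct or they are swapped.  (3) For `B₀` with `s A B₀ = π - a` the swap happens for at most one
class (injectivity of `s B₀`); (1) and bijectivity finish `B₀`, then all `B`. -/
theorem grp {C E : Type*} [AddCommGroup E] [Infinite E] (s : C → C → E) (π : E)
    (hs : ∀ A B, s A B = s B A) (hsurj : ∀ A, Function.Surjective (s A))
    (hinj : ∀ A B B', s A B = s A B' → ∀ X, s X B = s X B')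
    (hgen : ∀ A B Q, s A A ≠ s A B → s A A + s A B ≠ π → s A A ≠ s A Q → s A A + s A Q ≠ π →
      s A B ≠ s A Q → s A B + s A Q ≠ π → s A A + s B Q = s A B + s A Q) (A B Q : C) :
    s A A + s B Q = s A B + s A Q := by
  choose σ hσ using hsurj A
  have h1 : ∀ X Y, s X (σ (s A Y)) = s X Y := fun X Y => hinj A _ _ (hσ _) X
  have h2 : ∀ X Y, s (σ (s A X)) Y = s X Y := fun X Y => by rw [hs, h1, hs]
  have := grp_core (fun x y => s (σ x) (σ y)) π (s A A) (fun x y => hs _ _)
    (fun x e => by
      obtain ⟨Y, hY⟩ := hsurj (σ x) e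
      exact ⟨s A Y, (h1 _ _).trans hY⟩)
    (fun x y y' e => by rw [← hσ y, ← hσ y']; exact hinj _ _ _ e A)
    (fun q => (h2 _ _).trans (hσ q)) (fun x y z => hgen _ _ _) (s A B) (s A Q)
  simp only [h1, h2] at this
  rw [this]; abel

end SelAvg.Q4
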