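import Pool.Agent.H94Q.Sig
import Pool.Agent.H94Q.Grp

/-! Row ADD: the chord map is additive. -/

namespace SelAvg.Q4

open WeierstrassCurve Matrix
open scoped Classical

variable {L L' : Type*} [Field L] [Field L']

/-- four points on the curve `y = s x z` -/
lemma ADD_par_std {f : Model L} (hΔ : f.jac.Δ ≠ 0) (ha : f.a = 0) (he : f.e = 0) {s x x' : L}
    (hx : x ≠ 0) (hs : f.l * s - f.b ≠ 0) (hQ : f.On ⟨x, 1, s * x⟩)
    (hx' : (f.l * s - f.b) * x * x' = f.n * s - f.d) :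
    D f.jac ⟨f, 1⟩ Pt.std (f.inv ⟨0, 1, 0⟩) + D f.jac ⟨f, 1⟩ Pt.std (f.inv ⟨x, 1, s * x⟩) =
      D f.jac ⟨f, 1⟩ Pt.std ⟨x', 1, s * x' * 1⟩ := by
  have h2 : f.On ⟨0, 1, 0⟩ := ⟨Or.inr one_ne_zero, by simp [Model.F, Model.q, Model.g, he]⟩
  have hF := hQ.eq
  simp only [Model.F, Model.q, Model.g, ha, he] at hF
  have hN : (f.l * s - f.b) * x ^ 2 + (s ^ 2 + f.m * s - f.c) * x + (f.n * s - f.d) = 0 :=
    mul_left_cancel₀ hx (by linear_combination hF)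
  have hS : (f.l * s - f.b) * (x + x') + (s ^ 2 + f.m * s - f.c) = 0 :=
    mul_left_cancel₀ hx (by linear_combination hN + hx')
  have hQ' : f.On ⟨x', 1, s * x'⟩ := ⟨Or.inr one_ne_zero, by
    simp only [Model.F, Model.q, Model.g, ha, he]
    linear_combination x' ^ 2 * hS - x' * hx'⟩
  rw [mul_one, add_comm]
  have r1 := toRaw_D_std hΔ (add0_over f) ha hQ.inv
  have r2 := toRaw_D_std hΔ (add0_over f) ha h2.inv
  have r3 := toRaw_D_std hΔ (add0_over f) ha hQ'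
  rw [vcRaw_one] at r1 r2 r3
  change _ = f.stdDiff ⟨x, 1, -(s * x) - f.q x 1⟩ at r1
  change _ = f.stdDiff ⟨0, 1, -0 - f.q 0 1⟩ at r2
  change _ = f.stdDiff ⟨x', 1, s * x'⟩ at r3
  rw [add0_stdDiff] at r1 r2 r3
  refine add0_add_raw (s := -(s + f.m) - f.l * x') r1 r2 r3 ?_ ?_ ?_ ?_
  · intro h
    apply mul_ne_zero hs hx
    simp only [Model.NX, Model.q] at h
    linear_combination -h
  · simp only [Model.NX, Model.NY, Model.q]
    linear_combination (-f.l) * hN - f.l * hx'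
  · simp only [Model.NX, Model.jac, Model.q]
    linear_combination hS
  · simp only [Model.NX, Model.NY, Model.jac, Model.q]
    linear_combination f.l * x' * hS + f.l * hN

/-- the curve `y = s x z` is tangent at the standard point -/
lemma ADD_par_std0 {f : Model L} (hΔ : f.jac.Δ ≠ 0) (ha : f.a = 0) (he : f.e = 0) {s x : L}
    (hx : x ≠ 0) (hs : f.l * s - f.b = 0) (hQ : f.On ⟨x, 1, s * x⟩) :
    D f.jac ⟨f, 1⟩ Pt.std (f.inv ⟨0, 1, 0⟩) + D f.jac ⟨f, 1⟩ Pt.std (f.inv ⟨x, 1, s * x⟩) = 0 := by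
  have h2 : f.On ⟨0, 1, 0⟩ := ⟨Or.inr one_ne_zero, by simp [Model.F, Model.q, Model.g, he]⟩
  have hF := hQ.eq
  simp only [Model.F, Model.q, Model.g, ha, he] at hF
  have hN : (f.l * s - f.b) * x ^ 2 + (s ^ 2 + f.m * s - f.c) * x + (f.n * s - f.d) = 0 :=
    mul_left_cancel₀ hx (by linear_combination hF)
  have r1 := toRaw_D_std hΔ (add0_over f) ha hQ.inv
  have r2 := toRaw_D_std hΔ (add0_over f) ha h2.inv
  rw [vcRaw_one] at r1 r2
  change _ = f.stdDiff ⟨x, 1, -(s * x) - f.q x 1⟩ at r1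
  change _ = f.stdDiff ⟨0, 1, -0 - f.q 0 1⟩ at r2
  rw [add0_stdDiff] at r1 r2
  have hb : f.b = f.l * s := by linear_combination -hs
  refine add0_add_zero r2 r1 ?_ ?_
  · simp only [Model.NX, Model.q]
    linear_combination x * hs
  · simp only [Model.NX, Model.NY, Model.jac, Model.q]
    rw [hb] at hN ⊢
    linear_combination (-f.l) * hN

def ADD_e3 : P4 L := ![0, 0, 0, 1]

/-- the point of `up m` over `(x, 1, y)` -/
def ADD_upt (m : Model L) (x y : L) : P4 L := ![x * (m.b * x - m.l * y), y, x, 1]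

lemma ADD_on_e3 {m : Model L} (he : m.e = 0) : On (up m) ADD_e3 :=
  ⟨fun h => by simpa [ADD_e3] using congrFun h 3, fun i => by
    fin_cases i <;> simp [qv, up, ADD_e3, he]⟩

lemma ADD_chord_e3 {m : Model L} (he : m.e = 0) {x s u w : L} (hx : x ≠ 0) (hp : u ≠ 0 ∨ w ≠ 0)
    (h1 : (m.l * s - m.b) * x * u = w * (m.n * s - m.d))
    (h2 : (m.l * s - m.b) * (w * x + u) + w * (s ^ 2 + m.m * s - m.c) = 0) :
    Chord (up m) ADD_e3 (ADD_upt m x (s * x)) ⟨u, w, s * u * w⟩ := by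
  refine ⟨hp, _, ⟨fun a b h => ?_, Or.inl rfl⟩,
    ![0, -w, u, w * s + m.l * u + m.m * w, m.n * w, -(m.d * w)], ?_, ?_, ?_⟩
  · have h2 := congrFun h 2
    have h3 := congrFun h 3
    simp [ADD_e3, ADD_upt, hx] at h2 h3
    exact ⟨by rw [h2] at h3; simpa using h3, h2⟩
  · funext i
    fin_cases i <;> simp [ut, alt, pen, up, ADD_e3, he, Matrix.mulVec, dotProduct, Fin.sum_univ_four] <;>
      ring
  · funext i
    fin_cases i <;> simp [ut, alt, pen, up, ADD_upt, he, Matrix.mulVec, dotProduct, Fin.sum_univ_four]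
    · ring
    · linear_combination (-x) * h2
    · linear_combination x * h1
  · simp [pf2, off, pen, up]
    ring

/-- the three chord points lie over three different points of the line -/
def ADD_Gen (f : M4 L) (A B Q : P4 L) : Prop :=
  (sig f A A).delta (sig f A B) ≠ 0 ∧ (sig f A A).delta (sig f A Q) ≠ 0 ∧
    (sig f A B).delta (sig f A Q) ≠ 0

/-- the parallelogram identity -/
def ADD_Par (W : WeierstrassCurve L) (z : Obj4 L) (A B Q : P4 L) : Prop :=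
  D W z.two (sig z.f A A) (sig z.f B Q) = D4 W z A B + D4 W z A Q

variable {W : WeierstrassCurve L} {z : Obj4 L}

lemma ADD_delta_eqv {T₁ T₂ U₁ U₂ : Pt L} (e₁ : T₁.Eqv U₁) (e₂ : T₂.Eqv U₂) (h : T₁.delta T₂ ≠ 0) :
    U₁.delta U₂ ≠ 0 := by
  obtain ⟨t, ht, rfl⟩ := e₁
  obtain ⟨s, hs, rfl⟩ := e₂
  intro h0
  apply mul_ne_zero (mul_ne_zero ht hs) h
  simp only [Pt.delta, Pt.sc_x, Pt.sc_z] at h0 ⊢
  linear_combination h0

lemma ADD_sig_tr {f : M4 L} (hΔ : (red f).jac.Δ ≠ 0) (g : G4 L) {A B A' B' : P4 L} (hA : On f A')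
    (hB : On f B') (eA : Eqv (pt g A) A') (eB : Eqv (pt g B) B') :
    (sig f A' B').Eqv ((hh g f).pt (sig (g • f) A B)) :=
  (sig_eqv hΔ hA hB eA.symm eB.symm).trans
    (sig_pt hΔ g ((on_pt g f A).1 (hA.eqv eA.symm)) ((on_pt g f B).1 (hB.eqv eB.symm)))

lemma ADD_Dsig_tr (hW : W.Δ ≠ 0) (hz : z.Over W) (g : G4 L) {A B C E A' B' C' E' : P4 L}
    (hA : On z.f A') (hB : On z.f B') (hC : On z.f C') (hE : On z.f E') (eA : Eqv (pt g A) A')
    (eB : Eqv (pt g B) B') (eC : Eqv (pt g C) C') (eE : Eqv (pt g E) E') :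
    D W (g • z).two (sig (g • z).f A B) (sig (g • z).f C E) =
      D W z.two (sig z.f A' B') (sig z.f C' E') := by
  have hΔ := hz.jac_Delta hW
  have hΔ' := (hz.smul g).jac_Delta hW
  have h1 : (g • z).two.f.On (sig (g • z).f A B) :=
    sig_on hΔ' ((on_pt g _ A).1 (hA.eqv eA.symm)) ((on_pt g _ B).1 (hB.eqv eB.symm))
  have h2 : (g • z).two.f.On (sig (g • z).f C E) :=
    sig_on hΔ' ((on_pt g _ C).1 (hC.eqv eC.symm)) ((on_pt g _ E).1 (hE.eqv eE.symm))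
  rw [Obj4.two_smul] at h1 h2 ⊢
  rw [D_smul hW hz _ h1 h2]
  exact (D_eqv hW hz (sig_on hΔ hA hB) (sig_on hΔ hC hE) (ADD_sig_tr hΔ g hA hB eA eB)
    (ADD_sig_tr hΔ g hC hE eC eE)).symm

lemma ADD_par_tr (hW : W.Δ ≠ 0) (hz : z.Over W) (g : G4 L) {A B Q A' B' Q' : P4 L}
    (hA : On z.f A') (hB : On z.f B') (hQ : On z.f Q') (eA : Eqv (pt g A) A')
    (eB : Eqv (pt g B) B') (eQ : Eqv (pt g Q) Q') (h : ADD_Par W (g • z) A B Q) :
    ADD_Par W z A' B' Q' := by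
  unfold ADD_Par D4 at h ⊢
  rwa [ADD_Dsig_tr hW hz g hA hA hB hQ eA eA eB eQ, ADD_Dsig_tr hW hz g hA hA hA hB eA eA eA eB,
    ADD_Dsig_tr hW hz g hA hA hA hQ eA eA eA eQ] at h

lemma ADD_gen_tr {f : M4 L} (hΔ : (red f).jac.Δ ≠ 0) (g : G4 L) {A B Q A' B' Q' : P4 L}
    (hA : On f A') (hB : On f B') (hQ : On f Q') (eA : Eqv (pt g A) A')
    (eB : Eqv (pt g B) B') (eQ : Eqv (pt g Q) Q') (h : ADD_Gen f A' B' Q') : ADD_Gen (g • f) A B Q := by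
  have key : ∀ {T₁ T₂ U₁ U₂ : Pt L}, T₁.Eqv ((hh g f).pt U₁) → T₂.Eqv ((hh g f).pt U₂) →
      T₁.delta T₂ ≠ 0 → U₁.delta U₂ ≠ 0 := fun e₁ e₂ h => by
    have := ADD_delta_eqv e₁ e₂ h
    rw [Pt.delta_pt] at this
    exact right_ne_zero_of_mul this
  exact ⟨key (ADD_sig_tr hΔ g hA hA eA eA) (ADD_sig_tr hΔ g hA hB eA eB) h.1,
    key (ADD_sig_tr hΔ g hA hA eA eA) (ADD_sig_tr hΔ g hA hQ eA eQ) h.2.1,
    key (ADD_sig_tr hΔ g hA hB eA eB) (ADD_sig_tr hΔ g hA hQ eA eQ) h.2.2⟩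

/-- a point of the normal form whose chord point does not lie over the standard point -/
lemma ADD_exists_upt {m : Model L} (ha : m.a = 0) (hΔ : (red (up m)).jac.Δ ≠ 0) {Q : P4 L}
    (hQ : On (up m) Q) (h : (sig (up m) e0 e0).delta (sig (up m) e0 Q) ≠ 0) :
    ∃ x y, Eqv (ADD_upt m x y) Q ∧ m.On ⟨x, 1, y⟩ ∧ (sig (up m) e0 Q).Eqv (m.inv ⟨x, 1, y⟩) := by
  have h0 : (sig (up m) e0 e0).Eqv Pt.std := (chord_up_std m).sig_eqv hΔ (on_up m) (on_up m)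
  have hne : ¬Eqv e0 Q := fun e => h (add_delta_of_eqv
    (sig_eqv hΔ (on_up m) hQ (Eqv.refl _) e.symm))
  have h3 : Q 3 ≠ 0 := by
    have := ADD_delta_eqv h0 ((chord_up hQ hne).sig_eqv hΔ (on_up m) hQ) h
    simpa [Pt.delta, sigU] using this
  have e : Eqv (ADD_upt m (Q 2 / Q 3) (Q 1 / Q 3)) Q := by
    refine ⟨Q 3, h3, funext fun i => ?_⟩
    have hq := hQ.eq 0
    simp [qv, up] at hq
    fin_cases i <;> simp [ADD_upt] <;> field_simp
    linear_combination -hq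
  have hQ' := hQ.eqv e.symm
  have hne' : ¬Eqv e0 (ADD_upt m (Q 2 / Q 3) (Q 1 / Q 3)) := fun e' => hne (e'.trans e)
  have hc := chord_up hQ' hne'
  have e2 : sigU m (ADD_upt m (Q 2 / Q 3) (Q 1 / Q 3)) = m.inv ⟨Q 2 / Q 3, 1, Q 1 / Q 3⟩ := by
    simp [sigU, ADD_upt, Model.inv]
  rw [e2] at hc
  refine ⟨_, _, e, ?_, (sig_eqv hΔ (on_up m) hQ (Eqv.refl _) e.symm).trans
    (hc.sig_eqv hΔ (on_up m) hQ')⟩
  have := hc.on
  rw [red_up ha] at this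
  simpa [Model.inv_inv] using this.inv

lemma ADD_par_e3 (hW : W.Δ ≠ 0) (hz : z.Over W) {m : Model L} (hf : z.f = up m) (ha : m.a = 0)
    (he : m.e = 0) {Q : P4 L} (hQ : On z.f Q) (h : ADD_Gen z.f e0 ADD_e3 Q) : ADD_Par W z e0 ADD_e3 Q := by
  have hΔ := hz.jac_Delta hW
  obtain ⟨f, γ⟩ := z
  obtain rfl : f = up m := hf
  have hΔ' : m.jac.Δ ≠ 0 := by rwa [red_up ha] at hΔ
  have h0 : (sig (up m) e0 e0).Eqv Pt.std := (chord_up_std m).sig_eqv hΔ (on_up m) (on_up m)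
  have hne : ¬Eqv (e0 : P4 L) ADD_e3 := fun e => by
    simpa [ADD_e3] using ((eqv_e0_iff (ADD_on_e3 he)).1 e).2
  have h3 : (sig (up m) e0 ADD_e3).Eqv (m.inv ⟨0, 1, 0⟩) := by
    have := (chord_up (ADD_on_e3 he) hne).sig_eqv hΔ (on_up m) (ADD_on_e3 he)
    simpa [sigU, ADD_e3, Model.inv] using this
  obtain ⟨x, y, e, hP, hs⟩ := ADD_exists_upt ha hΔ hQ h.2.1
  have hx : x ≠ 0 := by simpa [Pt.delta, Model.inv] using ADD_delta_eqv h3 hs h.2.2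
  obtain ⟨s, rfl⟩ : ∃ s, y = s * x := ⟨y / x, by field_simp⟩
  have hF := hP.eq
  simp only [Model.F, Model.q, Model.g, ha, he] at hF
  have hN : (m.l * s - m.b) * x ^ 2 + (s ^ 2 + m.m * s - m.c) * x + (m.n * s - m.d) = 0 :=
    mul_left_cancel₀ hx (by linear_combination hF)
  have hz' : (⟨m, γ⟩ : Obj L).Over W := by
    have := hz
    rwa [Obj4.Over, Obj4.two, red_up ha] at this
  have on1 : ∀ {A B : P4 L}, On (up m) A → On (up m) B → m.On (sig (up m) A B) := fun hA hB => by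
    have := sig_on hΔ hA hB
    rwa [red_up ha] at this
  have key : ∀ {A B : P4 L} {T : Pt L}, On (up m) A → On (up m) B → (sig (up m) A B).Eqv T →
      D W ⟨m, γ⟩ (sig (up m) e0 e0) (sig (up m) A B) =
        vcPt γ hz' (D m.jac ⟨m, 1⟩ Pt.std T) := fun hA hB eT => by
    rw [D_eqv hW hz' (on1 (on_up m) (on_up m)) (on1 hA hB) h0 eT]
    exact D_eq_vcPt hW hz' (Model.on_std.2 ha) ((on1 hA hB).eqv eT)
  unfold ADD_Par D4
  simp only [Obj4.two, red_up ha]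
  rw [key (on_up m) (ADD_on_e3 he) h3, key (on_up m) hQ hs, ← map_add]
  have key2 : ∀ {T : Pt L}, Chord (up m) ADD_e3 (ADD_upt m x (s * x)) T → (sig (up m) ADD_e3 Q).Eqv T :=
    fun hc => (hc.eqv (Eqv.refl _) e).sig_eqv hΔ (ADD_on_e3 he) hQ
  by_cases hs0 : m.l * s - m.b = 0
  · rw [key (ADD_on_e3 he) hQ (key2 (ADD_chord_e3 (u := 1) (w := 0) he hx (Or.inl one_ne_zero)
      (by rw [hs0]; ring) (by rw [hs0]; ring))), ADD_par_std0 hΔ' ha he hx hs0 hP, mul_zero]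
    exact congrArg _ (D_self hΔ' (add0_over m) (Model.on_std.2 ha))
  · have hx' : (m.l * s - m.b) * x * ((m.n * s - m.d) / ((m.l * s - m.b) * x)) = m.n * s - m.d :=
      mul_div_cancel₀ _ (mul_ne_zero hs0 hx)
    rw [key (ADD_on_e3 he) hQ (key2 (ADD_chord_e3 (w := 1) he hx (Or.inr one_ne_zero)
      (by rw [hx', one_mul]) (mul_left_cancel₀ hx (by linear_combination hN + hx')))),
      ADD_par_std hΔ' ha he hx hs0 hP hx']

lemma ADD_par_up (hW : W.Δ ≠ 0) (hz : z.Over W) {m : Model L} (hf : z.f = up m) (ha : m.a = 0)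
    {B Q : P4 L} (hB : On z.f B) (hQ : On z.f Q) (h : ADD_Gen z.f e0 B Q) : ADD_Par W z e0 B Q := by
  have hΔ := hz.jac_Delta hW
  have h0 : On z.f e0 := hf ▸ on_up m
  obtain ⟨x, y, -, hP, hs⟩ := ADD_exists_upt ha (hf ▸ hΔ) (hf ▸ hB) (hf ▸ h.1)
  obtain ⟨g, s, ν, hg, hg0, hk⟩ :=
    exists_lift4 ha (k := normal0_g x 1 one_ne_zero 1 0 y) rfl rfl
  have hkp : (normal0_g x 1 one_ne_zero 1 0 y).pt ⟨0, 1, 0⟩ = ⟨x, 1, y⟩ := by
    ext <;> simp [G.pt, normal0_m21, normal0_m22, normal0_r2]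
  have hkp0 := normal0_pt x 1 one_ne_zero 1 0 y
  generalize normal0_g x 1 one_ne_zero 1 0 y = k at hg hk hkp hkp0
  have ha' : (k • m).a = 0 :=
    Model.on_std.1 ((Model.on_pt k m _).1 (hkp0.symm ▸ Model.on_std.2 ha))
  have he' : (k • m).e = 0 := by
    have := ((Model.on_pt k m _).1 (hkp.symm ▸ hP)).eq
    simpa [Model.F, Model.q, Model.g] using this
  have e0' : Eqv (pt g e0) e0 := Eqv.symm ⟨s, s.ne_zero, hg0⟩
  have hgf : g • z.f = up (k • m) := by rw [hf, hg]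
  have h3 : On z.f (pt g ADD_e3) := (on_pt g _ _).2 (hgf ▸ ADD_on_e3 he')
  have hΔ' : (red (up (k • m))).jac.Δ ≠ 0 := hgf ▸ (Delta_smul4 g _).2 hΔ
  have hne : ¬Eqv (e0 : P4 L) ADD_e3 := fun e => by
    simpa [ADD_e3] using ((eqv_e0_iff (ADD_on_e3 he')).1 e).2
  have s3 : (sig (up (k • m)) e0 ADD_e3).Eqv ((k • m).inv ⟨0, 1, 0⟩) := by
    have := (chord_up (ADD_on_e3 he') hne).sig_eqv hΔ' (on_up _) (ADD_on_e3 he')
    simpa [sigU, ADD_e3, Model.inv] using this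
  have e3' : Eqv (pt g ADD_e3) B := by
    refine sig_inj hΔ h0 h3 hB ((ADD_sig_tr hΔ g h0 h3 e0' (Eqv.refl _)).trans ?_)
    rw [hgf]
    refine (s3.pt _).trans ?_
    rw [hf, hk, G.mul_pt, G.scalar_pt, G.pt_sc, ← G.inv_pt, hkp]
    exact Pt.Eqv.trans (Pt.Eqv.symm ⟨ν, ν.ne_zero, rfl⟩) hs.symm
  have eQ : Eqv (pt g (pt g⁻¹ Q)) Q := by rw [pt_inv_pt]; exact Eqv.refl _
  exact ADD_par_tr hW hz g h0 hB hQ e0' e3' eQ (ADD_par_e3 hW (hz.smul g) hgf ha' he'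
    ((on_pt g _ _).1 (hQ.eqv eQ.symm)) (ADD_gen_tr hΔ g h0 hB hQ e0' e3' eQ h))

theorem ADD_par_gen (hW : W.Δ ≠ 0) (hz : z.Over W) {A B Q : P4 L} (hA : On z.f A) (hB : On z.f B)
    (hQ : On z.f Q) (h : ADD_Gen z.f A B Q) : ADD_Par W z A B Q := by
  have hΔ := hz.jac_Delta hW
  obtain ⟨g, m, ha, -, hg, hgA⟩ := good_of_Delta hΔ hA
  have eA : Eqv (pt g e0) A := hgA ▸ Eqv.refl _
  have eB : Eqv (pt g (pt g⁻¹ B)) B := by rw [pt_inv_pt]; exact Eqv.refl _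
  have eQ : Eqv (pt g (pt g⁻¹ Q)) Q := by rw [pt_inv_pt]; exact Eqv.refl _
  exact ADD_par_tr hW hz g hA hB hQ eA eB eQ (ADD_par_up hW (hz.smul g) hg ha
    ((on_pt g _ _).1 (hB.eqv eB.symm)) ((on_pt g _ _).1 (hQ.eqv eQ.symm))
    (ADD_gen_tr hΔ g hA hB hQ eA eB eQ h))

lemma ADD_add_infinite [IsAlgClosed L] (hW : W.Δ ≠ 0) : Infinite W.toAffine.Point := by
  have h : ∀ x : L, ∃ P : W.toAffine.Point, ∃ y, toRaw P = some (x, y) := by
    intro x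
    obtain ⟨y, hy⟩ := IsAlgClosed.exists_root
      (Polynomial.C 1 * Polynomial.X ^ 2 + Polynomial.C (W.a₁ * x + W.a₃) * Polynomial.X
        + Polynomial.C (-(x ^ 3 + W.a₂ * x ^ 2 + W.a₄ * x + W.a₆)) : Polynomial L)
      (by rw [Polynomial.degree_quadratic one_ne_zero]; norm_num)
    have he : W.toAffine.Equation x y := by
      have := hy.eq_zero
      simp only [Polynomial.eval_add, Polynomial.eval_mul, Polynomial.eval_C, Polynomial.eval_pow,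
        Polynomial.eval_X] at this
      rw [Affine.equation_iff]
      linear_combination this
    exact ⟨ofRaw W (some (x, y)), y, toRaw_ofRaw hW he⟩
  choose P y hP using h
  refine Infinite.of_injective P fun x x' e => ?_
  have := (hP x).symm.trans ((congrArg toRaw e).trans (hP x'))
  simp only [Option.some.injEq, Prod.mk.injEq] at this
  exact this.1

lemma ADD_D_add_inv' {z : Obj L} (hW : W.Δ ≠ 0) (hz : z.Over W) {T₀ T : Pt L} (h₀ : z.f.On T₀)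
    (h : z.f.On T) : D W z T₀ T + D W z T₀ (z.f.inv T) = piP W z T₀ := by
  rw [← D_add hW hz h₀ h₀.inv h.inv, D_inv hW hz h₀ h, piP]
  abel

lemma ADD_delta_ne_of_D {z : Obj L} (hW : W.Δ ≠ 0) (hz : z.Over W) {T₀ T T' : Pt L} (h₀ : z.f.On T₀)
    (h : z.f.On T) (h' : z.f.On T') (h1 : D W z T₀ T ≠ D W z T₀ T')
    (h2 : D W z T₀ T + D W z T₀ T' ≠ piP W z T₀) : T.delta T' ≠ 0 := fun hd => by
  rcases Model.eqv_or_eqv_inv h h' hd with e | e
  · exact h1 (D_eqv hW hz h₀ h (Pt.Eqv.refl _) e)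
  · exact h2 (by rw [← D_eqv hW hz h₀ h.inv (Pt.Eqv.refl _) e, ADD_D_add_inv' hW hz h₀ h])

lemma ADD_par_closed [IsAlgClosed L] (hW : W.Δ ≠ 0) (hz : z.Over W) {A B Q : P4 L} (hA : On z.f A)
    (hB : On z.f B) (hQ : On z.f Q) : ADD_Par W z A B Q := by
  have hΔ := hz.jac_Delta hW
  have := ADD_add_infinite hW
  have h₀ : z.two.f.On (sig z.f A A) := sig_on hΔ hA hA
  have on : ∀ X Y : {X // On z.f X}, z.two.f.On (sig z.f X.1 Y.1) := fun X Y => sig_on hΔ X.2 Y.2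
  have key := grp (fun X Y : {X // On z.f X} => D W z.two (sig z.f A A) (sig z.f X.1 Y.1))
    (piP W z.two (sig z.f A A))
    (fun X Y => D_eqv hW hz h₀ (on X Y) (Pt.Eqv.refl _) (sig_symm hΔ X.2 Y.2))
    (fun X P => by
      obtain ⟨T, hT, rfl⟩ := D_surjective hW hz h₀ P
      obtain ⟨Y, hY, e⟩ := sig_surj hΔ X.2 hT
      exact ⟨⟨Y, hY⟩, D_eqv hW hz h₀ (on X ⟨Y, hY⟩) (Pt.Eqv.refl _) e⟩)
    (fun X Y Y' e Z => D_eqv hW hz h₀ (on Z Y) (Pt.Eqv.refl _) (sig_eqv hΔ Z.2 Y.2 (Eqv.refl _)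
      (sig_inj hΔ X.2 Y.2 Y'.2 (D_injective hW hz h₀ (on X Y) (on X Y') e))))
    (fun X Y Z h1 h2 h3 h4 h5 h6 => by
      have hp := ADD_par_gen hW hz X.2 Y.2 Z.2 ⟨ADD_delta_ne_of_D hW hz h₀ (on X X) (on X Y) h1 h2,
        ADD_delta_ne_of_D hW hz h₀ (on X X) (on X Z) h3 h4,
        ADD_delta_ne_of_D hW hz h₀ (on X Y) (on X Z) h5 h6⟩
      unfold ADD_Par D4 at hp
      rw [← D_add hW hz h₀ (on X X) (on Y Z), ← D_add hW hz h₀ (on X X) (on X Y),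
        ← D_add hW hz h₀ (on X X) (on X Z), hp]
      abel)
    ⟨A, hA⟩ ⟨B, hB⟩ ⟨Q, hQ⟩
  rwa [D_self hW hz h₀, zero_add] at key

lemma ADD_Dsig_map (φ : L →+* L') (hW : W.Δ ≠ 0) (hz : z.Over W) {A B C E : P4 L} (hA : On z.f A)
    (hB : On z.f B) (hC : On z.f C) (hE : On z.f E) :
    pmap φ (rfl : W.map φ = W.map φ) (D W z.two (sig z.f A B) (sig z.f C E)) =
      D (W.map φ) (z.map φ).two (sig (z.map φ).f (φ ∘ A) (φ ∘ B))
        (sig (z.map φ).f (φ ∘ C) (φ ∘ E)) := by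
  have hΔ := hz.jac_Delta hW
  have hW' : (W.map φ).Δ ≠ 0 := by rw [map_Δ]; exact (map_ne_zero φ).2 hW
  have hΔ' := (hz.map φ).jac_Delta hW'
  rw [add_pmap_D φ hW hz (sig_on hΔ hA hB) (sig_on hΔ hC hE), ← Obj4.two_map]
  exact (D_eqv hW' (hz.map φ) (sig_on hΔ' ((on_map φ _ _).2 hA) ((on_map φ _ _).2 hB))
    (sig_on hΔ' ((on_map φ _ _).2 hC) ((on_map φ _ _).2 hE)) (sig_map hΔ φ hA hB)
    (sig_map hΔ φ hC hE)).symm

theorem sig_add (hW : W.Δ ≠ 0) (hz : z.Over W) {Q Q₁ Q₂ : P4 L} (hQ : On z.f Q) (h₁ : On z.f Q₁)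
    (h₂ : On z.f Q₂) :
    D W z.two (sig z.f Q Q) (sig z.f Q₁ Q₂) = D4 W z Q Q₁ + D4 W z Q Q₂ := by
  let φ : L →+* AlgebraicClosure L := algebraMap L (AlgebraicClosure L)
  have hW' : (W.map φ).Δ ≠ 0 := by rw [map_Δ]; exact (map_ne_zero φ).2 hW
  apply pmap_injective φ (rfl : W.map φ = W.map φ)
  rw [map_add, D4, D4, ADD_Dsig_map φ hW hz hQ hQ h₁ h₂, ADD_Dsig_map φ hW hz hQ hQ hQ h₁,
    ADD_Dsig_map φ hW hz hQ hQ hQ h₂]
  exact ADD_par_closed hW' (hz.map φ) ((on_map φ _ _).2 hQ) ((on_map φ _ _).2 h₁)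
    ((on_map φ _ _).2 h₂)

end SelAvg.Q4
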