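import Pool.Agent.H5T.DescG

/-! The exact sequence `H^1(E[2]) → H^1(E[4]) → H^1(E[2])` and the Selmer conditions. -/

namespace SelAvg.Q4

open WeierstrassCurve H5T
open scoped Classical

variable {K : Type} [Field K] {W : WeierstrassCurve K}

/-- `(ξ, P) ↦ (2 ξ, P)` -/
noncomputable def dblC (c : Cocycle W 4) : Cocycle W 2 where
  ξ σ := 2 • c.ξ σ
  P := c.P
  locConst := c.locConst.comp fun x => 2 • x
  cocycle σ τ := by rw [c.cocycle, smul_add, map_nsmul]
  bdry σ := by rw [← c.bdry, smul_smul]; rfl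

/-- `(ξ, R) ↦ (ξ, 2 R)` -/
noncomputable def incC (c : Cocycle W 2) : Cocycle W 4 where
  ξ := c.ξ
  P := 2 • c.P
  locConst := c.locConst
  cocycle := c.cocycle
  bdry σ := by rw [map_nsmul, ← smul_sub, ← c.bdry, smul_smul]; rfl

lemma dblC_coh {c c' : Cocycle W 4} (h : Cohomologous c c') : Cohomologous (dblC c) (dblC c') := by
  obtain ⟨R, h1, h2⟩ := h
  refine ⟨2 • R, fun σ => ?_, ?_⟩
  · change 2 • c'.ξ σ = 2 • c.ξ σ + _
    rw [h1, smul_add, smul_sub, map_nsmul]
  · change c'.P = c.P + _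
    rw [h2, smul_smul]
    rfl

lemma incC_coh {c c' : Cocycle W 2} (h : Cohomologous c c') : Cohomologous (incC c) (incC c') := by
  obtain ⟨R, h1, h2⟩ := h
  refine ⟨R, h1, ?_⟩
  change 2 • c'.P = 2 • c.P + _
  rw [h2, smul_add, smul_smul]
  rfl

/-- multiplication by two -/
noncomputable def dblH : H1 W 4 → H1 W 2 :=
  Quot.lift (fun c => Quot.mk _ (dblC c)) fun _ _ h => Quot.sound (dblC_coh h)

/-- the map induced by the inclusion -/
noncomputable def incH : H1 W 2 → H1 W 4 :=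
  Quot.lift (fun c => Quot.mk _ (incC c)) fun _ _ h => Quot.sound (incC_coh h)

lemma dblH_mk (c : Cocycle W 4) : dblH (Quot.mk _ c) = Quot.mk _ (dblC c) := rfl

lemma incH_mk (c : Cocycle W 2) : incH (Quot.mk _ c) = Quot.mk _ (incC c) := rfl

lemma dblH_incH (x : H1 W 2) : dblH (incH x) = trivClass W 2 := by
  obtain ⟨c, rfl⟩ := Quot.exists_rep x
  refine (Quot.sound ⟨c.P, fun σ => ?_, ?_⟩).symm
  · exact (c.bdry σ).trans (zero_add _).symm
  · exact (zero_add _).symm

lemma exists_incC {c : Cocycle W 4} (h : dblH (Quot.mk _ c) = trivClass W 2) :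
    ∃ c' : Cocycle W 2, incC c' = c := by
  obtain ⟨R, h1, h2⟩ := mk_eq_mk_iff.1 h.symm
  have h3 : c.P = 2 • R := h2.trans (zero_add _)
  refine ⟨⟨c.ξ, R, c.locConst, c.cocycle, fun σ => (h1 σ).trans (zero_add _)⟩, ?_⟩
  obtain ⟨ξ, P, a, b, d⟩ := c
  obtain rfl : P = 2 • R := h3
  rfl

/-- the local condition only depends on the torsor -/
lemma isKummer_iff (hW : W.Δ ≠ 0) {n : ℕ} (c : Cocycle W n) (L : Type) [Field L] [Algebra K L] :
    c.IsKummer L ↔ ∀ ι : SeparableClosure K →ₐ[K] SeparableClosure L,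
      ∃ R : Pts W (SeparableClosure L), ∀ (σ : Gal L) (τ : Gal K), (∀ x, σ (ι x) = ι (τ x)) →
        ptMap W ι (c.ξ τ) = galAct W L σ R - R := by
  refine forall_congr' fun ι => ⟨fun ⟨_, R, h, _⟩ => ⟨R, h⟩, fun ⟨R, h⟩ => ?_⟩
  have e : (W.map (algebraMap K L)).map (toSep L) = W.map (algebraMap K (SeparableClosure L)) :=
    cl1_W_map W (IsScalarTower.toAlgHom K L (SeparableClosure L))
  have hfix : ∀ σ : Gal L, galAct W L σ (ptMap W ι c.P - n • R) = ptMap W ι c.P - n • R := by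
    intro σ
    obtain ⟨τ, hτ⟩ := exists_restrict ι σ
    have h5 : ptMap W ι (galAct W K τ c.P) = galAct W L σ (ptMap W ι c.P) := by
      rw [Affine.Point.map_map, Affine.Point.map_map]
      exact congrArg (fun φ => ptMap W φ c.P) (AlgHom.ext fun x => (hτ x).symm)
    have h6 := congrArg (ptMap W ι) (c.bdry τ)
    rw [map_nsmul, h σ τ hτ, map_sub, h5, smul_sub] at h6
    rw [map_sub, map_nsmul, sub_eq_sub_iff_sub_eq_sub, h6]
  obtain ⟨T, hT⟩ : ∃ T : Pts W (SeparableClosure L), T = ptMap W ι c.P - n • R := ⟨_, rfl⟩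
  rw [← hT] at hfix
  have hv : Valid ((W.map (algebraMap K L)).map (toSep L))
      (toRaw (W := W.map (algebraMap K (SeparableClosure L))) T) := by
    rw [e]
    exact valid_toRaw (W := W.map (algebraMap K (SeparableClosure L))) T
  have hW' := Delta_map hW (algebraMap K L)
  obtain ⟨T', h7⟩ : ∃ T' : ((W.map (algebraMap K L)).map (toSep L)).toAffine.Point,
      toRaw T' = toRaw (W := W.map (algebraMap K (SeparableClosure L))) T :=
    ⟨_, toRaw_ofRaw (Delta_map hW' (toSep L)) hv⟩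
  obtain ⟨S, hS⟩ := desc_point hW' (P := T') fun σ => by
    rw [h7]
    exact (toRaw_ptMap W ((σ : SeparableClosure L →ₐ[L] SeparableClosure L).restrictScalars K)
      T).symm.trans (congrArg _ (hfix σ))
  refine ⟨S, R, h, ?_⟩
  rw [← sub_eq_iff_eq_add, ← hT]
  apply toRaw_injective (W := W.map (algebraMap K (SeparableClosure L)))
  rw [toRaw_ptMap, ← h7, ← hS, toRaw_pmap]
  rfl

lemma isKummer_incC (hW : W.Δ ≠ 0) (c : Cocycle W 2) (L : Type) [Field L] [Algebra K L] :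
    (incC c).IsKummer L ↔ c.IsKummer L :=
  (isKummer_iff hW _ L).trans (isKummer_iff hW c L).symm

theorem image_incH (hW : W.Δ ≠ 0) :
    incH '' Sel W 2 = Sel W 4 ∩ {x | dblH x = trivClass W 2} := by
  ext x
  constructor
  · rintro ⟨_, ⟨c, rfl, hc⟩, rfl⟩
    exact ⟨⟨incC c, rfl, fun v => (isKummer_incC hW c _).2 (hc v)⟩, dblH_incH _⟩
  · rintro ⟨⟨c, rfl, hc⟩, h⟩
    obtain ⟨c', rfl⟩ := exists_incC h
    exact ⟨_, ⟨c', rfl, fun v => (isKummer_incC hW c' _).1 (hc v)⟩, rfl⟩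

lemma noTors_two (h : NoTwoTorsion W) : NoTors W 2 := by
  rintro (_ | ⟨x, y, hn⟩) hP
  · rfl
  · exact absurd ((two_smul_eq_zero_iff hn).1 hP) (h x y hn.1)

theorem incH_injective (hW : W.Δ ≠ 0) (h2 : NoTwoTorsion W) :
    Function.Injective (incH (W := W)) := by
  intro x x' h
  obtain ⟨c, rfl⟩ := Quot.exists_rep x
  obtain ⟨c', rfl⟩ := Quot.exists_rep x'
  obtain ⟨R, h1, h3⟩ := mk_eq_mk_iff.1 h
  have h1' : ∀ σ, c'.ξ σ = c.ξ σ + (galAct W K σ R - R) := h1
  have h3' : 2 • c'.P = 2 • c.P + 4 • R := h3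
  refine Quot.sound ⟨R, h1', ?_⟩
  obtain ⟨T, hT⟩ : ∃ T : Pts W (SeparableClosure K), T = c'.P - (c.P + 2 • R) := ⟨_, rfl⟩
  have h4 : 2 • T = 0 := by
    rw [hT, smul_sub, smul_add, smul_smul, h3']
    exact sub_self _
  have h5 : ∀ σ : Gal K, galAct W K σ T = T := fun σ => by
    have e1 := c.bdry σ
    have e2 := c'.bdry σ
    rw [h1', smul_add, e1, smul_sub] at e2
    rw [hT, map_sub, map_add, map_nsmul, sub_eq_sub_iff_sub_eq_sub, ← e2]
    abel
  obtain ⟨S, hS⟩ := desc_point hW (P := T) fun σ =>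
    (toRaw_galAct W σ T).symm.trans (congrArg _ (h5 σ))
  have h6 : S = 0 := noTors_two h2 S (pmap_injective (toSep K) rfl (by
    rw [map_nsmul, hS, map_zero]
    exact h4))
  rw [h6, map_zero] at hS
  exact sub_eq_zero.1 (hT.symm.trans hS.symm)

/-- the elements of the Selmer group not killed by two -/
def Sel4' (W : WeierstrassCurve K) : Set (H1 W 4) := Sel W 4 \ {x | dblH x = trivClass W 2}

theorem encard_Sel_four (hW : W.Δ ≠ 0) :
    (Sel W 4).encard = (incH '' Sel W 2).encard + (Sel4' W).encard := by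
  rw [image_incH hW, Sel4', add_comm, Set.encard_sdiff_add_encard_inter]

theorem finite_Sel_four (hW : W.Δ ≠ 0) (h2 : (Sel W 2).Finite) (h4 : (Sel4' W).Finite) :
    (Sel W 4).Finite ∧ (Sel4' W).ncard ≤ (Sel W 4).ncard ∧
      (Sel W 4).ncard ≤ (Sel W 2).ncard + (Sel4' W).ncard ∧
      (NoTwoTorsion W → (Sel W 4).ncard = (Sel W 2).ncard + (Sel4' W).ncard) := by
  have h1 := encard_Sel_four hW
  have h3 := h2.image (incH (W := W))
  rw [← h3.cast_ncard_eq, ← h4.cast_ncard_eq] at h1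
  have h5 : (Sel W 4).Finite := Set.finite_of_encard_eq_coe
    (k := (incH '' Sel W 2).ncard + (Sel4' W).ncard) (by rw [h1]; norm_cast)
  rw [← h5.cast_ncard_eq] at h1
  have h6 : (Sel W 4).ncard = (incH '' Sel W 2).ncard + (Sel4' W).ncard := by exact_mod_cast h1
  have h7 := Set.ncard_image_le (f := incH (W := W)) h2
  refine ⟨h5, by omega, by omega, fun h => ?_⟩
  rw [h6, Set.ncard_image_of_injective _ (incH_injective hW h)]

end SelAvg.Q4
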