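import Mathlib

/-! The arithmetic of the cusp for pairs of quaternary quadratic forms. -/

namespace SelAvg.FF.Q4

/-- the six coordinates that can have very negative degree; `w` is minus the degree of `a11` -/
lemma cusp4_six {w n m1 m2 m3 b : ℤ} (hb : 0 ≤ b) (hn : -b ≤ n) (h1 : -b ≤ m1) (h2 : -b ≤ m2)
    (h3 : -b ≤ m3) (a14 : w ≤ m1 + m2 + m3 + 3 * b) (a23 : w ≤ 2 * m1 + m2 + 3 * b)
    (b13 : w ≤ n + m1 + m2 + 3 * b) (b22 : w ≤ n + 2 * m1 + 3 * b) :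
    max 0 w + max 0 (w - m1) + max 0 (w - m1 - m2) + max 0 (w - 2 * m1) + max 0 (w - n)
      + max 0 (w - n - m1) ≤ n + 3 * m1 + 4 * m2 + 3 * m3 - max (max n m1) (max m2 m3) + 40 * b := by
  omega

/-- Degrees `s k + t i + t j`, slopes at least `-b`.  If in each of the four patterns some
coordinate has nonnegative degree, the total negative part of the twenty degrees is at most the
mass exponent minus the largest slope, up to a constant. -/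
theorem cusp4_excess (s : Fin 2 → ℤ) (t : Fin 4 → ℤ) {b : ℤ} (hb : 0 ≤ b) (hn : -b ≤ s 1 - s 0)
    (h1 : -b ≤ t 1 - t 0) (h2 : -b ≤ t 2 - t 1) (h3 : -b ≤ t 3 - t 2)
    (p1 : 0 ≤ s 0 + t 0 + t 0 ∨ 0 ≤ s 0 + t 0 + t 1 ∨ 0 ≤ s 0 + t 0 + t 2 ∨ 0 ≤ s 0 + t 0 + t 3)
    (p2 : 0 ≤ s 0 + t 0 + t 0 ∨ 0 ≤ s 0 + t 0 + t 1 ∨ 0 ≤ s 0 + t 0 + t 2 ∨ 0 ≤ s 0 + t 1 + t 1 ∨
      0 ≤ s 0 + t 1 + t 2)
    (p3 : 0 ≤ s 0 + t 0 + t 0 ∨ 0 ≤ s 0 + t 0 + t 1 ∨ 0 ≤ s 0 + t 0 + t 2 ∨ 0 ≤ s 1 + t 0 + t 0 ∨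
      0 ≤ s 1 + t 0 + t 1 ∨ 0 ≤ s 1 + t 0 + t 2)
    (p4 : 0 ≤ s 0 + t 0 + t 0 ∨ 0 ≤ s 0 + t 0 + t 1 ∨ 0 ≤ s 0 + t 1 + t 1 ∨ 0 ≤ s 1 + t 0 + t 0 ∨
      0 ≤ s 1 + t 0 + t 1 ∨ 0 ≤ s 1 + t 1 + t 1) :
    ∑ k : Fin 2, ∑ i : Fin 4, ∑ j : Fin 4, (if i ≤ j then max 0 (-(s k + t i + t j)) else 0) ≤
      (s 1 - s 0) + 3 * (t 1 - t 0) + 4 * (t 2 - t 1) + 3 * (t 3 - t 2)
        - max (max (s 1 - s 0) (t 1 - t 0)) (max (t 2 - t 1) (t 3 - t 2)) + 150 * b := by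
  have a14 : -(3 * b) ≤ s 0 + t 0 + t 3 := by omega
  have a23 : -(3 * b) ≤ s 0 + t 1 + t 2 := by omega
  have b13 : -(3 * b) ≤ s 1 + t 0 + t 2 := by omega
  have b22 : -(3 * b) ≤ s 1 + t 1 + t 1 := by omega
  clear p1 p2 p3 p4
  have h := cusp4_six (w := -(s 0 + t 0 + t 0)) hb hn h1 h2 h3 (by omega) (by omega) (by omega)
    (by omega)
  have e : ∀ x : ℤ, -(7 * b) ≤ x → max 0 (-x) ≤ 7 * b := fun x hx => by omega
  have c1 := e (s 0 + t 0 + t 3) (by omega)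
  have c2 := e (s 0 + t 1 + t 2) (by omega)
  have c3 := e (s 0 + t 1 + t 3) (by omega)
  have c4 := e (s 0 + t 2 + t 2) (by omega)
  have c5 := e (s 0 + t 2 + t 3) (by omega)
  have c6 := e (s 0 + t 3 + t 3) (by omega)
  have c7 := e (s 1 + t 0 + t 2) (by omega)
  have c8 := e (s 1 + t 0 + t 3) (by omega)
  have c9 := e (s 1 + t 1 + t 1) (by omega)
  have c10 := e (s 1 + t 1 + t 2) (by omega)
  have c11 := e (s 1 + t 1 + t 3) (by omega)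
  have c12 := e (s 1 + t 2 + t 2) (by omega)
  have c13 := e (s 1 + t 2 + t 3) (by omega)
  have c14 := e (s 1 + t 3 + t 3) (by omega)
  rw [show -(s 0 + t 0 + t 0) - (t 1 - t 0) = -(s 0 + t 0 + t 1) by ring,
    show -(s 0 + t 0 + t 1) - (t 2 - t 1) = -(s 0 + t 0 + t 2) by ring,
    show -(s 0 + t 0 + t 0) - 2 * (t 1 - t 0) = -(s 0 + t 1 + t 1) by ring,
    show -(s 0 + t 0 + t 0) - (s 1 - s 0) = -(s 1 + t 0 + t 0) by ring,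
    show -(s 1 + t 0 + t 0) - (t 1 - t 0) = -(s 1 + t 0 + t 1) by ring] at h
  simp only [Fin.sum_univ_two, Fin.sum_univ_four, Fin.le_def, Fin.isValue, Fin.val_zero,
    Fin.val_one, Fin.val_two, show ((3 : Fin 4) : ℕ) = 3 from rfl]
  norm_num only [if_true, if_false]
  linarith

/-- the height dominates every slope -/
theorem cusp4_height (s : Fin 2 → ℤ) (t : Fin 4 → ℤ) {b : ℤ}
    (a14 : -(3 * b) ≤ s 0 + t 0 + t 3) (a23 : -(3 * b) ≤ s 0 + t 1 + t 2)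
    (b13 : -(3 * b) ≤ s 1 + t 0 + t 2) (b22 : -(3 * b) ≤ s 1 + t 1 + t 1) :
    max (max (s 1 - s 0) (t 1 - t 0)) (max (t 2 - t 1) (t 3 - t 2)) - 6 * b ≤
      s 0 + s 1 + (t 0 + t 1 + t 2 + t 3) := by
  omega

variable {R : Type*} [CommRing R]

/-- the quadratic invariant; order `11, 12, 13, 14, 22, 23, 24, 33, 34, 44` -/
def pf (c : Fin 10 → R) : R := c 1 * c 8 + c 2 * c 6 + c 3 * c 5

/-- the quartic invariant -/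
def rd (c : Fin 10 → R) : R :=
  4 * c 0 * c 4 * c 7 * c 9 - c 0 * c 4 * c 8 ^ 2 + c 0 * c 5 * c 6 * c 8 - c 0 * c 5 ^ 2 * c 9
    - c 0 * c 6 ^ 2 * c 7 + c 1 * c 2 * c 5 * c 9 - c 1 * c 2 * c 6 * c 8 - c 1 * c 3 * c 5 * c 8
    + c 1 * c 3 * c 6 * c 7 - c 1 ^ 2 * c 7 * c 9 + c 2 * c 3 * c 4 * c 8 - c 2 * c 3 * c 5 * c 6
    - c 2 ^ 2 * c 4 * c 9 - c 3 ^ 2 * c 4 * c 7

lemma det_eq (c : Fin 10 → R) :
    Matrix.det !![2 * c 0, c 1, c 2, c 3; c 1, 2 * c 4, c 5, c 6; c 2, c 5, 2 * c 7, c 8;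
      c 3, c 6, c 8, 2 * c 9] = pf c ^ 2 + 4 * rd c := by
  simp [Matrix.det_succ_row_zero, Fin.sum_univ_succ, Fin.succAbove, pf, rd]
  ring

lemma pat_row {c : Fin 10 → R} (h0 : c 0 = 0) (h1 : c 1 = 0) (h2 : c 2 = 0) (h3 : c 3 = 0) :
    pf c = 0 ∧ rd c = 0 := by simp [pf, rd, h0, h1, h2, h3]

lemma pat_hook {c : Fin 10 → R} (h0 : c 0 = 0) (h1 : c 1 = 0) (h2 : c 2 = 0) (h4 : c 4 = 0)
    (h5 : c 5 = 0) : pf c = 0 ∧ rd c = 0 := by simp [pf, rd, h0, h1, h2, h4, h5]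

lemma pat_pencil {A B : Fin 10 → R} (a0 : A 0 = 0) (a1 : A 1 = 0) (a2 : A 2 = 0) (b0 : B 0 = 0)
    (b1 : B 1 = 0) (b2 : B 2 = 0) :
    pf (B 3 • A - A 3 • B) = 0 ∧ rd (B 3 • A - A 3 • B) = 0 :=
  pat_row (by simp [a0, b0]) (by simp [a1, b1]) (by simp [a2, b2]) (by simp [mul_comm])

lemma pat_line {c : Fin 10 → R} (h0 : c 0 = 0) (h1 : c 1 = 0) (h4 : c 4 = 0) (y : R) :
    y ^ 2 + pf c * y - rd c = (y + c 2 * c 6) * (y + c 3 * c 5) := by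
  simp only [pf, rd, h0, h1, h4]
  ring

end SelAvg.FF.Q4
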