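import Pool.Agent.H94Q.ModB
import Pool.Agent.H94Q.Cusp4A

/-! The four patterns of vanishing coefficients; triangular substitutions. -/

namespace SelAvg.Q4

open WeierstrassCurve Matrix

section Ring

variable {R : Type*} [CommRing R]

/-- the leading terms of a lower triangular substitution -/
lemma c4_tri {M : Mat R} (h : ∀ i j, i < j → M i j = 0) (c : QF R) :
    act M c 0 = M 0 0 * M 0 0 * c 0 ∧ (c 0 = 0 → act M c 1 = M 0 0 * M 1 1 * c 1 ∧ (c 1 = 0 →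
      act M c 2 = M 0 0 * M 2 2 * c 2 ∧ act M c 4 = M 1 1 * M 1 1 * c 4 ∧ (c 2 = 0 →
        act M c 3 = M 0 0 * M 3 3 * c 3 ∧ (c 4 = 0 → act M c 5 = M 1 1 * M 2 2 * c 5)))) := by
  have h01 := h 0 1 (by decide)
  have h02 := h 0 2 (by decide)
  have h03 := h 0 3 (by decide)
  have h12 := h 1 2 (by decide)
  have h13 := h 1 3 (by decide)
  have h23 := h 2 3 (by decide)
  refine ⟨?_, fun e0 => ⟨?_, fun e1 => ⟨?_, ?_, fun e2 => ⟨?_, fun e4 => ?_⟩⟩⟩⟩ <;>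
    simp [act, cf, conj_ut, *] <;> ring

end Ring

variable {L : Type*} [Field L]

lemma c4_triv {f : M4 L} {x z : L} (h : x ≠ 0 ∨ z ≠ 0) (hP : PP (pen f x z) = 0)
    (hQ : QQ (pen f x z) = 0) : (red f).Triv :=
  ⟨⟨x, z, 0⟩, ⟨h, by simp [Model.F, red_g, hQ]⟩, by simp [Model.psi, red_q, hP]⟩

lemma bad_row {f : M4 L} (h0 : f 0 0 = 0) (h1 : f 0 1 = 0) (h2 : f 0 2 = 0) (h3 : f 0 3 = 0) :
    (red f).Triv :=
  c4_triv (x := 1) (z := 0) (Or.inl one_ne_zero) (by simp [PP, P2, pen, *])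
    (by simp [QQ, QM, pen, *])

lemma bad_hook {f : M4 L} (h0 : f 0 0 = 0) (h1 : f 0 1 = 0) (h2 : f 0 2 = 0) (h4 : f 0 4 = 0)
    (h5 : f 0 5 = 0) : (red f).Triv :=
  c4_triv (x := 1) (z := 0) (Or.inl one_ne_zero) (by simp [PP, P2, pen, *])
    (by simp [QQ, QM, pen, *])

lemma bad_pencil {f : M4 L} (h0 : f 0 0 = 0) (h1 : f 0 1 = 0) (h2 : f 0 2 = 0) (k0 : f 1 0 = 0)
    (k1 : f 1 1 = 0) (k2 : f 1 2 = 0) : (red f).Triv := by
  by_cases h3 : f 0 3 = 0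
  · exact bad_row h0 h1 h2 h3
  · have e : f 1 3 * f 0 3 + -(f 0 3 * f 1 3) = 0 := by ring
    exact c4_triv (x := f 1 3) (z := -f 0 3) (Or.inr (neg_ne_zero.2 h3))
      (by simp [PP, P2, pen, h1, h2, k1, k2, e])
      (by simp [QQ, QM, pen, h0, h1, h2, k0, k1, k2, e])

lemma bad_line {f : M4 L} (h0 : f 0 0 = 0) (h1 : f 0 1 = 0) (h4 : f 0 4 = 0) (k0 : f 1 0 = 0)
    (k1 : f 1 1 = 0) (k4 : f 1 4 = 0) : (red f).jac.Δ = 0 := by
  have ha : (red f).a = 0 := by simp [red, QM, *]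
  have hb : (red f).b = 0 := by simp [red, QM, *]
  have hc : (red f).c = 0 := by simp [red, QM, *]
  have hd : (red f).d = 0 := by simp [red, QM, *]
  have he : (red f).e = 0 := by simp [red, QM, *]
  simp [Model.jac, Δ, b₂, b₄, b₆, b₈, ha, hb, hc, hd, he]

end SelAvg.Q4
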