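import Pool.Agent.H94Q.Tri
import Pool.Agent.H94Q.Cusp4B
import Pool.Agent.H34P.WtN

/-! The bound in the cusp for pairs of quaternary quadratic forms. -/

namespace SelAvg.FF.T4

open WeierstrassCurve WithZero Filter Topology Matrix SelAvg.Q4
open scoped Classical ENNReal

lemma c4_int (s : Fin 2 → ℤ) (t : Fin 4 → ℤ) {b : ℤ} (hb : 0 ≤ b) (hn : -b ≤ s 1 - s 0)
    (h1 : -b ≤ t 1 - t 0) (h2 : -b ≤ t 2 - t 1) (h3 : -b ≤ t 3 - t 2)
    (p1 : 0 ≤ s 0 + t 0 + t 0 ∨ 0 ≤ s 0 + t 0 + t 1 ∨ 0 ≤ s 0 + t 0 + t 2 ∨ 0 ≤ s 0 + t 0 + t 3)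
    (p2 : 0 ≤ s 0 + t 0 + t 0 ∨ 0 ≤ s 0 + t 0 + t 1 ∨ 0 ≤ s 0 + t 0 + t 2 ∨ 0 ≤ s 0 + t 1 + t 1 ∨
      0 ≤ s 0 + t 1 + t 2)
    (p3 : 0 ≤ s 0 + t 0 + t 0 ∨ 0 ≤ s 0 + t 0 + t 1 ∨ 0 ≤ s 0 + t 0 + t 2 ∨ 0 ≤ s 1 + t 0 + t 0 ∨
      0 ≤ s 1 + t 0 + t 1 ∨ 0 ≤ s 1 + t 0 + t 2)
    (p4 : 0 ≤ s 0 + t 0 + t 0 ∨ 0 ≤ s 0 + t 0 + t 1 ∨ 0 ≤ s 0 + t 1 + t 1 ∨ 0 ≤ s 1 + t 0 + t 0 ∨
      0 ≤ s 1 + t 0 + t 1 ∨ 0 ≤ s 1 + t 1 + t 1) :
    100 * ∑ k : Fin 20, max 0 (-(s (iA k) + t (jB (iQ k)) + t (jC (iQ k)))) ≤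
      99 * ((s 1 - s 0 + b) + (3 * (t 3 - t 0) + (t 2 - t 1) + 10 * b)) + 100 * (150 * b) := by
  have h := FF.Q4.cusp4_excess s t hb hn h1 h2 h3 p1 p2 p3 p4
  have e : ∑ k : Fin 20, max 0 (-(s (iA k) + t (jB (iQ k)) + t (jC (iQ k)))) =
      ∑ k : Fin 2, ∑ i : Fin 4, ∑ j : Fin 4,
        (if i ≤ j then max 0 (-(s k + t i + t j)) else 0) := by
    simp only [Fin.sum_univ_succ, iA, iQ, jB, jC, cons_val_zero, cons_val_succ, cons_val,
      Fin.succ_zero_eq_one, Fin.succ_one_eq_two, Fin.reduceSucc, Finset.univ_eq_empty,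
      Finset.sum_empty, Fin.reduceLE, if_true, if_false, le_refl]
    ring
  rw [e]
  generalize ∑ k : Fin 2, ∑ i : Fin 4, ∑ j : Fin 4,
    (if i ≤ j then max 0 (-(s k + t i + t j)) else 0) = x at h
  omega

variable {F : Type} [Field F] [Cv F]

theorem card_VB_gt_le (B : Fin 2 → Div F) (D : Fin 4 → Div F) (η : Fin 2 → Fin 2 → A F)
    (η' : Fin 4 → Fin 4 → A F) : (VB (gt B D η η')).card ≤ ∏ k, (box (DV B D k)).card := by
  rw [card_VB]
  refine card_tri_le (DV B D) (fun k x => phiV (gt B D η η') (DV B D) k (dlg x))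
    (fun k x y h => phiV_gt B D η η' k _ _ fun j hj => congrArg (toA F) (h j hj)) _ fun x hx k => ?_
  have h1 := mem_hbox.1 hx k
  rwa [linG_eq _ (DV B D), ← mem_AD_zero, unit_mul_mem_AD, idiv_piD, zero_add] at h1

lemma c4_van {B D D' : Div F} (h : deg B + deg D + deg D' < 0) {x : F}
    (hx : (piD D : A F) * piD D' * (piD B * toA F x) ∈ Oh F) : x = 0 := by
  rw [← mul_assoc, ← Units.val_mul, ← Units.val_mul, ← piD_add, ← piD_add, ← mem_AD_zero,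
    unit_mul_mem_AD, idiv_piD, zero_add, toA_mem_AD] at hx
  exact eq_zero_of_deg_neg (by rw [map_add, map_add]; omega) hx

/-- vanishing of the first coordinates of a form whose multiple is integral after substitution -/
lemma c4_form {B : Div F} {D : Fin 4 → Div F} {η' : Fin 4 → Fin 4 → A F} {c : QF F} {c' : QF (A F)}
    (h : ∀ j, act (triN D η').1 c' j ∈ Oh F) {p : Fin 10 → Prop}
    (hc : ∀ j, p j → c' j = piD B * toA F (c j)) (p0 : p 0) (p1 : p 1)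
    (d0 : deg B + deg (D 0) + deg (D 0) < 0) (d1 : deg B + deg (D 0) + deg (D 1) < 0) :
    c 0 = 0 ∧ c 1 = 0 ∧ (p 2 → deg B + deg (D 0) + deg (D 2) < 0 → c 2 = 0) ∧
      (p 4 → deg B + deg (D 1) + deg (D 1) < 0 → c 4 = 0) ∧ (p 2 → c 2 = 0 →
        (p 3 → deg B + deg (D 0) + deg (D 3) < 0 → c 3 = 0) ∧ (p 4 → c 4 = 0 → p 5 →
          deg B + deg (D 1) + deg (D 2) < 0 → c 5 = 0)) := by
  have hM : ∀ i, (triN D η').1 i i = piD (D i) := fun i => by simp [triN_apply]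
  have z : ∀ j, p j → c j = 0 → c' j = 0 := fun j hj e => by rw [hc j hj, e, map_zero, mul_zero]
  obtain ⟨t0, t1⟩ := c4_tri (M := (triN D η').1)
    (fun i j hij => by simp [triN_apply, hij.not_gt, hij.ne']) c'
  simp only [hM] at t0 t1
  have e0 : c 0 = 0 := c4_van d0 (by rw [← hc 0 p0, ← t0]; exact h 0)
  obtain ⟨t1, t2⟩ := t1 (z 0 p0 e0)
  have e1 : c 1 = 0 := c4_van d1 (by rw [← hc 1 p1, ← t1]; exact h 1)
  obtain ⟨t2, t4, t3⟩ := t2 (z 1 p1 e1)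
  refine ⟨e0, e1, fun q d => c4_van d (by rw [← hc 2 q, ← t2]; exact h 2),
    fun q d => c4_van d (by rw [← hc 4 q, ← t4]; exact h 4), fun q e2 => ?_⟩
  obtain ⟨t3, t5⟩ := t3 (z 2 q e2)
  exact ⟨fun q d => c4_van d (by rw [← hc 3 q, ← t3]; exact h 3),
    fun q e4 q' d => c4_van d (by rw [← hc 5 q', ← t5 (z 4 q e4)]; exact h 5)⟩

/-- outside the four patterns -/
theorem c4_patterns {B : Fin 2 → Div F} {D : Fin 4 → Div F} {η : Fin 2 → Fin 2 → A F}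
    {η' : Fin 4 → Fin 4 → A F} {f : M4 F} (hf : IntM (gt B D η η') f)
    (hΔ : (red f).jac.Δ ≠ 0) (ht : ¬(red f).Triv) :
    100 * ∑ k, max 0 (-deg (DV B D k)) ≤ 99 * (spN F (fun i => deg (B i)) +
      spN F fun i => deg (D i)) + 100 * (150 * rbN F) ∨
      ¬(RedN F (fun i => deg (B i)) ∧ RedN F fun i => deg (D i)) := by
  rw [or_iff_not_imp_right, not_not]
  rintro ⟨r2, r4⟩
  rw [intM_iff] at hf
  have f0 : ∀ j, act (triN D η').1 (pen (mapM (toA F) f) ((triN B η).1 0 0) ((triN B η).1 0 1)) j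
    ∈ Oh F := hf 0
  have f1 : ∀ j, act (triN D η').1 (pen (mapM (toA F) f) ((triN B η).1 1 0) ((triN B η).1 1 1)) j
    ∈ Oh F := hf 1
  have g0 := fun d0 d1 => c4_form (B := B 0) (c := f 0) f0 (p := fun _ => True)
    (fun j _ => by simp [pen, mapM, triN_apply]) trivial trivial d0 d1
  have g1 := fun e0 e1 d0 d1 => c4_form (B := B 1) (c := f 1) f1 (p := fun j => f 0 j = 0)
    (fun j hj => by simp [pen, mapM, triN_apply, hj]) e0 e1 d0 d1
  have e : ∀ k, deg (DV B D k) = deg (B (iA k)) + deg (D (jB (iQ k))) + deg (D (jC (iQ k))) :=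
    fun k => by rw [DV, map_add, map_add, add_assoc]
  simp only [e, spN_two, spN_four]
  refine c4_int (fun i => deg (B i)) (fun i => deg (D i)) (Int.natCast_nonneg _) (r2 1 0 rfl)
    (r4 1 0 rfl) (r4 2 1 rfl) (r4 3 2 rfl) ?_ ?_ ?_ ?_ <;> by_contra hc <;>
    simp only [not_or, not_le] at hc
  · obtain ⟨d0, d1, d2, d3⟩ := hc
    obtain ⟨e0, e1, e2, -, e3⟩ := g0 d0 d1
    exact ht (bad_row e0 e1 (e2 trivial d2) ((e3 trivial (e2 trivial d2)).1 trivial d3))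
  · obtain ⟨d0, d1, d2, d4, d5⟩ := hc
    obtain ⟨e0, e1, e2, e4, e3⟩ := g0 d0 d1
    exact ht (bad_hook e0 e1 (e2 trivial d2) (e4 trivial d4)
      ((e3 trivial (e2 trivial d2)).2 trivial (e4 trivial d4) trivial d5))
  · obtain ⟨d0, d1, d2, k0, k1, k2⟩ := hc
    obtain ⟨e0, e1, e2, -⟩ := g0 d0 d1
    obtain ⟨l0, l1, l2, -⟩ := g1 e0 e1 k0 k1
    exact ht (bad_pencil e0 e1 (e2 trivial d2) l0 l1 (l2 (e2 trivial d2) k2))
  · obtain ⟨d0, d1, d4, k0, k1, k4⟩ := hc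
    obtain ⟨e0, e1, -, e4, -⟩ := g0 d0 d1
    obtain ⟨l0, l1, -, l4, -⟩ := g1 e0 e1 k0 k1
    exact hΔ (bad_line e0 e1 (e4 trivial d4) l0 l1 (l4 (e4 trivial d4) k4))

lemma c4_zpow (e : Fin 20 → ℤ) : ∏ i, qq F ^ (e i + cc F) = qq F ^ (∑ i, e i + 20 * cc F) := by
  have hq : qq F ≠ 0 := (one_pos.trans one_lt_qq).ne'
  have h : ∀ (s : Finset (Fin 20)) (e : Fin 20 → ℤ), ∏ i ∈ s, qq F ^ e i = qq F ^ ∑ i ∈ s, e i := by
    intro s e
    induction s using Finset.induction_on with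
    | empty => simp
    | insert a s ha ih => rw [Finset.prod_insert ha, Finset.sum_insert ha, zpow_add₀ hq, ih]
  rw [h, Finset.sum_add_distrib, Finset.sum_const, Finset.card_univ, Fintype.card_fin,
    nsmul_eq_mul, Nat.cast_ofNat]

theorem cusp' : ∃ K : ℝ, 0 < K ∧ ∀ g : G4 (A F),
    (((VB g).filter fun f => (red f).jac.Δ ≠ 0 ∧ ¬(red f).Triv).card : ℝ) ≤
      K * (wtN (RC.mk (KN F 2) g.1) * wtN (RC.mk (KN F 4) g.2)) *
        qq F ^ (10 * deg (cls g) + 20 * cc F) := by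
  obtain ⟨C₀, hC₀, hC⟩ := card_box_le (F := F) 0
  have hq := one_lt_qq (F := F)
  have hq0 : 0 < qq F := one_pos.trans hq
  have hC0 : 0 < C₀ := one_pos.trans_le hC₀
  have hbox : ∀ D : Div F, ((box D).card : ℝ) ≤ C₀ * qq F ^ (max 0 (-deg D) + deg D + cc F) :=
    fun D => by
      rcases le_or_gt 0 (deg D) with h | h
      · rw [max_eq_left (neg_nonpos.2 h), zero_add]
        exact hC D (by simpa using h)
      · have h1 := hC 0 (by simp)
        rw [map_zero] at h1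
        rw [max_eq_right (neg_nonneg.2 h.le), neg_add_cancel]
        refine le_trans (Nat.cast_le.2 (Finset.card_le_card fun x hx => ?_)) h1
        rw [eq_zero_of_deg_neg h (mem_box.1 hx)]
        exact zero_mem_box _
  refine ⟨C₀ ^ 20 * qq F ^ (150 * rbN F : ℤ), by positivity, fun g => ?_⟩
  obtain ⟨γ, B, η, h1, r2, s2⟩ := exists_rN (RC.mk (KN F 2) g.1)
  obtain ⟨γ', D, η', h2, r4, s4⟩ := exists_rN (RC.mk (KN F 4) g.2)
  obtain ⟨k, hk, h4⟩ := exists_gt' (g := g * (gA F (γ, γ'))⁻¹) h1 h2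
  have h5 : deg (cls g) = deg (∑ i, B i + ∑ i, D i) := by
    have h6 := congrArg (fun x => deg (cls x)) h4
    simpa only [cls_act, cls_K hk, cls_gt, map_sub (deg (F := F)) _ (dv _), deg_dv, sub_zero]
      using h6
  have h6 : ((VB g).filter fun f => (red f).jac.Δ ≠ 0 ∧ ¬(red f).Triv).card =
      ((VB (gt B D η η')).filter fun f => (red f).jac.Δ ≠ 0 ∧ ¬(red f).Triv).card := by
    rw [← VB_K hk (gt B D η η'), ← h4, Finset.card_filter, Finset.card_filter, sum_VB_act]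
    refine Finset.sum_congr rfl fun f _ => if_congr (and_congr ?_ ?_) rfl rfl
    · rw [jac_smul, variableChange_Δ, mul_ne_zero_iff]
      exact (and_iff_right (pow_ne_zero _ (Units.ne_zero _))).symm
    · rw [red_smul, Model.triv_smul]
  rw [h6, h5]
  have w2 := wtN_pos (RC.mk (KN F 2) g.1)
  have w4 := wtN_pos (RC.mk (KN F 4) g.2)
  rcases ((VB (gt B D η η')).filter fun f =>
    (red f).jac.Δ ≠ 0 ∧ ¬(red f).Triv).eq_empty_or_nonempty with h7 | ⟨f, h7⟩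
  · rw [h7, Finset.card_empty, Nat.cast_zero]
    positivity
  obtain ⟨h7, hΔ, ht⟩ := Finset.mem_filter.1 h7
  have h8 := (c4_patterns (mem_VB.1 h7) hΔ ht).resolve_right (not_not.2 ⟨r2, r4⟩)
  rw [s2, s4] at h8
  have h9 : ∑ k, deg (DV B D k) = 10 * deg (∑ i, B i + ∑ i, D i) := by
    rw [← map_sum, sum_DV, map_nsmul, nsmul_eq_mul, Nat.cast_ofNat]
  have h10 : qq F ^ ∑ k, max 0 (-deg (DV B D k)) ≤ qq F ^ (150 * rbN F : ℤ) *
      (wtN (RC.mk (KN F 2) g.1) * wtN (RC.mk (KN F 4) g.2)) := by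
    rw [wtN, wtN, ← Real.rpow_intCast, ← Real.rpow_intCast, ← Real.rpow_add hq0,
      ← Real.rpow_add hq0]
    refine Real.rpow_le_rpow_of_exponent_le hq.le ?_
    generalize ∑ k, max 0 (-deg (DV B D k)) = x at h8
    have h11 := (Int.cast_le (R := ℝ)).2 h8
    push_cast at h11 ⊢
    linarith
  calc (((VB (gt B D η η')).filter fun f => (red f).jac.Δ ≠ 0 ∧ ¬(red f).Triv).card : ℝ)
      ≤ ∏ k, ((box (DV B D k)).card : ℝ) := by
        exact_mod_cast (Finset.card_filter_le _ _).trans (card_VB_gt_le B D η η')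
    _ ≤ ∏ k, C₀ * qq F ^ (max 0 (-deg (DV B D k)) + deg (DV B D k) + cc F) :=
        Finset.prod_le_prod (fun i _ => Nat.cast_nonneg _) fun i _ => hbox _
    _ ≤ _ := by
        rw [Finset.prod_mul_distrib, c4_zpow, Finset.prod_const, Finset.card_univ,
          Fintype.card_fin, Finset.sum_add_distrib, h9, add_assoc, zpow_add₀ hq0.ne', ← mul_assoc,
          mul_assoc (C₀ ^ 20) (qq F ^ (150 * rbN F : ℤ))]
        gcongr

theorem cusp : ∃ K : ℝ, 0 < K ∧ ∀ g : G4 (A F), 0 ≤ deg (cls g) →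
    (((VB g).filter fun f => (red f).jac.Δ ≠ 0 ∧ ¬(red f).Triv).card : ℝ) ≤
      K * (wtN (RC.mk (KN F 2) g.1) * wtN (RC.mk (KN F 4) g.2)) *
        qq F ^ (10 * deg (cls g) + 20 * cc F) :=
  cusp'.imp fun _ h => ⟨h.1, fun g _ => h.2 g⟩

end SelAvg.FF.T4
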