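import Pool.Agent.H94Q.Pt4

/-! Row LIFT: the stabiliser of the standard point in degree 4 and in degree 2. -/

namespace SelAvg.Q4

open WeierstrassCurve Matrix

variable {R : Type*} [CommRing R]

/-- column 0 and 1 of `ut c + alt s` vanish, so only `s 5` survives and `c 1 = 0` -/
theorem Line.e01 {c : QF R} {y : R} :
    Line c e0 e1 y ↔ c 0 = 0 ∧ c 1 = 0 ∧ c 4 = 0 ∧ y = 0 := by
  constructor
  · rintro ⟨s, h0, h1, rfl⟩
    have a0 := congrFun h0 0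
    have a1 := congrFun h0 1
    have a2 := congrFun h0 2
    have a3 := congrFun h0 3
    have b0 := congrFun h1 0
    have b1 := congrFun h1 1
    have b2 := congrFun h1 2
    have b3 := congrFun h1 3
    simp [ut, alt, e0, e1, mulVec, dotProduct, Fin.sum_univ_four] at a0 a1 a2 a3 b0 b1 b2 b3
    have c1 : c 1 = 0 := by linear_combination b0 - a1
    refine ⟨a0, c1, b1, ?_⟩
    simp [pf2, off, a1, a2, a3, b2, b3, c1]
  · rintro ⟨h0, h1, h4, rfl⟩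
    refine ⟨0, ?_, ?_, by simp [pf2]⟩ <;> funext i <;> fin_cases i <;>
      simp [ut, alt, e0, e1, mulVec, dotProduct, Fin.sum_univ_four, h0, h1, h4]

lemma LIFT_row0 {g : G4 R} {s : R} (hQ : pt g e0 = s • e0) :
    g.2.1 0 0 = s ∧ g.2.1 0 1 = 0 ∧ g.2.1 0 2 = 0 ∧ g.2.1 0 3 = 0 := by
  have a0 := congrFun hQ 0
  have a1 := congrFun hQ 1
  have a2 := congrFun hQ 2
  have a3 := congrFun hQ 3
  simp [pt, e0, vecMul, dotProduct, Fin.sum_univ_four] at a0 a1 a2 a3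
  exact ⟨a0, a1, a2, a3⟩

lemma LIFT_coef (g : G4 R) (m : Model R) (i : Fin 2) : (g • up m) i =
    act g.2.1 ![0, 0, g.1.1 i 1, -g.1.1 i 0, -g.1.1 i 1, -(g.1.1 i 0 * m.l) - g.1.1 i 1 * m.m,
      -(g.1.1 i 1 * m.n), g.1.1 i 0 * m.b + g.1.1 i 1 * m.c, g.1.1 i 1 * m.d, g.1.1 i 1 * m.e] := by
  rw [smul_apply]
  congr 1
  funext j
  fin_cases j <;> simp [pen, up] <;> ring

/-- the shape of the first two rows -/
lemma LIFT_row1 {m m' : Model R} {g : G4 R} (hg : g • up m = up m') {s : R}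
    (hQ : pt g e0 = s • e0) : IsUnit s ∧ g.2.1 1 2 = 0 ∧ g.2.1 1 3 = 0 ∧ IsUnit (g.2.1 1 1) ∧
      g.1.1 0 1 = 0 := by
  obtain ⟨h0, h1, h2, h3⟩ := LIFT_row0 hQ
  have hd : IsUnit g.2.1.det := (det4u g).isUnit
  have hd2 : IsUnit g.1.1.det := (GeneralLinearGroup.det g.1).isUnit
  rw [det4, h0, h1, h2, h3] at hd
  simp only [zero_mul, sub_zero, add_zero] at hd
  have hs : IsUnit s := isUnit_of_mul_isUnit_left hd
  have p0 := congrFun ((LIFT_coef g m 0).symm.trans (congrFun hg 0)) 1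
  have p1 := congrFun ((LIFT_coef g m 1).symm.trans (congrFun hg 1)) 1
  have p4 := congrFun ((LIFT_coef g m 0).symm.trans (congrFun hg 0)) 4
  simp [act, cf, conj_ut, up, h0, h1, h2, h3] at p0 p1 p4
  rw [det_fin_two] at hd2
  have e2 : g.2.1 1 2 = 0 := (hd2.mul hs).mul_right_eq_zero.1 (by
    linear_combination g.1.1 0 0 * p1 - g.1.1 1 0 * p0)
  have e3 : g.2.1 1 3 = 0 := (hd2.mul hs).mul_right_eq_zero.1 (by
    linear_combination g.1.1 0 1 * p1 - g.1.1 1 1 * p0)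
  rw [e2, e3] at hd p4
  simp only [zero_mul, sub_zero, add_zero, mul_zero] at hd p4
  have hw : IsUnit (g.2.1 1 1) := isUnit_of_mul_isUnit_left (isUnit_of_mul_isUnit_right hd)
  exact ⟨hs, e2, e3, hw, (hw.mul hw).mul_right_eq_zero.1 (by linear_combination -p4)⟩

/-- the matrix of the lift -/
def LIFT_mat (s w a d α β γ u v c : R) : Mat R := !![s, 0, 0, 0; α, w, 0, 0; β, u, a, 0; γ, v, c, d]

lemma LIFT_det (s w a d α β γ u v c : R) : (LIFT_mat s w a d α β γ u v c).det = s * w * a * d := by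
  rw [det4]; simp [LIFT_mat]; ring

/-- With `m11, m22` units (`det = m11 m22`), `ν = m22 / μ^2`, `s = μ^2 / (m11 m22^2)`,
`g.1 = ν • k.M` and `g.2` given by `X₃ = m22 x₃`, `X₂ = m11 x₂ + m21 x₃`,
`X₁ = (μ x₁ + r1 x₂ + r2 x₃) / m22`, `X₀ = s x₀ + α x₁ + β x₂ + γ x₃` with
`α m22^2 = -l μ m21`, `β m22^2 = 2 b m11 m21 m22 - l (r1 m21 + r2 m11)`,
`γ m22^2 = b m21^2 m22 - l r2 m21` (`l, b` of `m`; `X = x ᵥ* g.2`). -/
theorem exists_lift4 {m : Model R} (ha : m.a = 0) {k : G R} (h12 : k.m12 = 0) (h0 : k.r0 = 0) :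
    ∃ (g : G4 R) (s ν : Rˣ), g • up m = up (k • m) ∧ pt g e0 = (s : R) • e0 ∧
      hh g (up m) = G.scalar ν * k := by
  have hd : IsUnit (k.m11 * k.m22) := by
    have := k.det.isUnit
    rwa [G.det_val, h12, zero_mul, sub_zero] at this
  obtain ⟨a, h11⟩ := isUnit_of_mul_isUnit_left hd
  obtain ⟨d, h22⟩ := isUnit_of_mul_isUnit_right hd
  set μ := k.μ with hμ
  have ha' := a.mul_inv
  have hd' := d.mul_inv
  have hμ' := μ.mul_inv
  let N : Mat R := LIFT_mat (μ ^ 2 * a⁻¹ * d⁻¹ ^ 2 : Rˣ) (μ * d⁻¹ : Rˣ) a d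
    (-(m.l * μ * k.m21) * (d⁻¹ : Rˣ) ^ 2)
    ((2 * m.b * a * k.m21 * d - m.l * (k.r1 * k.m21 + k.r2 * a)) * (d⁻¹ : Rˣ) ^ 2)
    ((m.b * k.m21 ^ 2 * d - m.l * k.r2 * k.m21) * (d⁻¹ : Rˣ) ^ 2)
    (k.r1 * (d⁻¹ : Rˣ)) (k.r2 * (d⁻¹ : Rˣ)) k.m21
  have hN : N.det = ((μ ^ 2 * a⁻¹ * d⁻¹ ^ 2) * (μ * d⁻¹) * a * d : Rˣ) := by
    rw [LIFT_det]; simp only [Units.val_mul]
  let g : G4 R := (G.scM (d * μ⁻¹ ^ 2) * k.M, GeneralLinearGroup.mk'' N (hN ▸ Units.isUnit _))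
  have g1 : ∀ i j, g.1.1 i j = d * (μ⁻¹ : Rˣ) ^ 2 * k.M.1 i j := fun i j => by
    have : ∀ u : Rˣ, (G.scM u * k.M).1 i j = u * k.M.1 i j := fun u => by simp [G.scM]
    rw [this, Units.val_mul, Units.val_pow_eq_pow_val]
  have g00 : g.1.1 0 0 = d * (μ⁻¹ : Rˣ) ^ 2 * a := by rw [g1, h11]; rfl
  have g01 : g.1.1 0 1 = 0 := by rw [g1]; exact mul_eq_zero_of_right _ h12
  have g10 : g.1.1 1 0 = d * (μ⁻¹ : Rˣ) ^ 2 * k.m21 := g1 _ _
  have g11 : g.1.1 1 1 = d * (μ⁻¹ : Rˣ) ^ 2 * d := by rw [g1, h22]; rfl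
  have hdet : (det4u g)⁻¹ = (d * μ⁻¹ ^ 2) ^ 2 * μ := by
    have : det4u g = (μ ^ 2 * a⁻¹ * d⁻¹ ^ 2) * (μ * d⁻¹) * a * d := Units.ext hN
    rw [this, inv_eq_iff_mul_eq_one]
    apply Units.ext
    simp only [Units.val_mul, Units.val_pow_eq_pow_val, Units.val_one]
    grind
  have n00 : g.2.1 0 0 = (μ ^ 2 * a⁻¹ * d⁻¹ ^ 2 : Rˣ) := rfl
  have n01 : g.2.1 0 1 = 0 := rfl
  have n02 : g.2.1 0 2 = 0 := rfl
  have n03 : g.2.1 0 3 = 0 := rfl
  have n10 : g.2.1 1 0 = -(m.l * μ * k.m21) * (d⁻¹ : Rˣ) ^ 2 := rfl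
  have n11 : g.2.1 1 1 = μ * (d⁻¹ : Rˣ) := rfl
  have n12 : g.2.1 1 2 = 0 := rfl
  have n13 : g.2.1 1 3 = 0 := rfl
  have n20 : g.2.1 2 0 =
    (2 * m.b * a * k.m21 * d - m.l * (k.r1 * k.m21 + k.r2 * a)) * (d⁻¹ : Rˣ) ^ 2 := rfl
  have n21 : g.2.1 2 1 = k.r1 * (d⁻¹ : Rˣ) := rfl
  have n22 : g.2.1 2 2 = a := rfl
  have n23 : g.2.1 2 3 = 0 := rfl
  have n30 : g.2.1 3 0 = (m.b * k.m21 ^ 2 * d - m.l * k.r2 * k.m21) * (d⁻¹ : Rˣ) ^ 2 := rfl
  have n31 : g.2.1 3 1 = k.r2 * (d⁻¹ : Rˣ) := rfl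
  have n32 : g.2.1 3 2 = k.m21 := rfl
  have n33 : g.2.1 3 3 = d := rfl
  have hM : (hh g (up m)).M = (G.scalar (d * μ⁻¹ ^ 2) * k).M := rfl
  clear_value g
  clear hN N g1 hd
  refine ⟨g, μ ^ 2 * a⁻¹ * d⁻¹ ^ 2, d * μ⁻¹ ^ 2, ?_, ?_, ?_⟩
  · rw [Units.val_mul, Units.val_mul, Units.val_pow_eq_pow_val, Units.val_pow_eq_pow_val] at n00
    funext i j
    rw [LIFT_coef]
    fin_cases i <;> fin_cases j <;>
      simp [act, cf, conj_ut, g00, g01, g10, g11, up, G.smul_def, Model.scale,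
        Model.shift, Model.subst, ← h11, ← h22, h12, h0, ha, ← hμ, n00, n01, n02, n03, n10, n11,
        n12, n13, n20, n21, n22, n23, n30, n31, n32, n33] <;>
      (clear hM hdet hμ; clear_value μ; grind)
  · funext j
    fin_cases j <;> simp [pt, e0, vecMul, dotProduct, Fin.sum_univ_four, n00, n01, n02, n03]
  · rw [Units.val_mul, Units.val_mul, Units.val_pow_eq_pow_val, Units.val_pow_eq_pow_val] at n00
    refine G.ext hM hdet ?_ ?_ ?_ <;>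
      simp [hh, hdet, G.mul_r0, G.mul_r1, G.mul_r2, shq, pf2, up6, low, conj_ut, pen, up,
        g00, g01, g10, g11, h0, n00, n01, n02, n03, n10, n11,
        n12, n13, n20, n21, n22, n23, n30, n31, n32, n33] <;>
      (clear hM hdet hμ; clear_value μ; grind)

/-- The second row of `g.2` is tangent at `e0`, so it is `(α, w, 0, 0)` with `w` a unit; evaluate
the first form there to get `g.1 0 1 = 0`; `Line.act` and `Line.e01` give `shq = 0`. -/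
theorem hh_fix {m m' : Model R} {g : G4 R} (hg : g • up m = up m') {s : R}
    (hQ : pt g e0 = s • e0) : (hh g (up m)).m12 = 0 ∧ (hh g (up m)).r0 = 0 := by
  obtain ⟨h0, h1, h2, h3⟩ := LIFT_row0 hQ
  obtain ⟨-, e2, e3, -, e⟩ := LIFT_row1 hg hQ
  refine ⟨e, ?_⟩
  simp [hh, shq, pf2, up6, low, conj_ut, pen, up, h1, h2, h3, e2, e3, e]

/-- Compare coefficients: the rows of `g.2` are `(s,0,0,0)`, `(α,w,0,0)`, `(β,u₂,τ,0)`,
`(γ,u₃,0,τ)`; the determinant gives `w = τ = s`, and `r1 = r2 = 0` gives `u₂ = u₃ = 0`. -/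
theorem eq_scal_of_hh {m : Model R} {g : G4 R} (hg : g • up m = up m) {s : R}
    (hQ : pt g e0 = s • e0) {ν : Rˣ} (hν : hh g (up m) = G.scalar ν) : ∃ t, g = scal R t := by
  obtain ⟨h0, h1, h2, h3⟩ := LIFT_row0 hQ
  obtain ⟨hs, e2, e3, hw, -⟩ := LIFT_row1 hg hQ
  have m11 : g.1.1 0 0 = ν := (congrArg G.m11 hν).trans (G.scalar_m11 ν)
  have m12 : g.1.1 0 1 = 0 := (congrArg G.m12 hν).trans (G.scalar_m12 ν)
  have m21 : g.1.1 1 0 = 0 := (congrArg G.m21 hν).trans (G.scalar_m21 ν)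
  have m22 : g.1.1 1 1 = ν := (congrArg G.m22 hν).trans (G.scalar_m22 ν)
  have hμ : (det4u g)⁻¹ = ν ^ 2 := congrArg G.μ hν
  have hd : g.2.1.det * ν ^ 2 = 1 := by
    rw [← det4u_val, ← Units.val_pow_eq_pow_val, ← hμ, Units.mul_inv]
  have r1 : (hh g (up m)).r1 = 0 := congrArg G.r1 hν
  have r2 : (hh g (up m)).r2 = 0 := congrArg G.r2 hν
  have p := fun j => congrFun ((LIFT_coef g m 0).symm.trans (congrFun hg 0)) j
  have q := fun j => congrFun ((LIFT_coef g m 1).symm.trans (congrFun hg 1)) j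
  have p2 := p 2
  have p3 := p 3
  have q2 := q 2
  have q3 := q 3
  have q4 := q 4
  simp [act, cf, conj_ut, up, h0, h1, h2, h3, e2, e3, m11, m12, m21, m22] at p2 p3 q2 q3 q4
  have hu : IsUnit (s * ν) := hs.mul ν.isUnit
  have e23 : g.2.1 2 3 = 0 := hu.mul_right_eq_zero.1 p2
  have e32 : g.2.1 3 2 = 0 := hu.mul_right_eq_zero.1 q3
  rw [det4, h0, h1, h2, h3, e2, e3, e23, e32] at hd
  have k1 : g.2.1 1 1 * g.2.1 3 3 * ν = 1 := by
    linear_combination hd - g.2.1 1 1 * g.2.1 3 3 * ν * q2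
  have hwν : IsUnit (g.2.1 1 1 * ν) := hw.mul ν.isUnit
  have e33 : g.2.1 3 3 = g.2.1 1 1 := hwν.mul_left_cancel (by linear_combination k1 - q4)
  have e22 : g.2.1 2 2 = g.2.1 1 1 := hu.mul_left_cancel (by rw [← e33]; linear_combination q2 - p3)
  have e11 : g.2.1 1 1 = s := hwν.mul_left_cancel (by rw [e33] at p3; linear_combination q4 - p3)
  rw [e11] at e22 e33 q4
  simp [hh, shq, pf2, up6, low, conj_ut, pen, up, h0, h1, h2, h3, e2, e3, e23, e32, e11, e22, e33,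
    m11, m12, m21, m22] at r1 r2
  have p6 := p 6
  have p8 := p 8
  have p9 := p 9
  simp [act, cf, conj_ut, up, h0, h1, h2, h3, e2, e3, m11, m12, m21, m22, e23, e32, e11, e22,
    e33] at p6 p8 p9
  rw [q4, one_mul] at r1 r2
  have e21 : g.2.1 2 1 = 0 := hu.mul_right_eq_zero.1 (by linear_combination r1)
  have e31 : g.2.1 3 1 = 0 := hu.mul_right_eq_zero.1 (by linear_combination r2)
  have e10 : g.2.1 1 0 = 0 := hu.mul_right_eq_zero.1 (by linear_combination p6)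
  have e30 : g.2.1 3 0 = 0 := hu.mul_right_eq_zero.1 (by linear_combination p9)
  have e20 : g.2.1 2 0 = 0 := hu.mul_right_eq_zero.1 (by rw [e31] at p8; linear_combination -p8)
  obtain ⟨t, rfl⟩ := hs
  have hν' : ((t⁻¹ : Rˣ) : R) ^ 2 = ν := by
    have h := t.mul_inv
    linear_combination -((t⁻¹ : Rˣ) : R) ^ 2 * q4 + (ν * ((t : R) * (t⁻¹ : Rˣ) + 1)) * h
  refine ⟨t, Prod.ext (Units.ext ?_) (Units.ext ?_)⟩
  · rw [scal_fst_val, Units.val_pow_eq_pow_val, hν']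
    ext i j
    fin_cases i <;> fin_cases j <;> simp [m11, m12, m21, m22]
  · rw [scal_snd_val]
    ext i j
    fin_cases i <;> fin_cases j <;>
      simp [h0, h1, h2, h3, e2, e3, e23, e32, e11, e22, e33, e21, e31, e10, e20, e30]

end SelAvg.Q4
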