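import Pool.Agent.H94Q.Nf
import Pool.Agent.H94Q.Lift

/-! Row SIG: the chord map. -/

namespace SelAvg.Q4

open WeierstrassCurve Matrix

variable {L L' : Type*} [Field L] [Field L'] {f : M4 L} {Q Q' : P4 L} {T T' : Pt L}

lemma SIG_indep_e01 : Indep (e0 : P4 L) e1 := fun a b h =>
  ⟨by simpa [e0, e1] using congrFun h 0, by simpa [e0, e1] using congrFun h 1⟩

lemma SIG_line_symm {c : QF L} {u v : P4 L} {y : L} (h : Line c u v y) : Line c v u y := by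
  obtain ⟨s, h1, h2, h3⟩ := h
  exact ⟨s, h2, h1, h3⟩

lemma SIG_line_smul {c : QF L} {u v : P4 L} {y : L} (h : Line c u v y) (a b : L) :
    Line c (a • u) (b • v) y := by
  obtain ⟨s, h1, h2, h3⟩ := h
  exact ⟨s, by rw [mulVec_smul, h1, smul_zero], by rw [mulVec_smul, h2, smul_zero], h3⟩

lemma SIG_line_sc {c : QF L} {u v : P4 L} {y : L} (h : Line c u v y) (t : L) :
    Line (t • c) u v (t ^ 2 * y) := by
  obtain ⟨s, h1, h2, h3⟩ := h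
  refine ⟨t • s, ?_, ?_, ?_⟩
  · rw [ut_smul, alt_smul, ← smul_add, smul_mulVec, h1, smul_zero]
  · rw [ut_smul, alt_smul, ← smul_add, smul_mulVec, h2, smul_zero]
  · rw [h3]; simp [pf2, off]; ring

lemma SIG_line_map {c : QF L} {u v : P4 L} {y : L} (h : Line c u v y) (φ : L →+* L') :
    Line (φ ∘ c) (φ ∘ u) (φ ∘ v) (φ y) := by
  obtain ⟨s, h1, h2, h3⟩ := h
  have e : ut (φ ∘ c) + alt (φ ∘ s) = (ut c + alt s).map φ := by
    ext i j; fin_cases i <;> fin_cases j <;> simp [ut, alt]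
  have key : ∀ w : P4 L, (ut c + alt s) *ᵥ w = 0 → (ut (φ ∘ c) + alt (φ ∘ s)) *ᵥ (φ ∘ w) = 0 :=
    fun w hw => by
      funext i
      rw [e, ← RingHom.map_mulVec, hw]; simp
  exact ⟨φ ∘ s, key u h1, key v h2, by rw [h3]; simp [pf2, off]⟩

lemma SIG_line_move {c : QF L} {g : G4 L} {y : L} (h : Line c (pt g e0) (pt g e1) y) :
    act g.2.1 c 0 = 0 ∧ act g.2.1 c 1 = 0 ∧ act g.2.1 c 4 = 0 ∧
      g.2.1.det * y - shq g.2.1 c = 0 :=
  Line.e01.1 (Line.act (g := g.2.1) h)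

lemma SIG_line_eq {c : QF L} {u v : P4 L} {y : L} (hi : Indep u v) (h : Line c u v y) :
    y ^ 2 + PP c * y - QQ c = 0 := by
  obtain ⟨g, -, rfl, rfl⟩ := exists_move2 hi
  obtain ⟨h0, h1, h4, hy⟩ := SIG_line_move h
  have hq : QQ (act g.2.1 c) = 0 := by simp [QQ, QM, h0, h1, h4]
  have ha := QQ_act g.2.1 c
  have hd : g.2.1.det ≠ 0 := (det4u g).ne_zero
  rw [hq] at ha
  refine mul_left_cancel₀ (pow_ne_zero 2 hd) ?_
  linear_combination ha + (g.2.1.det * y + shq g.2.1 c + g.2.1.det * PP c) * hy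

lemma SIG_line_exists {c : QF L} {u v : P4 L} (hi : Indep u v) (hu : qv c u = 0) (hv : qv c v = 0)
    (huv : pol c u v = 0) : ∃ y, Line c u v y := by
  obtain ⟨g, -, rfl, rfl⟩ := exists_move2 hi
  have h : Line (act g.2.1 c) e0 e1 0 := by
    refine Line.e01.2 ⟨?_, ?_, ?_, rfl⟩
    · exact (qv_e0 (act g.2.1 c)).symm.trans ((qv_act _ _ _).trans hu)
    · have := pol_act g.2.1 c e0 e1
      rw [show pol c (e0 ᵥ* g.2.1) (e1 ᵥ* g.2.1) = 0 from huv] at this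
      simpa [pol, e0, e1] using this
    · have := qv_act g.2.1 c e1
      rw [show qv c (e1 ᵥ* g.2.1) = 0 from hv] at this
      simpa [qv, e1] using this
  have h' : Line (act g.2.1 c) (pt g e0 ᵥ* g⁻¹.2.1) (pt g e1 ᵥ* g⁻¹.2.1) 0 := by
    have e₀ : pt g e0 ᵥ* g⁻¹.2.1 = e0 := inv_pt_pt g e0
    have e₁ : pt g e1 ᵥ* g⁻¹.2.1 = e1 := inv_pt_pt g e1
    rwa [e₀, e₁]
  have h'' := h'.act
  rw [← act_mul, show g⁻¹.2.1 * g.2.1 = 1 from g.2.inv_mul, act_one] at h''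
  exact ⟨_, h''⟩

lemma SIG_indep_smul {u v : P4 L} (h : Indep u v) {a b : L} (ha : a ≠ 0) (hb : b ≠ 0) :
    Indep (a • u) (b • v) := fun x y e => by
  have := h (x * a) (y * b) (by rwa [← smul_smul, ← smul_smul])
  exact ⟨(mul_eq_zero.1 this.1).resolve_right ha, (mul_eq_zero.1 this.2).resolve_right hb⟩

lemma SIG_indep_map {u v : P4 L} (h : Indep u v) (φ : L →+* L') : Indep (φ ∘ u) (φ ∘ v) := by
  obtain ⟨g, -, rfl, rfl⟩ := exists_move2 h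
  rw [← map_pt, ← map_pt, map_e0, map_e1]
  exact SIG_indep_e01.pt _

lemma SIG_chord_pt (g : G4 L) (f : M4 L) (Q Q' : P4 L) (T : Pt L)
    (h : Chord f (pt g Q) (pt g Q') ((hh g f).pt T)) : Chord (g • f) Q Q' T := by
  obtain ⟨hp, v, ⟨hi, hd⟩, hl⟩ := h
  obtain ⟨v, rfl⟩ : ∃ w, v = pt g w := ⟨pt g⁻¹ v, (pt_inv_pt g v).symm⟩
  refine ⟨by simpa using hp.pt (hh g f)⁻¹, v, ⟨by simpa [inv_pt_pt] using hi.pt g⁻¹, ?_⟩, ?_⟩
  · rcases hd with hd | ⟨he, ht⟩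
    · exact Or.inl (pt_injective g hd)
    · exact Or.inr ⟨by simpa [inv_pt_pt] using he.pt g⁻¹, (tan_pt g f Q v).1 ht⟩
  · have h1 := Line.act (g := g.2.1) hl
    rw [pen_smul]
    simp only [G.pt, hh_r, G.m11, G.m12, G.m21, G.m22, hh_M, hh_μ, ← det4u_val] at h1
    have hu : (det4u g : L) * ((det4u g)⁻¹ : Lˣ) = 1 := Units.mul_inv _
    convert h1 using 1
    generalize shq g.2.1 _ = w
    linear_combination (-T.y - w) * hu

lemma SIG_line_up {m : Model L} {x z y : L} {v : P4 L} (h : Line (pen (up m) x z) e0 v y) :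
    ∃ s3 s4 s5 : L, z * v 2 - x * v 3 = 0 ∧
      -z * v 1 + (-m.l * x - m.m * z + s3) * v 2 + (-m.n * z + s4) * v 3 = 0 ∧
      -s3 * v 1 + (m.b * x + m.c * z) * v 2 + (m.d * z + s5) * v 3 = 0 ∧
      -s4 * v 1 - s5 * v 2 + m.e * z * v 3 = 0 ∧ y = -z * s4 - x * s3 := by
  obtain ⟨s, h1, h2, h3⟩ := h
  have a1 := congrFun h1 1
  have a2 := congrFun h1 2
  have a3 := congrFun h1 3
  have b0 := congrFun h2 0
  have b1 := congrFun h2 1
  have b2 := congrFun h2 2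
  have b3 := congrFun h2 3
  simp [mulVec, dotProduct, Fin.sum_univ_four, ut, alt, e0] at a1 a2 a3
  simp [mulVec, dotProduct, Fin.sum_univ_four, ut, alt, pen, up, a1, a2, a3] at b0 b1 b2 b3
  simp [pf2, off, pen, up, a1, a2, a3] at h3
  exact ⟨s 3, s 4, s 5, by linear_combination b0, by linear_combination b1,
    by linear_combination b2, by linear_combination b3, by linear_combination h3⟩

lemma SIG_on_up {m : Model L} {Q : P4 L} : Zero (up m) Q ↔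
    -(Q 0 * Q 3) - m.l * Q 1 * Q 2 + m.b * Q 2 ^ 2 = 0 ∧
      Q 0 * Q 2 - Q 1 ^ 2 - m.m * Q 1 * Q 2 - m.n * Q 1 * Q 3 + m.c * Q 2 ^ 2 + m.d * Q 2 * Q 3
        + m.e * Q 3 ^ 2 = 0 := by
  have e₀ : qv (up m 0) Q = -(Q 0 * Q 3) - m.l * Q 1 * Q 2 + m.b * Q 2 ^ 2 := by
    simp [qv, up]; ring
  have e₁ : qv (up m 1) Q = Q 0 * Q 2 - Q 1 ^ 2 - m.m * Q 1 * Q 2 - m.n * Q 1 * Q 3
      + m.c * Q 2 ^ 2 + m.d * Q 2 * Q 3 + m.e * Q 3 ^ 2 := by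
    simp [qv, up]; ring
  rw [Zero, Fin.forall_fin_two, e₀, e₁]

/-- `Line.act` (apply it to `g⁻¹` for the other direction), `pen_smul`, `hh_r` -/
theorem chord_pt (g : G4 L) (f : M4 L) (Q Q' : P4 L) (T : Pt L) :
    Chord f (pt g Q) (pt g Q') ((hh g f).pt T) ↔ Chord (g • f) Q Q' T := by
  refine ⟨SIG_chord_pt g f Q Q' T, fun h => ?_⟩
  have e : (hh g⁻¹ (g • f)).pt ((hh g f).pt T) = T := by
    have := hh_mul g g⁻¹ (g • f)
    rw [inv_smul_smul, mul_inv_cancel, hh_one] at this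
    rw [← G.mul_pt, ← this, G.one_pt]
  have := SIG_chord_pt g⁻¹ (g • f) (pt g Q) (pt g Q') ((hh g f).pt T)
    (by rwa [inv_pt_pt, inv_pt_pt, e])
  rwa [inv_smul_smul] at this

/-- move the line to `e0 e1` (`exists_move2`), `Line.e01`, `QQ c = 0` if `c 0 = c 1 = c 4 = 0` -/
theorem Chord.on (h : Chord f Q Q' T) : (red f).On T := by
  obtain ⟨hp, v, ⟨hi, -⟩, hl⟩ := h
  exact ⟨hp, by rw [Model.F, red_q, red_g]; exact SIG_line_eq hi hl⟩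

theorem Chord.sc (h : Chord f Q Q' T) (e : T.Eqv T') : Chord f Q Q' T' := by
  obtain ⟨hp, v, hd, hl⟩ := h
  obtain ⟨t, ht, rfl⟩ := e
  refine ⟨hp.imp (mul_ne_zero ht) (mul_ne_zero ht), v, hd, ?_⟩
  have e : pen f (T.sc t).x (T.sc t).z = t • pen f T.x T.z := by
    funext i; simp [pen]; ring
  rw [e]
  exact SIG_line_sc hl t

theorem Chord.eqv {Q₁ Q₁' : P4 L} (h : Chord f Q Q' T) (e : Eqv Q Q₁) (e' : Eqv Q' Q₁') :
    Chord f Q₁ Q₁' T := by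
  obtain ⟨hp, v, ⟨hi, hd⟩, hl⟩ := h
  rcases hd with rfl | ⟨he, ht⟩
  · obtain ⟨a, ha, rfl⟩ := e
    obtain ⟨b, hb, rfl⟩ := e'
    exact ⟨hp, b • v, ⟨SIG_indep_smul hi ha hb, Or.inl rfl⟩, SIG_line_smul hl a b⟩
  · have he' := (e.symm.trans he).trans e'
    obtain ⟨a, ha, rfl⟩ := e
    refine ⟨hp, (1 : L) • v, ⟨SIG_indep_smul hi ha one_ne_zero, Or.inr ⟨he', fun i => ?_⟩⟩,
      SIG_line_smul hl a 1⟩
    rw [one_smul, pol_smul_left, ht i, mul_zero]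

theorem Chord.symm (h : Chord f Q Q' T) : Chord f Q' Q T := by
  obtain ⟨hp, v, ⟨hi, hd⟩, hl⟩ := id h
  rcases hd with rfl | ⟨he, -⟩
  · exact ⟨hp, Q, ⟨hi.symm, Or.inl rfl⟩, SIG_line_symm hl⟩
  · exact h.eqv he he.symm

theorem Chord.map (h : Chord f Q Q' T) (φ : L →+* L') :
    Chord (mapM φ f) (φ ∘ Q) (φ ∘ Q') (T.map φ) := by
  obtain ⟨hp, v, ⟨hi, hd⟩, hl⟩ := h
  refine ⟨(Pt.prim_map φ).2 hp, φ ∘ v, ⟨SIG_indep_map hi φ, ?_⟩, ?_⟩
  · rcases hd with rfl | ⟨he, ht⟩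
    · exact Or.inl rfl
    · exact Or.inr ⟨he.map φ, fun i => (pol_map φ _ _ _).trans (by rw [ht i, map_zero])⟩
  · rw [Pt.map_x, Pt.map_z, Pt.map_y, pen_map]
    exact SIG_line_map hl φ

theorem chord_up_std (m : Model L) : Chord (up m) e0 e0 Pt.std := by
  refine ⟨Pt.prim_std, e1, ⟨SIG_indep_e01, Or.inr ⟨Eqv.refl _, fun i => ?_⟩⟩,
    Line.e01.2 ⟨?_, ?_, ?_, rfl⟩⟩
  · fin_cases i <;> simp [pol, up, e0, e1]
  all_goals simp [pen, up]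

/-- the explicit chord point on a normal form -/
def sigU (m : Model L) (Q : P4 L) : Pt L := ⟨Q 2, Q 3, -Q 1 * Q 3 - m.q (Q 2) (Q 3)⟩

lemma eqv_e0_iff {m : Model L} (hQ : On (up m) Q) : Eqv e0 Q ↔ Q 2 = 0 ∧ Q 3 = 0 := by
  constructor
  · rintro ⟨t, -, rfl⟩
    simp [e0]
  · rintro ⟨h2, h3⟩
    have h1 : Q 1 = 0 := by
      have := (SIG_on_up.1 hQ.eq).2
      simpa [h2, h3] using this
    have e : Q = Q 0 • e0 := by
      funext i; fin_cases i <;> simp [e0, h1, h2, h3]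
    exact ⟨Q 0, fun h0 => hQ.prim (by rw [e, h0, zero_smul]), e⟩

theorem chord_up {m : Model L} (hQ : On (up m) Q) (hne : ¬Eqv e0 Q) :
    Chord (up m) e0 Q (sigU m Q) := by
  have hp : (sigU m Q).Prim := by
    rw [eqv_e0_iff hQ, not_and_or] at hne
    exact hne
  have hi : Indep e0 Q := fun a b e => by
    have h2 := congrFun e 2
    have h3 := congrFun e 3
    have hb : b = 0 := by
      rcases hp with hp | hp
      · simpa [e0, show Q 2 ≠ 0 from hp] using h2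
      · simpa [e0, show Q 3 ≠ 0 from hp] using h3
    exact ⟨by simpa [e0, hb] using congrFun e 0, hb⟩
  obtain ⟨y, hy⟩ := SIG_line_exists (c := pen (up m) (Q 2) (Q 3)) hi
    (by rw [qv_pen, zero_up m 0, zero_up m 1]; simp) (by rw [qv_pen, hQ.eq 0, hQ.eq 1]; simp)
    (by simp [pol, pen, up, e0]; ring)
  obtain ⟨s3, s4, s5, -, h1, -, -, h⟩ := SIG_line_up hy
  have e : y = (sigU m Q).y := by
    simp only [sigU, Model.q]
    linear_combination h - h1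
  exact ⟨hp, Q, ⟨hi, Or.inl rfl⟩, e ▸ hy⟩

lemma SIG_std_eqv {m : Model L} (he : Eqv e0 Q) (h : Chord (up m) e0 Q T) :
    (Pt.std : Pt L).Eqv T := by
  obtain ⟨hp, v, ⟨hi, hd⟩, hl⟩ := h
  rcases hd with rfl | ⟨-, ht⟩
  · obtain ⟨t, -, rfl⟩ := he
    exact absurd (hi t (-1) (by simp)).2 (by simp)
  · have h3 : v 3 = 0 := by simpa [pol, up, e0] using ht 0
    have h2 : v 2 = 0 := by simpa [pol, up, e0] using ht 1
    have h1 : v 1 ≠ 0 := fun h1 => by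
      refine absurd (hi (v 0) (-1) ?_).2 (by simp)
      funext i; fin_cases i <;> simp [e0, h1, h2, h3]
    obtain ⟨s3, s4, s5, -, a1, a2, a3, hy⟩ := SIG_line_up hl
    simp only [h2, h3, mul_zero, add_zero, sub_zero, mul_eq_zero, h1, or_false, neg_eq_zero]
      at a1 a2 a3
    refine ⟨T.x, hp.resolve_right (not_not.2 a1), ?_⟩
    ext <;> simp [a1, hy, a2]

lemma SIG_sigU_eqv {m : Model L} (hQ : On (up m) Q) (he : ¬Eqv e0 Q) (h : Chord (up m) e0 Q T) :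
    (sigU m Q).Eqv T := by
  obtain ⟨hp, v, ⟨-, hd⟩, hl⟩ := h
  obtain rfl : v = Q := hd.resolve_right fun h => he h.1
  rw [eqv_e0_iff hQ, not_and_or] at he
  obtain ⟨s3, s4, s5, a0, a1, -, -, hy⟩ := SIG_line_up hl
  obtain ⟨t, hx, hz⟩ : ∃ t, T.x = t * v 2 ∧ T.z = t * v 3 := by
    rcases he with he | he
    · exact ⟨T.x / v 2, by field_simp, by field_simp; linear_combination a0⟩
    · exact ⟨T.z / v 3, by field_simp; linear_combination -a0, by field_simp⟩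
  refine ⟨t, fun h0 => ?_, ?_⟩
  · rcases hp with hp | hp
    · exact hp (by rw [hx, h0, zero_mul])
    · exact hp (by rw [hz, h0, zero_mul])
  · ext
    · exact hx
    · exact hz
    · rw [hx, hz] at a1 hy
      simp only [sigU, Model.q, Pt.sc_y]
      linear_combination hy - t * a1

theorem chord_exists (hΔ : (red f).jac.Δ ≠ 0) (hQ : On f Q) (hQ' : On f Q') :
    ∃ T, Chord f Q Q' T := by
  obtain ⟨g, m, -, -, hg, rfl⟩ := good_of_Delta hΔ hQ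
  obtain ⟨Q₁, rfl⟩ : ∃ w, Q' = pt g w := ⟨pt g⁻¹ Q', (pt_inv_pt g Q').symm⟩
  rw [on_pt, hg] at hQ'
  by_cases he : Eqv e0 Q₁
  · exact ⟨_, (chord_pt g f e0 Q₁ _).2 (hg ▸ (chord_up_std m).eqv (Eqv.refl _) he)⟩
  · exact ⟨_, (chord_pt g f e0 Q₁ _).2 (hg ▸ chord_up hQ' he)⟩

/-- the line is unique (smoothness), the member is unique (`sq_dvd_of_line`), `y` is unique -/
theorem Chord.unique (hΔ : (red f).jac.Δ ≠ 0) (hQ : On f Q) (hQ' : On f Q') (h : Chord f Q Q' T)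
    (h' : Chord f Q Q' T') : T.Eqv T' := by
  obtain ⟨g, m, -, -, hg, rfl⟩ := good_of_Delta hΔ hQ
  obtain ⟨Q₁, rfl⟩ : ∃ w, Q' = pt g w := ⟨pt g⁻¹ Q', (pt_inv_pt g Q').symm⟩
  obtain ⟨T₁, rfl⟩ : ∃ w, T = (hh g f).pt w := ⟨_, (G.pt_inv_pt _ T).symm⟩
  obtain ⟨T₂, rfl⟩ : ∃ w, T' = (hh g f).pt w := ⟨_, (G.pt_inv_pt _ T').symm⟩
  rw [on_pt, hg] at hQ'
  rw [chord_pt, hg] at h h'
  by_cases he : Eqv e0 Q₁
  · exact ((SIG_std_eqv he h).symm.trans (SIG_std_eqv he h')).pt _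
  · exact ((SIG_sigU_eqv hQ' he h).symm.trans (SIG_sigU_eqv hQ' he h')).pt _

theorem chord_sig (hΔ : (red f).jac.Δ ≠ 0) (hQ : On f Q) (hQ' : On f Q') :
    Chord f Q Q' (sig f Q Q') := sig_spec (chord_exists hΔ hQ hQ')

theorem sig_on (hΔ : (red f).jac.Δ ≠ 0) (hQ : On f Q) (hQ' : On f Q') :
    (red f).On (sig f Q Q') := (chord_sig hΔ hQ hQ').on

theorem Chord.sig_eqv (hΔ : (red f).jac.Δ ≠ 0) (hQ : On f Q) (hQ' : On f Q')
    (h : Chord f Q Q' T) : (sig f Q Q').Eqv T := (chord_sig hΔ hQ hQ').unique hΔ hQ hQ' h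

theorem sig_symm (hΔ : (red f).jac.Δ ≠ 0) (hQ : On f Q) (hQ' : On f Q') :
    (sig f Q Q').Eqv (sig f Q' Q) := (chord_sig hΔ hQ' hQ).symm.sig_eqv hΔ hQ hQ'

theorem sig_eqv (hΔ : (red f).jac.Δ ≠ 0) (hQ : On f Q) (hQ' : On f Q') {Q₁ Q₁' : P4 L}
    (e : Eqv Q Q₁) (e' : Eqv Q' Q₁') : (sig f Q Q').Eqv (sig f Q₁ Q₁') :=
  ((chord_sig hΔ (hQ.eqv e) (hQ'.eqv e')).eqv e.symm e'.symm).sig_eqv hΔ hQ hQ'

theorem sig_pt (hΔ : (red f).jac.Δ ≠ 0) (g : G4 L) (hQ : On (g • f) Q) (hQ' : On (g • f) Q') :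
    (sig f (pt g Q) (pt g Q')).Eqv ((hh g f).pt (sig (g • f) Q Q')) :=
  ((chord_pt g f Q Q' _).2 (chord_sig ((Delta_smul4 g f).2 hΔ) hQ hQ')).sig_eqv hΔ
    ((on_pt g f Q).2 hQ) ((on_pt g f Q').2 hQ')

theorem sig_map (hΔ : (red f).jac.Δ ≠ 0) (φ : L →+* L') (hQ : On f Q) (hQ' : On f Q') :
    (sig (mapM φ f) (φ ∘ Q) (φ ∘ Q')).Eqv ((sig f Q Q').map φ) :=
  ((chord_sig hΔ hQ hQ').map φ).sig_eqv
    (by rw [red_map, Model.jac_map, map_Δ]; exact (map_ne_zero φ).2 hΔ)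
    ((on_map φ f Q).2 hQ) ((on_map φ f Q').2 hQ')

lemma SIG_not_std {m : Model L} (hlb : m.l ≠ 0 ∨ m.b ≠ 0) (hQ : On (up m) Q) :
    ¬(Pt.std : Pt L).Eqv (sigU m Q) := by
  rintro ⟨t, ht, e⟩
  have hx : Q 2 = t := by simpa [sigU] using congrArg Pt.x e
  have hz : Q 3 = 0 := by simpa [sigU] using congrArg Pt.z e
  have hl : m.l = 0 := by simpa [sigU, Model.q, hx, hz, ht] using congrArg Pt.y e
  have hb : m.b = 0 := by simpa [hx, hz, hl, ht] using (SIG_on_up.1 hQ.eq).1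
  exact hlb.elim (fun h => h hl) (fun h => h hb)

lemma SIG_inj_up {m : Model L} (hlb : m.l ≠ 0 ∨ m.b ≠ 0) {P₁ P₂ : P4 L} (h₁ : On (up m) P₁)
    (h₂ : On (up m) P₂) (c₁ : Chord (up m) e0 P₁ T) (c₂ : Chord (up m) e0 P₂ T) : Eqv P₁ P₂ := by
  by_cases e₁ : Eqv e0 P₁ <;> by_cases e₂ : Eqv e0 P₂
  · exact e₁.symm.trans e₂
  · exact absurd ((SIG_std_eqv e₁ c₁).trans (SIG_sigU_eqv h₂ e₂ c₂).symm) (SIG_not_std hlb h₂)
  · exact absurd ((SIG_std_eqv e₂ c₂).trans (SIG_sigU_eqv h₁ e₁ c₁).symm) (SIG_not_std hlb h₁)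
  obtain ⟨t, ht, e⟩ := (SIG_sigU_eqv h₁ e₁ c₁).trans (SIG_sigU_eqv h₂ e₂ c₂).symm
  have hx : P₂ 2 = t * P₁ 2 := congrArg Pt.x e
  have hz : P₂ 3 = t * P₁ 3 := congrArg Pt.z e
  have hy := congrArg Pt.y e
  simp only [sigU, Model.q, Pt.sc_y, hx, hz] at hy
  obtain ⟨a₁, b₁⟩ := SIG_on_up.1 h₁.eq
  obtain ⟨a₂, b₂⟩ := SIG_on_up.1 h₂.eq
  rw [hx, hz] at a₂ b₂
  rw [eqv_e0_iff h₁, not_and_or] at e₁
  have key : P₂ 1 = t * P₁ 1 ∧ P₂ 0 = t * P₁ 0 := by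
    by_cases h3 : P₁ 3 = 0
    · have h2 : P₁ 2 ≠ 0 := e₁.resolve_right (not_not.2 h3)
      rw [h3] at a₁ b₁ a₂ b₂
      have hl : m.l ≠ 0 := fun hl => by
        refine hlb.elim (fun h => h hl) fun h => mul_ne_zero h (pow_ne_zero 2 h2) ?_
        rw [hl] at a₁
        linear_combination a₁
      have k1 : P₂ 1 = t * P₁ 1 := mul_left_cancel₀ (mul_ne_zero hl (mul_ne_zero ht h2))
        (by linear_combination t ^ 2 * a₁ - a₂)
      rw [k1] at b₂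
      exact ⟨k1, mul_left_cancel₀ (mul_ne_zero ht h2) (by linear_combination b₂ - t ^ 2 * b₁)⟩
    · have k1 : P₂ 1 = t * P₁ 1 := mul_left_cancel₀ (mul_ne_zero ht h3)
        (by linear_combination -hy)
      rw [k1] at a₂
      exact ⟨k1, mul_left_cancel₀ (mul_ne_zero ht h3) (by linear_combination t ^ 2 * a₁ - a₂)⟩
  refine ⟨t, ht, ?_⟩
  funext i
  fin_cases i
  exacts [key.2, key.1, hx, hz]

lemma SIG_surj_up {m : Model L} (ha : m.a = 0) (hT : m.On T) :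
    ∃ P, On (up m) P ∧ Chord (up m) e0 P T := by
  have hF := hT.eq
  simp only [Model.F, Model.q, Model.g, ha] at hF
  have fin : ∀ P : P4 L, Zero (up m) P → sigU m P = T → ∃ P, On (up m) P ∧ Chord (up m) e0 P T :=
    fun P hP e => by
      have hp : P 2 ≠ 0 ∨ P 3 ≠ 0 := by
        have := hT.prim
        rw [← e] at this
        exact this
      have hP' : On (up m) P := ⟨fun h0 => by simp [h0] at hp, hP⟩
      exact ⟨P, hP', e ▸ chord_up hP' (by rw [eqv_e0_iff hP', not_and_or]; exact hp)⟩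
  by_cases hz : T.z = 0
  · have hx : T.x ≠ 0 := hT.prim.resolve_right (not_not.2 hz)
    by_cases hy : T.y = 0
    · exact ⟨e0, on_up m, (chord_up_std m).sc ⟨T.x, hx, by ext <;> simp [hz, hy]⟩⟩
    · rw [hz] at hF
      have hy' : T.y = -(m.l * T.x ^ 2) := mul_left_cancel₀ hy (by linear_combination hF)
      have hl : m.l ≠ 0 := fun hl => hy (by rw [hy', hl]; simp)
      refine fin ![((m.b * T.x / m.l) ^ 2 + m.m * (m.b * T.x / m.l) * T.x - m.c * T.x ^ 2) / T.x,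
        m.b * T.x / m.l, T.x, 0] (SIG_on_up.2 ⟨?_, ?_⟩) ?_
      · simp; field_simp; ring
      · simp; field_simp; ring
      · ext <;> simp [sigU, Model.q, hz, hy']
  · refine fin ![(-m.l * (-(T.y + m.q T.x T.z) / T.z) * T.x + m.b * T.x ^ 2) / T.z,
      -(T.y + m.q T.x T.z) / T.z, T.x, T.z] (SIG_on_up.2 ⟨?_, ?_⟩) ?_
    · simp; field_simp; ring
    · simp [Model.q]; field_simp; linear_combination -hF
    · ext <;> simp [sigU]
      field_simp; ring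

/-- On the normal form (`good_of_Delta`): `sigU` determines `x₁, x₀` if `x₃ ≠ 0`; if `x₃ = 0` then
`x₂ ≠ 0`, `l x₁ = b x₂`, `l ≠ 0`, the chord point is the conjugate of `std`. -/
theorem sig_inj (hΔ : (red f).jac.Δ ≠ 0) {Q₁ Q₂ : P4 L} (hQ : On f Q) (h₁ : On f Q₁)
    (h₂ : On f Q₂) (e : (sig f Q Q₁).Eqv (sig f Q Q₂)) : Eqv Q₁ Q₂ := by
  obtain ⟨g, m, -, hlb, hg, rfl⟩ := good_of_Delta hΔ hQ
  obtain ⟨P₁, rfl⟩ : ∃ w, Q₁ = pt g w := ⟨pt g⁻¹ Q₁, (pt_inv_pt g Q₁).symm⟩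
  obtain ⟨P₂, rfl⟩ : ∃ w, Q₂ = pt g w := ⟨pt g⁻¹ Q₂, (pt_inv_pt g Q₂).symm⟩
  have c₁ := chord_sig hΔ hQ h₁
  have c₂ := (chord_sig hΔ hQ h₂).sc e.symm
  obtain ⟨T, hT⟩ : ∃ w, sig f (pt g e0) (pt g P₁) = (hh g f).pt w := ⟨_, (G.pt_inv_pt _ _).symm⟩
  rw [hT, chord_pt, hg] at c₁ c₂
  rw [on_pt, hg] at h₁ h₂
  exact (SIG_inj_up hlb h₁ h₂ c₁ c₂).pt g

theorem sig_surj (hΔ : (red f).jac.Δ ≠ 0) (hQ : On f Q) (hT : (red f).On T) :
    ∃ Q', On f Q' ∧ (sig f Q Q').Eqv T := by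
  obtain ⟨g, m, ha, -, hg, rfl⟩ := good_of_Delta hΔ hQ
  obtain ⟨T₁, rfl⟩ : ∃ w, T = (hh g f).pt w := ⟨_, (G.pt_inv_pt _ T).symm⟩
  rw [Model.on_pt, ← red_smul, hg, red_up ha] at hT
  obtain ⟨P, hP, hc⟩ := SIG_surj_up ha hT
  have hP' : On f (pt g P) := by rwa [on_pt, hg]
  exact ⟨pt g P, hP', ((chord_pt g f e0 P T₁).2 (hg ▸ hc)).sig_eqv hΔ hQ hP'⟩

end SelAvg.Q4
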