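import Pool.Agent.H94Q.LangB
import Pool.Agent.H94Q.Sig

/-!
The theorem of Lang for nonsingular intersections of two quadrics, from the additivity of the chord
map.
-/

namespace SelAvg.Q4

open WeierstrassCurve Matrix
open scoped Classical

theorem l4_exists_on_of_add {κ K : Type*} [Field κ] [Fintype κ] [Field K] [Algebra κ K]
    [IsAlgClosed K] {f : M4 κ} (hΔ : (red (mapM (algebraMap κ K) f)).jac.Δ ≠ 0)
    (hadd : ∀ (W : WeierstrassCurve K) (z : Obj4 K), W.Δ ≠ 0 → z.Over W → ∀ Q Q₁ Q₂, On z.f Q →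
      On z.f Q₁ → On z.f Q₂ →
      D W z.two (sig z.f Q Q) (sig z.f Q₁ Q₂) = D4 W z Q Q₁ + D4 W z Q Q₂) :
    ∃ Q₀, LOn f Q₀ := by
  set φ := FF.T3.lgFr κ K
  set z : Obj4 K := ⟨mapM (algebraMap κ K) f, 1⟩ with hzd
  set W := (red (mapM (algebraMap κ K) f)).jac with hWd
  have hz : z.Over W := (one_smul _ _).symm
  have hz2 : z.two.Over W := hz
  have hf : mapM φ z.f = z.f := l4_map_fr f
  have hzφ : z.two.map φ = z.two := by
    rw [← Obj4.two_map]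
    exact congrArg Obj4.two (Obj4.ext hf (VariableChange.mapHom φ).map_one)
  have hW : W = W.map φ := by rw [hWd, ← Model.jac_map, ← red_map, l4_map_fr]
  have on : ∀ {Q}, On z.f Q → On z.f (φ ∘ Q) := fun {Q} h => by
    rw [← hf]; exact (on_map φ _ Q).2 h
  have so : ∀ {Q Q'}, On z.f Q → On z.f Q' → z.two.f.On (sig z.f Q Q') := fun h h' =>
    sig_on hΔ h h'
  have hD2 : ∀ {T T'}, z.two.f.On T → z.two.f.On T' →
      D W z.two (T.map φ) (T'.map φ) = pmap φ hW (D W z.two T T') := fun {T T'} h h' => by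
    apply toRaw_injective
    rw [toRaw_pmap, ← toRaw_D_map φ hΔ hz2 h h', hzφ]
    have : ∀ W', W = W' → toRaw (D W z.two (T.map φ) (T'.map φ)) =
      toRaw (D W' z.two (T.map φ) (T'.map φ)) := by rintro _ rfl; rfl
    exact this _ hW
  have hP2 : ∀ {T}, z.two.f.On T → piP W z.two (T.map φ) = pmap φ hW (piP W z.two T) :=
    fun {T} h => by
      apply toRaw_injective
      rw [toRaw_pmap, ← toRaw_piP_map φ hΔ hz2 h, hzφ]
      have : ∀ W', W = W' → toRaw (piP W z.two (T.map φ)) = toRaw (piP W' z.two (T.map φ)) := by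
        rintro _ rfl; rfl
      exact this _ hW
  have sm : ∀ {Q Q'}, On z.f Q → On z.f Q' →
      (sig z.f (φ ∘ Q) (φ ∘ Q')).Eqv ((sig z.f Q Q').map φ) := fun {Q Q'} h h' => by
    have := sig_map hΔ φ h h'
    rwa [show mapM φ (mapM (algebraMap κ K) f) = z.f from hf] at this
  have hD : ∀ {Q Q'}, On z.f Q → On z.f Q' →
      D4 W z (φ ∘ Q) (φ ∘ Q') = pmap φ hW (D4 W z Q Q') := fun {Q Q'} h h' => by
    rw [D4, D4, D_eqv hΔ hz2 (so (on h) (on h)) (so (on h) (on h')) (sm h h) (sm h h'),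
      hD2 (so h h) (so h h')]
  have hP : ∀ {Q}, On z.f Q →
      piP W z.two (sig z.f (φ ∘ Q) (φ ∘ Q)) = pmap φ hW (piP W z.two (sig z.f Q Q)) :=
    fun {Q} h => by rw [piP_eqv hΔ hz2 (so (on h) (on h)) (sm h h), hP2 (so h h)]
  have add : ∀ {Q Q' Q''}, On z.f Q → On z.f Q' → On z.f Q'' →
      D4 W z Q' Q'' = D4 W z Q Q'' - D4 W z Q Q' := fun {Q Q' Q''} h h' h'' => by
    have e := D_add hΔ hz2 (so h h) (so h' h') (so h' h'')
    rw [hadd W z hΔ hz _ _ _ h h' h', hadd W z hΔ hz _ _ _ h h' h''] at e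
    rw [eq_sub_iff_add_eq, add_comm]
    exact add_left_cancel (a := D4 W z Q Q') (by rw [← add_assoc]; exact e)
  obtain ⟨Q, hQ0⟩ := l4_exists_on z.f
  have hQ : On z.f Q := ⟨hQ0.1, hQ0.2⟩
  obtain ⟨S, hS⟩ := H5T.lang_four hΔ φ FF.T3.lg_fixed_finite hW (ξ := D4 W z Q (φ ∘ Q))
    (R := -piP W z.two (sig z.f Q Q)) (by
      have e := two_smul_D hΔ hz2 (so hQ hQ) (so (on hQ) (on hQ))
      rw [hadd W z hΔ hz _ _ _ hQ (on hQ) (on hQ), hP hQ] at e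
      rw [map_neg, sub_neg_eq_add, neg_add_eq_sub, ← e, ← two_nsmul, smul_smul]
      rfl)
  obtain ⟨T, hT, eT⟩ := D_surjective hΔ hz2 (so hQ hQ) (-S)
  obtain ⟨Q', hQ', eQ⟩ := sig_surj hΔ hQ hT
  have e : D4 W z Q Q' = -S := by
    rw [← eT]; exact D_eqv hΔ hz2 (so hQ hQ) (so hQ hQ') (Pt.Eqv.refl _) eQ
  have h0 : D4 W z Q' (φ ∘ Q') = 0 := by
    have e1 := add hQ (on hQ) (on hQ')
    rw [hD hQ hQ', hS, e, map_neg] at e1
    rw [add hQ hQ' (on hQ'), e, eq_sub_iff_add_eq.1 e1 |>.symm]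
    abel
  obtain ⟨t, -, ht⟩ := sig_inj hΔ hQ' hQ' (on hQ')
    ((D_eq_zero_iff hΔ hz2 (so hQ' hQ') (so hQ' (on hQ'))).1 h0)
  exact l4_rat ⟨hQ'.prim, hQ'.eq⟩ ht.symm

lemma l4_good' {L : Type*} [Field L] {f : M4 L} {Q : P4 L} (hQ : LOn f Q) (hs : ¬LSing f Q)
    (hd : ¬Deg f) : Good f Q := by
  obtain ⟨g, h, ha, hl, e, e'⟩ := l4_good hQ hs hd
  refine ⟨g, h, ha, hl, e, ?_⟩
  rw [← e']
  funext j
  simp [pt, e0, Matrix.vecMul, dotProduct, Fin.sum_univ_four]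

lemma Smooth.not_lSing {L : Type*} [Field L] {f : M4 L} {Q : P4 L} (h : Smooth f Q) :
    ¬LSing f Q := by
  rintro ⟨x, z, hxz, e⟩
  obtain ⟨u, w, h⟩ := h
  have e1 := e u
  have e2 := e w
  rw [pol_pen] at e1 e2
  rcases hxz with h' | h' <;> refine h (mul_left_cancel₀ h' ?_)
  · linear_combination pol (f 1) Q w * e1 - pol (f 1) Q u * e2
  · linear_combination pol (f 0) Q u * e2 - pol (f 0) Q w * e1

variable {L κ : Type*} [Field L] [Field κ] {V : LocalField L} {ρ : V.O →+* κ}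

/-- every smooth point of the reduction is good -/
theorem good_of_smooth [Finite κ] (hred : V.IsRed ρ 1) {p : ℕ} (hp : p.Prime) (hp0 : (p : L) = 0)
    {f : M4 V.O} (hΔ : ¬V.unif ^ 2 ∣ (red f).jac.Δ) {Q : P4 κ} (hQ : On (mapM ρ f) Q)
    (hs : Smooth (mapM ρ f) Q) : Good (mapM ρ f) Q :=
  l4_good' ⟨hQ.prim, hQ.eq⟩ hs.not_lSing fun h => hΔ (sq_dvd_of_deg hred hp hp0 f (RingHom.id κ) h)

theorem exists_good_of_add [Finite κ] (hred : V.IsRed ρ 1) {p : ℕ} (hp : p.Prime)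
    (hp0 : (p : L) = 0) {f : M4 V.O} (hΔ : ¬V.unif ^ 2 ∣ (red f).jac.Δ)
    (hadd : ∀ (W : WeierstrassCurve (AlgebraicClosure κ)) (z : Obj4 (AlgebraicClosure κ)),
      W.Δ ≠ 0 → z.Over W → ∀ Q Q₁ Q₂, On z.f Q → On z.f Q₁ → On z.f Q₂ →
      D W z.two (sig z.f Q Q) (sig z.f Q₁ Q₂) = D4 W z Q Q₁ + D4 W z Q Q₂) :
    ∃ Q, Good (mapM ρ f) Q := by
  have := Fintype.ofFinite κ
  obtain ⟨hd, Q, hQ, hs⟩ := exists_smooth_of_lang hred hp hp0 hΔ fun h => l4_exists_on_of_add h hadd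
  exact ⟨Q, l4_good' hQ hs hd⟩

end SelAvg.Q4
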