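import Pool.Agent.H94Q.Pt4
import Pool.Agent.H38Sel.LocC

/-! Row NF: degenerate patterns and the normal form of a pointed model. -/

namespace SelAvg.Q4

open WeierstrassCurve Matrix

variable {R : Type*} [CommRing R] {L : Type*} [Field L]

lemma nf_two_sing (f : Model R) {t : R} (hl : t ∣ f.l) (ha : t ^ 2 ∣ f.a) (hb : t ∣ f.b) :
    t ^ 2 ∣ f.jac.Δ := by
  obtain ⟨l, hl⟩ := hl
  obtain ⟨a, ha⟩ := ha
  obtain ⟨b, hb⟩ := hb
  refine walg_sq_dvd _ ⟨l * f.d + f.n * b, ?_⟩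
    ⟨-t * l ^ 2 * f.e - l * f.n * f.c - t * f.n ^ 2 * a - 4 * t * a * f.e + b * f.d, ?_⟩
    ⟨-l ^ 2 * f.c * f.e + l * f.m * b * f.e - l * f.n * b * f.d - f.m ^ 2 * a * f.e
      + f.m * f.n * a * f.d - f.n ^ 2 * a * f.c - 4 * a * f.c * f.e + a * f.d ^ 2
      + b ^ 2 * f.e, ?_⟩ <;>
    simp only [Model.jac, hl, ha, hb] <;> ring

lemma nf_two_red (f : Model R) {t : R} (ha : t ∣ f.a) (hb : t ∣ f.b) (hc : t ∣ f.c) (hd : t ∣ f.d)
    (he : t ∣ f.e) : t ^ 2 ∣ f.jac.Δ := by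
  obtain ⟨a, ha⟩ := ha
  obtain ⟨b, hb⟩ := hb
  obtain ⟨c, hc⟩ := hc
  obtain ⟨d, hd⟩ := hd
  obtain ⟨e, he⟩ := he
  refine walg_sq_dvd _ ⟨f.l * d + f.n * b, ?_⟩
    ⟨-f.l ^ 2 * e - f.l * f.n * c - f.n ^ 2 * a - 4 * t * a * e + t * b * d, ?_⟩
    ⟨-f.l ^ 2 * c * e + f.l * f.m * b * e - f.l * f.n * b * d - f.m ^ 2 * a * e
      + f.m * f.n * a * d - f.n ^ 2 * a * c - 4 * t * a * c * e + t * a * d ^ 2
      + t * b ^ 2 * e, ?_⟩ <;>
    simp only [Model.jac, ha, hb, hc, hd, he] <;> ring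

/-- the coefficients of `act g c` in terms of the rows of `g` -/
lemma nf_act (g : Mat R) (c : QF R) : act g c = ![qv c (g 0), pol c (g 0) (g 1), pol c (g 0) (g 2),
    pol c (g 0) (g 3), qv c (g 1), pol c (g 1) (g 2), pol c (g 1) (g 3), qv c (g 2),
    pol c (g 2) (g 3), qv c (g 3)] := by
  funext i
  fin_cases i <;> simp [act, cf, conj_ut, qv, pol] <;> ring

lemma nf_pt_e0 (g : G4 R) : pt g e0 = g.2.1 0 := by
  funext j; simp [pt, e0, vecMul, dotProduct, Fin.sum_univ_four]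

lemma nf_pt_e1 (g : G4 R) : pt g e1 = g.2.1 1 := by
  funext j; simp [pt, e1, vecMul, dotProduct, Fin.sum_univ_four]

lemma nf_pol_e0 (c : QF R) (u : P4 R) :
    pol c e0 u = 2 * c 0 * u 0 + c 1 * u 1 + c 2 * u 2 + c 3 * u 3 := by
  simp [pol, e0]

lemma nf_pol_e0_e1 (c : QF R) : pol c e0 e1 = c 1 := by simp [pol, e0, e1]

lemma nf_smul_fst (N : GL (Fin 2) R) (f : M4 R) (i : Fin 2) (j : Fin 10) :
    (((N, 1) : G4 R) • f) i j = N.1 i 0 * f 0 j + N.1 i 1 * f 1 j := by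
  rw [smul_apply]
  simp [act_one, pen]

lemma nf_smul_snd (M : GL (Fin 4) R) (f : M4 R) (i : Fin 2) :
    (((1, M) : G4 R) • f) i = act M.1 (f i) := by
  rw [smul_apply]
  fin_cases i <;> simp [pen]

/-- the first form is singular at `e0` modulo `c`: `l, b ∈ (c)`, `a ∈ (c^2)`, `walg_sq_dvd` -/
theorem sq_dvd_of_sing {f : M4 R} {c : R} (h0 : c ^ 2 ∣ f 0 0) (h0' : c ∣ f 1 0) (h1 : c ∣ f 0 1)
    (h2 : c ∣ f 0 2) (h3 : c ∣ f 0 3) : c ^ 2 ∣ (red f).jac.Δ := by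
  have hb : c ∣ (red f).b := by
    have h0'' : c ∣ f 0 0 := (dvd_pow_self c two_ne_zero).trans h0
    rw [← Ideal.Quotient.eq_zero_iff_dvd] at h0'' h0' h1 h2 h3 ⊢
    simp [red, QM, h0'', h0', h1, h2, h3]
  obtain ⟨u0, h0⟩ := h0
  obtain ⟨u1, h1⟩ := h1
  obtain ⟨u2, h2⟩ := h2
  obtain ⟨u3, h3⟩ := h3
  refine nf_two_sing _ ⟨u1 * f 0 8 - u2 * f 0 6 + u3 * f 0 5, ?_⟩
    ⟨4 * u0 * f 0 4 * f 0 7 * f 0 9 - u0 * f 0 4 * f 0 8 ^ 2 - u0 * f 0 7 * f 0 6 ^ 2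
      - u0 * f 0 9 * f 0 5 ^ 2 - f 0 4 * f 0 7 * u3 ^ 2 - f 0 4 * f 0 9 * u2 ^ 2
      - f 0 7 * f 0 9 * u1 ^ 2 + u0 * f 0 5 * f 0 6 * f 0 8 + f 0 4 * u2 * u3 * f 0 8
      + f 0 7 * u1 * u3 * f 0 6 + f 0 9 * u1 * u2 * f 0 5 - u1 * f 0 8 * u3 * f 0 5, ?_⟩ hb <;>
    simp only [red, P2, QM, h0, h1, h2, h3] <;> ring

/-- both forms contain the line `e0 e1` modulo `c`: `a, b, c, d, e ∈ (c)` -/
theorem sq_dvd_of_line {f : M4 R} {c : R} (h0 : ∀ i, c ∣ f i 0) (h1 : ∀ i, c ∣ f i 1)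
    (h4 : ∀ i, c ∣ f i 4) : c ^ 2 ∣ (red f).jac.Δ := by
  simp only [← Ideal.Quotient.eq_zero_iff_dvd] at h0 h1 h4
  refine nf_two_red _ ?_ ?_ ?_ ?_ ?_ <;> rw [← Ideal.Quotient.eq_zero_iff_dvd] <;>
    simp [red, QM, h0, h1, h4]

/-- the first form contains the plane `x₃ = 0` modulo `c`: `l, b ∈ (c)`, `a ∈ (c^2)` -/
theorem sq_dvd_of_plane {f : M4 R} {c : R} (h0 : c ∣ f 0 0) (h1 : c ∣ f 0 1) (h2 : c ∣ f 0 2)
    (h4 : c ∣ f 0 4) (h5 : c ∣ f 0 5) (h7 : c ∣ f 0 7) : c ^ 2 ∣ (red f).jac.Δ := by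
  have hb : c ∣ (red f).b := by
    rw [← Ideal.Quotient.eq_zero_iff_dvd] at h0 h1 h2 h4 h5 h7 ⊢
    simp [red, QM, h0, h1, h2, h4, h5, h7]
  obtain ⟨u0, h0⟩ := h0
  obtain ⟨u1, h1⟩ := h1
  obtain ⟨u2, h2⟩ := h2
  obtain ⟨u4, h4⟩ := h4
  obtain ⟨u5, h5⟩ := h5
  obtain ⟨u7, h7⟩ := h7
  refine nf_two_sing _ ⟨u1 * f 0 8 - u2 * f 0 6 + f 0 3 * u5, ?_⟩
    ⟨4 * c * u0 * u4 * u7 * f 0 9 - u0 * u4 * f 0 8 ^ 2 - u0 * u7 * f 0 6 ^ 2
      - c * u0 * f 0 9 * u5 ^ 2 - u4 * u7 * f 0 3 ^ 2 - c * u4 * f 0 9 * u2 ^ 2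
      - c * u7 * f 0 9 * u1 ^ 2 + u0 * u5 * f 0 6 * f 0 8 + u4 * u2 * f 0 3 * f 0 8
      + u7 * u1 * f 0 3 * f 0 6 + c * f 0 9 * u1 * u2 * u5 - u1 * f 0 8 * f 0 3 * u5, ?_⟩ hb <;>
    simp only [red, P2, QM, h0, h1, h2, h4, h5, h7] <;> ring

lemma sq_dvd_smul (g : G4 R) {f : M4 R} {c : R} (h : c ∣ (red (g • f)).jac.Δ) :
    c ∣ (red f).jac.Δ := by
  rw [jac_smul4, variableChange_Δ, ← Units.val_pow_eq_pow_val] at h
  exact Units.dvd_mul_left.1 h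

/-- a vector with a unit coordinate is the first row of an invertible matrix -/
theorem exists_move {Q : P4 R} (h : ∃ i, IsUnit (Q i)) : ∃ g : G4 R, g.1 = 1 ∧ pt g e0 = Q := by
  have key : ∀ r₁ r₂ r₃ : P4 R, IsUnit (Matrix.of ![Q, r₁, r₂, r₃]).det →
      ∃ g : G4 R, g.1 = 1 ∧ pt g e0 = Q := fun r₁ r₂ r₃ hu =>
    ⟨(1, GeneralLinearGroup.mk'' _ hu), rfl, nf_pt_e0 _⟩
  obtain ⟨i, hi⟩ := h
  fin_cases i
  · exact key ![0, 1, 0, 0] ![0, 0, 1, 0] ![0, 0, 0, 1] (by simpa [det4] using hi)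
  · exact key ![1, 0, 0, 0] ![0, 0, 1, 0] ![0, 0, 0, 1] (by simpa [det4] using hi)
  · exact key ![1, 0, 0, 0] ![0, 1, 0, 0] ![0, 0, 0, 1] (by simpa [det4] using hi)
  · exact key ![1, 0, 0, 0] ![0, 1, 0, 0] ![0, 0, 1, 0] (by simpa [det4] using hi)

theorem exists_move2 {u v : P4 L} (h : Indep u v) :
    ∃ g : G4 L, g.1 = 1 ∧ pt g e0 = u ∧ pt g e1 = v := by
  have h' : LinearIndependent L ![u, v] := LinearIndependent.pair_iff.2 h
  obtain ⟨x, hx⟩ := exists_linearIndependent_snoc_of_lt_finrank h' (by simp)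
  obtain ⟨y, hy⟩ := exists_linearIndependent_snoc_of_lt_finrank hx (by simp)
  have hM : IsUnit (Matrix.of ![u, v, x, y]) := by
    have e : (Matrix.of ![u, v, x, y]).row = Fin.snoc (Fin.snoc ![u, v] x) y := by
      funext i
      fin_cases i <;> rfl
    rw [← linearIndependent_rows_iff_isUnit, e]
    exact hy
  exact ⟨(1, hM.unit), rfl, nf_pt_e0 _, nf_pt_e1 _⟩

/-- an element over the residue field lifts, with prescribed first row -/
theorem exists_lift_G {κ : Type*} [Field κ] {θ : R →+* κ} (h : IsResidue θ) (g : G4 κ) {Q : P4 R}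
    (hQ : pt g e0 = θ ∘ Q) : ∃ k : G4 R, mapG θ k = g ∧ pt k e0 = Q := by
  obtain ⟨s, hs⟩ := h.surj.hasRightInverse
  have e1 : (g.1.1.map s).map θ = g.1.1 := by ext i j; exact hs _
  have e2 : ((g.2.1.map s).updateRow 0 Q).map θ = g.2.1 := by
    rw [nf_pt_e0] at hQ
    ext i j
    by_cases hi : i = 0
    · subst hi
      simpa using (congrFun hQ j).symm
    · simpa [updateRow_ne hi] using hs _
  have u1 : IsUnit (g.1.1.map s).det := by
    rw [h.unit, RingHom.map_det, RingHom.mapMatrix_apply, e1]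
    exact (Matrix.isUnits_det_units g.1).ne_zero
  have u2 : IsUnit ((g.2.1.map s).updateRow 0 Q).det := by
    rw [h.unit, RingHom.map_det, RingHom.mapMatrix_apply, e2]
    exact (Matrix.isUnits_det_units g.2).ne_zero
  refine ⟨(GeneralLinearGroup.mk'' _ u1, GeneralLinearGroup.mk'' _ u2),
    Prod.ext (Units.ext e1) (Units.ext e2), ?_⟩
  rw [nf_pt_e0]
  exact updateRow_self

theorem not_smooth_iff {f : M4 L} {Q : P4 L} :
    ¬Smooth f Q ↔ ∃ x z : L, (x ≠ 0 ∨ z ≠ 0) ∧ ∀ v, pol (pen f x z) Q v = 0 := by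
  simp only [Smooth, pol_pen, not_exists, not_not]
  constructor
  · intro h
    by_cases h0 : ∀ v, pol (f 0) Q v = 0
    · exact ⟨1, 0, Or.inl one_ne_zero, fun v => by rw [h0 v]; ring⟩
    · obtain ⟨u, hu⟩ := not_forall.1 h0
      exact ⟨-pol (f 1) Q u, pol (f 0) Q u, Or.inr hu, fun v => by linear_combination h u v⟩
  · rintro ⟨x, z, hxz, h⟩ u w
    rcases hxz with h0 | h0
    · exact mul_left_cancel₀ h0
        (by linear_combination pol (f 1) Q w * h u - pol (f 1) Q u * h w)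
    · exact mul_left_cancel₀ h0
        (by linear_combination pol (f 0) Q u * h w - pol (f 0) Q w * h u)

/-- the normal form is reached by an element fixing `e0` -/
def NfUp (f : M4 R) : Prop :=
  ∃ (g : G4 R) (m : Model R), m.a = 0 ∧ g • f = up m ∧ pt g e0 = e0

lemma NfUp.of_smul {f : M4 R} (k : G4 R) (hk : pt k e0 = e0) (h : NfUp (k • f)) : NfUp f := by
  obtain ⟨g, m, ha, hg, he⟩ := h
  exact ⟨g * k, m, ha, by rw [mul_smul, hg], by rw [mul_pt, he, hk]⟩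

lemma nf_step3 {f : M4 R} (h0 : ∀ i, f i 0 = 0) (h1 : ∀ i, f i 1 = 0) (a2 : f 0 2 = 0)
    (a3 : f 0 3 = -1) (a4 : f 0 4 = 0) (b2 : f 1 2 = 1) (b3 : f 1 3 = 0) (b4 : f 1 4 = -1) :
    NfUp f := by
  have hu : IsUnit (!![1, 0, 0, 0; f 0 6, 1, 0, 0; f 0 8, 0, 1, 0; f 0 9, 0, 0, 1] : Mat R).det := by
    simp [det4]
  refine ⟨(1, GeneralLinearGroup.mk'' _ hu), ⟨-f 0 5, -(f 1 5 + f 0 6), -f 1 6, 0, f 0 7,
    f 1 7 + f 0 8, f 1 8 + f 0 9, f 1 9⟩, rfl, ?_, ?_⟩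
  · funext i
    rw [nf_smul_snd, nf_act]
    funext j
    fin_cases i <;> fin_cases j <;>
      simp [up, qv, pol, h0, h1, a2, a3, a4, b2, b3, b4] <;> ring
  · rw [nf_pt_e0]
    rfl

lemma nf_step2 {f : M4 R} (h0 : ∀ i, f i 0 = 0) (h1 : ∀ i, f i 1 = 0)
    (hm : IsUnit (f 0 2 * f 1 3 - f 0 3 * f 1 2)) (a4 : f 0 4 = 0) (b4 : f 1 4 = -1) :
    NfUp f := by
  obtain ⟨w, hw⟩ := hm.exists_right_inv
  have hu : IsUnit (!![1, 0, 0, 0; 0, 1, 0, 0; 0, 0, -(w * f 0 3), w * f 0 2;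
      0, 0, -(w * f 1 3), w * f 1 2] : Mat R).det := by
    refine IsUnit.of_mul_eq_one (f 0 2 * f 1 3 - f 0 3 * f 1 2) ?_
    simp [det4]
    linear_combination (w * (f 0 2 * f 1 3 - f 0 3 * f 1 2) + 1) * hw
  refine NfUp.of_smul (1, GeneralLinearGroup.mk'' _ hu) (by rw [nf_pt_e0]; rfl)
    (nf_step3 (fun i => ?_) (fun i => ?_) ?_ ?_ ?_ ?_ ?_ ?_) <;>
    rw [nf_smul_snd, nf_act] <;> simp [qv, pol, h0, h1, a4, b4]
  · ring
  · linear_combination -hw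
  · linear_combination hw
  · ring

/-- `e0` on the curve, `e1` tangent.  Use `GL₂` on the pencil to get `a₂₂ = 0`, `b₂₂ = -1`, then
`GL₂` on `x₂, x₃` to get `(a₁₃, a₁₄, b₁₃, b₁₄) = (0, -1, 1, 0)`, then shift `x₀` by
`p x₁ + r x₂ + s x₃` to kill the coefficients of `x₁ x₃`, `x₂ x₃`, `x₃^2` in the first form. -/
theorem exists_up_std {f : M4 R} (h0 : ∀ i, f i 0 = 0) (h1 : ∀ i, f i 1 = 0)
    (hm : IsUnit (f 0 2 * f 1 3 - f 0 3 * f 1 2)) (h4 : IsUnit (f 0 4) ∨ IsUnit (f 1 4)) :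
    ∃ (g : G4 R) (m : Model R), m.a = 0 ∧ g • f = up m ∧ pt g e0 = e0 := by
  obtain ⟨r, s, hrs⟩ : ∃ r s : R, r * f 0 4 + s * f 1 4 = -1 := by
    rcases h4 with h | h <;> obtain ⟨w, hw⟩ := h.exists_left_inv
    · exact ⟨-w, 0, by linear_combination -hw⟩
    · exact ⟨0, -w, by linear_combination -hw⟩
  have hu : IsUnit (!![f 1 4, -f 0 4; r, s] : Matrix (Fin 2) (Fin 2) R).det := by
    refine IsUnit.of_mul_eq_one (-1) ?_
    rw [det_fin_two_of]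
    linear_combination -hrs
  refine NfUp.of_smul (GeneralLinearGroup.mk'' _ hu, 1) (by simp [pt])
    (nf_step2 (fun i => ?_) (fun i => ?_) ?_ ?_ ?_) <;> simp only [nf_smul_fst]
  · simp [h0]
  · simp [h1]
  · convert hm.neg using 1
    simp
    linear_combination (f 0 2 * f 1 3 - f 0 3 * f 1 2) * hrs
  · simp
    ring
  · simpa using hrs

/-- a point `e0` which is not good gives one of the three patterns -/
theorem not_good_e0 {f : M4 L} (h0 : Zero f e0) (h : ¬Good f e0) : ∃ g : G4 L, pt g e0 = e0 ∧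
    (((g • f) 0 1 = 0 ∧ (g • f) 0 2 = 0 ∧ (g • f) 0 3 = 0) ∨
      (∀ i, (g • f) i 1 = 0 ∧ (g • f) i 4 = 0) ∨
      ((g • f) 0 1 = 0 ∧ (g • f) 0 2 = 0 ∧ (g • f) 0 4 = 0 ∧ (g • f) 0 5 = 0 ∧ (g • f) 0 7 = 0)) := by
  have hz := zero_e0.1 h0
  by_cases hs : Smooth f e0
  · have hv : Indep (e0 : P4 L) ![0, f 0 2 * f 1 3 - f 0 3 * f 1 2, f 0 3 * f 1 1 - f 0 1 * f 1 3,
        f 0 1 * f 1 2 - f 0 2 * f 1 1] := by
      intro a b e
      refine ⟨by simpa [e0] using congrFun e 0, by_contra fun hb => ?_⟩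
      have e1 : f 0 2 * f 1 3 - f 0 3 * f 1 2 = 0 := by simpa [e0, hb] using congrFun e 1
      have e2 : f 0 3 * f 1 1 - f 0 1 * f 1 3 = 0 := by simpa [e0, hb] using congrFun e 2
      have e3 : f 0 1 * f 1 2 - f 0 2 * f 1 1 = 0 := by simpa [e0, hb] using congrFun e 3
      obtain ⟨u, w, huw⟩ := hs
      apply huw
      simp only [nf_pol_e0, hz]
      linear_combination (u 2 * w 3 - u 3 * w 2) * e1 + (u 3 * w 1 - u 1 * w 3) * e2
        + (u 1 * w 2 - u 2 * w 1) * e3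
    obtain ⟨g, -, g0, g1⟩ := exists_move2 hv
    have z0 : ∀ i, (g • f) i 0 = 0 := zero_e0.1 ((zero_pt g f e0).1 (by rwa [g0]))
    have z1 : ∀ i, (g • f) i 1 = 0 := fun i => by
      refine (nf_pol_e0_e1 _).symm.trans ((tan_pt g f e0 e1).1 (fun i => ?_) i)
      rw [g0, g1, nf_pol_e0]
      fin_cases i <;> simp <;> ring
    by_cases h4 : ∀ i, (g • f) i 4 = 0
    · exact ⟨g, g0, Or.inr (Or.inl fun i => ⟨z1 i, h4 i⟩)⟩
    have hm : (g • f) 0 2 * (g • f) 1 3 - (g • f) 0 3 * (g • f) 1 2 ≠ 0 := fun e => by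
      obtain ⟨u, w, huw⟩ := (smooth_pt g f e0).1 (by rwa [g0])
      apply huw
      simp only [nf_pol_e0, z0, z1]
      linear_combination (u 2 * w 3 - u 3 * w 2) * e
    obtain ⟨k, m, ha, hk, k0⟩ := exists_up_std z0 z1 hm.isUnit (by
      rw [Fin.forall_fin_two, not_and_or] at h4
      exact h4.imp Ne.isUnit Ne.isUnit)
    have hp : pt (k * g) e0 = e0 := by rw [mul_pt, k0, g0]
    rw [← mul_smul] at hk
    have hlb : ¬(m.l ≠ 0 ∨ m.b ≠ 0) := fun hlb => h ⟨k * g, m, ha, hlb, hk, hp⟩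
    simp only [not_or, not_not] at hlb
    refine ⟨k * g, hp, Or.inr (Or.inr ?_)⟩
    rw [hk]
    simp [up, hlb.1, hlb.2]
  · obtain ⟨x, z, hxz, hp⟩ := not_smooth_iff.1 hs
    obtain ⟨N, n0, n1⟩ : ∃ N : GL (Fin 2) L, N.1 0 0 = x ∧ N.1 0 1 = z := by
      rcases hxz with h | h
      · exact ⟨GeneralLinearGroup.mkOfDetNeZero !![x, z; 0, 1] (by simpa using h), rfl, rfl⟩
      · exact ⟨GeneralLinearGroup.mkOfDetNeZero !![x, z; 1, 0] (by simpa using h), rfl, rfl⟩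
    refine ⟨(N, 1), by simp [pt], Or.inl ?_⟩
    simp only [nf_smul_fst, n0, n1]
    exact ⟨by simpa [nf_pol_e0, pen] using hp ![0, 1, 0, 0],
      by simpa [nf_pol_e0, pen] using hp ![0, 0, 1, 0],
      by simpa [nf_pol_e0, pen] using hp ![0, 0, 0, 1]⟩

/-- `not_good_e0` and the three patterns with `c = 0` -/
theorem good_of_Delta {f : M4 L} (hΔ : (red f).jac.Δ ≠ 0) {Q : P4 L} (hQ : On f Q) : Good f Q := by
  by_contra hn
  obtain ⟨i, hi⟩ := Function.ne_iff.1 hQ.prim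
  obtain ⟨g, -, rfl⟩ := exists_move (Q := Q) ⟨i, Ne.isUnit hi⟩
  have z0 := (zero_pt g f e0).1 hQ.eq
  obtain ⟨k, k0, hk⟩ := not_good_e0 z0 (fun h => hn ((good_pt g f e0).2 h))
  have z1 := zero_e0.1 ((zero_pt k (g • f) e0).1 (by rwa [k0]))
  refine (Delta_smul4 k _).2 ((Delta_smul4 g f).2 hΔ) ?_
  generalize k • g • f = f' at hk z1
  suffices h : (0 : L) ^ 2 ∣ (red f').jac.Δ by simpa using h
  rcases hk with ⟨h1, h2, h3⟩ | h | ⟨h1, h2, h4, h5, h7⟩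
  · exact sq_dvd_of_sing (by simp [z1]) (by simp [z1]) (by simp [h1]) (by simp [h2]) (by simp [h3])
  · exact sq_dvd_of_line (by simp [z1]) (by simp [h]) (by simp [h])
  · exact sq_dvd_of_plane (by simp [z1]) (by simp [h1]) (by simp [h2]) (by simp [h4])
      (by simp [h5]) (by simp [h7])

/-- smoothness of the standard point of a normal form does not depend on the normal form -/
lemma r8_smooth {m m' : Model L} {g : G4 L} (hg : g • up m = up m') (hQ : pt g e0 = e0)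
    (h : m.l ≠ 0 ∨ m.b ≠ 0) : m'.l ≠ 0 ∨ m'.b ≠ 0 := by
  by_contra hn
  rw [not_or, not_not, not_not] at hn
  have hA : g.1.1.det ≠ 0 := (GeneralLinearGroup.det g.1).ne_zero
  have hN : g.2.1.det ≠ 0 := (GeneralLinearGroup.det g.2).ne_zero
  have hr : ∀ j, g.2.1 0 j = (e0 : P4 L) j := fun j => by
    rw [← hQ]; simp [pt, e0, vecMul, dotProduct, Fin.sum_univ_four]
  have n0 : g.2.1 0 0 = 1 := hr 0
  have n1 : g.2.1 0 1 = 0 := hr 1
  have n2 : g.2.1 0 2 = 0 := hr 2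
  have n3 : g.2.1 0 3 = 0 := hr 3
  have c := fun i j => congrFun (congrFun hg i) j
  have c01 := c 0 1
  have c11 := c 1 1
  have c04 := c 0 4
  have c02 := c 0 2
  have c05 := c 0 5
  have c07 := c 0 7
  rw [det_fin_two] at hA
  rw [det4] at hN
  simp only [smul_apply] at c01 c11 c04 c02 c05 c07
  generalize g.1.1 = A at *
  generalize g.2.1 = N at *
  simp [act, cf, conj_ut, pen, up, n0, n1, n2, n3, hn.1, hn.2] at c01 c11 c04 c02 c05 c07
  have k2 : N 1 2 = 0 := mul_left_cancel₀ hA (by linear_combination A 0 0 * c11 - A 1 0 * c01)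
  have k3 : N 1 3 = 0 := mul_left_cancel₀ hA (by linear_combination A 0 1 * c11 - A 1 1 * c01)
  simp only [n0, n1, n2, n3, k2, k3] at hN c04 c05
  have hw : N 1 1 ≠ 0 := fun h0 => hN (by rw [h0]; ring)
  have a1 : A 0 1 = 0 := mul_left_cancel₀ (pow_ne_zero 2 hw) (by linear_combination -c04)
  have a0 : A 0 0 ≠ 0 := fun h0 => hA (by rw [h0, a1]; ring)
  have k4 : N 2 3 = 0 := mul_left_cancel₀ a0 (by linear_combination N 2 2 * a1 - c02)
  have h22 : N 2 2 ≠ 0 := fun h0 => hN (by rw [h0, k4]; ring)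
  simp only [a1, k4] at c05 c07
  have hl : m.l = 0 := mul_left_cancel₀ (mul_ne_zero (mul_ne_zero a0 hw) h22)
    (by linear_combination -c05)
  have hb : m.b = 0 := mul_left_cancel₀ (mul_ne_zero a0 (pow_ne_zero 2 h22))
    (by linear_combination c07 + A 0 0 * N 2 1 * N 2 2 * hl)
  exact h.elim (fun h => h hl) fun h => h hb

/-- the shear `e1 ↦ e1 + p e2 + r e3` -/
def r8_shear (p r : R) : G4 R :=
  (1, ⟨!![1, 0, 0, 0; 0, 1, p, r; 0, 0, 1, 0; 0, 0, 0, 1],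
    !![1, 0, 0, 0; 0, 1, -p, -r; 0, 0, 1, 0; 0, 0, 0, 1],
    by ext i j; fin_cases i <;> fin_cases j <;> simp [Matrix.mul_apply, Fin.sum_univ_four],
    by ext i j; fin_cases i <;> fin_cases j <;> simp [Matrix.mul_apply, Fin.sum_univ_four]⟩)

lemma r8_shear_e0 (p r : R) : pt (r8_shear p r) e0 = e0 := by
  funext j; fin_cases j <;> simp [pt, r8_shear, e0, vecMul, dotProduct, Fin.sum_univ_four]

lemma r8_shear_smul (p r : R) (f : M4 R) (i : Fin 2) :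
    (r8_shear p r • f) i 0 = f i 0 ∧ (r8_shear p r • f) i 1 = f i 1 + p * f i 2 + r * f i 3 ∧
      (r8_shear p r • f) i 2 = f i 2 ∧ (r8_shear p r • f) i 3 = f i 3 := by
  have e : pen f ((r8_shear p r).1.1 i 0) ((r8_shear p r).1.1 i 1) = f i := by
    fin_cases i <;> simp [pen, r8_shear]
  rw [smul_apply, e]
  simp only [act, cf, conj_ut]
  simp [r8_shear]
  ring

lemma r8_shear_map {S : Type*} [CommRing S] (θ : R →+* S) {p r : R} (hp : θ p = 0) (hr : θ r = 0) :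
    mapG θ (r8_shear p r) = 1 := by
  refine Prod.ext (map_one (GeneralLinearGroup.map θ)) (Units.ext ?_)
  rw [mapG_snd]
  ext i j
  fin_cases i <;> fin_cases j <;> simp [r8_shear, hp, hr]

/-- Over a local ring: lift `g` (`exists_lift_G`), correct the tangent direction, `exists_up_std`.
For the last claim compare the two normal forms over `κ` (`hh_fix` of row LIFT is not needed if
all corrections are `≡ 1`; or: `Model.smooth_pt` with `hh`). -/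
theorem exists_up_ring {κ : Type*} [Field κ] {θ : R →+* κ} (h : IsResidue θ) {f : M4 R} {Q : P4 R}
    (hQ : Zero f Q) (hg : Good (mapM θ f) (θ ∘ Q)) : ∃ (g : G4 R) (m : Model R),
      m.a = 0 ∧ (IsUnit m.l ∨ IsUnit m.b) ∧ g • f = up m ∧ pt g e0 = Q := by
  obtain ⟨g₀, m₀, -, hlb, hg₀, hQ₀⟩ := hg
  obtain ⟨k, rfl, rfl⟩ := exists_lift_G h g₀ hQ₀
  rw [← mapM_smul] at hg₀
  rw [zero_pt, zero_e0] at hQ
  have c : ∀ i j, θ ((k • f) i j) = up m₀ i j := fun i j => congrFun (congrFun hg₀ i) j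
  have c01 : θ ((k • f) 0 1) = 0 := c 0 1
  have c11 : θ ((k • f) 1 1) = 0 := c 1 1
  have hD : IsUnit ((k • f) 0 2 * (k • f) 1 3 - (k • f) 0 3 * (k • f) 1 2) :=
    (h.unit _).2 (by simp [c, up])
  obtain ⟨v, hv⟩ := hD.exists_right_inv
  set p := v * ((k • f) 0 3 * (k • f) 1 1 - (k • f) 0 1 * (k • f) 1 3) with hp
  set r := v * ((k • f) 0 1 * (k • f) 1 2 - (k • f) 0 2 * (k • f) 1 1) with hr
  have h1 : mapG θ (r8_shear p r) = 1 :=
    r8_shear_map θ (by simp [hp, c01, c11]) (by simp [hr, c01, c11])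
  have h2 : mapM θ (r8_shear p r • k • f) = up m₀ := by rw [mapM_smul, h1, one_smul, hg₀]
  have s := r8_shear_smul p r (k • f)
  obtain ⟨g, m, ha, hgm, hge⟩ := exists_up_std (f := r8_shear p r • k • f)
    (fun i => (s i).1.trans (hQ i))
    (Fin.forall_fin_two.2 ⟨by rw [(s 0).2.1, hp, hr]; linear_combination -(k • f) 0 1 * hv,
      by rw [(s 1).2.1, hp, hr]; linear_combination -(k • f) 1 1 * hv⟩)
    (by rw [(s 0).2.2.1, (s 0).2.2.2, (s 1).2.2.1, (s 1).2.2.2]; exact hD)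
    (Or.inr ((h.unit _).2 (by
      rw [show θ ((r8_shear p r • k • f) 1 4) = up m₀ 1 4 from congrFun (congrFun h2 1) 4]
      simp [up])))
  refine ⟨g * r8_shear p r * k, m, ha, ?_, by rw [mul_smul, mul_smul, hgm],
    by rw [mul_pt, mul_pt, hge, r8_shear_e0]⟩
  have h3 : mapG θ g • up m₀ = up (m.map θ) := by rw [← h2, ← mapM_smul, hgm, up_map]
  have h4 : pt (mapG θ g) e0 = e0 := by rw [← map_e0 θ, map_pt, hge]
  exact (r8_smooth h3 h4 hlb).imp (h.unit _).2 (h.unit _).2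

end SelAvg.Q4
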