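import Pool.Agent.H94Q.LocD
import Pool.Agent.H94Q.Nf

/-! Row LOCP: counting good points, integral points, Hensel. -/

namespace SelAvg.Q4

open WeierstrassCurve WithZero Matrix Polynomial
open scoped Classical

section Field

variable {κ : Type*} [Field κ]

lemma npt_ne_zero (p : I4 κ) : npt p ≠ 0 := by
  obtain p | p | _ | z := p
  · exact fun h => by simpa [npt] using congrFun h 0
  · exact fun h => by simpa [npt] using congrFun h 1
  · exact fun h => by simpa [npt] using congrFun h 3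
  · exact fun h => by simpa [npt] using congrFun h 2

lemma exists_npt {Q : P4 κ} (h : Q ≠ 0) : ∃ p, Eqv Q (npt p) := by
  by_cases h0 : Q 0 = 0
  · by_cases h1 : Q 1 = 0
    · by_cases h2 : Q 2 = 0
      · have h3 : Q 3 ≠ 0 := fun h3 => h (by funext i; fin_cases i <;> assumption)
        refine ⟨.inr (.inr none), (Q 3)⁻¹, inv_ne_zero h3, ?_⟩
        funext i; fin_cases i <;> simp [npt, h0, h1, h2, h3]
      · refine ⟨.inr (.inr (some ((Q 2)⁻¹ * Q 3))), (Q 2)⁻¹, inv_ne_zero h2, ?_⟩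
        funext i; fin_cases i <;> simp [npt, h0, h1, h2]
    · refine ⟨.inr (.inl ((Q 1)⁻¹ * Q 2, (Q 1)⁻¹ * Q 3)), (Q 1)⁻¹, inv_ne_zero h1, ?_⟩
      funext i; fin_cases i <;> simp [npt, h0, h1]
  · refine ⟨.inl ((Q 0)⁻¹ * Q 1, (Q 0)⁻¹ * Q 2, (Q 0)⁻¹ * Q 3), (Q 0)⁻¹, inv_ne_zero h0, ?_⟩
    funext i; fin_cases i <;> simp [npt, h0]

lemma npt_inj {p p' : I4 κ} (h : Eqv (npt p) (npt p')) : p = p' := by
  obtain ⟨t, ht, e⟩ := h
  have e0 := congrFun e 0
  have e1 := congrFun e 1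
  have e2 := congrFun e 2
  have e3 := congrFun e 3
  obtain ⟨x, y, z⟩ | ⟨y, z⟩ | _ | z := p <;> obtain ⟨x', y', z'⟩ | ⟨y', z'⟩ | _ | z' := p' <;>
    simp [npt, ht.symm] at e0 e1 e2 e3
  · subst e0; simp [e1, e2, e3]
  · subst e1; simp [e2, e3]
  · rfl
  · subst e2; simp [e3]

lemma count_emb (g : G4 κ) (f : M4 κ) :
    Nonempty ({p : I4 κ // Good (g • f) (npt p)} ↪ {p : I4 κ // Good f (npt p)}) := by
  choose n hn using fun p : I4 κ => exists_npt ((pt_ne_zero g).2 (npt_ne_zero p))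
  refine ⟨⟨fun p => ⟨n p.1, ((good_pt g f _).2 p.2).eqv (hn p.1)⟩, ?_⟩⟩
  intro p p' h
  have h1 : n p.1 = n p'.1 := congrArg Subtype.val h
  have h2 : Eqv (pt g (npt p.1)) (pt g (npt p'.1)) := (hn p.1).trans (h1 ▸ (hn p'.1).symm)
  have h3 := h2.pt g⁻¹
  rw [inv_pt_pt, inv_pt_pt] at h3
  exact Subtype.ext (npt_inj h3)

theorem nGood_smul (g : G4 κ) (f : M4 κ) : nGood (g • f) = nGood f := by
  obtain ⟨e₁⟩ := count_emb g f
  obtain ⟨e₂⟩ := count_emb g⁻¹ (g • f)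
  rw [inv_smul_smul] at e₂
  obtain ⟨e⟩ := Function.Embedding.antisymm e₁ e₂
  exact Nat.card_congr e

end Field

variable {L κ : Type*} [Field L] [Field κ] {V : LocalField L} {θ : V.O →+* κ}

lemma _root_.SelAvg.LocalField.IPrim4.map_incl {Q : P4 V.O} (h : V.IPrim4 Q) :
    V.incl ∘ Q ≠ 0 := by
  obtain ⟨i, hi⟩ := h
  exact Function.ne_iff.2 ⟨i, (hi.map V.incl).ne_zero⟩

lemma _root_.SelAvg.LocalField.IPrim4.map_red (hred : V.IsRed θ 1) {Q : P4 V.O} :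
    V.IPrim4 Q ↔ θ ∘ Q ≠ 0 := by
  rw [Function.ne_iff]
  exact exists_congr fun i => hred.isUnit_iff _

lemma _root_.SelAvg.LocalField.IPrim4.pt {Q : P4 V.O} (h : V.IPrim4 Q) (g : G4 V.O) :
    V.IPrim4 (pt g Q) := by
  have hred := SelAvg.LocalField.locDisc_isRed V
  rw [SelAvg.LocalField.IPrim4.map_red hred] at h ⊢
  rw [← map_pt]
  exact (pt_ne_zero _).2 h

/-- two equivalent primitive integral points differ by a unit -/
lemma _root_.SelAvg.LocalField.IPrim4.eqv_red (hred : V.IsRed θ 1) {Q Q' : P4 V.O}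
    (h : V.IPrim4 Q) (h' : V.IPrim4 Q') (e : Eqv (V.incl ∘ Q) (V.incl ∘ Q')) :
    Eqv (θ ∘ Q) (θ ∘ Q') := by
  obtain ⟨t, ht, e⟩ := e
  have ex : ∀ i, (Q' i : L) = t * Q i := fun i => congrFun e i
  have hle : V.v t ≤ 1 := by
    obtain ⟨i, hi⟩ := h
    have := V.v_le_one (Q' i)
    rwa [ex, map_mul, (V.isUnit_iff _).1 hi, mul_one] at this
  set t₀ : V.O := ⟨t, hle⟩ with ht₀
  have ex' : ∀ i, Q' i = t₀ * Q i := fun i => Subtype.ext (ex i)
  have hu : IsUnit t₀ := by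
    obtain ⟨i, hi⟩ := h'
    rw [ex'] at hi
    exact isUnit_of_mul_isUnit_left hi
  refine ⟨θ t₀, (hred.isUnit_iff _).1 hu, ?_⟩
  funext i
  simp [ex']

namespace LocalField

open SelAvg.LocalField

lemma isResidue (hred : V.IsRed θ 1) : IsResidue θ := ⟨hred.surj, hred.isUnit_iff⟩

lemma on_int {f : M4 V.O} {Q : P4 V.O} (hQ : V.IPrim4 Q) (hF : Zero f Q) :
    On (mapM V.incl f) (V.incl ∘ Q) := ⟨hQ.map_incl, hF.map _⟩

lemma on_red (hred : V.IsRed θ 1) {f : M4 V.O} {Q : P4 V.O} (hQ : V.IPrim4 Q) (hF : Zero f Q) :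
    On (mapM θ f) (θ ∘ Q) := ⟨(IPrim4.map_red hred).1 hQ, hF.map _⟩

theorem exists_integral_rep (f : M4 V.O) {Q : P4 L} (hQ : On (mapM V.incl f) Q) :
    ∃ Q₀ : P4 V.O, V.IPrim4 Q₀ ∧ Zero f Q₀ ∧ Eqv Q (V.incl ∘ Q₀) := by
  obtain ⟨i, -, hi⟩ := Finset.exists_max_image Finset.univ (fun i => V.v (Q i)) Finset.univ_nonempty
  have hs : Q i ≠ 0 := by
    obtain ⟨j, hj⟩ := Function.ne_iff.1 hQ.prim
    intro h0
    have := hi j (Finset.mem_univ _)
    rw [h0, map_zero, le_zero_iff, map_eq_zero] at this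
    exact hj this
  have hv : 0 < V.v (Q i) := by rwa [Valuation.pos_iff]
  have key : ∀ j, V.v ((Q i)⁻¹ * Q j) ≤ 1 := fun j => by
    rw [map_mul, map_inv₀, inv_mul_le_iff₀ hv, mul_one]
    exact hi j (Finset.mem_univ _)
  let Q₀ : P4 V.O := fun j => ⟨(Q i)⁻¹ * Q j, key j⟩
  have hm : V.incl ∘ Q₀ = (Q i)⁻¹ • Q := rfl
  refine ⟨Q₀, ⟨i, ?_⟩, ?_, (Q i)⁻¹, inv_ne_zero hs, hm⟩
  · have : Q₀ i = 1 := Subtype.ext (inv_mul_cancel₀ hs)
    rw [this]; exact isUnit_one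
  · rw [← zero_map V.incl_injective, hm]
    exact hQ.eq.smul _

lemma locp_qv3 {A : Type*} [CommRing A] (c : QF A) (P u w : P4 A) (s t : A) :
    qv c (P + s • u + t • w) = qv c P + s * pol c P u + s ^ 2 * qv c u
      + t * (pol c P w + s * pol c u w) + t ^ 2 * qv c w := by
  simp [qv, pol]; ring

/-- the case where the first form vanishes at `w`: eliminate `t` -/
lemma locp_lift (hred : V.IsRed θ 1) (c d : QF V.O) {P u w : P4 V.O} (hc : θ (qv c P) = 0)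
    (hd : θ (qv d P) = 0) (hw : qv c w = 0) (h1 : θ (pol c P w) ≠ 0)
    (h2 : θ (pol c P u * pol d P w - pol c P w * pol d P u) ≠ 0) :
    ∃ s t : V.O, θ s = 0 ∧ θ t = 0 ∧ qv c (P + s • u + t • w) = 0 ∧
      qv d (P + s • u + t • w) = 0 := by
  let A : V.O[X] := C (qv c P) + X * C (pol c P u) + X ^ 2 * C (qv c u)
  let B : V.O[X] := C (qv d P) + X * C (pol d P u) + X ^ 2 * C (qv d u)
  let U : V.O[X] := C (pol c P w) + X * C (pol c u w)
  let Z : V.O[X] := C (pol d P w) + X * C (pol d u w)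
  obtain ⟨s, hs, hs0⟩ := locBasic_lift hred (U ^ 2 * B - A * U * Z + A ^ 2 * C (qv d w)) 0
    (by simp [A, B, U, Z, hc, hd]) (by
      have e : θ (eval 0 (derivative (U ^ 2 * B - A * U * Z + A ^ 2 * C (qv d w)))) =
          -θ (pol c P w) * θ (pol c P u * pol d P w - pol c P w * pol d P u) := by
        simp [A, B, U, Z, hc, hd, derivative_pow]
        ring
      rw [e]
      exact mul_ne_zero (neg_ne_zero.2 h1) h2)
  rw [map_zero] at hs0
  have hU : IsUnit (pol c P w + s * pol c u w) := (hred.isUnit_iff _).2 (by simpa [hs0] using h1)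
  obtain ⟨v, hv⟩ := hU.exists_right_inv
  simp only [A, B, U, Z, eval_add, eval_sub, eval_mul, eval_pow, eval_C, eval_X] at hs
  refine ⟨s, -(v * (qv c P + s * pol c P u + s ^ 2 * qv c u)), hs0, by simp [hs0, hc], ?_, ?_⟩
  · rw [locp_qv3, hw]
    linear_combination -(qv c P + s * pol c P u + s ^ 2 * qv c u) * hv
  · rw [locp_qv3]
    generalize qv c P + s * pol c P u + s ^ 2 * qv c u = a at hs ⊢
    generalize qv d P + s * pol d P u + s ^ 2 * qv d u = b at hs ⊢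
    generalize pol c P w + s * pol c u w = x at hs hv
    generalize pol d P w + s * pol d u w = z at hs ⊢
    linear_combination v ^ 2 * hs + (a * z * v - b * (x * v + 1)) * hv

lemma locp_lift' (hred : V.IsRed θ 1) (c d : QF V.O) {P u w : P4 V.O} (hc : θ (qv c P) = 0)
    (hd : θ (qv d P) = 0) (h1 : θ (pol c P w) ≠ 0)
    (h2 : θ (pol c P u * pol d P w - pol c P w * pol d P u) ≠ 0) :
    ∃ Q : P4 V.O, qv c Q = 0 ∧ qv d Q = 0 ∧ θ ∘ Q = θ ∘ P := by
  have two : ∀ e : QF V.O, θ (qv e P) = 0 → θ (pol e P P) = 0 := fun e he => by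
    rw [pol_self, map_mul, he, mul_zero]
  obtain ⟨r₀, hr₀⟩ := hred.surj (-θ (qv c w) / θ (pol c P w))
  obtain ⟨r, hr, -⟩ := locBasic_lift hred
    (C (qv c w) + X * C (pol c P w) + X ^ 2 * C (qv c P)) r₀
    (by simp [hc, hr₀, mul_div_cancel₀ _ h1]) (by simpa [hc, derivative_pow] using h1)
  simp only [eval_add, eval_mul, eval_pow, eval_C, eval_X] at hr
  have e : ∀ e : QF V.O, pol e P (w + r • P) = pol e P w + r * pol e P P := fun e => by
    rw [pol_add_right, pol_smul_right]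
  obtain ⟨s, t, hs, ht, k1, k2⟩ := locp_lift hred c d (P := P) (u := u) (w := w + r • P) hc hd
    (by rw [qv_add, qv_smul, pol_smul_right, pol_comm]; linear_combination hr)
    (by rw [e]; simpa [two c hc] using h1) (by rw [e, e]; simpa [two c hc, two d hd] using h2)
  refine ⟨_, k1, k2, ?_⟩
  funext i
  simp [hs, ht]

/-- Smooth points lift: solve for `P + s u + t w` with `s, t` in the maximal ideal. -/
theorem exists_lift (hred : V.IsRed θ 1) (f : M4 V.O) {Q : P4 κ} (hQ : On (mapM θ f) Q)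
    (hs : Smooth (mapM θ f) Q) : ∃ Q₀ : P4 V.O, V.IPrim4 Q₀ ∧ Zero f Q₀ ∧ θ ∘ Q₀ = Q := by
  obtain ⟨u, w, h⟩ := hs
  obtain ⟨P, rfl⟩ := hred.surj.comp_left Q
  obtain ⟨u, rfl⟩ := hred.surj.comp_left u
  obtain ⟨w, rfl⟩ := hred.surj.comp_left w
  have h0 : ∀ i, θ (qv (f i) P) = 0 := fun i => (qv_map θ _ _).symm.trans (hQ.eq i)
  have h' : θ (pol (f 0) P u * pol (f 1) P w - pol (f 0) P w * pol (f 1) P u) ≠ 0 := by
    rw [map_sub, map_mul, map_mul, ← pol_map, ← pol_map, ← pol_map, ← pol_map]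
    exact h
  obtain ⟨Q, k1, k2, e⟩ : ∃ Q : P4 V.O, qv (f 0) Q = 0 ∧ qv (f 1) Q = 0 ∧ θ ∘ Q = θ ∘ P := by
    by_cases h1 : θ (pol (f 0) P w) = 0
    · refine locp_lift' hred _ _ (u := w) (w := u) (h0 0) (h0 1) (fun h2 => h' ?_) fun h2 => h' ?_
      · simp [h1, h2]
      · rw [← neg_sub, map_neg, h2, neg_zero]
    · exact locp_lift' hred _ _ (h0 0) (h0 1) h1 h'
  exact ⟨Q, (IPrim4.map_red hred).2 (e ▸ hQ.prim), Fin.forall_fin_two.2 ⟨k1, k2⟩, e⟩

theorem soluble_of_nGood_pos (hred : V.IsRed θ 1) (f : M4 V.O) (h : 0 < nGood (mapM θ f)) :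
    Soluble (mapM V.incl f) := by
  obtain ⟨⟨p, hp⟩⟩ := (Nat.card_pos_iff.1 h).1
  obtain ⟨Q₀, h1, h2, -⟩ := exists_lift hred f hp.on hp.smooth
  exact ⟨V.incl ∘ Q₀, on_int h1 h2⟩

end LocalField

end SelAvg.Q4
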