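import Pool.Agent.H94Q.Dif
import Pool.Agent.H94Q.LocP
import Pool.Agent.H94Q.LangC

/-! Row LANG4: the reduction has a smooth point. -/

namespace SelAvg.Q4.LocalField

open WeierstrassCurve WithZero Matrix SelAvg.LocalField
open scoped Classical

variable {L κ : Type*} [Field L] [Field κ] {V : LocalField L} {θ : V.O →+* κ}

theorem exists_good_point [Finite κ] (hred : V.IsRed θ 1) {p : ℕ} (hp : p.Prime)
    (hp0 : (p : L) = 0) {f : M4 V.O} (hΔ : ¬V.unif ^ 2 ∣ (red f).jac.Δ) :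
    ∃ Q, Good (mapM θ f) Q := by
  refine exists_good_of_add hred hp hp0 hΔ fun W z hW hz Q Q₁ Q₂ h h₁ h₂ => ?_
  have hJ := hz.jac_Delta hW
  rw [← D_add hW hz (sig_on hJ h h) (sig_on hJ h₁ h₁) (sig_on hJ h₁ h₂), D_sig_sig hW hz h h₁,
    ← D4_add hW hz h h₁ h₂, two_nsmul, add_assoc]
  rfl

theorem exists_smooth_point [Finite κ] (hred : V.IsRed θ 1) {p : ℕ} (hp : p.Prime)
    (hp0 : (p : L) = 0) {f : M4 V.O} (hΔ : ¬V.unif ^ 2 ∣ (red f).jac.Δ) :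
    ∃ Q, On (mapM θ f) Q ∧ Smooth (mapM θ f) Q :=
  let ⟨Q, h⟩ := exists_good_point hred hp hp0 hΔ
  ⟨Q, h.on, h.smooth⟩

end SelAvg.Q4.LocalField
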