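import Pool.Agent.H94Q.MassA

/-! Row MASS, part B: good points defined by the normal form. -/

namespace SelAvg.Q4

open WeierstrassCurve Matrix
open scoped Classical

variable {K : Type*} [Field K]

/-- `x` can be moved to the standard point of a normal form whose first quadric has rank `> 2` -/
def GoodNf (f : M4 K) (x : Fin 4 → K) : Prop :=
  ∃ g : G4 K, g.2.1 0 = x ∧ ∃ f₂ : Model K, f₂.a = 0 ∧ (f₂.l ≠ 0 ∨ f₂.b ≠ 0) ∧ g • f = up f₂

lemma row_mul (g k : G4 K) : (g * k).2.1 0 = g.2.1 0 ᵥ* k.2.1 := rfl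

lemma e0_vecMul (M : Mat K) : e0 ᵥ* M = M 0 := by
  funext j; simp [e0, Matrix.vecMul, dotProduct, Fin.sum_univ_four]

lemma row_inv {g : G4 K} (h : g.2.1 0 = e0) : g⁻¹.2.1 0 = e0 := by
  have e := row_mul g g⁻¹
  rw [h, e0_vecMul, mul_inv_cancel] at e
  rw [← e]
  funext j; fin_cases j <;> simp [e0]

lemma goodNf_smul (g : G4 K) (f : M4 K) (x : Fin 4 → K) :
    GoodNf (g • f) x ↔ GoodNf f (x ᵥ* g.2.1) := by
  constructor
  · rintro ⟨k, hk, f₂, ha, hb, e⟩
    exact ⟨k * g, by rw [row_mul, hk], f₂, ha, hb, by rw [mul_smul, e]⟩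
  · rintro ⟨k, hk, f₂, ha, hb, e⟩
    refine ⟨k * g⁻¹, ?_, f₂, ha, hb, by rw [mul_smul, inv_smul_smul, e]⟩
    rw [row_mul, hk, Matrix.vecMul_vecMul, ← Units.val_mul, ← Prod.snd_mul, mul_inv_cancel]
    exact Matrix.vecMul_one x

/-- the entries of `g • up f` that only involve the standard point, for `g` fixing it -/
lemma Tl_smul_up {g : G4 K} (h : g.2.1 0 = e0) (f : Model K) (i : Fin 2) (j : Fin 3) :
    Tl (g • up f) i j = g.1.1 i 1 * g.2.1 j.succ 2 - g.1.1 i 0 * g.2.1 j.succ 3 := by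
  rw [Tl, smul_apply, act_eq, h]
  fin_cases j <;> simp [pol, pen, up, e0] <;> ring

lemma det_two_ne (k : GL (Fin 2) K) : k.1 0 0 * k.1 1 1 - k.1 0 1 * k.1 1 0 ≠ 0 := by
  rw [← det_fin_two]; exact (GeneralLinearGroup.det k).ne_zero

lemma det_row_ne {k : GL (Fin 4) K} (h : k.1 0 = e0) :
    k.1 1 1 * (k.1 2 2 * k.1 3 3 - k.1 2 3 * k.1 3 2) - k.1 1 2 * (k.1 2 1 * k.1 3 3 - k.1 2 3 * k.1 3 1)
      + k.1 1 3 * (k.1 2 1 * k.1 3 2 - k.1 2 2 * k.1 3 1) ≠ 0 := by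
  have h1 : k.1.det ≠ 0 := (GeneralLinearGroup.det k).ne_zero
  rw [det4, h] at h1
  simpa [e0] using h1

/-- an element that fixes the point and the tangent forms fixes the tangent line -/
lemma tangent_of_T0 {g : G4 K} (h : g.2.1 0 = e0) {f : Model K} (hT : Tl (g • up f) = T0) :
    g.2.1 1 2 = 0 ∧ g.2.1 1 3 = 0 ∧ g.2.1 1 1 ≠ 0 ∧
      ∀ i, (g • up f) i 4 = -(g.1.1 i 1 * g.2.1 1 1 ^ 2) := by
  have h0 := (Tl_smul_up h f 0 0).symm.trans (congrFun (congrFun hT 0) 0)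
  have h1 := (Tl_smul_up h f 1 0).symm.trans (congrFun (congrFun hT 1) 0)
  simp only [T0, Fin.succ_zero_eq_one, cons_val_zero, cons_val_one] at h0 h1
  have hd := det_two_ne g.1
  have e2 : g.2.1 1 2 = 0 :=
    (mul_eq_zero.1 (by linear_combination g.1.1 0 0 * h1 - g.1.1 1 0 * h0)).resolve_left hd
  have e3 : g.2.1 1 3 = 0 :=
    (mul_eq_zero.1 (by linear_combination g.1.1 0 1 * h1 - g.1.1 1 1 * h0)).resolve_left hd
  refine ⟨e2, e3, fun e1 => det_row_ne h (by rw [e1, e2, e3]; ring), fun i => ?_⟩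
  rw [smul_apply, act_eq]
  simp [qv, pen, up, e2, e3]

theorem isGd_goodNf : IsGd fun f : M4 K => GoodNf f e0 where
  inv g hg f hf := by rwa [goodNf_smul, e0_vecMul, hg]
  on := by
    rintro f ⟨g, hg, f₂, -, -, e⟩ i
    rw [eq_inv_smul_iff.2 e, smul_apply, act_eq, row_inv hg]
    simp [qv, pen, up, e0]
  sm := by
    rintro f ⟨g, hg, f₂, -, -, e⟩ h0
    rw [eq_inv_smul_iff.2 e] at h0
    have hg' := row_inv hg
    generalize g⁻¹ = k at h0 hg'
    have hd := det_two_ne k.1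
    simp only [cross_apply, Tl_smul_up hg', funext_iff, Fin.forall_fin_succ] at h0
    obtain ⟨h1, h2, h3, -⟩ := h0
    simp at h1 h2 h3
    refine mul_ne_zero hd (det_row_ne hg') ?_
    linear_combination k.2.1 1 1 * h1 + k.2.1 2 1 * h2 + k.2.1 3 1 * h3
  nl := by
    rintro f ⟨g, hg, f₂, -, -, e⟩ hT
    rw [eq_inv_smul_iff.2 e] at hT ⊢
    obtain ⟨-, -, h1, h4⟩ := tangent_of_T0 (row_inv hg) hT
    rw [h4, h4]
    by_contra hc
    simp only [not_or, not_not, neg_eq_zero, mul_eq_zero, pow_eq_zero_iff two_ne_zero, h1,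
      or_false] at hc
    exact det_two_ne g⁻¹.1 (by rw [hc.1, hc.2]; ring)
  up f ha := by
    refine ⟨?_, fun hb => ⟨1, by funext j; fin_cases j <;> simp [e0], f, ha, hb, one_smul _ _⟩⟩
    rintro ⟨g, hg, f₂, -, hb, e⟩
    have hT : Tl (g • up f) = T0 := by rw [e]; simp [Tl_eq_T0, Q4.up]
    obtain ⟨h2, h3, h1, h4⟩ := tangent_of_T0 hg hT
    have h01 : g.1.1 0 1 = 0 := by
      have := (h4 0).symm.trans (congrFun (congrFun e 0) 4)
      simpa [Q4.up, h1] using this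
    have hd := det_two_ne g.1
    have h23 : g.2.1 2 3 = 0 := by
      have := (Tl_smul_up hg f 0 1).symm.trans (congrFun (congrFun hT 0) 1)
      simp [T0, h01] at this
      exact this.resolve_left fun e => hd (by rw [e, h01]; ring)
    by_contra hc
    simp only [not_or, not_not] at hc
    have e5 := congrFun (congrFun e 0) 5
    have e7 := congrFun (congrFun e 0) 7
    rw [smul_apply, act_eq] at e5 e7
    simp [pol, qv, pen, Q4.up, hc.1, hc.2, h01, h2, h3, h23] at e5 e7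
    exact hb.elim (fun h => h e5) fun h => h e7.symm

/-- normalised representatives of the points of projective space -/
def npt4 : (Fin 3 → K) ⊕ (Fin 2 → K) ⊕ Option K → Fin 4 → K
  | .inl y => ![1, y 0, y 1, y 2]
  | .inr (.inl y) => ![0, 1, y 0, y 1]
  | .inr (.inr (some y)) => ![0, 0, 1, y]
  | .inr (.inr none) => ![0, 0, 0, 1]

lemma npt4_ne (p : (Fin 3 → K) ⊕ (Fin 2 → K) ⊕ Option K) : npt4 p ≠ 0 := by
  obtain y | y | _ | y := p <;> simp [npt4]

theorem mass_nf {R κ : Type*} [CommRing R] [Field κ] [Fintype R] [Fintype κ] {θ : R →+* κ}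
    (h : IsResidue θ) (ψ : WeierstrassCurve R → ℝ)
    (hψ : ∀ (C : VariableChange R) W, ψ (C • W) = ψ W) :
    avg Finset.univ (fun f : M4 R => (Nat.card {p // GoodNf (mapM θ f) (npt4 p)} : ℝ) /
        (1 + (nAff (red f).jac : ℝ) * Nat.card κ / Nat.card R) * ψ (red f).jac) =
      (1 - 1 / (Fintype.card κ : ℝ) ^ 2) ^ 2 * (1 - 1 / (Fintype.card κ : ℝ) ^ 3) *
        (1 - 1 / (Fintype.card κ : ℝ) ^ 4) * avg Finset.univ ψ :=
  mass_abs h GoodNf (fun g f => by rw [goodNf_smul, e0_vecMul]) isGd_goodNf npt4 npt4_ne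
    (by simp; ring) ψ hψ

end SelAvg.Q4
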