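import Pool.Agent.H94Q.LocD
import Pool.Agent.H94Q.MassB

/-! Row MASS: the local mass formula for pairs of quadrics. -/

namespace SelAvg.Q4

open WeierstrassCurve Matrix
open scoped Classical

variable {κ R : Type*} [Field κ] [CommRing R]

lemma good_iff_nf {f : M4 κ} {Q : P4 κ} : Good f Q ↔ GoodNf f Q :=
  ⟨fun ⟨g, m, h1, h2, h3, h4⟩ => ⟨g, (e0_vecMul _).symm.trans h4, m, h1, h2, h3⟩,
    fun ⟨g, h4, m, h1, h2, h3⟩ => ⟨g, m, h1, h2, h3, (e0_vecMul _).trans h4⟩⟩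

lemma good_up_iff {m : Model κ} (ha : m.a = 0) : Good (up m) e0 ↔ m.l ≠ 0 ∨ m.b ≠ 0 :=
  good_iff_nf.trans (isGd_goodNf.up m ha)

/-- the local mass formula -/
theorem mass [Fintype κ] [Fintype R] {θ : R →+* κ} (h : IsResidue θ)
    (ψ : WeierstrassCurve R → ℝ) (hψ : ∀ (C : VariableChange R) W, ψ (C • W) = ψ W) :
    avg Finset.univ (fun f : M4 R => phiR θ f * ψ (red f).jac) =
      (1 - 1 / (Fintype.card κ : ℝ) ^ 2) ^ 2 * (1 - 1 / (Fintype.card κ : ℝ) ^ 3) *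
        (1 - 1 / (Fintype.card κ : ℝ) ^ 4) * avg Finset.univ ψ := by
  simp only [phiR, nGood, good_iff_nf]
  refine mass_abs h GoodNf (fun g f => by rw [goodNf_smul, e0_vecMul]) isGd_goodNf npt ?_
    (by simp; ring) ψ hψ
  rintro (p | p | _ | z) <;> simp [npt]

end SelAvg.Q4
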