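import Pool.Agent.H94Q.LocS
import Pool.Agent.H94Q.Lang
import Pool.Agent.H94Q.Mass

/-! If the discriminant has valuation at most one, the local weight is one. -/

namespace SelAvg.Q4.LocalField

open WeierstrassCurve WithZero Matrix SelAvg.LocalField
open scoped Classical

variable {L κ : Type*} [Field L] [Field κ] {V : LocalField L} {θ : V.O →+* κ}

theorem phiL_eq_one [Finite κ] (hred : V.IsRed θ 1) {p : ℕ} (hp : p.Prime) (hp0 : (p : L) = 0)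
    {f : M4 V.O} (hΔ : ¬V.unif ^ 2 ∣ (red f).jac.Δ) : V.phiL4 θ f = 1 := by
  have hW := locGood_ne_zero hΔ
  obtain ⟨Q, hQ, hs⟩ := exists_smooth_point hred hp hp0 hΔ
  obtain ⟨Q₁, hQ₁, hF₁, -⟩ := exists_lift hred f hQ hs
  have hz₀ : (⟨f, 1⟩ : Obj4 V.O).Over (red f).jac := (one_smul _ _).symm
  have hz := hz₀.map V.incl
  let p₀ : V.LocRep4 ((⟨f, 1⟩ : Obj4 V.O).map V.incl) := ⟨1, ⟨f, 1⟩, one_smul _ _⟩
  have h₁ := locModel_on p₀ hQ₁ hF₁
  have hlift : ∀ τ : {q : I4 κ // Good (mapM θ f) (npt q)},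
      ∃ Q : P4 V.O, V.IPrim4 Q ∧ Zero f Q ∧ θ ∘ Q = npt τ.1 :=
    fun τ => exists_lift hred _ τ.2.on τ.2.smooth
  choose lift hl1 hl2 hl3 using hlift
  have h1 : V.Nloc (red f).jac ≤ nGood (mapM θ f) := by
    refine Nat.card_le_card_of_surjective (fun τ =>
      ((D4 ((red f).jac.map V.incl) ((⟨f, 1⟩ : Obj4 V.O).map V.incl) (pt p₀.g (V.incl ∘ Q₁))
        (pt p₀.g (V.incl ∘ lift τ)) :
        ((red f).jac.map V.incl).toAffine.Point) : ((red f).jac.map V.incl).toAffine.Point ⧸ V.E1 (red f).jac)) ?_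
    intro c
    obtain ⟨R, rfl⟩ := QuotientAddGroup.mk_surjective c
    obtain ⟨P, hP, rfl⟩ := D4_surjective (locModel_Delta hW) hz h₁ R
    obtain ⟨Q₂, hQ₂, hF₂, e⟩ := locModel_rep p₀ hP
    have hg := good_of_not_sq_dvd hred hΔ hQ₂ hF₂
    obtain ⟨q, hq⟩ := exists_npt hg.on.prim
    refine ⟨⟨q, hg.eqv hq⟩, ?_⟩
    rw [D4_eqv (locModel_Delta hW) hz h₁ hP (Eqv.refl _) e]
    symm
    refine (locModel_coset hW hz h₁ (locModel_on p₀ hQ₂ hF₂)
      (locModel_on p₀ (hl1 ⟨q, hg.eqv hq⟩) (hl2 _))).2 ?_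
    rw [locModel_disc hred hW hz p₀ hQ₂ hF₂ hg (hl1 _) (hl2 _), hl3]
    exact hq
  have h2 := nGood_le_Nloc hred hW
  have h3 := Nloc_pos hred hW
  unfold phiL4
  rw [le_antisymm h2 h1]
  exact div_self (by exact_mod_cast h3.ne')

end SelAvg.Q4.LocalField
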