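import Pool.Agent.H94Q.ModB

/-! Coefficient vectors of pairs of quaternary quadratic forms. -/

namespace SelAvg.FF.T4

open SelAvg.Q4

/-- the weights of the coefficients -/
def kV : Fin 20 → ℕ := fun _ => 1

lemma kV_pos (i : Fin 20) : 0 < kV i := Nat.one_pos

/-- the pair of forms with given coefficients -/
abbrev toM {R : Type} (x : Fin 20 → R) : M4 R := equivVec.symm x

end SelAvg.FF.T4
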