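import Pool.Agent.H81Sel.DensB
import Pool.Agent.H94Q.Loc
import Pool.Agent.H94Q.ToM

/-! Local densities for pairs of quadrics. -/

namespace SelAvg.FF.T4

open WeierstrassCurve WithZero Filter Topology SelAvg.Q4
open scoped Classical

variable {F : Type} [Field F]

lemma densA_map {R S : Type} [CommRing R] [CommRing S] (φ : R →+* S) (x : Fin 20 → R) :
    mapM φ (toM x) = toM fun i => φ (x i) := by
  funext i j
  fin_cases i <;> fin_cases j <;> rfl

lemma densA_eval_gen {R S : Type} [CommRing R] [CommRing S] (φ : R →+* S) (x : Fin 20 → S) :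
    MvPolynomial.eval x (MvPolynomial.map φ
      (red (toM MvPolynomial.X : M4 (MvPolynomial (Fin 20) R))).jac.Δ) = (red (toM x)).jac.Δ := by
  rw [← RingHom.comp_apply, ← map_Δ, ← Model.jac_map, ← red_map, densA_map]
  simp

lemma densA_gen_ne_zero (R : Type) [CommRing R] [Nontrivial R] :
    (red (toM MvPolynomial.X : M4 (MvPolynomial (Fin 20) R))).jac.Δ ≠ 0 := by
  intro h
  have key : ∀ W : WeierstrassCurve R, W.Δ = 0 := fun W => by
    have h1 := densA_eval_gen (RingHom.id R)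
      (equivVec (up (⟨0, W.a₁, W.a₃, 0, 1, W.a₂, W.a₄, W.a₆⟩ : Model R)))
    have h2 : (⟨0, W.a₁, W.a₃, 0, 1, W.a₂, W.a₄, W.a₆⟩ : Model R).jac = W := by
      ext <;> simp [Model.jac]
    rw [h, map_zero, map_zero, toM, Equiv.symm_apply_apply, red_up rfl, h2] at h1
    exact h1.symm
  have h1 := key ⟨0, 0, 1, -1, 0⟩
  have h2 := key ⟨0, -1, 1, 0, 0⟩
  simp only [Δ, b₂, b₄, b₆, b₈] at h1 h2
  exact one_ne_zero (α := R) (by linear_combination 3 * h1 + 10 * h2)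

variable [Cv F]

theorem dens_Delta_tendsto (v : Place F) : Tendsto (fun j => dens Finset.univ
    fun f : M4 (Rv v (2 * (j + 1))) => (red f).jac.Δ = 0) atTop (𝓝 0) := by
  have h1 := (dens_zero_tendsto v (densA_gen_ne_zero v.loc.O)).comp
    (show Tendsto (fun j : ℕ => 2 * (j + 1)) atTop atTop from
      tendsto_atTop_mono (fun j => by change j ≤ 2 * (j + 1); omega) tendsto_id)
  refine h1.congr fun j => ?_
  have h2 := avg_equiv equivVec.symm
    fun f : M4 (Rv v (2 * (j + 1))) => ind ((red f).jac.Δ = 0)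
  rw [← dens_eq_avg, ← dens_eq_avg] at h2
  rw [← h2]
  exact dens_congr fun x _ => by rw [densA_eval_gen]

/-- `phiR_eq_phiL` -/
lemma phiR_thv_eq (v : Place F) (j : ℕ) {f : M4 v.loc.O}
    (h : ¬v.loc.unif ^ (2 * (j + 1)) ∣ (red f).jac.Δ) :
    Q4.phiR (thv v j) (mapM (redv v (2 * (j + 1))) f) = v.loc.phiL4 (resv v) f := by
  refine Q4.LocalField.phiR_eq_phiL (resv_isRed v) (redv_isRed v (2 * (j + 1))) (thv v j)
    (thv_comp v j) fun h0 => h ((redv_eq_zero_iff v _ _).1 h0)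

lemma phiR_thv_le_one (v : Place F) (j : ℕ) {f : M4 (Rv v (2 * (j + 1)))} (h : (red f).jac.Δ ≠ 0) :
    Q4.phiR (thv v j) f ≤ 1 := by
  choose y hy using fun i => (redv_isRed v (2 * (j + 1))).surj (equivVec f i)
  have e : mapM (redv v (2 * (j + 1))) (toM y) = f := by
    rw [densA_map, funext hy, toM, Equiv.symm_apply_apply]
  subst e
  rw [red_map, Model.jac_map, map_Δ, Ne, redv_eq_zero_iff] at h
  rw [phiR_thv_eq v j h]
  refine Q4.LocalField.phiL_le_one (resv_isRed v) fun h0 => h ?_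
  rw [h0]
  exact dvd_zero _

lemma phiR_thv_le (v : Place F) (j : ℕ) (f : M4 (Rv v (2 * (j + 1)))) :
    Q4.phiR (thv v j) f ≤ (qq F ^ dg v) ^ 3 + (qq F ^ dg v) ^ 2 + qq F ^ dg v + 1 := by
  have h := Q4.phiR_le (thv v j) f
  rwa [Nat.card_eq_fintype_card, card_kv_real] at h

/-- from the mass formula -/
theorem dens_V_sq_le (v : Place F) :
    dens Finset.univ (fun f : M4 (Rv v (2 * (0 + 1))) => (red f).jac.Δ = 0) ≤
      7 / (qq F ^ dg v) ^ 2 := by
  have h1 := dens_W_sq_le v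
  have h2 := Q4.mass (thv_isResidue v 0) (fun W => ind (¬W.Δ = 0)) fun C W => by
    rw [variableChange_Δ, ((C.u⁻¹).isUnit.pow 12).mul_right_eq_zero]
  rw [← dens_eq_avg, dens_not Finset.univ_nonempty] at h2
  have h3 : avg Finset.univ (fun f : M4 (Rv v (2 * (0 + 1))) =>
      Q4.phiR (thv v 0) f * ind (¬(red f).jac.Δ = 0)) ≤
      dens Finset.univ fun f : M4 (Rv v (2 * (0 + 1))) => ¬(red f).jac.Δ = 0 := by
    rw [dens_eq_avg]
    refine avg_mono fun f _ => ?_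
    by_cases hf : (red f).jac.Δ = 0
    · rw [ind_neg (not_not.2 hf), mul_zero]
    · rw [ind_pos hf, mul_one]
      exact phiR_thv_le_one v 0 hf
  rw [h2, dens_not ⟨equivVec.symm 0, Finset.mem_univ _⟩] at h3
  rw [card_kv_real] at h3
  have h4 : (1 : ℝ) ≤ qq F ^ dg v := one_le_pow₀ one_lt_qq.le
  have h5 : 1 / (qq F ^ dg v) ^ 3 ≤ 1 / (qq F ^ dg v) ^ 2 :=
    one_div_le_one_div_of_le (by positivity) (pow_le_pow_right₀ h4 (by norm_num))
  have h5' : 1 / (qq F ^ dg v) ^ 4 ≤ 1 / (qq F ^ dg v) ^ 2 :=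
    one_div_le_one_div_of_le (by positivity) (pow_le_pow_right₀ h4 (by norm_num))
  have h6 : 1 / (qq F ^ dg v) ^ 2 ≤ 1 := (div_le_one (by positivity)).2 (one_le_pow₀ h4)
  have h7 : 0 ≤ 1 / (qq F ^ dg v) ^ 3 := by positivity
  have h7' : 0 ≤ 1 / (qq F ^ dg v) ^ 4 := by positivity
  have h8 := dens_nonneg Finset.univ fun W : WeierstrassCurve (Rv v (2 * (0 + 1))) => W.Δ = 0
  rw [div_eq_mul_one_div] at h1 ⊢
  generalize 1 / (qq F ^ dg v) ^ 2 = x at h1 h3 h5 h5' h6 ⊢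
  generalize 1 / (qq F ^ dg v) ^ 3 = y at h3 h5 h7
  generalize 1 / (qq F ^ dg v) ^ 4 = z at h3 h5' h7'
  generalize dens Finset.univ (fun W : WeierstrassCurve (Rv v (2 * (0 + 1))) => W.Δ = 0) = w
    at h1 h3 h8
  have key : ∀ a b s t : ℝ, 0 ≤ a → a ≤ 1 → 1 - s ≤ a → 0 ≤ t → t ≤ 1 → b = 1 - t →
      0 ≤ a * b ∧ a * b ≤ 1 ∧ 1 - (s + t) ≤ a * b := by
    rintro a b s t a0 a1 a2 t0 t1 rfl
    exact ⟨mul_nonneg a0 (by linarith), mul_le_one₀ a1 (by linarith) (by linarith),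
      by nlinarith [mul_le_mul_of_nonneg_right a1 t0]⟩
  have hx : 0 ≤ x := h7.trans h5
  obtain ⟨a0, a1, a2⟩ := key (1 - x) _ x x (by linarith) (by linarith) le_rfl hx h6 rfl
  obtain ⟨b0, b1, b2⟩ := key _ _ _ y a0 a1 a2 h7 (h5.trans h6) rfl
  obtain ⟨-, c1, c2⟩ := key _ _ _ z b0 b1 b2 h7' (h5'.trans h6) rfl
  rw [sq] at h3
  nlinarith [mul_le_mul_of_nonneg_right c1 h8]

/-- `mass` with `thv_isResidue`, `nonMin_smul`, `card_kv_real` -/
theorem avg_phiR (v : Place F) (j : ℕ) :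
    avg Finset.univ (fun f : M4 (Rv v (2 * (j + 1))) =>
      ind (¬NonMin (redv v (2 * (j + 1)) v.loc.unif) (red f).jac) * Q4.phiR (thv v j) f) =
      (1 - 1 / (qq F ^ dg v) ^ 2) ^ 2 * (1 - 1 / (qq F ^ dg v) ^ 3) *
        (1 - 1 / (qq F ^ dg v) ^ 4) * nuLoc v j := by
  have h := Q4.mass (thv_isResidue v j) (fun W => ind (¬NonMin (redv v (2 * (j + 1)) v.loc.unif) W))
    fun C W => congrArg ind (propext (not_congr (nonMin_smul C W)))
  rw [card_kv_real, ← dens_eq_avg] at h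
  rw [nuLoc, ← h]
  exact avg_congr fun f _ => mul_comm _ _

end SelAvg.FF.T4
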