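import Pool.Agent.H94Q.ModB
import Pool.Agent.H38Sel.Desc

/-! Points over the separable closure; four-torsion. -/

namespace SelAvg.Q4

open WeierstrassCurve Matrix
open scoped Classical

variable {L : Type*} [Field L]

theorem four_torsion_le {W : WeierstrassCurve L} (hW : W.Δ ≠ 0) (s : Finset W.toAffine.Point)
    (hs : ∀ P ∈ s, 4 • P = 0) : s.card ≤ 16 := by
  have h1 : (s.image fun P => 2 • P).card ≤ 4 := two_torsion_le hW _ fun P hP => by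
    obtain ⟨Q, hQ, rfl⟩ := Finset.mem_image.1 hP
    rw [smul_smul]
    exact hs Q hQ
  have h2 := Finset.card_le_mul_card_image (f := fun P : W.toAffine.Point => 2 • P) s 4
    fun b hb => by
      obtain ⟨Q, -, rfl⟩ := Finset.mem_image.1 hb
      rw [← Finset.card_image_of_injective _ (sub_left_injective (b := Q))]
      refine two_torsion_le hW _ fun P hP => ?_
      obtain ⟨R, hR, rfl⟩ := Finset.mem_image.1 hP
      rw [smul_sub, (Finset.mem_filter.1 hR).2, sub_self]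
  omega

/-- a common zero -/
def Sol (f : M4 L) : Prop := ∃ Q : Fin 4 → L, Q ≠ 0 ∧ qv (f 0) Q = 0 ∧ qv (f 1) Q = 0

lemma sep4_qv (c d : QF L) (x z : L) (Q : Fin 4 → L) :
    qv (x • c + z • d) Q = x * qv c Q + z * qv d Q := by
  simp [qv]
  ring

lemma sep4_act (g : Mat L) (c : QF L) : act g c = ![qv c (g 0), pol c (g 0) (g 1),
    pol c (g 0) (g 2), pol c (g 0) (g 3), qv c (g 1), pol c (g 1) (g 2), pol c (g 1) (g 3),
    qv c (g 2), pol c (g 2) (g 3), qv c (g 3)] := by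
  funext i
  fin_cases i <;> simp [act, cf, conj_ut, qv, pol] <;> ring

lemma sep4_smul (g : G4 L) (f : M4 L) (h : Sol (g • f)) : Sol f := by
  obtain ⟨Q, hQ, h0, h1⟩ := h
  rw [smul_apply, qv_act, pen, sep4_qv] at h0 h1
  have hd : g.1.1 0 0 * g.1.1 1 1 - g.1.1 0 1 * g.1.1 1 0 ≠ 0 := by
    rw [← det_fin_two]
    exact g.1.det_ne_zero
  refine ⟨Q ᵥ* g.2.1, fun e => hQ ?_, mul_left_cancel₀ hd ?_, mul_left_cancel₀ hd ?_⟩
  · have := congrArg (· ᵥ* (g.2⁻¹).1) e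
    simpa [vecMul_vecMul] using this
  · linear_combination g.1.1 1 1 * h0 - g.1.1 0 1 * h1
  · linear_combination g.1.1 0 0 * h1 - g.1.1 1 0 * h0

lemma sep4_Delta (g : G4 L) {f : M4 L} (h : (red f).jac.Δ ≠ 0) : (red (g • f)).jac.Δ ≠ 0 := by
  rw [red_smul, G.jac_smul]
  exact (Delta_smul_ne_zero _).2 h

lemma sep4_step {f : M4 L} (hΔ : (red f).jac.Δ ≠ 0) (hd : 4 * QQ (f 0) + PP (f 0) ^ 2 ≠ 0)
    (g : Mat L) (hg : g.det ≠ 0) (h : ∀ f' : M4 L, f' 0 = act g (f 0) → (red f').jac.Δ ≠ 0 →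
      4 * QQ (f' 0) + PP (f' 0) ^ 2 ≠ 0 → Sol f') : Sol f := by
  have e : (((1, GeneralLinearGroup.mkOfDetNeZero g hg) : G4 L) • f) 0 = act g (f 0) := by
    rw [smul_apply]
    simp [pen, GeneralLinearGroup.mkOfDetNeZero]
  refine sep4_smul (1, GeneralLinearGroup.mkOfDetNeZero g hg) f (h _ e (sep4_Delta _ hΔ) ?_)
  rw [e]
  refine fun k => mul_ne_zero (pow_ne_zero 2 hg) hd ?_
  rw [PP_act] at k
  linear_combination k - four_QQ_act g (f 0)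

variable [IsSepClosed L]

lemma sep4_root {a b : L} (c : L) (ha : a ≠ 0) (hb : (2 : L) ≠ 0 ∨ b ≠ 0) :
    ∃ t, a * t ^ 2 + b * t + c = 0 := by
  by_cases h2 : (2 : L) = 0
  · obtain ⟨y, hy⟩ := IsSepClosed.exists_root_C_mul_X_pow_add_C_mul_X_add_C (n := 2) a b c
      (by exact_mod_cast h2) le_rfl (hb.resolve_left fun k => k h2)
    exact ⟨y, hy⟩
  · have : NeZero (2 : L) := ⟨h2⟩
    obtain ⟨w, hw⟩ := IsSepClosed.exists_eq_mul_self (b ^ 2 - 4 * a * c)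
    refine ⟨(w - b) / (2 * a), ?_⟩
    field_simp
    linear_combination -hw

lemma sep4_line {f : M4 L} {u v : Fin 4 → L} (hu : u ≠ 0) (huv : ∀ t : L, t • u + v ≠ 0)
    (h0 : ∀ t : L, qv (f 0) (t • u + v) = 0) (h1 : qv (f 0) u = 0)
    (h : (2 : L) ≠ 0 ∨ pol (f 1) u v ≠ 0) : Sol f := by
  by_cases h2 : qv (f 1) u = 0
  · exact ⟨u, hu, h1, h2⟩
  · obtain ⟨t, ht⟩ := sep4_root (qv (f 1) v) h2 h
    refine ⟨t • u + v, huv t, h0 t, ?_⟩
    rw [← ht]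
    simp [qv, pol]
    ring

lemma sep4_five {f : M4 L} (hΔ : (red f).jac.Δ ≠ 0) {γ : L} (hγ : γ ≠ 0)
    (h : f 0 = ![0, 0, 0, 1, 0, γ, 0, 0, 0, 0]) : Sol f := by
  have key : ∀ s t : L, s ≠ 0 ∨ t ≠ 0 → (2 : L) ≠ 0 ∨ pol (f 1) ![s, 0, t, 0] ![0, s, 0, -γ * t] ≠ 0 →
      Sol f := fun s t hst => by
    refine sep4_line (fun e => ?_) (fun r e => ?_) (fun r => ?_) ?_
    · exact hst.elim (fun k => k (congrFun e 0)) fun k => k (congrFun e 2)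
    · refine hst.elim (fun k => k ?_) fun k => k ?_
      · simpa using congrFun e 1
      · simpa [hγ] using congrFun e 3
    · simp [h, qv]
      ring
    · simp [h, qv]
  by_contra hn
  have k1 := mt (key 1 0 (Or.inl one_ne_zero)) hn
  have k2 := mt (key 0 1 (Or.inr one_ne_zero)) hn
  have k3 := mt (key 1 1 (Or.inl one_ne_zero)) hn
  simp [pol, hγ] at k1 k2 k3
  obtain ⟨h2, k1⟩ := k1
  have k4 : f 1 5 = γ * f 1 3 := by linear_combination k3.2 - k1 + γ * k2.2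
  have e1 : (red f).m = 0 := by
    simp [red, P2, h, k4]
    linear_combination γ * f 1 3 * h2
  have e2 : (red f).b = 0 := by simp [red, QM, h, k1, k2.2]
  have e3 : (red f).d = 0 := by
    simp [red, QM, h, k1, k2.2, k4]
    linear_combination (-(f 1 0 * f 1 9 * γ ^ 2 * f 1 3) - f 1 4 * f 1 7 * f 1 3) * h2
  apply hΔ
  have a1 : (red f).jac.a₁ = 0 := e1
  have a3 : (red f).jac.a₃ = 0 := by simp [Model.jac, e2, e3]
  generalize (red f).jac = W at a1 a3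
  simp only [WeierstrassCurve.Δ, b₂, b₄, b₆, b₈, a1, a3]
  linear_combination (-8 * W.a₂ ^ 2 * (4 * W.a₂ * W.a₆ - W.a₄ ^ 2) - 32 * W.a₄ ^ 3
    - 216 * W.a₆ ^ 2 + 144 * W.a₂ * W.a₄ * W.a₆) * h2

lemma sep4_four {f : M4 L} (hΔ : (red f).jac.Δ ≠ 0) (hd : 4 * QQ (f 0) + PP (f 0) ^ 2 ≠ 0)
    {γ δ : L} (h : f 0 = ![0, 0, 0, 1, 0, γ, 0, δ, 0, 0]) : Sol f := by
  have hγ : γ ≠ 0 := fun e => hd (by simp [h, e, QQ, QM, PP, P2])
  refine sep4_step hΔ hd !![1, 0, 0, 0; 0, 1, 0, 0; 0, -δ / γ, 1, 0; 0, 0, 0, 1] (by simp [det4])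
    fun f' e h1 _ => sep4_five h1 hγ ?_
  rw [e, h, sep4_act]
  funext i
  fin_cases i <;> simp [qv, pol]
  field_simp
  ring

lemma sep4_three {f : M4 L} (hΔ : (red f).jac.Δ ≠ 0) (hd : 4 * QQ (f 0) + PP (f 0) ^ 2 ≠ 0)
    {β γ δ : L} (h : f 0 = ![0, 0, 0, 1, β, γ, 0, δ, 0, 0]) : Sol f := by
  by_cases hβ : β = 0
  · exact sep4_four hΔ hd (by rw [h, hβ])
  obtain ⟨t, ht⟩ := sep4_root (b := γ) δ hβ (by
    by_contra k
    push Not at k
    apply hd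
    simp [h, k.2, QQ, QM, PP, P2]
    left
    linear_combination 2 * k.1)
  refine sep4_step hΔ hd !![1, 0, 0, 0; 0, t, 1, 0; 0, 1, 0, 0; 0, 0, 0, 1] (by simp [det4])
    fun f' e h1 h2 => sep4_four h1 h2 (γ := 2 * β * t + γ) (δ := β) ?_
  rw [e, h, sep4_act]
  funext i
  fin_cases i <;> simp [qv, pol]
  linear_combination ht

lemma sep4_two {f : M4 L} (hΔ : (red f).jac.Δ ≠ 0) (hd : 4 * QQ (f 0) + PP (f 0) ^ 2 ≠ 0)
    (h0 : f 0 0 = 0) (h1 : f 0 1 = 0) (h2 : f 0 2 = 0) (h3 : f 0 3 = 1) : Sol f := by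
  refine sep4_step hΔ hd !![1, 0, 0, 0; -f 0 6, 1, 0, 0; -f 0 8, 0, 1, 0; -f 0 9, 0, 0, 1]
    (by simp [det4]) fun f' e k1 k2 => sep4_three k1 k2 (β := f 0 4) (γ := f 0 5) (δ := f 0 7) ?_
  rw [e, sep4_act]
  funext i
  fin_cases i <;> simp [qv, pol, h0, h1, h2, h3]

lemma sep4_one {f : M4 L} (hΔ : (red f).jac.Δ ≠ 0) (hd : 4 * QQ (f 0) + PP (f 0) ^ 2 ≠ 0)
    (h0 : f 0 0 = 0) : Sol f := by
  by_cases h3 : f 0 3 = 0
  · by_cases h2 : f 0 2 = 0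
    · have h1 : f 0 1 ≠ 0 := fun h1 => hd (by simp [h0, h1, h2, h3, QQ, QM, PP, P2])
      refine sep4_step hΔ hd !![1, 0, 0, 0; 0, 0, 1, 0; 0, 0, 0, 1; 0, (f 0 1)⁻¹, 0, 0]
        (by simp [det4, h1]) fun f' e k1 k2 => sep4_two k1 k2 ?_ ?_ ?_ ?_ <;>
        simp [e, sep4_act, qv, pol, h0, h1, h2, h3]
    · refine sep4_step hΔ hd
        !![1, 0, 0, 0; 0, 1, -f 0 1 / f 0 2, 0; 0, 0, 0, 1; 0, 0, (f 0 2)⁻¹, 0]
        (by simp [det4, h2]) fun f' e k1 k2 => sep4_two k1 k2 ?_ ?_ ?_ ?_ <;>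
        simp [e, sep4_act, qv, pol, h0, h2, h3]
      field_simp
      ring
  · refine sep4_step hΔ hd
      !![1, 0, 0, 0; 0, 1, 0, -f 0 1 / f 0 3; 0, 0, 1, -f 0 2 / f 0 3; 0, 0, 0, (f 0 3)⁻¹]
      (by simp [det4, h3]) fun f' e k1 k2 => sep4_two k1 k2 ?_ ?_ ?_ ?_ <;>
      simp [e, sep4_act, qv, pol, h0, h3] <;> field_simp <;> ring

lemma sep4_zero {f : M4 L} (hΔ : (red f).jac.Δ ≠ 0) (hd : 4 * QQ (f 0) + PP (f 0) ^ 2 ≠ 0) :
    Sol f := by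
  by_cases h0 : f 0 0 = 0
  · exact sep4_one hΔ hd h0
  by_cases h1 : (2 : L) ≠ 0 ∨ f 0 1 ≠ 0
  · obtain ⟨t, ht⟩ := sep4_root (f 0 4) h0 h1
    refine sep4_step hΔ hd !![t, 1, 0, 0; 1, 0, 0, 0; 0, 0, 1, 0; 0, 0, 0, 1] (by simp [det4])
      fun f' e k1 k2 => sep4_one k1 k2 ?_
    simp [e, sep4_act, qv]
    linear_combination ht
  by_cases h2 : (2 : L) ≠ 0 ∨ f 0 2 ≠ 0
  · obtain ⟨t, ht⟩ := sep4_root (f 0 7) h0 h2
    refine sep4_step hΔ hd !![t, 0, 1, 0; 0, 1, 0, 0; 1, 0, 0, 0; 0, 0, 0, 1] (by simp [det4])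
      fun f' e k1 k2 => sep4_one k1 k2 ?_
    simp [e, sep4_act, qv]
    linear_combination ht
  by_cases h3 : (2 : L) ≠ 0 ∨ f 0 3 ≠ 0
  · obtain ⟨t, ht⟩ := sep4_root (f 0 9) h0 h3
    refine sep4_step hΔ hd !![t, 0, 0, 1; 0, 1, 0, 0; 0, 0, 1, 0; 1, 0, 0, 0] (by simp [det4])
      fun f' e k1 k2 => sep4_one k1 k2 ?_
    simp [e, sep4_act, qv]
    linear_combination ht
  push Not at h1 h2 h3
  refine absurd ?_ hd
  simp only [PP, P2, h1.2, h2.2, h3.2]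
  linear_combination 2 * QQ (f 0) * h1.1

theorem sol_of_isSepClosed {f : M4 L} (hΔ : (red f).jac.Δ ≠ 0) : Sol f := by
  have := infinite_of_isSepClosed L
  obtain ⟨x, hx⟩ : ∃ x, (red f).hpoly.eval x ≠ 0 := by
    by_contra h
    push Not at h
    exact Model.hpoly_ne_zero hΔ (Polynomial.funext (by simpa using h))
  rw [Model.eval_hpoly, red_q, red_g, add_comm] at hx
  let g : G4 L := (GeneralLinearGroup.mkOfDetNeZero !![x, 1; 1, 0] (by simp [det_fin_two]), 1)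
  have e : (g • f) 0 = pen f x 1 := act_one _
  exact sep4_smul g f (sep4_zero (sep4_Delta g hΔ) (by rwa [e]))

theorem exists_sep_point {K : Type*} [Field K] {f : M4 K} (hΔ : (red f).jac.Δ ≠ 0) :
    Sol (mapM (algebraMap K (SeparableClosure K)) f) :=
  sol_of_isSepClosed (by rwa [red_map, Model.jac_map, map_Δ, _root_.map_ne_zero])

end SelAvg.Q4
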