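import Pool.Agent.H94Q.Dif
import Pool.Agent.H94Q.Coh
import Pool.Agent.H94Q.Sep4

/-! Four-descent: Selmer elements of order four as orbits of pairs of quadrics. -/

namespace SelAvg.FF.T4

open WeierstrassCurve Matrix Filter Topology H5T SelAvg.Q4
open scoped Classical

section Th

variable {K : Type} [Field K]

lemma desc4_ofin (z : Obj4 (SeparableClosure K)) :
    ∀ᶠ σ : Gal K in 𝓝 1, z.map (galHom σ) = z := by
  filter_upwards [eventually_all.2 fun i => ev_pm (z.f i), ev_units z.γ.u, ev_fix z.γ.r,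
    ev_fix z.γ.s, ev_fix z.γ.t] with σ h1 h2 h3 h4 h5
  exact Obj4.ext (funext h1) (VariableChange.ext h2 h3 h4 h5)

lemma desc4_gfin (g : G4 (SeparableClosure K)) :
    ∀ᶠ σ : Gal K in 𝓝 1, mapG (galHom σ) g = g := by
  filter_upwards [ev_GL g.1, ev_GL g.2] with σ h1 h2
  exact Prod.ext h1 h2

lemma desc4_odesc {z : Obj4 (SeparableClosure K)} (h : ∀ σ : Gal K, z.map (galHom σ) = z) :
    ∃ z₀ : Obj4 K, z₀.map (toSep K) = z := by
  have h1 : ∀ i j, ∃ a, toSep K a = z.f i j := fun i j => desc1_fixed fun σ =>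
    congrArg (fun x => x.f i j) (h σ)
  choose v hv using h1
  obtain ⟨u, hu⟩ := desc_units (t := z.γ.u) fun σ => congrArg (fun x => x.γ.u) (h σ)
  obtain ⟨r, hr⟩ := desc1_fixed (x := z.γ.r) fun σ => congrArg (fun x => x.γ.r) (h σ)
  obtain ⟨s, hs⟩ := desc1_fixed (x := z.γ.s) fun σ => congrArg (fun x => x.γ.s) (h σ)
  obtain ⟨t, ht⟩ := desc1_fixed (x := z.γ.t) fun σ => congrArg (fun x => x.γ.t) (h σ)
  exact ⟨⟨v, ⟨u, r, s, t⟩⟩,
    Obj4.ext (funext fun i => funext (hv i)) (VariableChange.ext hu hr hs ht)⟩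

lemma desc4_gdesc {g : G4 (SeparableClosure K)} (h : ∀ σ : Gal K, mapG (galHom σ) g = g) :
    ∃ g₀ : G4 K, mapG (toSep K) g₀ = g := by
  obtain ⟨N, hN⟩ := desc_GL (H := g.1) fun σ => congrArg Prod.fst (h σ)
  obtain ⟨M, hM⟩ := desc_GL (H := g.2) fun σ => congrArg Prod.snd (h σ)
  exact ⟨(N, M), Prod.ext hN hM⟩

lemma desc4_over_map {L L' : Type*} [Field L] [Field L'] (φ : L →+* L') {z : Obj4 L}
    {W : WeierstrassCurve L} : (z.map φ).Over (W.map φ) ↔ z.Over W := by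
  refine ⟨fun h => ?_, fun h => h.map φ⟩
  rw [Obj4.Over, Obj4.two_map] at h
  unfold Obj4.Over Obj.Over at *
  rw [Obj.map_f, Obj.map_γ, Model.jac_map, map_variableChange] at h
  exact WeierstrassCurve.map_injective φ.injective h

/-- pairs of quadrics satisfy the axioms of the descent -/
noncomputable def th4 : Th 4 4 where
  Obj L _ := Obj4 L
  G L _ := G4 L
  omap φ := Obj4.map φ
  gmap φ := mapG φ
  mat := MonoidHom.snd _ _
  scalar := scal _
  pt := pt
  Over := Obj4.Over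
  On z := On z.f
  D := D4
  piP := piP4
  pt_eq _ _ := rfl
  omap_omap := Obj4.map_map
  omap_inj φ := Obj4.map_injective φ.injective
  omap_smul := Obj4.map_smul
  gmap_gmap := mapG_mapG
  gmap_inj φ := mapG_injective φ.injective
  gmap_scalar := mapG_scal
  mat_gmap _ _ := rfl
  mat_scalar t := ⟨t, rfl⟩
  scalar_comm := scal_comm
  scalar_inj h := scal_injective h
  scalar_smul := Obj4.scal_smul
  over_omap := desc4_over_map
  over_smul := Obj4.Over.smul
  on_ne h := h.prim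
  on_eqv h e := h.eqv e
  on_omap φ z Q := on_map φ z.f Q
  on_pt g z Q := on_pt g z.f Q
  D_add hW hz _ _ _ := D4_add hW hz
  D_eq_zero_iff hW hz _ _ := D4_eq_zero_iff hW hz
  D_surj hW hz _ := D4_surjective hW hz
  D_smul hW hz g _ _ := D4_smul hW hz g
  piP_smul hW hz g _ := piP4_smul hW hz g
  D_map φ _ _ hW hz _ _ := toRaw_D4_map φ hW hz
  piP_map φ _ _ hW hz _ := toRaw_piP4_map φ hW hz
  smul_D hW hz _ _ := four_smul_D4 hW hz
  exists_iso hW hz hz' _ _ := exists_iso4 hW hz hz'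
  eq_scalar hW hz _ hQ _ := eq_scal_of_fix hW hz hQ
  piP_surj := piP4_surj
  sep_point hW hz := (Q4.exists_sep_point (hz.jac_Delta hW)).imp fun _ h =>
    ⟨h.1, Fin.forall_fin_two.2 h.2⟩
  ofin := desc4_ofin
  gfin := desc4_gfin
  odesc := desc4_odesc
  gdesc := desc4_gdesc

lemma th4_split : th4.Split K := by
  refine Th.split_of_h90 (fun _ => rfl) (fun H => ⟨(1, H), rfl⟩) fun ν h1 h2 h3 => ?_
  obtain ⟨s, hs⟩ := h90_GL (fun σ => Prod.fst (ν σ)) (fun σ τ => congrArg Prod.fst (h2 σ τ))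
    (h3.mono fun σ h => congrArg Prod.fst h)
  refine ⟨(s, 1), fun σ => Prod.ext (hs σ) ?_⟩
  exact (congrArg₂ (· * ·) (map_one (GeneralLinearGroup.map (galHom σ))) (h1 σ)).trans (mul_one _)

variable {W : WeierstrassCurve K} {z z' : Obj4 K}

/-- the class of an object -/
noncomputable def cl4 (W : WeierstrassCurve K) (z : Obj4 K) : H1 W 4 := th4.cl W z

theorem cl4_smul (hW : W.Δ ≠ 0) (hz : z.Over W) (g : G4 K) : cl4 W (g • z) = cl4 W z :=
  Th.cl_smul (T := th4) hW hz g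

theorem exists_smul_of_cl4_eq (hW : W.Δ ≠ 0) (hz : z.Over W) (hz' : z'.Over W)
    (h : cl4 W z = cl4 W z') : ∃ g : G4 K, g • z' = z :=
  Th.exists_smul_of_cl_eq (T := th4) hW hz hz' h

theorem cl4_mem_Sel_iff (hW : W.Δ ≠ 0) (hz : z.Over W) :
    cl4 W z ∈ Sel W 4 ↔ ∀ v : Place K, Soluble (mapM (algebraMap K v.Compl) z.f) :=
  Th.cl_mem_Sel_iff (T := th4) hW hz

/-- the class of the attached object of degree two is twice the class -/
theorem dblH_cl4 (hW : W.Δ ≠ 0) (hz : z.Over W) : dblH (cl4 W z) = cl W z.two := by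
  obtain ⟨c, hc⟩ := Th.exists_rep (T := th4) hW hz
  rw [cl4, (Th.cl_eq_mk_iff (T := th4) hW hz).2 hc, dblH_mk, eq_comm, cl_eq_mk_iff hW hz]
  obtain ⟨Q, hQ, h1, h2⟩ := hc
  have hV := Delta_map hW (toSep K)
  have hw := hz.map (toSep K)
  have hΔ := hw.jac_Delta hV
  have hS : (red (z.map (toSep K)).f).On _ := sig_on hΔ hQ hQ
  rw [Rep, ← Obj4.two_map]
  refine ⟨_, hS, h1, fun σ => ?_⟩
  have hσ := Th.on_gal (T := th4) hQ σ
  have e1 := sig_map hΔ (galHom σ) hQ hQ
  have e2 : mapM (galHom σ) (z.map (toSep K)).f = (z.map (toSep K)).f :=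
    congrArg Obj4.f (Th.obj_gal (T := th4) z σ)
  rw [e2] at e1
  refine (congrArg (2 • ·) (h2 σ)).trans ((D_sig_sig hV hw hσ hQ).symm.trans ?_)
  exact D_eqv hV hw (sig_on hΔ hσ hσ) hS e1 (Pt.Eqv.refl _)

theorem dblH_cl4_eq_triv_iff (hW : W.Δ ≠ 0) (hz : z.Over W) :
    dblH (cl4 W z) = trivClass W 2 ↔ (red z.f).Triv := by
  rw [dblH_cl4 hW hz]
  exact cl_eq_triv_iff hW hz

lemma noTors_four (h : NoTwoTorsion W) : NoTors W 4 := fun P hP =>
  noTors_two h P (noTors_two h _ (by rw [smul_smul]; exact hP))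

theorem aut_eq_scalar (hW : W.Δ ≠ 0) (h2 : NoTwoTorsion W) (hz : z.Over W) {g : G4 K}
    (hg : g • z = z) : ∃ t : Kˣ, g = scal K t :=
  Th.aut_eq_scalar (T := th4) hW (noTors_four h2) hz hg

/-- at most sixteen automorphisms modulo scalars -/
theorem aut_card_le (hW : W.Δ ≠ 0) (hz : z.Over W) (s : Finset (G4 K)) (hs : ∀ g ∈ s, g • z = z)
    (hs' : ∀ g ∈ s, ∀ g' ∈ s, ∀ t : Kˣ, g' = scal K t * g → g = g') : s.card ≤ 16 :=
  Th.aut_card_le (T := th4) hW hz (four_torsion_le (Delta_map hW _)) s hs hs'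

theorem exists_obj_of_mem_Sel (hK : Abhn K 4) (hW : W.Δ ≠ 0) {x : H1 W 4} (hx : x ∈ Sel W 4) :
    ∃ z : Obj4 K, z.Over W ∧ cl4 W z = x :=
  Th.exists_obj_of_mem_Sel (T := th4) hK th4_split hW hx

end Th

variable {F : Type} [Field F]

/-- the isomorphism classes of objects -/
abbrev Orb (F : Type) [Field F] : Type := MulAction.orbitRel.Quotient (G4 F) (Obj4 F)

/-- the class of an object -/
noncomputable def orb (z : Obj4 F) : Orb F := Quotient.mk _ z

lemma orb_eq_iff {z z' : Obj4 F} : orb z = orb z' ↔ ∃ g : G4 F, g • z' = z := by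
  unfold orb
  rw [Quotient.eq]
  exact MulAction.orbitRel_apply.trans MulAction.mem_orbit_iff

/-- change of the base curve on classes -/
noncomputable def selOrb_rmul (C : VariableChange F) : Orb F → Orb F :=
  Quotient.lift (fun z => orb (z.rmul C)) fun z z' h => by
    obtain ⟨g, hg⟩ := orb_eq_iff.1 (Quotient.sound h)
    exact orb_eq_iff.2 ⟨g, by rw [Obj4.smul_rmul, hg]⟩

lemma selOrb_rmul_orb (C : VariableChange F) (z : Obj4 F) :
    selOrb_rmul C (orb z) = orb (z.rmul C) := rfl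

lemma desc4_rmul_one (z : Obj4 F) : z.rmul 1 = z := Obj4.ext rfl (mul_one _)

lemma desc4_over_rmul {z : Obj4 F} {W : WeierstrassCurve F} {C : VariableChange F}
    (h : z.Over (C • W)) : (z.rmul C).Over W := Obj.Over.rmul h

lemma selOrb_rmul_inj (C : VariableChange F) : Function.Injective (selOrb_rmul C) := by
  refine Function.LeftInverse.injective (g := selOrb_rmul C⁻¹) fun x => ?_
  obtain ⟨z, rfl⟩ : ∃ z, orb z = x := Quotient.exists_rep x
  rw [selOrb_rmul_orb, selOrb_rmul_orb, Obj4.rmul_rmul, mul_inv_cancel, desc4_rmul_one]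

lemma selOrb_cl_out {W : WeierstrassCurve F} (hW : W.Δ ≠ 0) {z : Obj4 F} (hz : z.Over W) :
    cl4 W (orb z).out = cl4 W z := by
  obtain ⟨g, hg⟩ : ∃ g : G4 F, g • z = (orb z).out := orb_eq_iff.1 (Quotient.out_eq (orb z))
  rw [← hg, cl4_smul hW hz]

/-- everywhere locally soluble -/
def ELSF (f : M4 F) : Prop := ∀ v : Place F, Soluble (mapM (algebraMap F v.Compl) f)

/-- the classes of everywhere locally soluble objects of order four over `W` -/
def SelO (W : WeierstrassCurve F) : Set (Orb F) :=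
  {x | ∃ z, orb z = x ∧ z.Over W ∧ ELSF z.f ∧ ¬(red z.f).Triv}

lemma elsF_smul (g : G4 F) (f : M4 F) : ELSF (g • f) ↔ ELSF f := by
  simp only [ELSF, mapM_smul, soluble_smul]

lemma selo_image (W : WeierstrassCurve F) (C : VariableChange F) :
    selOrb_rmul C '' SelO (C • W) = SelO W := by
  ext x
  constructor
  · rintro ⟨_, ⟨z, rfl, h1, h2, h3⟩, rfl⟩
    exact ⟨z.rmul C, rfl, desc4_over_rmul h1, h2, h3⟩
  · rintro ⟨z, rfl, h1, h2, h3⟩
    refine ⟨orb (z.rmul C⁻¹), ⟨_, rfl, desc4_over_rmul ?_, h2, h3⟩, ?_⟩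
    · rwa [inv_smul_smul]
    · rw [selOrb_rmul_orb, Obj4.rmul_rmul, inv_mul_cancel, desc4_rmul_one]

theorem encard_SelO_smul (W : WeierstrassCurve F) (C : VariableChange F) :
    (SelO (C • W)).encard = (SelO W).encard := by
  rw [← selo_image W C, (selOrb_rmul_inj C).encard_image]

/-- the bound for the number of automorphisms modulo scalars -/
noncomputable def autF (W : WeierstrassCurve F) : ℕ := if NoTwoTorsion W then 1 else 16

lemma autF_le (W : WeierstrassCurve F) : autF W ≤ 16 := by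
  unfold autF
  split_ifs <;> omega

lemma autF_smul (C : VariableChange F) (W : WeierstrassCurve F) : autF (C • W) = autF W := by
  simp only [autF, noTwoTorsion_smul]

variable (F) in
/-- the action on objects -/
noncomputable def actO : G4 F →* Equiv.Perm (Obj4 F) := MulAction.toPermHom (G4 F) (Obj4 F)

lemma actO_apply (g : G4 F) (z : Obj4 F) : actO F g z = g • z := rfl

theorem card_le_autF {W : WeierstrassCurve F} (hW : W.Δ ≠ 0) {z : Obj4 F} (hz : z.Over W)
    (s : Finset (G4 F)) (hs : ∀ g ∈ s, actO F g z = z)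
    (hs' : ∀ g ∈ s, ∀ g' ∈ s, ∀ t, g' = Q4.scal F t * g → g = g') : s.card ≤ autF W := by
  unfold autF
  split_ifs with h2
  · refine Finset.card_le_one.2 fun g hg g' hg' => ?_
    have h1 : g • z = z := hs g hg
    have h1' : g' • z = z := hs g' hg'
    obtain ⟨t, ht⟩ := aut_eq_scalar hW h2 hz (g := g' * g⁻¹) (by
      rw [mul_smul, inv_smul_eq_iff.2 h1.symm, h1'])
    refine hs' g hg g' hg' t ?_
    rw [← ht, inv_mul_cancel_right]
  · exact aut_card_le hW hz s hs hs'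

lemma selo_bij (hK : Abhn F 4) {W : WeierstrassCurve F} (hW : W.Δ ≠ 0) :
    Set.BijOn (fun x : Orb F => cl4 W x.out) (SelO W) (Sel4' W) := by
  refine ⟨?_, ?_, ?_⟩
  · rintro _ ⟨z, rfl, h1, h2, h3⟩
    simp only [selOrb_cl_out hW h1]
    exact ⟨(cl4_mem_Sel_iff hW h1).2 h2, fun h => h3 ((dblH_cl4_eq_triv_iff hW h1).1 h)⟩
  · rintro _ ⟨z, rfl, h1, -, -⟩ _ ⟨z', rfl, h1', -, -⟩ h
    simp only [selOrb_cl_out hW h1, selOrb_cl_out hW h1'] at h
    exact orb_eq_iff.2 (exists_smul_of_cl4_eq hW h1 h1' h)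
  · rintro x ⟨hx, hx'⟩
    obtain ⟨z, hz, rfl⟩ := exists_obj_of_mem_Sel hK hW hx
    exact ⟨orb z, ⟨z, rfl, hz, (cl4_mem_Sel_iff hW hz).1 hx,
      fun h => hx' ((dblH_cl4_eq_triv_iff hW hz).2 h)⟩, selOrb_cl_out hW hz⟩

theorem encard_Sel4' (hK : Abhn F 4) {W : WeierstrassCurve F} (hW : W.Δ ≠ 0) :
    (Sel4' W).encard = (SelO W).encard := by
  rw [← (selo_bij hK hW).injOn.encard_image, (selo_bij hK hW).image_eq]

/-- the four-Selmer group in terms of the two-Selmer group and the orbits of order four -/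
theorem finite_Sel_of (hK : Abhn F 4) {W : WeierstrassCurve F} (hW : W.Δ ≠ 0)
    (h2 : (Sel W 2).Finite) (h : (SelO W).Finite) :
    (Sel W 4).Finite ∧ (Sel W 4).ncard ≤ (SelO W).ncard + (Sel W 2).ncard ∧
      (SelO W).ncard + 1 ≤ (Sel W 4).ncard ∧
      (NoTwoTorsion W → (Sel W 4).ncard = (SelO W).ncard + (Sel W 2).ncard) := by
  have e := encard_Sel4' hK hW
  have h4 : (Sel4' W).Finite := Set.finite_of_encard_eq_coe (e.trans h.cast_ncard_eq.symm)
  have e' : (Sel4' W).ncard = (SelO W).ncard := by rw [Set.ncard_def, e, ← Set.ncard_def]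
  obtain ⟨k1, -, k3, k4⟩ := finite_Sel_four hW h2 h4
  have k2 : (Sel4' W).ncard < (Sel W 4).ncard := by
    refine Set.ncard_lt_ncard ⟨Set.sdiff_subset, fun k => ?_⟩ k1
    refine (k trivClass_mem_Sel).2 (congrArg (Quot.mk _) ?_)
    unfold dblC trivCocycle
    congr 1
  refine ⟨k1, by omega, by omega, fun k => ?_⟩
  rw [k4 k]
  omega

end SelAvg.FF.T4
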