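import Pool.Agent.H94Q.DifA
import Pool.Agent.H94Q.Add

/-! Row DIF: additivity of the difference map. -/

namespace SelAvg.Q4

open WeierstrassCurve Matrix
open scoped Classical

variable {L : Type*} [Field L] {W : WeierstrassCurve L} {z : Obj4 L}
  {Q Q' : P4 L}

theorem D4_add (hW : W.Δ ≠ 0) (hz : z.Over W) {Q₁ Q₂ Q₃ : P4 L} (h₁ : On z.f Q₁)
    (h₂ : On z.f Q₂) (h₃ : On z.f Q₃) : D4 W z Q₁ Q₂ + D4 W z Q₂ Q₃ = D4 W z Q₁ Q₃ := by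
  have hΔ := hz.jac_Delta hW
  have a := D_add hW hz (sig_on hΔ h₁ h₁) (sig_on hΔ h₂ h₂) (sig_on hΔ h₂ h₃)
  rw [sig_add hW hz h₁ h₂ h₂, sig_add hW hz h₁ h₂ h₃, add_assoc] at a
  exact add_left_cancel a

lemma D4_self (hW : W.Δ ≠ 0) (hz : z.Over W) (hQ : On z.f Q) : D4 W z Q Q = 0 :=
  (D4_eq_zero_iff hW hz hQ hQ).2 (Eqv.refl Q)

lemma D4_symm (hW : W.Δ ≠ 0) (hz : z.Over W) (hQ : On z.f Q) (hQ' : On z.f Q') :
    D4 W z Q' Q = -D4 W z Q Q' := by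
  rw [eq_neg_iff_add_eq_zero, D4_add hW hz hQ' hQ hQ', D4_self hW hz hQ']

/-- the map `Q ↦ sig Q Q` to the degree 2 curve induces multiplication by two -/
theorem D_sig_sig (hW : W.Δ ≠ 0) (hz : z.Over W) (hQ : On z.f Q) (hQ' : On z.f Q') :
    D W z.two (sig z.f Q Q) (sig z.f Q' Q') = 2 • D4 W z Q Q' := by
  rw [sig_add hW hz hQ hQ' hQ', two_smul]

theorem four_smul_D4 (hW : W.Δ ≠ 0) (hz : z.Over W) (hQ : On z.f Q) (hQ' : On z.f Q') :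
    4 • D4 W z Q Q' = piP4 W z Q - piP4 W z Q' := by
  have hΔ := hz.jac_Delta hW
  rw [piP4, piP4, ← two_smul_D hW hz (sig_on hΔ hQ hQ) (sig_on hΔ hQ' hQ'), D_sig_sig hW hz hQ hQ',
    ← mul_nsmul]

end SelAvg.Q4
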