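import Pool.Agent.H94Q.Sig

/-! Row DIFA: the difference map and the covering map of a degree 4 model. -/

namespace SelAvg.Q4

open WeierstrassCurve Matrix
open scoped Classical

variable {L L' : Type*} [Field L] [Field L'] {W : WeierstrassCurve L} {z z' : Obj4 L}
  {Q Q' : P4 L}

theorem D4_eqv (hW : W.Δ ≠ 0) (hz : z.Over W) {Q₁ Q₁' Q₂ Q₂' : P4 L} (h₁ : On z.f Q₁)
    (h₂ : On z.f Q₂) (e₁ : Eqv Q₁ Q₁') (e₂ : Eqv Q₂ Q₂') : D4 W z Q₁ Q₂ = D4 W z Q₁' Q₂' := by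
  have hΔ := hz.jac_Delta hW
  exact D_eqv hW hz (sig_on hΔ h₁ h₁) (sig_on hΔ h₁ h₂) (sig_eqv hΔ h₁ h₁ e₁ e₁)
    (sig_eqv hΔ h₁ h₂ e₁ e₂)

theorem piP4_eqv (hW : W.Δ ≠ 0) (hz : z.Over W) (h : On z.f Q) (e : Eqv Q Q') :
    piP4 W z Q = piP4 W z Q' := by
  have hΔ := hz.jac_Delta hW
  exact piP_eqv hW hz (sig_on hΔ h h) (sig_eqv hΔ h h e e)

theorem D4_eq_zero_iff (hW : W.Δ ≠ 0) (hz : z.Over W) (hQ : On z.f Q) (hQ' : On z.f Q') :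
    D4 W z Q Q' = 0 ↔ Eqv Q Q' := by
  have hΔ := hz.jac_Delta hW
  rw [D4, D_eq_zero_iff hW hz (sig_on hΔ hQ hQ) (sig_on hΔ hQ hQ')]
  exact ⟨sig_inj hΔ hQ hQ hQ', sig_eqv hΔ hQ hQ (Eqv.refl Q)⟩

theorem D4_surjective (hW : W.Δ ≠ 0) (hz : z.Over W) (hQ : On z.f Q) (P : W.toAffine.Point) :
    ∃ Q', On z.f Q' ∧ D4 W z Q Q' = P := by
  have hΔ := hz.jac_Delta hW
  obtain ⟨T, hT, rfl⟩ := D_surjective hW hz (sig_on hΔ hQ hQ) P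
  obtain ⟨Q', h1, h2⟩ := sig_surj hΔ hQ hT
  exact ⟨Q', h1, D_eqv hW hz (sig_on hΔ hQ hQ) (sig_on hΔ hQ h1) (Pt.Eqv.refl _) h2⟩

theorem D4_smul (hW : W.Δ ≠ 0) (hz : z.Over W) (g : G4 L) (hQ : On (g • z).f Q)
    (hQ' : On (g • z).f Q') : D4 W (g • z) Q Q' = D4 W z (pt g Q) (pt g Q') := by
  have hΔ := hz.jac_Delta hW
  have hΔ' := (hz.smul g).jac_Delta hW
  have o₁ : (hh g z.f • z.two).f.On (sig (g • z).f Q Q) := Obj4.two_smul g z ▸ sig_on hΔ' hQ hQ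
  have o₂ : (hh g z.f • z.two).f.On (sig (g • z).f Q Q') := Obj4.two_smul g z ▸ sig_on hΔ' hQ hQ'
  have p₁ := (on_pt g z.f Q).2 hQ
  have p₂ := (on_pt g z.f Q').2 hQ'
  rw [D4, D4, Obj4.two_smul, D_smul hW hz _ o₁ o₂]
  exact (D_eqv hW hz (sig_on hΔ p₁ p₁) (sig_on hΔ p₁ p₂) (sig_pt hΔ g hQ hQ)
    (sig_pt hΔ g hQ hQ')).symm

theorem piP4_smul (hW : W.Δ ≠ 0) (hz : z.Over W) (g : G4 L) (hQ : On (g • z).f Q) :
    piP4 W (g • z) Q = piP4 W z (pt g Q) := by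
  have hΔ := hz.jac_Delta hW
  have hΔ' := (hz.smul g).jac_Delta hW
  have o₁ : (hh g z.f • z.two).f.On (sig (g • z).f Q Q) := Obj4.two_smul g z ▸ sig_on hΔ' hQ hQ
  have p₁ := (on_pt g z.f Q).2 hQ
  rw [piP4, piP4, Obj4.two_smul, piP_smul hW hz _ o₁]
  exact (piP_eqv hW hz (sig_on hΔ p₁ p₁) (sig_pt hΔ g hQ hQ)).symm

theorem toRaw_D4_map (φ : L →+* L') (hW : W.Δ ≠ 0) (hz : z.Over W) (hQ : On z.f Q)
    (hQ' : On z.f Q') :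
    toRaw (D4 (W.map φ) (z.map φ) (φ ∘ Q) (φ ∘ Q')) = rawMap φ (toRaw (D4 W z Q Q')) := by
  have hΔ := hz.jac_Delta hW
  have hW' : (W.map φ).Δ ≠ 0 := by rw [map_Δ]; exact (map_ne_zero φ).2 hW
  have hΔ' := (hz.map φ).jac_Delta hW'
  have p₁ := (on_map φ z.f Q).2 hQ
  have p₂ := (on_map φ z.f Q').2 hQ'
  rw [D4, D4, ← toRaw_D_map φ hW hz (sig_on hΔ hQ hQ) (sig_on hΔ hQ hQ'), ← Obj4.two_map]
  exact congrArg toRaw (D_eqv hW' (hz.map φ) (sig_on hΔ' p₁ p₁) (sig_on hΔ' p₁ p₂)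
    (sig_map hΔ φ hQ hQ) (sig_map hΔ φ hQ hQ'))

theorem toRaw_piP4_map (φ : L →+* L') (hW : W.Δ ≠ 0) (hz : z.Over W) (hQ : On z.f Q) :
    toRaw (piP4 (W.map φ) (z.map φ) (φ ∘ Q)) = rawMap φ (toRaw (piP4 W z Q)) := by
  have hΔ := hz.jac_Delta hW
  have hW' : (W.map φ).Δ ≠ 0 := by rw [map_Δ]; exact (map_ne_zero φ).2 hW
  have hΔ' := (hz.map φ).jac_Delta hW'
  have p₁ := (on_map φ z.f Q).2 hQ
  rw [piP4, piP4, ← toRaw_piP_map φ hW hz (sig_on hΔ hQ hQ), ← Obj4.two_map]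
  exact congrArg toRaw (piP_eqv hW' (hz.map φ) (sig_on hΔ' p₁ p₁) (sig_map hΔ φ hQ hQ))

lemma DIFA_over {y : Obj L} (hy : y.Over W) (ha : y.f.a = 0) : (upO y).Over W := by
  rwa [Obj4.Over, two_upO ha]

/-- a pointed object has a normal form -/
lemma DIFA_nf (hW : W.Δ ≠ 0) (hz : z.Over W) (hQ : On z.f Q) : ∃ (g : G4 L) (y : Obj L),
    y.f.a = 0 ∧ y.Over W ∧ g • z = upO y ∧ pt g e0 = Q := by
  obtain ⟨g, m, ha, -, hg, e⟩ := good_of_Delta (hz.jac_Delta hW) hQ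
  have h1 : g • z = upO ⟨m, (g • z).γ⟩ := Obj4.ext hg rfl
  refine ⟨g, ⟨m, (g • z).γ⟩, ha, ?_, h1, e⟩
  have := hz.smul g
  rwa [h1, Obj4.Over, two_upO ha] at this

theorem piP4_upO (hW : W.Δ ≠ 0) {y : Obj L} (hy : y.Over W) (ha : y.f.a = 0) :
    piP4 W (upO y) e0 = piP W y Pt.std := by
  have hz := DIFA_over hy ha
  have hΔ := hz.jac_Delta hW
  have o : On (upO y).f e0 := on_up y.f
  have c : Chord (upO y).f e0 e0 Pt.std := chord_up_std y.f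
  have := piP_eqv (z := (upO y).two) hW hz (sig_on hΔ o o) (c.sig_eqv hΔ o o)
  rw [piP4, this, two_upO ha]

theorem D4_upO (hW : W.Δ ≠ 0) {y : Obj L} (hy : y.Over W) (ha : y.f.a = 0) (hQ : On (up y.f) Q)
    (hne : ¬Eqv e0 Q) : D4 W (upO y) e0 Q = D W y Pt.std (sigU y.f Q) := by
  have hz := DIFA_over hy ha
  have hΔ := hz.jac_Delta hW
  have o : On (upO y).f e0 := on_up y.f
  have o' : On (upO y).f Q := hQ
  have c : Chord (upO y).f e0 e0 Pt.std := chord_up_std y.f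
  have c' : Chord (upO y).f e0 Q (sigU y.f Q) := chord_up hQ hne
  have := D_eqv (z := (upO y).two) hW hz (sig_on hΔ o o) (sig_on hΔ o o') (c.sig_eqv hΔ o o)
    (c'.sig_eqv hΔ o o')
  rw [D4, this, two_upO ha]

theorem piP4_surj (hW : W.Δ ≠ 0) (P : W.toAffine.Point) :
    ∃ (z : Obj4 L) (Q : P4 L), z.Over W ∧ On z.f Q ∧ piP4 W z Q = P := by
  refine ⟨upO (zP W (toRaw P)), e0, ?_, on_up _, ?_⟩
  · rw [Obj4.Over, two_upO (zP_a _ _)]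
    exact zP_over (valid_toRaw P)
  · rw [piP4_upO hW (zP_over (valid_toRaw P)) (zP_a _ _), piP_zP hW]

/-- normal forms (`good_of_Delta`), `SelAvg.exists_iso` in degree 2, `exists_lift4` -/
theorem exists_iso4 (hW : W.Δ ≠ 0) (hz : z.Over W) (hz' : z'.Over W) (hQ : On z.f Q)
    (hQ' : On z'.f Q') (h : piP4 W z Q = piP4 W z' Q') :
    ∃ g : G4 L, g • z' = z ∧ Eqv (pt g Q) Q' := by
  obtain ⟨g₁, y, ha, hy, e₁, rfl⟩ := DIFA_nf hW hz hQ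
  obtain ⟨g₂, y', ha', hy', e₂, rfl⟩ := DIFA_nf hW hz' hQ'
  have o₁ : On (g₁ • z).f e0 := (on_pt g₁ z.f e0).1 hQ
  have o₂ : On (g₂ • z').f e0 := (on_pt g₂ z'.f e0).1 hQ'
  rw [← piP4_smul hW hz g₁ o₁, ← piP4_smul hW hz' g₂ o₂, e₁, e₂,
    piP4_upO hW hy ha, piP4_upO hW hy' ha'] at h
  obtain ⟨k, hk, t, ht, e⟩ := exists_iso hW hy hy' (Model.on_std.2 ha) (Model.on_std.2 ha') h
  rw [G.pt_std] at e
  have h12 : k.m12 = 0 := by simpa [ht] using congrArg Pt.z e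
  have h0 : k.r0 = 0 := by simpa [ht] using congrArg Pt.y e
  obtain ⟨g, s, ν, h1, h2, h3⟩ := exists_lift4 ha' h12 h0
  have hg : g • upO y' = upO y := by
    have k1 : k • y'.f = y.f := congrArg Obj.f hk
    have k2 : k.Gam y'.f * y'.γ = y.γ := congrArg Obj.γ hk
    have k3 : (hh g (up y'.f)).Gam (red (up y'.f)) * y'.γ = y.γ := by
      rw [h3, red_up ha', G.Gam_mul, G.Gam_scalar, one_mul, k2]
    rw [k1] at h1
    exact Obj4.ext h1 k3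
  refine ⟨g₁⁻¹ * g * g₂, by rw [mul_smul, mul_smul, e₂, hg, ← e₁, inv_smul_smul], ?_⟩
  rw [mul_pt, mul_pt, inv_pt_pt, h2, pt_smul]
  exact Eqv.symm ⟨s, s.ne_zero, rfl⟩

/-- normal form, `hh_fix`, `SelAvg.eq_scalar_of_fix`, `eq_scal_of_hh` -/
theorem eq_scal_of_fix (hW : W.Δ ≠ 0) (hz : z.Over W) (hQ : On z.f Q) {g : G4 L}
    (hg : g • z = z) (hgQ : Eqv (pt g Q) Q) : ∃ t : Lˣ, g = scal L t := by
  obtain ⟨g₁, y, ha, hy, e₁, rfl⟩ := DIFA_nf hW hz hQ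
  have h1 : (g₁ * g * g₁⁻¹) • upO y = upO y := by
    rw [← e₁, mul_smul, mul_smul, inv_smul_smul, hg]
  have h2 := (hgQ.pt g₁⁻¹).symm
  rw [inv_pt_pt, ← mul_pt, ← mul_pt, ← mul_assoc] at h2
  obtain ⟨s, -, h2⟩ := h2
  have h3 : (g₁ * g * g₁⁻¹) • up y.f = up y.f := congrArg Obj4.f h1
  obtain ⟨h12, h0⟩ := hh_fix h3 h2
  have h4 : hh (g₁ * g * g₁⁻¹) (up y.f) • y = y := by
    have := Obj4.two_smul (g₁ * g * g₁⁻¹) (upO y)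
    rw [h1, two_upO ha] at this
    exact this.symm
  have h5 : ((hh (g₁ * g * g₁⁻¹) (up y.f)).pt Pt.std).Eqv Pt.std := by
    have hp := (Pt.prim_std (L := L)).pt (hh (g₁ * g * g₁⁻¹) (up y.f))
    rw [G.pt_std, h12, h0] at hp ⊢
    exact Pt.Eqv.symm ⟨_, hp.resolve_right (not_not.2 rfl), by ext <;> simp⟩
  obtain ⟨ν, hν⟩ := eq_scalar_of_fix hW hy (Model.on_std.2 ha) h4 h5
  obtain ⟨t, ht⟩ := eq_scal_of_hh h3 h2 hν
  refine ⟨t, ?_⟩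
  rw [mul_inv_eq_iff_eq_mul, scal_comm] at ht
  exact mul_left_cancel ht

end SelAvg.Q4
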