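import Pool.Agent.H94Q.Orb0
import Pool.Agent.H15G.SiegD
import Pool.Agent.H34P.WtN

/-! Masses of torsors; twists by scalars. -/

namespace SelAvg.FF.T4

open WeierstrassCurve WithZero Filter Topology Matrix SelAvg.Q4
open scoped Classical ENNReal

variable {F : Type} [Field F]

/-- the twist of a torsor by a scalar idele -/
noncomputable def twG (E : Div F) (g : G4 (A F)) : XG F := RC.mk (KG F) (scal (A F) (piD E) * g)

lemma pM_twG (E : Div F) (g : G4 (A F)) : pM (twG E g) = twN 4 E (RC.mk (KN F 4) g.2) := by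
  rw [twG, pM_mk, twN_mk]
  rfl

lemma twG_injective (g : G4 (A F)) : Function.Injective fun E : Div F => twG E g := by
  intro E E' h
  have h1 := congrArg (fun x => detN (pM x)) h
  simp only [pM_twG, detN_twN, add_right_inj] at h1
  ext v
  have h2 := DFunLike.congr_fun h1 v
  simp only [Finsupp.smul_apply, nsmul_eq_mul] at h2
  omega

lemma scal_mem_KG {t : (A F)ˣ} (h : idiv t = 0) : scal (A F) t ∈ KG F := by
  obtain ⟨e, he⟩ := (idiv_eq_zero_iff t).1 h
  exact ⟨scal _ e, (mapG_scal _ e).trans (congrArg _ he)⟩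

lemma mk_scal (t : (A F)ˣ) (g : G4 (A F)) : RC.mk (KG F) (scal (A F) t * g) = twG (idiv t) g := by
  refine RC.mk_eq.2 ⟨scal (A F) (piD (idiv t) * t⁻¹), scal_mem_KG ?_, ?_⟩
  · rw [idiv_mul, idiv_piD, idiv_inv, add_neg_cancel]
  · rw [← mul_assoc, ← map_mul, inv_mul_cancel_right]

variable [Cv F]

/-- the weight of a torsor -/
noncomputable def wtG (x : XG F) : ℝ := wtN (pN x) * wtN (pM x)

lemma one_le_wtG (x : XG F) : 1 ≤ wtG x := one_le_mul_of_one_le_of_one_le (one_le_wtN _) (one_le_wtN _)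

lemma wtG_pos (x : XG F) : 0 < wtG x := zero_lt_one.trans_le (one_le_wtG x)

lemma wtG_tw1G (E : Div F) (x : XG F) : wtG (tw1G E x) = wtG x := by
  rw [wtG, pN_tw1G, pM_tw1G, wtN_twN, wtG]

theorem exists_bruG : ∃ ρ, IsBru (actG F) ρ := exists_bru _ finite_stabG

theorem exists_bruS : ∃ τ, IsBru ((actG F).comp (scal F)) τ :=
  exists_bru _ fun x => (finite_stabG x).preimage scal_injective.injOn

/-- The function `E ↦ τ (twG E g)` is a Bruhat function for `actD`. -/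
theorem tsum_twG {τ : XG F → ℝ≥0∞} (hτ : IsBru ((actG F).comp (scal F)) τ) (g : G4 (A F)) :
    ∑' E : Div F, (if parN (pM (twG E g)) then τ (twG E g) else 0) = kap F := by
  have hβ : IsBru (actD F) fun E => τ (twG E g) := fun E => by
    rw [← hτ (twG E g), ← (Equiv.inv Fˣ).tsum_eq]
    refine tsum_congr fun u => congrArg τ ?_
    have e : scal (A F) (piD E) * g * (gA F (scal F u))⁻¹ = scal (A F) (piD E * uA u⁻¹) * g := by
      rw [← map_inv, ← map_inv, map_mul, mul_assoc, mul_assoc, scal_comm (uA u⁻¹)]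
      exact congrArg (fun x => scal (A F) (piD E) * (g * x)) (mapG_scal (toA F) u⁻¹)
    rw [MonoidHom.comp_apply, twG.eq_1 E, actG_mk, e, mk_scal, idiv_mul, idiv_piD, idiv_uA]
    rfl
  obtain ⟨j, hj, h⟩ := exists_parN (by norm_num) (RC.mk (KN F 4) g.2)
  simp only [pM_twG, h]
  exact kap_eq hβ hj

lemma parN_iff {n : ℕ} (x : XN F n) :
    parN x ↔ ∃ r ∈ Finset.range n, degN x = (r : ℕ) * dl F := by
  have h0 : (0 : ℤ) < dl F := Nat.cast_pos.2 dl_pos
  obtain ⟨a, ha⟩ : (dl F : ℤ) ∣ degN x := dl_dvd _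
  rw [parN, ha, mul_comm, mul_nonneg_iff_of_pos_right h0, mul_lt_mul_iff_left₀ h0]
  simp only [mul_left_inj' h0.ne', Finset.mem_range]
  constructor
  · rintro ⟨h1, h2⟩
    obtain ⟨r, rfl⟩ := Int.eq_ofNat_of_zero_le h1
    exact ⟨r, by exact_mod_cast h2, rfl⟩
  · rintro ⟨r, hr, rfl⟩
    exact ⟨Int.natCast_nonneg r, by exact_mod_cast hr⟩

variable (F) in
/-- the mass of the torsors with a given line bundle, modulo twists -/
noncomputable def mG : ℝ :=
  4 * kapR F * (ww F : ℝ)⁻¹ * (qq F ^ (-18 * cc F) * (zt F ^ 2 * ztN F 3 * ztN F 4))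

lemma sg_two_four : sgN F 2 * sgN F 4 = qq F ^ (-18 * cc F) * (zt F ^ 2 * ztN F 3 * ztN F 4) := by
  rw [sgN_two, sgN_four, show -18 * cc F = -3 * cc F + -15 * cc F by ring,
    zpow_add₀ (zero_lt_one.trans one_lt_qq).ne']
  ring

lemma mG_pos : 0 < mG F := by
  rw [mG, ← sg_two_four]
  exact mul_pos (mul_pos (mul_pos four_pos kapR_pos) (inv_pos.2 (Nat.cast_pos.2 ww_pos)))
    (mul_pos sgN_pos sgN_pos)

theorem mass_XD {ρ : XG F → ℝ≥0∞} (hρ : IsBru (actG F) ρ) (D : Div F) :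
    ∑' x, (if x ∈ XD D ∧ parN (pM x) then ρ x else 0) = ENNReal.ofReal (mG F) := by
  have h0 : (0 : ℤ) < dl F := Nat.cast_pos.2 dl_pos
  have h1 : ∀ y : XN F 2 × XN F 4,
      (if (pNM F).symm y ∈ XD D ∧ parN (pM ((pNM F).symm y)) then ρ ((pNM F).symm y) else 0) =
      ∑ r ∈ Finset.range 4, if Lin D (detN y.1 + (1 : ℤ) • detN y.2) ∧ degN y.2 = (r : ℕ) * dl F then
        ρ ((pNM F).symm y) else 0 := fun y => by
    rw [mem_XD, pN_symm, pM_symm, parN_iff, one_smul]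
    split_ifs with h
    · obtain ⟨h2, r, hr, h3⟩ := h
      rw [Finset.sum_eq_single_of_mem r hr, if_pos ⟨h2, h3⟩]
      refine fun r' _ hne => if_neg fun h4 => hne ?_
      exact_mod_cast mul_right_cancel₀ h0.ne' (h4.2.symm.trans h3)
    · exact (Finset.sum_eq_zero fun r hr => if_neg fun h4 => h ⟨h4.1, r, hr, h4.2⟩).symm
  rw [← (pNM F).symm.tsum_eq, tsum_congr h1, Summable.tsum_finsetSum fun _ _ => ENNReal.summable,
    Finset.sum_congr rfl fun r _ => siegel_linNN two_pos four_pos (isBru_pNM hρ) 1 D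
      (dvd_mul_left _ _), Finset.sum_const, Finset.card_range, nsmul_eq_mul, mG, ← sg_two_four,
    ENNReal.ofReal_mul' (mul_pos sgN_pos sgN_pos).le,
    ENNReal.ofReal_mul' (inv_pos.2 (Nat.cast_pos.2 ww_pos)).le, ENNReal.ofReal_mul' kapR_pos.le,
    ofReal_kapR, ENNReal.ofReal_inv_of_pos (Nat.cast_pos.2 ww_pos), ENNReal.ofReal_natCast,
    ENNReal.ofReal_ofNat, Nat.cast_ofNat, mul_assoc, mul_assoc, mul_assoc]

theorem tsum_wtG_ne_top {ρ : XG F → ℝ≥0∞} (hρ : IsBru (actG F) ρ) (D : Div F) :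
    ∑' x, ρ x * (if x ∈ XD D ∧ parN (pM x) then ENNReal.ofReal (wtG x) else 0) ≠ ⊤ := by
  refine ne_top_of_le_ne_top (tsum_wtNN_ne_top two_pos four_pos (isBru_pNM hρ)
    ((Finset.range 4).image fun r : ℕ => deg D - (r : ℤ) * dl F)
    ((Finset.range 4).image fun r : ℕ => (r : ℤ) * dl F)) ?_
  rw [← (pNM F).symm.tsum_eq]
  refine ENNReal.tsum_le_tsum fun y => mul_le_mul_right ?_ _
  rw [mem_XD, wtG, pN_symm, pM_symm, parN_iff]
  split_ifs with h h'
  · exact le_rfl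
  · obtain ⟨⟨u, hu⟩, r, hr, h3⟩ := h
    have h4 := congrArg deg hu
    rw [map_add, map_add, deg_dv, add_zero] at h4
    exact (h' ⟨Finset.mem_image.2 ⟨r, hr, by rw [← h3, ← h4, degN, degN, add_sub_cancel_right]⟩,
      Finset.mem_image.2 ⟨r, hr, h3.symm⟩⟩).elim
  · exact zero_le
  · exact le_rfl

/-- the real masses -/
theorem sumG_mass {ρ : XG F → ℝ≥0∞} (hρ : IsBru (actG F) ρ) (D : Div F) : ∃ r : XG F → ℝ,
    Summable r ∧ Summable (fun x => r x * wtG x) ∧ (∀ x, 0 ≤ r x) ∧ ∑' x, r x = mG F ∧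
    ∀ (u : XG F → ℝ) (C Q : ℝ), (∀ x, 0 ≤ u x ∧ u x ≤ C * wtG x) → 0 ≤ Q →
      ∑' x, ρ x * (if x ∈ XD D ∧ parN (pM x) then ENNReal.ofReal (u x * Q) else 0) =
        ENNReal.ofReal ((∑' x, r x * u x) * Q) := by
  have hfin : ∀ y, (if y ∈ XD D ∧ parN (pM y) then ρ y else 0) ≠ ⊤ := fun y => by
    split_ifs
    · exact ne_top_of_le_ne_top ENNReal.one_ne_top (hρ.le_one y)
    · exact ENNReal.zero_ne_top
  have hs : Summable fun y => (if y ∈ XD D ∧ parN (pM y) then ρ y else 0).toReal :=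
    ENNReal.summable_toReal (by rw [mass_XD hρ]; exact ENNReal.ofReal_ne_top)
  have hw : Summable fun y => (if y ∈ XD D ∧ parN (pM y) then ρ y else 0).toReal * wtG y := by
    refine (ENNReal.summable_toReal (tsum_wtG_ne_top hρ D)).congr fun y => ?_
    split_ifs
    · rw [ENNReal.toReal_mul, ENNReal.toReal_ofReal (wtG_pos y).le]
    · simp
  refine ⟨fun y => (if y ∈ XD D ∧ parN (pM y) then ρ y else 0).toReal, hs, hw,
    fun y => ENNReal.toReal_nonneg, ?_, ?_⟩
  · rw [← ENNReal.tsum_toReal_eq hfin, mass_XD hρ, ENNReal.toReal_ofReal mG_pos.le]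
  · intro u C Q hu hQ
    have hs' : Summable fun y => (if y ∈ XD D ∧ parN (pM y) then ρ y else 0).toReal * u y :=
      (hw.mul_left C).of_nonneg_of_le (fun y => mul_nonneg ENNReal.toReal_nonneg (hu y).1)
        fun y => (mul_le_mul_of_nonneg_left (hu y).2 ENNReal.toReal_nonneg).trans_eq (by ring)
    rw [← tsum_mul_right, ENNReal.ofReal_tsum_of_nonneg
      (fun y => mul_nonneg (mul_nonneg ENNReal.toReal_nonneg (hu y).1) hQ) (hs'.mul_right Q)]
    refine tsum_congr fun y => ?_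
    rw [mul_assoc, ENNReal.ofReal_mul ENNReal.toReal_nonneg, ENNReal.ofReal_toReal (hfin y)]
    split_ifs <;> simp

end SelAvg.FF.T4
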