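import Pool.Agent.H94Q.Orb0

/-! The triangular description of the lattice of models. -/

namespace SelAvg.FF.T4

open WeierstrassCurve WithZero Filter Topology Matrix SelAvg.Q4
open scoped Classical ENNReal

/-- the first variable of a monomial -/
def jB : Fin 10 → Fin 4 := ![0, 0, 0, 0, 1, 1, 1, 2, 2, 3]

/-- the second variable of a monomial -/
def jC : Fin 10 → Fin 4 := ![0, 1, 2, 3, 1, 2, 3, 2, 3, 3]

/-- the form of a coordinate -/
def iA : Fin 20 → Fin 2 := ![0, 0, 0, 0, 0, 0, 0, 0, 0, 0, 1, 1, 1, 1, 1, 1, 1, 1, 1, 1]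

/-- the monomial of a coordinate -/
def iQ : Fin 20 → Fin 10 := ![0, 1, 2, 3, 4, 5, 6, 7, 8, 9, 0, 1, 2, 3, 4, 5, 6, 7, 8, 9]

lemma vec_apply {R : Type} (f : M4 R) (k : Fin 20) : equivVec f k = f (iA k) (iQ k) := by
  fin_cases k <;> rfl

lemma exists_idx (i : Fin 2) (j : Fin 10) :
    ∃ k : Fin 20, iA k = i ∧ iQ k = j ∧ (k : ℕ) = 10 * i + j := by
  revert i j
  decide

lemma idx_val (k : Fin 20) : (k : ℕ) = 10 * iA k + iQ k := by
  revert k
  decide

section Ring

variable {R : Type} [CommRing R]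

lemma act_tri {M : Mat R} (hM : ∀ i j, i < j → M i j = 0) {c : QF R} (k : Fin 10)
    (h : ∀ j, j < k → c j = 0) : act M c k = M (jB k) (jB k) * M (jC k) (jC k) * c k := by
  have h01 := hM 0 1 (by decide)
  have h02 := hM 0 2 (by decide)
  have h03 := hM 0 3 (by decide)
  have h12 := hM 1 2 (by decide)
  have h13 := hM 1 3 (by decide)
  have h23 := hM 2 3 (by decide)
  have e : ∀ j : Fin 10, c j = if j < k then 0 else c j := fun j => by
    split_ifs with hj
    exacts [h j hj, rfl]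
  fin_cases k <;>
    simp only [act, cf, conj_ut, jB, jC, Fin.reduceFinMk, Fin.zero_eta, Fin.mk_one, Fin.isValue,
      cons_val, cons_val_zero, cons_val_one, h01, h02, h03, h12, h13, h23] <;>
    rw [e 0, e 1, e 2, e 3, e 4, e 5, e 6, e 7, e 8] <;>
    simp <;> ring

lemma smul_tri {g : G4 R} (hN : g.1.1 0 1 = 0) (hM : ∀ i j, i < j → g.2.1 i j = 0) {f : M4 R}
    (k : Fin 20) (h : ∀ j, j < k → equivVec f j = 0) : equivVec (g • f) k =
      g.1.1 (iA k) (iA k) * (g.2.1 (jB (iQ k)) (jB (iQ k)) * g.2.1 (jC (iQ k)) (jC (iQ k))) *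
        equivVec f k := by
  have h1 : ∀ (i : Fin 2) (j : Fin 10), 10 * (i : ℕ) + j < k → f i j = 0 := fun i j hk => by
    obtain ⟨l, rfl, rfl, e⟩ := exists_idx i j
    exact (vec_apply f l).symm.trans (h l (Fin.lt_def.2 (e ▸ hk)))
  have h2 := idx_val k
  rw [vec_apply, vec_apply, Q4.smul_apply]
  generalize iA k = i at h2
  generalize iQ k = j at h2
  have h3 : pen f (g.1.1 i 0) (g.1.1 i 1) = g.1.1 i i • f i := by
    fin_cases i
    · simp [pen, hN]
    · have h4 : f 0 = 0 := funext fun l => h1 0 l (by have := l.2; simp at h2 ⊢; omega)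
      simp [pen, h4]
  rw [h3, act_smul, Pi.smul_apply, smul_eq_mul,
    act_tri hM j fun l hl => h1 i l (by have := Fin.lt_def.1 hl; omega), mul_assoc (g.1.1 i i)]

end Ring

variable {F : Type} [Field F]

/-- the triangular elements -/
noncomputable def gt (B : Fin 2 → Div F) (D : Fin 4 → Div F) (η : Fin 2 → Fin 2 → A F)
    (η' : Fin 4 → Fin 4 → A F) : G4 (A F) := (triN B η, triN D η')

lemma exists_gt' {g : G4 (A F)} {B : Fin 2 → Div F} {D : Fin 4 → Div F} {η : Fin 2 → Fin 2 → A F}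
    {η' : Fin 4 → Fin 4 → A F} (h : RC.mk (KN F 2) g.1 = RC.mk (KN F 2) (triN B η))
    (h' : RC.mk (KN F 4) g.2 = RC.mk (KN F 4) (triN D η')) :
    ∃ k ∈ KG F, g = k * gt B D η η' :=
  RC.mk_eq.1 (mkG_eq_iff.2 ⟨h.symm, h'.symm⟩)

lemma exists_gt (g : G4 (A F)) : ∃ k ∈ KG F, ∃ B D η η', g = k * gt B D η η' := by
  obtain ⟨B, η, h⟩ := exists_mk_triN (RC.mk (KN F 2) g.1)
  obtain ⟨D, η', h'⟩ := exists_mk_triN (RC.mk (KN F 4) g.2)
  obtain ⟨k, hk, e⟩ := exists_gt' h h'
  exact ⟨k, hk, B, D, η, η', e⟩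

lemma cls_gt (B : Fin 2 → Div F) (D : Fin 4 → Div F) (η : Fin 2 → Fin 2 → A F)
    (η' : Fin 4 → Fin 4 → A F) : cls (gt B D η η') = ∑ i, B i + ∑ i, D i := by
  change idiv (GeneralLinearGroup.det (triN B η)) + idiv (GeneralLinearGroup.det (triN D η')) = _
  rw [det_triN, det_triN, idiv_piD, idiv_piD]

/-- the divisors of the coordinates -/
noncomputable def DV (B : Fin 2 → Div F) (D : Fin 4 → Div F) (k : Fin 20) : Div F :=
  B (iA k) + (D (jB (iQ k)) + D (jC (iQ k)))

lemma sum_DV (B : Fin 2 → Div F) (D : Fin 4 → Div F) :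
    ∑ k, DV B D k = 10 • (∑ i, B i + ∑ i, D i) := by
  simp only [DV, Fin.sum_univ_succ, iA, iQ, jB, jC, cons_val_zero, cons_val_succ, cons_val,
    Fin.succ_zero_eq_one, Fin.succ_one_eq_two, Fin.reduceSucc, Finset.univ_eq_empty,
    Finset.sum_empty]
  abel

/-- the lower terms -/
noncomputable def phiV (g : G4 (A F)) (E : Fin 20 → Div F) (k : Fin 20) :
    (Fin 20 → A F) →ₗ[A F] A F :=
  (piD (-E k) : A F) • (LinearMap.proj k).comp (linG g).toLinearMap - LinearMap.proj k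

lemma phiV_apply (g : G4 (A F)) (E : Fin 20 → Div F) (k : Fin 20) (a : Fin 20 → A F) :
    phiV g E k a = (piD (-E k) : A F) * linG g a k - a k := rfl

lemma linG_eq (g : G4 (A F)) (E : Fin 20 → Div F) (a : Fin 20 → A F) (k : Fin 20) :
    linG g a k = (piD (E k) : A F) * (a k + phiV g E k a) := by
  rw [phiV_apply, add_sub_cancel, ← mul_assoc, ← Units.val_mul, ← piD_add, add_neg_cancel, piD_zero,
    Units.val_one, one_mul]

/-- the lower terms only depend on the earlier coordinates -/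
theorem phiV_gt (B : Fin 2 → Div F) (D : Fin 4 → Div F) (η : Fin 2 → Fin 2 → A F)
    (η' : Fin 4 → Fin 4 → A F) (k : Fin 20) (a a' : Fin 20 → A F) (h : ∀ j, j < k → a j = a' j) :
    phiV (gt B D η η') (DV B D) k a = phiV (gt B D η η') (DV B D) k a' := by
  rw [← sub_eq_zero, ← map_sub, phiV_apply, linG_apply,
    smul_tri (g := gt B D η η') (by simp [gt, triN_apply])
      (fun i j hij => by simp [gt, triN_apply, hij.not_gt, hij.ne']) k
      fun j hj => by rw [Equiv.apply_symm_apply, Pi.sub_apply, h j hj, sub_self],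
    Equiv.apply_symm_apply]
  simp only [gt, triN_apply, lt_irrefl, if_false, if_true]
  rw [← Units.val_mul, ← Units.val_mul, ← piD_add, ← piD_add, ← mul_assoc, ← Units.val_mul,
    ← piD_add, DV, neg_add_cancel, piD_zero, Units.val_one, one_mul, sub_self]

lemma linG_K {k : G4 (A F)} (hk : k ∈ KG F) (g : G4 (A F)) (a : Fin 20 → A F) :
    (∀ i, linG (k * g) a i ∈ Oh F) ↔ ∀ i, linG g a i ∈ Oh F := by
  have key : ∀ {k : G4 (A F)}, k ∈ KG F → ∀ g, (∀ i, linG g a i ∈ Oh F) →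
      ∀ i, linG (k * g) a i ∈ Oh F := by
    rintro _ ⟨k₀, rfl⟩ g h
    rw [linG_apply, forall_vec (p := fun a => a ∈ Oh F)] at h ⊢
    have e : g • toM a = mapM (inc F) fun i j => ⟨_, h i j⟩ := rfl
    intro i j
    rw [mul_smul, e, ← mapM_smul]
    exact Subtype.property _
  refine ⟨fun h => ?_, key hk g⟩
  simpa using key ((KG F).inv_mem hk) _ h

variable [Cv F]

theorem NN_linG (g : G4 (A F)) : NN (linG g) = qq F ^ (10 * deg (cls g) + 20 * cc F) := by
  obtain ⟨k, hk, B, D, η, η', rfl⟩ := exists_gt g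
  rw [NN_congr (linG_K hk _), NN_tri _ (DV B D) _ (phiV_gt B D η η') (linG_eq _ _), ← map_sum,
    sum_DV, cls_K hk, cls_gt, map_nsmul, nsmul_eq_mul]
  rfl

theorem card_VB_gm (g : G4 (A F)) : ∀ᶠ m : ℕ in atTop,
    ((VB (gm g m)).card : ℝ) = qq F ^ (10 * deg (cls (gm g m)) + 20 * cc F) := by
  filter_upwards [NN_spec (linG g)] with m hm
  have e : hbox (linG (gm g m)) = hbox (tw1 (linG g) m) := by
    ext x
    rw [mem_hbox, mem_hbox, ← LV_tw]
    rfl
  rw [card_VB, e, hm, NN_linG, cls_gm, map_add, map_nsmul, deg_PP, ← zpow_natCast,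
    ← zpow_add₀ (zero_lt_one.trans one_lt_qq).ne']
  congr 1
  push_cast
  ring

end SelAvg.FF.T4
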