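import Pool.Agent.H94Q.Sum0
import Pool.Agent.H94Q.Tri
import Pool.Agent.H5T.Wt3
import Pool.Agent.H81Sel.Sum1

/-! Dominated convergence over the pairs of bundles. -/

namespace SelAvg.FF.T4

open WeierstrassCurve WithZero Filter Topology Matrix SelAvg.Q4
open scoped Classical ENNReal

variable {F : Type} [Field F] [Cv F]

lemma norm_const {D : Div F} (hD : (c0 F : ℤ) ≤ deg D) :
    ((GB D).card : ℝ) * qq F ^ (10 * deg D + 20 * cc F) =
      ww F * qq F ^ (18 * cc F) * (WB D).card := by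
  have hq : qq F ≠ 0 := (zero_lt_one.trans one_lt_qq).ne'
  rw [card_GB hD, card_WB hD, mul_assoc, mul_assoc, ← zpow_add₀ hq, ← zpow_add₀ hq]
  congr 2
  ring

lemma sum1_const {D : Div F} (hD : (c0 F : ℤ) ≤ deg D) {T : ℝ} :
    ((GB D).card : ℝ≥0∞) * ENNReal.ofReal (T * qq F ^ (10 * deg D + 20 * cc F)) =
      ENNReal.ofReal (ww F * qq F ^ (18 * cc F) * T * (WB D).card) := by
  rw [← ENNReal.ofReal_natCast, ← ENNReal.ofReal_mul (Nat.cast_nonneg _)]
  congr 1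
  linear_combination T * norm_const hD

lemma sum1_mG : ww F * qq F ^ (18 * cc F) * mG F =
    kapR F * (4 * (zt F ^ 2 * ztN F 3 * ztN F 4)) := by
  have h1 : qq F ^ (18 * cc F) * qq F ^ (-18 * cc F) = 1 := by
    rw [← zpow_add₀ (zero_lt_one.trans one_lt_qq).ne']
    simp
  have h2 : (ww F : ℝ) * (ww F : ℝ)⁻¹ = 1 := mul_inv_cancel₀ (Nat.cast_ne_zero.2 ww_pos.ne')
  rw [mG]
  linear_combination (kapR F * (4 * (zt F ^ 2 * ztN F 3 * ztN F 4))) * (h1 + h2 * (qq F ^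
    (18 * cc F) * qq F ^ (-18 * cc F)))

/-- the sum over the twisted torsors as a sum over a fixed set -/
lemma sum1_tw (ρ : XG F → ℝ≥0∞) (R : Div F) (m : ℕ) (Ψ : XG F → ℝ≥0∞) :
    ∑' x, ρ ((tw1G (m • PP F)).symm x) *
      (if x ∈ XD (R + (2 * m) • PP F) ∧ parN (pM x) then Ψ x else 0) =
      ∑' x, ρ x * (if x ∈ XD R ∧ parN (pM x) then Ψ (tw1G (m • PP F) x) else 0) := by
  rw [← (tw1G (m • PP F)).tsum_eq]
  simp only [Equiv.symm_apply_apply, pM_tw1G, mul_smul, tw1G_mem_XD]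

lemma sum1_bru {ρ : XG F → ℝ≥0∞} (hρ : IsBru (actG F) ρ) (E : Div F) :
    IsBru (actG F) fun x => ρ ((tw1G E).symm x) :=
  hρ.comp_perm _ fun γ x => by rw [Equiv.symm_apply_eq, tw1G_act, Equiv.apply_symm_apply]

lemma sum1_Psi {h : G4 (A F) → M4 F → ℝ} (hh : Adm h) {R : Div F} {x : XG F} (hx : x ∈ XD R) {m : ℕ}
    (hc : ((VB (gm x.out m)).card : ℝ) = qq F ^ (10 * deg (cls (gm x.out m)) + 20 * cc F)) :
    Psi h (tw1G (m • PP F) x) = avg (VB (gm x.out m)) (h (gm x.out m)) *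
      qq F ^ (10 * deg (R + (2 * m) • PP F) + 20 * cc F) := by
  obtain ⟨u, hu⟩ := hx
  have e : deg (cls (gm x.out m)) = deg (R + (2 * m) • PP F) := by
    rw [cls_gm, hu, map_add, map_add, deg_dv, add_zero, map_add]
  rw [tw1G_out, hh.Psi_mk, avg, hc, e,
    div_mul_cancel₀ _ (zpow_pos (zero_lt_one.trans one_lt_qq) _).ne']

lemma sum1_deg2 (R : Div F) : ∀ᶠ m : ℕ in atTop, (c0 F : ℤ) ≤ deg (R + (2 * m) • PP F) :=
  (tendsto_id.const_mul_atTop' two_pos).eventually (sum1_deg R)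

omit [Cv F] in
lemma sum1_parity {p : ℕ → Prop} (h0 : ∀ᶠ m : ℕ in atTop, p (2 * m))
    (h1 : ∀ᶠ m : ℕ in atTop, p (2 * m + 1)) : ∀ᶠ m : ℕ in atTop, p m := by
  obtain ⟨a, ha⟩ := eventually_atTop.1 h0
  obtain ⟨b, hb⟩ := eventually_atTop.1 h1
  refine eventually_atTop.2 ⟨2 * (a + b), fun m hm => ?_⟩
  obtain ⟨j, rfl | rfl⟩ := Nat.even_or_odd' m
  exacts [ha j (by omega), hb j (by omega)]

lemma SD_le_even (R : Div F) (S : Finset (Place F)) {L : ℝ} (hL : 0 ≤ L)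
    (h : ∀ g, ∀ᶠ m : ℕ in atTop, avg (VB (gm g m)) (upF S (gm g m)) ≤ L)
    {ε : ℝ} (hε : 0 < ε) : ∀ᶠ m : ℕ in atTop,
      SD (R + (2 * m) • PP F) ≤ 4 * (zt F ^ 2 * ztN F 3 * ztN F 4) * L + ε := by
  obtain ⟨ρ, hρ⟩ := exists_bruG (F := F)
  obtain ⟨r, hr, hrw, hr0, hrs, hru⟩ := sumG_mass hρ R
  obtain ⟨C, hC0, hC⟩ := exists_Psi_le (F := F)
  have hq : 0 < qq F := zero_lt_one.trans one_lt_qq
  have hk : 0 < kapR F := kapR_pos
  have hw : 0 < ww F * qq F ^ (18 * cc F) := mul_pos (Nat.cast_pos.2 ww_pos) (zpow_pos hq _)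
  obtain ⟨Good, hGood⟩ : ∃ Good : ℕ → XG F → Prop, ∀ m y, Good m y ↔
      ((VB (gm y.out m)).card : ℝ) = qq F ^ (10 * deg (cls (gm y.out m)) + 20 * cc F) ∧
      avg (VB (gm y.out m)) (upF S (gm y.out m)) ≤ L :=
    ⟨_, fun _ _ => Iff.rfl⟩
  obtain ⟨u, hu⟩ : ∃ u : ℕ → XG F → ℝ, ∀ m y, u m y = if Good m y then
      avg (VB (gm y.out m)) (upF S (gm y.out m)) else C * wtG y :=
    ⟨_, fun _ _ => rfl⟩
  have hub : ∀ m y, 0 ≤ u m y ∧ u m y ≤ max C L * wtG y := fun m y => by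
    rw [hu]
    split_ifs with hg
    · exact ⟨avg_nonneg fun f _ => (adm_upF S).nonneg _ f,
        ((hGood m y).1 hg).2.trans ((le_max_right _ _).trans
          (le_mul_of_one_le_right (le_max_of_le_right hL) (one_le_wtG y)))⟩
    · exact ⟨mul_nonneg hC0.le (wtG_pos y).le,
        mul_le_mul_of_nonneg_right (le_max_left _ _) (wtG_pos y).le⟩
  have huL : ∀ y, ∀ᶠ m in atTop, u m y ≤ L := fun y => by
    filter_upwards [card_VB_gm y.out, h y.out] with m h2 h3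
    rw [hu, if_pos ((hGood m y).2 ⟨h2, h3⟩)]
    exact h3
  have hε' : 0 < ε * kapR F * (ww F * qq F ^ (18 * cc F))⁻¹ := by positivity
  filter_upwards [tsum_eventually_le_wt hr hrw hr0 u hL (Eventually.of_forall hub) huL hε',
    sum1_deg2 R] with m hm hD
  have hQ : 0 < qq F ^ (10 * deg (R + (2 * m) • PP F) + 20 * cc F) := zpow_pos hq _
  have h1 : ∑' x, ρ x * (if x ∈ XD R ∧ parN (pM x) then
      ENNReal.ofReal (Psi (upF S) (tw1G (m • PP F) x)) else 0) ≤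
      ∑' x, ρ x * (if x ∈ XD R ∧ parN (pM x) then ENNReal.ofReal
        (u m x * qq F ^ (10 * deg (R + (2 * m) • PP F) + 20 * cc F)) else 0) := by
    refine ENNReal.tsum_le_tsum fun x => mul_le_mul_right ?_ _
    split_ifs with hx
    · refine ENNReal.ofReal_le_ofReal ?_
      rw [hu]
      split_ifs with hg
      · exact (sum1_Psi (adm_upF S) hx.1 ((hGood m _).1 hg).1).le
      · rw [← wtG_tw1G (m • PP F)]
        exact hC _ (adm_upF S) _ ((Int.natCast_nonneg _).trans hD) _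
          (by rw [mul_smul]; exact tw1G_mem_XD.2 hx.1)
    · exact le_rfl
  have hT : 0 ≤ ∑' y, r y * u m y := tsum_nonneg fun y => mul_nonneg (hr0 y) (hub m y).1
  have h2 := SD_le_tsum hD S (sum1_bru hρ (m • PP F))
  rw [sum1_tw ρ R m fun x => ENNReal.ofReal (Psi (upF S) x)] at h2
  replace h2 := h2.trans (mul_le_mul_right h1 _)
  rw [hru (u m) _ _ (hub m) hQ.le, sum1_const hD, sum1_kap,
    ENNReal.ofReal_le_ofReal_iff (mul_nonneg (mul_nonneg hw.le hT) (sum1_WB_pos hD).le),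
    ← mul_assoc] at h2
  have h3 := le_of_mul_le_mul_right h2 (sum1_WB_pos hD)
  have h4 := mul_le_mul_of_nonneg_left hm hw.le
  rw [hrs] at h4
  refine le_of_mul_le_mul_left (h3.trans (h4.trans_eq ?_)) hk
  linear_combination L * sum1_mG (F := F) + ε * kapR F * mul_inv_cancel₀ hw.ne'

lemma SD_ge_even (R : Div F) (S : Finset (Place F)) {L : ℝ}
    (h : ∀ g, ∀ᶠ m : ℕ in atTop, L ≤ avg (VB (gm g m)) (lowF S (gm g m)))
    {ε : ℝ} (hε : 0 < ε) : ∀ᶠ m : ℕ in atTop,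
      4 * (zt F ^ 2 * ztN F 3 * ztN F 4) * L - ε ≤ SD (R + (2 * m) • PP F) := by
  obtain ⟨ρ, hρ⟩ := exists_bruG (F := F)
  obtain ⟨r, hr, -, hr0, hrs, hru⟩ := sumG_mass hρ R
  have hq : 0 < qq F := zero_lt_one.trans one_lt_qq
  have hk : 0 < kapR F := kapR_pos
  have hw : 0 < ww F * qq F ^ (18 * cc F) := mul_pos (Nat.cast_pos.2 ww_pos) (zpow_pos hq _)
  obtain ⟨Good, hGood⟩ : ∃ Good : ℕ → XG F → Prop, ∀ m y, Good m y ↔
      ((VB (gm y.out m)).card : ℝ) = qq F ^ (10 * deg (cls (gm y.out m)) + 20 * cc F) ∧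
      L ≤ avg (VB (gm y.out m)) (lowF S (gm y.out m)) :=
    ⟨_, fun _ _ => Iff.rfl⟩
  obtain ⟨u, hu⟩ : ∃ u : ℕ → XG F → ℝ, ∀ m y, u m y = if Good m y then
      avg (VB (gm y.out m)) (lowF S (gm y.out m)) else 0 :=
    ⟨_, fun _ _ => rfl⟩
  have hub : ∀ m y, 0 ≤ u m y ∧ u m y ≤ 3072 := fun m y => by
    rw [hu]
    split_ifs with hg
    · refine ⟨avg_nonneg fun f _ => (adm_lowF S).nonneg _ f,
        avg_le_of_le (by norm_num) fun f hf => ((adm_lowF S).le _ f (mem_VB.1 hf)).trans ?_⟩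
      have := ind_le_one ((red f).jac.Δ ≠ 0 ∧ ¬(red f).Triv)
      linarith
    · exact ⟨le_rfl, by norm_num⟩
  have huL : ∀ y, ∀ᶠ m in atTop, L ≤ u m y := fun y => by
    filter_upwards [card_VB_gm y.out, h y.out] with m h2 h3
    rw [hu, if_pos ((hGood m y).2 ⟨h2, h3⟩)]
    exact h3
  have hε' : 0 < ε * kapR F * (ww F * qq F ^ (18 * cc F))⁻¹ := by positivity
  filter_upwards [tsum_eventually_ge hr hr0 u (Eventually.of_forall hub) huL hε', sum1_deg2 R]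
    with m hm hD
  have hQ : 0 < qq F ^ (10 * deg (R + (2 * m) • PP F) + 20 * cc F) := zpow_pos hq _
  have h1 : ∑' x, ρ x * (if x ∈ XD R ∧ parN (pM x) then ENNReal.ofReal
        (u m x * qq F ^ (10 * deg (R + (2 * m) • PP F) + 20 * cc F)) else 0) ≤
      ∑' x, ρ x * (if x ∈ XD R ∧ parN (pM x) then
        ENNReal.ofReal (Psi (lowF S) (tw1G (m • PP F) x)) else 0) := by
    refine ENNReal.tsum_le_tsum fun x => mul_le_mul_right ?_ _
    split_ifs with hx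
    · refine ENNReal.ofReal_le_ofReal ?_
      rw [hu]
      split_ifs with hg
      · exact (sum1_Psi (adm_lowF S) hx.1 ((hGood m _).1 hg).1).ge
      · rw [zero_mul]
        exact (adm_lowF S).Psi_nonneg _
    · exact le_rfl
  have hS : 0 ≤ SD (R + (2 * m) • PP F) := avg_nonneg fun W _ =>
    mul_nonneg (mul_nonneg (ind_nonneg _) (Nat.cast_nonneg _)) (Nat.cast_nonneg _)
  have h2 := tsum_le_SD hD S (sum1_bru hρ (m • PP F))
  rw [sum1_tw ρ R m fun x => ENNReal.ofReal (Psi (lowF S) x)] at h2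
  replace h2 := (mul_le_mul_right h1 _).trans h2
  rw [hru (u m) 3072 _ (fun y => ⟨(hub m y).1, (hub m y).2.trans
      (le_mul_of_one_le_right (by norm_num) (one_le_wtG y))⟩) hQ.le, sum1_const hD, sum1_kap,
    ENNReal.ofReal_le_ofReal_iff (mul_nonneg hk.le (mul_nonneg hS (sum1_WB_pos hD).le)),
    ← mul_assoc] at h2
  have h3 := le_of_mul_le_mul_right h2 (sum1_WB_pos hD)
  have h4 := mul_le_mul_of_nonneg_left hm hw.le
  rw [hrs] at h4
  refine le_of_mul_le_mul_left ((Eq.trans_le ?_ h4).trans h3) hk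
  linear_combination -L * sum1_mG (F := F) + ε * kapR F * mul_inv_cancel₀ hw.ne'

lemma sum1_odd (R : Div F) (m : ℕ) : R + (2 * m + 1) • PP F = R + PP F + (2 * m) • PP F := by
  rw [succ_nsmul', add_assoc]

/-- dominated convergence with the weight `wtG` -/
theorem SD_eventually_le (R : Div F) (S : Finset (Place F)) {L : ℝ} (hL : 0 ≤ L)
    (h : ∀ g, ∀ᶠ m : ℕ in atTop, avg (VB (gm g m)) (upF S (gm g m)) ≤ L)
    {ε : ℝ} (hε : 0 < ε) : ∀ᶠ m : ℕ in atTop,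
      SD (R + m • PP F) ≤ 4 * (zt F ^ 2 * ztN F 3 * ztN F 4) * L + ε :=
  sum1_parity (SD_le_even R S hL h hε)
    ((SD_le_even (R + PP F) S hL h hε).mono fun m hm => by rwa [sum1_odd])

/-- the lower bound -/
theorem SD_eventually_ge (R : Div F) (S : Finset (Place F)) {L : ℝ}
    (h : ∀ g, ∀ᶠ m : ℕ in atTop, L ≤ avg (VB (gm g m)) (lowF S (gm g m)))
    {ε : ℝ} (hε : 0 < ε) : ∀ᶠ m : ℕ in atTop,
      4 * (zt F ^ 2 * ztN F 3 * ztN F 4) * L - ε ≤ SD (R + m • PP F) :=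
  sum1_parity (SD_ge_even R S h hε)
    ((SD_ge_even (R + PP F) S h hε).mono fun m hm => by rwa [sum1_odd])

end SelAvg.FF.T4
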