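import Pool.Agent.H94Q.ToM
import Pool.Agent.H38Sel.RatF

/-! Block TAIL4: a positive proportion of pencils over a finite field has no singular member. -/

namespace SelAvg.FF.T4

open SelAvg.Q4 Polynomial
open scoped Classical

section Count

variable {κ : Type} [Field κ] [Fintype κ]

lemma m4_one (t c : κ) : ∑ α : κ, ∑ β : κ, ind (α * t + β = c) = Fintype.card κ := by
  have h : ∀ α : κ, ∑ β : κ, ind (α * t + β = c) = 1 := fun α => by
    rw [Finset.sum_eq_single (c - α * t) (fun β _ hβ => ind_neg fun e => hβ (by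
      linear_combination e)) (by simp), ind_pos (by ring)]
  simp [h]

lemma m4_two {t s : κ} (hts : t ≠ s) (c d : κ) :
    ∑ α : κ, ∑ β : κ, ind (α * t + β = c) * ind (α * s + β = d) = 1 := by
  have h0 : t - s ≠ 0 := sub_ne_zero.2 hts
  rw [Finset.sum_eq_single ((c - d) / (t - s)) (fun α _ hα => Finset.sum_eq_zero fun β _ => ?_)
    (by simp), Finset.sum_eq_single (c - (c - d) / (t - s) * t) (fun β _ hβ => ?_) (by simp),
    ind_pos (by ring), ind_pos (by field_simp; ring), mul_one]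
  · rw [ind_neg fun e => hβ (by linear_combination e), zero_mul]
  · by_cases e : α * t + β = c
    · rw [ind_neg (P := α * s + β = d) fun e' => hα (by
        rw [eq_div_iff h0]; linear_combination e - e'), mul_zero]
    · rw [ind_neg e, zero_mul]

lemma m4_ind_sq (P : Prop) : ind P * ind P = ind P := by
  by_cases h : P <;> simp [ind, h]

lemma m4_ind_mono {P Q : Prop} (h : P → Q) : ind P ≤ ind Q := by
  by_cases hP : P
  · rw [ind_pos hP, ind_pos (h hP)]
  · rw [ind_neg hP]
    exact ind_nonneg _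

/-- lines that meet a graph without five collinear points -/
lemma m4_count (T : Finset κ) (u : κ → κ)
    (h : ∀ α β : κ, (T.filter fun t => α * t + β = u t).card ≤ 4) :
    avg Finset.univ (fun α : κ => avg Finset.univ fun β : κ => ind (∃ t ∈ T, α * t + β = u t)) ≤
      7 / 8 := by
  have h1 : ∀ α β : κ, 4 * ind (∃ t ∈ T, α * t + β = u t) ≤ 5 * ∑ t ∈ T, ind (α * t + β = u t) -
      ∑ t ∈ T, ∑ s ∈ T, ind (α * t + β = u t) * ind (α * s + β = u s) := by
    intro α β
    have e : ∑ t ∈ T, ind (α * t + β = u t) = (T.filter fun t => α * t + β = u t).card := by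
      simp [ind]
    rw [← Finset.sum_mul_sum, e]
    have h4 := h α β
    by_cases hP : ∃ t ∈ T, α * t + β = u t
    · obtain ⟨t, ht, ht'⟩ := hP
      have h5 : 1 ≤ (T.filter fun t => α * t + β = u t).card :=
        Finset.card_pos.2 ⟨t, Finset.mem_filter.2 ⟨ht, ht'⟩⟩
      rw [ind_pos ⟨t, ht, ht'⟩]
      generalize (T.filter fun t => α * t + β = u t).card = N at h4 h5
      interval_cases N <;> norm_num
    · rw [ind_neg hP]
      generalize (T.filter fun t => α * t + β = u t).card = N at h4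
      interval_cases N <;> norm_num
  have h2 : ∑ α : κ, ∑ β : κ, ∑ t ∈ T, ind (α * t + β = u t) = T.card * Fintype.card κ := by
    rw [Finset.sum_congr rfl fun α _ => Finset.sum_comm, Finset.sum_comm]
    simp [m4_one]
  have h3 : ∑ α : κ, ∑ β : κ, ∑ t ∈ T, ∑ s ∈ T, ind (α * t + β = u t) * ind (α * s + β = u s) =
      T.card * (Fintype.card κ + (T.card - 1) : ℝ) := by
    rw [Finset.sum_congr rfl fun α _ => Finset.sum_comm, Finset.sum_comm, ← nsmul_eq_mul,
      ← Finset.sum_const]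
    refine Finset.sum_congr rfl fun t ht => ?_
    rw [Finset.sum_congr rfl fun α _ => Finset.sum_comm, Finset.sum_comm,
      ← Finset.add_sum_erase T _ ht]
    simp only [m4_ind_sq, m4_one]
    rw [Finset.sum_congr rfl fun s hs => m4_two (Finset.ne_of_mem_erase hs).symm _ _]
    simp [Finset.cast_card_erase_of_mem ht]
  have h4 := Finset.sum_le_sum fun α (_ : α ∈ Finset.univ) =>
    Finset.sum_le_sum fun β (_ : β ∈ Finset.univ) => h1 α β
  simp only [Finset.sum_sub_distrib, ← Finset.mul_sum] at h3 h4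
  rw [h2, h3] at h4
  have h5 : (T.card : ℝ) ≤ Fintype.card κ := by exact_mod_cast T.card_le_univ
  have h6 : (2 : ℝ) ≤ Fintype.card κ := by exact_mod_cast Fintype.one_lt_card
  simp only [avg, Finset.card_univ, ← Finset.sum_div]
  rw [div_div, div_le_iff₀ (by positivity)]
  nlinarith [mul_nonneg (sub_nonneg.2 h5) (sub_nonneg.2 h5), mul_nonneg (sub_nonneg.2 h5)
    (by linarith : (0 : ℝ) ≤ Fintype.card κ)]

/-- the same for the pencil `R + (α X + β) H` -/
lemma m4_poly {H R : κ[X]} (hc : IsCoprime H R) (h0 : 0 < H.natDegree) (hH : H.natDegree ≤ 3)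
    (hR : R.natDegree ≤ 4) : avg Finset.univ (fun α : κ => avg Finset.univ fun β : κ =>
      ind (∃ t, R.eval t + (α * t + β) * H.eval t = 0)) ≤ 7 / 8 := by
  refine le_trans (avg_mono fun α _ => avg_mono fun β _ => le_of_eq ?_)
    (m4_count (Finset.univ.filter fun t => H.eval t ≠ 0) (fun t => -R.eval t / H.eval t)
      fun α β => ?_)
  · congr 1
    refine propext ⟨fun ⟨t, ht⟩ => ?_, fun ⟨t, ht, e⟩ => ⟨t, ?_⟩⟩
    · have h1 : H.eval t ≠ 0 := by
        intro h
        obtain ⟨a, b, hab⟩ := hc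
        have := congrArg (eval t) hab
        rw [h, mul_zero, add_zero] at ht
        simp [h, ht] at this
      refine ⟨t, by simpa using h1, ?_⟩
      rw [eq_div_iff h1]
      linear_combination ht
    · rw [eq_div_iff (Finset.mem_filter.1 ht).2] at e
      linear_combination e
  · have h1 : R + (C α * X + C β) * H ≠ 0 := by
      intro h
      have h2 : H ∣ R := ⟨-(C α * X + C β), by linear_combination h⟩
      exact h0.ne' (natDegree_eq_zero_of_isUnit (hc.isUnit_of_dvd h2))
    have h2 : (R + (C α * X + C β) * H).natDegree ≤ 4 :=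
      natDegree_add_le_of_degree_le hR (natDegree_mul_le.trans
        (add_le_add natDegree_linear_le hH))
    refine le_trans (Finset.card_le_card (t := (R + (C α * X + C β) * H).roots.toFinset)
      fun t ht => ?_) ((Multiset.toFinset_card_le _).trans ((card_roots' _).trans h2))
    obtain ⟨ht, e⟩ := Finset.mem_filter.1 ht
    rw [eq_div_iff (Finset.mem_filter.1 ht).2] at e
    rw [Multiset.mem_toFinset, mem_roots h1, IsRoot.def]
    simp only [eval_add, eval_mul, eval_C, eval_X]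
    linear_combination e

/-- a density is bounded by a bad density plus a bound for the two dimensional fibres -/
lemma m4_fib {m : ℕ} (i j : Fin m) (P B : (Fin m → κ) → Prop) {c : ℝ} (hc : 0 ≤ c)
    (h : ∀ x, ¬B x → avg Finset.univ (fun a => avg Finset.univ fun b =>
      ind (P (Function.update (Function.update x i a) j b))) ≤ c) :
    dens Finset.univ P ≤ dens Finset.univ B + c := by
  rw [dens_eq_avg, dens_eq_avg, ← Fintype.piFinset_univ, avg_pi_update _ j, avg_pi_update _ i]
  refine (avg_mono (G := fun x => ind (B x) + c) fun x _ => ?_).trans ?_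
  · by_cases hB : B x
    · rw [ind_pos hB]
      exact (avg_le_of_le zero_le_one fun a _ => avg_le_of_le zero_le_one fun b _ =>
        ind_le_one _).trans (le_add_of_nonneg_right hc)
    · rw [ind_neg hB, zero_add]
      exact h x hB
  · rw [avg_add, avg_const (by simp) c]

end Count

/-- one coprime specialisation of full degree gives generic coprimality -/
lemma m4_generic {A F : Type} [CommRing A] [Field F] {H R : A[X]} {d : ℕ} (hd : 0 < d)
    (hH : H.natDegree ≤ d) (hR : R.natDegree ≤ 4) (φ₀ : A →+* F)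
    (h₀ : IsCoprime (H.map φ₀) (R.map φ₀)) (h₁ : (H.map φ₀).natDegree = d) :
    ∃ G : A, φ₀ G ≠ 0 ∧ ∀ (κ : Type) [Field κ] (φ : A →+* κ), φ G ≠ 0 →
      IsCoprime (H.map φ) (R.map φ) ∧ 0 < (H.map φ).natDegree := by
  have hne : H.map φ₀ ≠ 0 := fun h => by rw [h, natDegree_zero] at h₁; omega
  refine ⟨H.resultant R d 4 * H.coeff d, ?_, fun κ _ φ hφ => ⟨?_, ?_⟩⟩
  · rw [map_mul, ← resultant_map_map, ← coeff_map, ← h₁]
    obtain ⟨k, hk⟩ := Nat.exists_eq_add_of_le (natDegree_map_le.trans hR : (R.map φ₀).natDegree ≤ 4)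
    rw [hk, resultant_add_right_deg _ _ _ _ _ le_rfl]
    exact mul_ne_zero (mul_ne_zero (pow_ne_zero _ (leadingCoeff_ne_zero.2 hne))
      (resultant_ne_zero _ _ h₀)) (leadingCoeff_ne_zero.2 hne)
  · obtain ⟨a, b, -, -, hab⟩ := exists_mul_add_mul_eq_C_resultant (m := d) (n := 4) H R hH hR
      (Or.inr (by norm_num))
    have h1 := congrArg (Polynomial.map φ) hab
    rw [Polynomial.map_add, Polynomial.map_mul, Polynomial.map_mul, map_C] at h1
    rw [map_mul] at hφ
    replace hφ := left_ne_zero_of_mul hφ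
    generalize φ _ = g at hφ h1
    refine ⟨C g⁻¹ * a.map φ, C g⁻¹ * b.map φ, ?_⟩
    have h2 : C g⁻¹ * C g = 1 := by rw [← C_mul, inv_mul_cancel₀ hφ, C_1]
    linear_combination C g⁻¹ * h1 + h2
  · rw [map_mul] at hφ
    exact hd.trans_le (le_natDegree_of_ne_zero (by rw [coeff_map]; exact right_ne_zero_of_mul hφ))

variable {R S : Type} [CommRing R] [CommRing S]

/-- the general member of the pencil -/
noncomputable def m4lin (y : Fin 20 → R) : QF R[X] := fun j => C (toM y 0 j) * X + C (toM y 1 j)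

/-- the coefficient of `c 9` in the determinant -/
def m4h (c : QF R) : R :=
  4 * (4 * c 0 * c 4 * c 7 - c 0 * c 5 ^ 2 - c 4 * c 2 ^ 2 - c 7 * c 1 ^ 2 + c 1 * c 2 * c 5)

/-- the part of the determinant without `c 9` -/
def m4r (c : QF R) : R :=
  (c 1 * c 8 - c 2 * c 6 + c 3 * c 5) ^ 2 + 4 * (c 0 * c 5 * c 6 * c 8 - c 0 * c 4 * c 8 ^ 2
    - c 0 * c 7 * c 6 ^ 2 - c 4 * c 7 * c 3 ^ 2 + c 4 * c 2 * c 3 * c 8 + c 7 * c 1 * c 3 * c 6
    - c 1 * c 8 * c 3 * c 5)

/-- the determinant of the polar form -/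
def m4D (c : QF R) : R := Q4.PP c ^ 2 + 4 * QQ c

lemma m4D_eq (c : QF R) : m4D c = m4r c + c 9 * m4h c := by
  simp only [m4D, Q4.PP, QQ, P2, QM, m4r, m4h]; ring

lemma m4D_smul (t : R) (c : QF R) : m4D (t • c) = t ^ 4 * m4D c := by
  simp only [m4D, Q4.PP, QQ, P2, QM, Pi.smul_apply, smul_eq_mul]; ring

lemma m4h_map (φ : R →+* S) (c : QF R) : φ (m4h c) = m4h (φ ∘ c) := by simp [m4h, map_ofNat]

lemma m4r_map (φ : R →+* S) (c : QF R) : φ (m4r c) = m4r (φ ∘ c) := by simp [m4r, map_ofNat]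

lemma m4D_map (φ : R →+* S) (c : QF R) : φ (m4D c) = m4D (φ ∘ c) := by
  simp [m4D_eq, m4h_map, m4r_map]

lemma m4_toM (φ : R →+* S) (y : Fin 20 → R) (i : Fin 2) (j : Fin 10) :
    φ (toM y i j) = toM (fun k => φ (y k)) i j := by
  fin_cases i <;> fin_cases j <;> rfl

lemma m4lin_map (φ : R →+* S) (y : Fin 20 → R) :
    mapRingHom φ ∘ m4lin y = m4lin fun k => φ (y k) := by
  funext j
  simp only [m4lin, Function.comp_apply, coe_mapRingHom, Polynomial.map_add, Polynomial.map_mul,
    map_C, map_X, ← m4_toM φ y]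

lemma m4lin_eval (t : R) (y : Fin 20 → R) : evalRingHom t ∘ m4lin y = pen (toM y) t 1 := by
  funext j
  simp only [m4lin, pen, Function.comp_apply, coe_evalRingHom, eval_add, eval_mul, eval_C, eval_X,
    Pi.add_apply, Pi.smul_apply, smul_eq_mul]
  ring

lemma m4_main (p : ℕ) [Fact p.Prime] (i j : Fin 20) (H R : (MvPolynomial (Fin 20) (ZMod p))[X])
    {d : ℕ} (hd : 0 < d) (hd3 : d ≤ 3) (hH : H.natDegree ≤ d) (hR : R.natDegree ≤ 4)
    (w : Fin 20 → ZMod p) (h₀ : R.map (MvPolynomial.eval w) = 1)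
    (h₁ : (H.map (MvPolynomial.eval w)).natDegree = d)
    (key : ∀ (κ : Type) [Field κ] [CharP κ p] (φ : MvPolynomial (Fin 20) (ZMod p) →+* κ)
      (a b t : κ), m4D (pen (toM (Function.update (Function.update
        (fun k => φ (MvPolynomial.X k)) i a) j b)) t 1) = 0 →
      (R.map φ).eval t + (a * t + b) * (H.map φ).eval t = 0) :
    ∃ N : ℕ, ∀ (κ : Type) [Field κ] [Fintype κ] [CharP κ p], N ≤ Fintype.card κ →
      dens Finset.univ (fun y : Fin 20 → κ => ∃ x z, (x ≠ 0 ∨ z ≠ 0) ∧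
        (red (toM y)).q x z ^ 2 + 4 * (red (toM y)).g x z = 0) ≤ 1 - 1 / 16 := by
  obtain ⟨G, hG0, hG⟩ := m4_generic hd hH hR (MvPolynomial.eval w)
    (by rw [h₀]; exact isCoprime_one_right) h₁
  obtain ⟨G', hG'⟩ : ∃ G' : MvPolynomial (Fin 20) (ZMod p), G' = m4D (toM MvPolynomial.X 0) :=
    ⟨_, rfl⟩
  have e' : ∀ (κ : Type) [CommRing κ] (φ : MvPolynomial (Fin 20) (ZMod p) →+* κ),
      φ G' = m4D (toM (fun k => φ (MvPolynomial.X k)) 0) := fun κ _ φ => by
    rw [hG', m4D_map]
    exact congrArg m4D (funext fun k => m4_toM φ _ 0 k)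
  have hG1 : G ≠ 0 := fun h => hG0 (by rw [h, map_zero])
  have hG2 : G' ≠ 0 := fun h => by
    have := e' _ (MvPolynomial.eval ![0, 1, 0, 0, 0, 0, 0, 0, 1, 0, 0, 0, 0, 0, 0, 0, 0, 0, 0, 0])
    rw [h, map_zero] at this
    simp [m4D, Q4.PP, QQ, P2, QM, toM, equivVec] at this
  refine ⟨16 * (G.totalDegree + G'.totalDegree), fun κ _ _ _ hN => ?_⟩
  let _ : Algebra (ZMod p) κ := ZMod.algebra κ p
  have h1 := dens_aeval_field hG1 κ
  have h2 := dens_aeval_field hG2 κ
  have h3 := m4_fib i j (fun y : Fin 20 → κ => ∃ t, m4D (pen (toM y) t 1) = 0)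
    (fun y => MvPolynomial.aeval y G = 0) (c := 7 / 8) (by norm_num) fun y hy => by
      obtain ⟨c1, c2⟩ := hG κ (MvPolynomial.aeval y).toRingHom hy
      refine le_trans (avg_mono fun a _ => avg_mono fun b _ => ?_) (m4_poly c1 c2
        (natDegree_map_le.trans (hH.trans hd3)) (natDegree_map_le.trans hR))
      refine m4_ind_mono fun ⟨t, ht⟩ => ⟨t, key κ _ a b t ?_⟩
      have e : (fun k => (MvPolynomial.aeval y : MvPolynomial (Fin 20) (ZMod p) →ₐ[ZMod p]
          κ).toRingHom (MvPolynomial.X k)) = y := funext fun k => MvPolynomial.aeval_X y k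
      rwa [e]
  have h4 : (0 : ℝ) < Fintype.card κ := by exact_mod_cast Fintype.card_pos
  have h5 : (16 : ℝ) * (G.totalDegree + G'.totalDegree) ≤ Fintype.card κ := by exact_mod_cast hN
  have h6 : (G.totalDegree : ℝ) / Fintype.card κ + G'.totalDegree / Fintype.card κ ≤ 1 / 16 := by
    rw [← add_div, div_le_iff₀ h4]
    linarith
  refine (dens_mono (Q := fun y => MvPolynomial.aeval y G' = 0 ∨ ∃ t, m4D (pen (toM y) t 1) = 0)
    fun y _ => ?_).trans ((dens_or_le _ _ _).trans (by linarith))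
  rintro ⟨x, z, hxz, h⟩
  rw [red_q, red_g] at h
  change m4D _ = 0 at h
  by_cases hz : z = 0
  · left
    have e : pen (toM y) x z = x • toM y 0 := by simp [pen, hz]
    rw [e, m4D_smul, mul_eq_zero] at h
    have := e' κ (MvPolynomial.aeval y).toRingHom
    simp only [AlgHom.toRingHom_eq_coe, RingHom.coe_coe, MvPolynomial.aeval_X] at this
    rw [this]
    exact h.resolve_left (pow_ne_zero _ (hxz.resolve_right (not_not.2 hz)))
  · right
    have e : pen (toM y) x z = z • pen (toM y) (x / z) 1 := by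
      simp [pen, smul_smul, mul_div_cancel₀ _ hz]
    rw [e, m4D_smul, mul_eq_zero] at h
    exact ⟨_, h.resolve_left (pow_ne_zero _ hz)⟩

theorem exists_dens_branch4 (p : ℕ) [Fact p.Prime] : ∃ N : ℕ, ∀ (κ : Type) [Field κ] [Fintype κ]
    [CharP κ p], N ≤ Fintype.card κ → dens Finset.univ (fun y : Fin 20 → κ => ∃ x z,
      (x ≠ 0 ∨ z ≠ 0) ∧ (red (toM y)).q x z ^ 2 + 4 * (red (toM y)).g x z = 0) ≤ 1 - 1 / 16 := by
  by_cases hp : p = 2
  · refine m4_main p 8 18 (m4lin MvPolynomial.X 1) (m4lin MvPolynomial.X 3 * m4lin MvPolynomial.X 5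
      - m4lin MvPolynomial.X 2 * m4lin MvPolynomial.X 6) one_pos (by norm_num) ?_ ?_
      ![0, 1, 0, 0, 0, 0, 0, 0, 0, 0, 0, 0, 0, 1, 0, 1, 0, 0, 0, 0] ?_ ?_ fun κ _ _ φ a b t h => ?_
    · unfold m4lin
      compute_degree
    · unfold m4lin
      compute_degree!
    · simp [m4lin, toM, equivVec]
    · simp [m4lin, toM, equivVec]
    · subst hp
      have h2 : (2 : κ) = 0 := CharTwo.two_eq_zero
      have h3 : (4 : κ) = 0 := by linear_combination 2 * h2
      rw [m4D, h3, zero_mul, add_zero, pow_eq_zero_iff two_ne_zero] at h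
      simp [Q4.PP, P2, pen, toM, equivVec] at h
      simp [m4lin, toM, equivVec]
      linear_combination h
  · have h4 : (4 : ZMod p) ≠ 0 := by
      have h2 : (2 : ZMod p) ≠ 0 := Ring.two_ne_zero (by rwa [ZMod.ringChar_zmod_n])
      rw [show (4 : ZMod p) = 2 * 2 by norm_num]
      exact mul_ne_zero h2 h2
    refine m4_main p 9 19 (m4h (m4lin MvPolynomial.X)) (m4r (m4lin MvPolynomial.X))
      (d := 3) (by norm_num) le_rfl ?_ ?_
      ![0, 0, 1, 0, 1, 0, 0, 0, 0, 0, 0, 0, 0, 1, 0, 1, 0, 0, 0, 0] ?_ ?_ fun κ _ _ φ a b t h => ?_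
    · unfold m4h m4lin
      compute_degree
    · unfold m4r m4lin
      compute_degree
    · rw [← coe_mapRingHom, m4r_map, m4lin_map]
      simp [m4r, m4lin, toM, equivVec]
    · rw [← coe_mapRingHom, m4h_map, m4lin_map]
      have e : m4h (m4lin fun k => MvPolynomial.eval ![0, 0, 1, 0, 1, 0, 0, 0, 0, 0, 0, 0, 0, 1, 0,
          1, 0, 0, 0, 0] (MvPolynomial.X k)) = C (-4 : ZMod p) * X ^ 3 := by
        rw [map_neg, map_ofNat]
        simp only [m4h, m4lin, toM, equivVec, MvPolynomial.eval_X]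
        simp only [Equiv.coe_fn_symm_mk, Matrix.cons_val, map_zero, map_one]
        ring
      rw [e, natDegree_C_mul_X_pow 3 _ (neg_ne_zero.2 h4)]
    · rw [← coe_mapRingHom, m4r_map, m4h_map, m4lin_map, ← coe_evalRingHom, m4r_map, m4h_map,
        m4lin_eval]
      rw [m4D_eq] at h
      simp [m4r, m4h, pen, toM, equivVec] at h ⊢
      linear_combination h

end SelAvg.FF.T4
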