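import Pool.Agent.H94Q.ToM
import Pool.Agent.H5T.Tail3B

/-! Block TAIL4-S: the local density of pairs of forms whose Jacobian has no 2-torsion point. -/

namespace SelAvg.FF.T4

open SelAvg.Q4 WeierstrassCurve Matrix
open scoped Classical

/-- the degree 2 model of a Weierstrass equation -/
def t4s_mod {R : Type} [CommRing R] (W : WeierstrassCurve R) : Model R :=
  ⟨0, W.a₁, W.a₃, 0, 1, W.a₂, W.a₄, W.a₆⟩

/-- the degree 4 model of a Weierstrass equation -/
def t4s_up {R : Type} [CommRing R] (W : WeierstrassCurve R) : M4 R := up (t4s_mod W)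

lemma t4s_red {R : Type} [CommRing R] (W : WeierstrassCurve R) : red (t4s_up W) = t4s_mod W :=
  red_up rfl

lemma t4s_jac {R : Type} [CommRing R] (W : WeierstrassCurve R) : (red (t4s_up W)).jac = W := by
  rw [t4s_red]
  ext <;> simp [Model.jac, t4s_mod]

lemma t4s_up_injective {R : Type} [CommRing R] :
    Function.Injective (t4s_up : WeierstrassCurve R → M4 R) :=
  Function.LeftInverse.injective (g := fun f => (red f).jac) t4s_jac

lemma t4s_disc {R : Type} [CommRing R] (g : Mat R) (c : QF R) :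
    4 * QQ (act g c) + Q4.PP (act g c) ^ 2 = g.det ^ 2 * (4 * QQ c + Q4.PP c ^ 2) := by
  have h := four_QQ_act g c
  rw [PP_act]
  linear_combination h

section Field

variable {K : Type} [Field K]

/-- the conditions that cut out the relevant group elements -/
def t4s_B (g : G4 K) : Prop :=
  g.1.1 0 1 = 0 ∧ g.2.1 0 1 = 0 ∧ g.2.1 0 2 = 0 ∧ g.2.1 0 3 = 0 ∧ g.2.1 1 0 = 0 ∧ g.2.1 1 2 = 0 ∧
    g.2.1 1 3 = 0 ∧ g.2.1 2 3 = 0 ∧ g.1.1 0 0 * g.2.1 2 2 ^ 2 = 1 ∧ g.1.1 1 1 * g.2.1 1 1 ^ 2 = 1 ∧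
    g.1.1 1 1 * g.2.1 0 0 * g.2.1 2 2 = 1 ∧ g.1.1 0 0 * g.2.1 0 0 * g.2.1 3 3 = 1 ∧
    g.2.1 2 0 * g.2.1 3 3 = 2 * g.2.1 2 2 * g.2.1 3 2 ∧ g.2.1 3 0 * g.2.1 3 3 = g.2.1 3 2 ^ 2 ∧
    g.1.1 1 0 * g.2.1 3 3 = g.1.1 1 1 * g.2.1 3 2

lemma t4s_first (h2 : (2 : K) ≠ 0) {W W' : WeierstrassCurve K} (hW : NoTwoTorsion W) {g : G4 K}
    (h : g • t4s_up W = t4s_up W') : g.1.1 0 1 = 0 := by
  by_contra hz
  have h0 := congrFun h 0
  rw [Q4.smul_apply] at h0
  have h1 := t4s_disc g.2.1 (pen (t4s_up W) (g.1.1 0 0) (g.1.1 0 1))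
  rw [h0, ← red_q, ← red_g, t4s_red] at h1
  have hd : g.2.1.det ≠ 0 := (det4u g).ne_zero
  have h3 : 4 * QQ (t4s_up W' 0) + Q4.PP (t4s_up W' 0) ^ 2 = 0 := by
    simp [QQ, QM, Q4.PP, P2, t4s_up, up, t4s_mod]
  rw [h3, eq_comm, mul_eq_zero, or_iff_right (pow_ne_zero 2 hd)] at h1
  simp only [Model.q, Model.g, t4s_mod] at h1
  obtain ⟨x, hx⟩ : ∃ x, g.1.1 0 0 = x * g.1.1 0 1 := ⟨_, (div_mul_cancel₀ _ hz).symm⟩
  rw [hx] at h1
  obtain ⟨y, hy⟩ : ∃ y, 2 * y + W.a₁ * x + W.a₃ = 0 :=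
    ⟨-(W.a₁ * x + W.a₃) / 2, by rw [mul_div_cancel₀ _ h2]; ring⟩
  refine hW x y ((Affine.equation_iff _ _).2 ?_) hy
  refine mul_left_cancel₀ (mul_ne_zero (mul_ne_zero h2 h2) (pow_ne_zero 4 hz)) ?_
  linear_combination -h1 + g.1.1 0 1 ^ 4 * (2 * y + W.a₁ * x + W.a₃) * hy

/-- the elements that can map a normal form without 2-torsion to a normal form -/
lemma t4s_stab (h2 : (2 : K) ≠ 0) {W W' : WeierstrassCurve K} (hW : NoTwoTorsion W) {g : G4 K}
    (h : g • t4s_up W = t4s_up W') : t4s_B g := by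
  have n01 := t4s_first h2 hW h
  have hN : g.1.1.det ≠ 0 := (GeneralLinearGroup.det g.1).ne_zero
  have hM : g.2.1.det ≠ 0 := (det4u g).ne_zero
  rw [det_fin_two, n01, zero_mul, sub_zero] at hN
  have hn := left_ne_zero_of_mul hN
  have hr := right_ne_zero_of_mul hN
  have A := fun j => congrFun (congrFun h 0) j
  have B := fun j => congrFun (congrFun h 1) j
  simp only [Q4.smul_apply, n01] at A B
  have a0 := A 0
  have a1 := A 1
  have a2 := A 2
  have a3 := A 3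
  have a4 := A 4
  have a5 := A 5
  have a6 := A 6
  have a7 := A 7
  have a8 := A 8
  have a9 := A 9
  have b0 := B 0
  have b1 := B 1
  have b2 := B 2
  have b3 := B 3
  have b4 := B 4
  clear A B
  simp only [act, cf, conj_ut, pen, t4s_up, up, t4s_mod, Pi.add_apply, Pi.smul_apply, smul_eq_mul,
    cons_val_zero, cons_val_one, cons_val, mul_zero, zero_mul, add_zero, zero_add, neg_zero, mul_one,
    mul_neg] at a0 a1 a2 a3 a4 a5 a6 a7 a8 a9 b0 b1 b2 b3 b4
  have hv : g.2.1 *ᵥ ![-g.2.1 1 3, 0, 2 * g.2.1 1 2, -g.2.1 1 0] = 0 := by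
    have e : ∀ i, (g.2.1 *ᵥ ![-g.2.1 1 3, 0, 2 * g.2.1 1 2, -g.2.1 1 0]) i =
        -(g.2.1 i 0 * g.2.1 1 3) + g.2.1 i 2 * (2 * g.2.1 1 2) - g.2.1 i 3 * g.2.1 1 0 := fun i => by
      simp [mulVec, dotProduct, Fin.sum_univ_four, sub_eq_add_neg]
    funext i
    rw [e, Pi.zero_apply]
    refine mul_left_cancel₀ hn ?_
    match i with
    | 0 => linear_combination a1
    | 1 => linear_combination 2 * a4
    | 2 => linear_combination a5
    | 3 => linear_combination a6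
  have hv0 := Matrix.eq_zero_of_mulVec_eq_zero hM hv
  have m13 : g.2.1 1 3 = 0 := neg_eq_zero.1 (congrFun hv0 0)
  have m12 : g.2.1 1 2 = 0 := (mul_eq_zero.1 (congrFun hv0 2)).resolve_left h2
  have m10 : g.2.1 1 0 = 0 := neg_eq_zero.1 (congrFun hv0 3)
  rw [m10, m12, m13] at b1 b4
  have c1 : g.1.1 1 1 * g.2.1 1 1 ^ 2 = 1 := by linear_combination -b4
  have he : g.1.1 1 1 * g.2.1 1 1 ≠ 0 :=
    left_ne_zero_of_mul_eq_one (b := g.2.1 1 1) (by linear_combination c1)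
  have d1 : 2 * g.2.1 0 1 + W.a₁ * g.2.1 0 2 + W.a₃ * g.2.1 0 3 = 0 :=
    mul_left_cancel₀ he (by linear_combination -b1)
  have d2 : g.2.1 0 2 ^ 2 = g.2.1 0 0 * g.2.1 0 3 := mul_left_cancel₀ hn (by linear_combination a0)
  have m03 : g.2.1 0 3 = 0 := by
    by_contra hz
    obtain ⟨x, hx⟩ : ∃ x, g.2.1 0 2 = x * g.2.1 0 3 := ⟨_, (div_mul_cancel₀ _ hz).symm⟩
    obtain ⟨y, hy⟩ : ∃ y, g.2.1 0 1 = y * g.2.1 0 3 := ⟨_, (div_mul_cancel₀ _ hz).symm⟩
    have hw : g.2.1 0 0 = x ^ 2 * g.2.1 0 3 :=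
      mul_right_cancel₀ hz (by rw [← d2, hx]; ring)
    rw [hx, hy] at d1
    rw [hx, hy, hw] at b0
    refine hW x y ((Affine.equation_iff _ _).2 ?_) (mul_left_cancel₀ hz (by linear_combination d1))
    refine mul_left_cancel₀ (mul_ne_zero hr (pow_ne_zero 2 hz)) ?_
    linear_combination -b0
  rw [m03, mul_zero] at d2
  have m02 : g.2.1 0 2 = 0 := pow_eq_zero_iff two_ne_zero |>.1 d2
  rw [m02, m03] at d1
  have m01 : g.2.1 0 1 = 0 := mul_left_cancel₀ h2 (by linear_combination d1)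
  rw [m02, m03] at a2 a3
  rw [m01, m02, m03] at b2 b3
  have c2 : g.1.1 0 0 * g.2.1 0 0 * g.2.1 3 3 = 1 := by linear_combination -a3
  have ha := left_ne_zero_of_mul_eq_one c2
  have m23 : g.2.1 2 3 = 0 := mul_left_cancel₀ ha (by linear_combination -a2)
  rw [m23] at a7 a8 b2
  refine ⟨n01, m01, m02, m03, m10, m12, m13, m23, ?_, c1, ?_, c2, mul_left_cancel₀ hn ?_,
    mul_left_cancel₀ hn ?_, mul_left_cancel₀ (right_ne_zero_of_mul ha) ?_⟩
  · linear_combination a7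
  · linear_combination b2
  · linear_combination -a8
  · linear_combination -a9
  · linear_combination -b3

lemma t4s_B_inj {g g' : G4 K} (h : t4s_B g) (h' : t4s_B g') (e22 : g.2.1 2 2 = g'.2.1 2 2)
    (e11 : g.2.1 1 1 = g'.2.1 1 1) (e32 : g.2.1 3 2 = g'.2.1 3 2) (e21 : g.2.1 2 1 = g'.2.1 2 1)
    (e31 : g.2.1 3 1 = g'.2.1 3 1) : g = g' := by
  obtain ⟨a1, a2, a3, a4, a5, a6, a7, a8, a9, a10, a11, a12, a13, a14, a15⟩ := h
  obtain ⟨b1, b2, b3, b4, b5, b6, b7, b8, b9, b10, b11, b12, b13, b14, b15⟩ := h'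
  rw [← e22] at b9 b11 b13
  rw [← e11] at b10
  rw [← e32] at b13 b14 b15
  have n00 : g.1.1 0 0 = g'.1.1 0 0 := by linear_combination g'.1.1 0 0 * a9 - g.1.1 0 0 * b9
  have n11 : g.1.1 1 1 = g'.1.1 1 1 := by linear_combination g'.1.1 1 1 * a10 - g.1.1 1 1 * b10
  rw [← n11] at b11 b15
  have e00 : g.2.1 0 0 = g'.2.1 0 0 := by linear_combination g'.2.1 0 0 * a11 - g.2.1 0 0 * b11
  rw [← n00, ← e00] at b12
  have e33 : g.2.1 3 3 = g'.2.1 3 3 := by linear_combination g'.2.1 3 3 * a12 - g.2.1 3 3 * b12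
  rw [← e33] at b13 b14 b15
  have h33 := right_ne_zero_of_mul_eq_one a12
  have e20 := mul_right_cancel₀ h33 (a13.trans b13.symm)
  have e30 := mul_right_cancel₀ h33 (a14.trans b14.symm)
  have n10 := mul_right_cancel₀ h33 (a15.trans b15.symm)
  refine Prod.ext (Units.ext ?_) (Units.ext ?_)
  · ext i j
    fin_cases i <;> fin_cases j
    exacts [n00, a1.trans b1.symm, n10, n11]
  · ext i j
    fin_cases i <;> fin_cases j
    exacts [e00, a2.trans b2.symm, a3.trans b3.symm, a4.trans b4.symm, a5.trans b5.symm, e11,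
      a6.trans b6.symm, a7.trans b7.symm, e20, e21, e22, a8.trans b8.symm, e30, e31, e32, e33]

end Field

section Finite

variable {κ : Type} [Field κ] [Fintype κ]

lemma t4s_card_G : Fintype.card κ ^ 20 ≤ 64 * Nat.card (G4 κ) := by
  rw [Nat.card_prod, card_GL_field, card_GL_field, Fin.prod_univ_two, Fin.prod_univ_four]
  have hq : 2 ≤ Fintype.card κ := Fintype.one_lt_card
  generalize Fintype.card κ = q at hq
  have h : ∀ n i, i < n → q ^ n ≤ 2 * (q ^ n - q ^ i) := fun n i hi => by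
    have h1 : q ^ (i + 1) ≤ q ^ n := Nat.pow_le_pow_right (by omega) hi
    have h2 : 2 * q ^ i ≤ q ^ (i + 1) := by
      rw [pow_succ' q i]
      exact Nat.mul_le_mul_right _ hq
    omega
  calc q ^ 20 = q ^ 2 * q ^ 2 * (q ^ 4 * q ^ 4 * q ^ 4 * q ^ 4) := by ring
    _ ≤ _ := Nat.mul_le_mul (Nat.mul_le_mul (h 2 0 (by norm_num)) (h 2 1 (by norm_num)))
      (Nat.mul_le_mul (Nat.mul_le_mul (Nat.mul_le_mul (h 4 0 (by norm_num)) (h 4 1 (by norm_num)))
        (h 4 2 (by norm_num))) (h 4 3 (by norm_num)))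
    _ = _ := by
      simp only [Fin.val_zero, Fin.val_one, Fin.val_two, show ((3 : Fin 4) : ℕ) = 3 from rfl]
      ring

lemma t4s_card_T (h2 : (2 : κ) ≠ 0) : Fintype.card κ ^ 5 ≤
    6 * (Finset.univ.filter fun W : WeierstrassCurve κ => NoTwoTorsion W).card := by
  have h := dens_noTwoTorsion_ge h2
  have hq : (0 : ℝ) < Fintype.card κ := Nat.cast_pos.2 Fintype.card_pos
  rw [dens, Finset.card_univ, t3_card_W, div_le_div_iff₀ (by norm_num) (by push_cast; positivity),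
    one_mul, mul_comm] at h
  exact_mod_cast h

theorem dens_twoTorsion4 {κ : Type} [Field κ] [Fintype κ] (h2 : (2 : κ) ≠ 0) :
    dens Finset.univ (fun y : Fin 20 → κ => ¬NoTwoTorsion (red (toM y)).jac) ≤ 1 - 1 / 384 := by
  have hq : 0 < Fintype.card κ := Fintype.card_pos
  have hG := t4s_card_G (κ := κ)
  rw [Nat.card_eq_fintype_card] at hG
  have h1 := t3_orbit_count (G := G4 κ)
    (Finset.univ.filter fun f : M4 κ => NoTwoTorsion (red f).jac)
    ((Finset.univ.filter fun W : WeierstrassCurve κ => NoTwoTorsion W).image t4s_up) ?_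
    (Finset.univ.filter fun g : G4 κ => t4s_B g) ?_
  rotate_left
  · intro g x hx
    obtain ⟨W, hW, rfl⟩ := Finset.mem_image.1 hx
    refine Finset.mem_filter.2 ⟨Finset.mem_univ _, ?_⟩
    rw [red_smul, G.jac_smul, noTwoTorsion_smul, t4s_jac]
    exact (Finset.mem_filter.1 hW).2
  · intro x hx g hg
    obtain ⟨W, hW, rfl⟩ := Finset.mem_image.1 hx
    obtain ⟨W', -, e⟩ := Finset.mem_image.1 hg
    exact Finset.mem_filter.2 ⟨Finset.mem_univ _, t4s_stab h2 (Finset.mem_filter.1 hW).2 e.symm⟩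
  have h3 : (Finset.univ.filter fun g : G4 κ => t4s_B g).card ≤ Fintype.card κ ^ 5 := by
    refine (Finset.card_le_card_of_injOn (t := Finset.univ)
      (fun g => (g.2.1 2 2, g.2.1 1 1, g.2.1 3 2, g.2.1 2 1, g.2.1 3 1))
      (fun _ _ => Finset.mem_univ _) fun g hg g' hg' e => ?_).trans (le_of_eq ?_)
    · simp only [Prod.mk.injEq] at e
      exact t4s_B_inj (Finset.mem_filter.1 hg).2 (Finset.mem_filter.1 hg').2 e.1 e.2.1 e.2.2.1
        e.2.2.2.1 e.2.2.2.2
    · simp only [Finset.card_univ, Fintype.card_prod]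
      ring
  rw [Finset.card_image_of_injective _ t4s_up_injective] at h1
  have h4 : Fintype.card κ ^ 20 ≤
      384 * (Finset.univ.filter fun f : M4 κ => NoTwoTorsion (red f).jac).card := by
    refine Nat.le_of_mul_le_mul_left ?_ (pow_pos hq 5)
    calc _ ≤ _ := Nat.mul_le_mul (t4s_card_T h2) hG
      _ = 384 * (Fintype.card (G4 κ) * (Finset.univ.filter
          fun W : WeierstrassCurve κ => NoTwoTorsion W).card) := by ring
      _ ≤ _ := Nat.mul_le_mul_left _ (h1.trans (Nat.mul_le_mul_right _ h3))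
      _ = _ := by ring
  have h6 : (Finset.univ.filter fun y : Fin 20 → κ => NoTwoTorsion (red (toM y)).jac).card =
      (Finset.univ.filter fun f : M4 κ => NoTwoTorsion (red f).jac).card :=
    Finset.card_equiv equivVec.symm fun y => by simp only [Finset.mem_filter, Finset.mem_univ]
  have hq' : (0 : ℝ) < Fintype.card κ := Nat.cast_pos.2 hq
  rw [dens_not Finset.univ_nonempty]
  refine sub_le_sub_left ?_ _
  rw [dens, h6, Finset.card_univ, Fintype.card_fun, Fintype.card_fin,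
    div_le_div_iff₀ (by norm_num) (by push_cast; positivity), one_mul, mul_comm]
  exact_mod_cast h4

end Finite

end SelAvg.FF.T4
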