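import Pool.Agent.H94Q.Tail4P
import Pool.Agent.H94Q.Tail4S
import Pool.Agent.H94Q.Tail4M

/-! Block TAIL4: negligible sets of pairs of quaternary quadratic forms on product boxes. -/

namespace SelAvg.FF.T4

open SelAvg.Q4 WeierstrassCurve WithZero Filter Topology Polynomial
open scoped Classical

lemma nR_zero {K : Type} [Field K] (x : Fin 20 → K) (hd : nd.f x ≠ 0) (h : nR.pol 7 x = 0) :
    x 9 = 0 ∧ x 19 = 0 := by
  rw [nR_pol] at h
  have a2 := congrArg (coeff · 2) h
  have a1 := congrArg (coeff · 1) h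
  simp only [coeff_add, coeff_C_mul, coeff_X_pow, coeff_X, coeff_C, coeff_zero] at a2 a1
  norm_num at a2 a1
  refine ⟨(mul_eq_zero.1 (?_ : x 9 * nd.f x = 0)).resolve_right hd, a2⟩
  simp only [nd]
  rw [a2] at a1 ⊢
  linear_combination a1

variable {F : Type} [Field F] [Cv F]

lemma t4_or {D : Fin 20 → Div F} {P Q : ℕ → (Fin 20 → F) → Prop}
    (h : Tendsto (fun m => dens (PB D kV m) (P m)) atTop (𝓝 0))
    (h' : Tendsto (fun m => dens (PB D kV m) (Q m)) atTop (𝓝 0)) :
    Tendsto (fun m => dens (PB D kV m) fun x => P m x ∨ Q m x) atTop (𝓝 0) := by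
  have h1 := h.add h'
  rw [add_zero] at h1
  exact squeeze_zero (fun _ => dens_nonneg _ _) (fun _ => dens_or_le _ _ _) h1

theorem tendsto_large (D : Fin 20 → Div F) (b : ℕ) :
    Tendsto (fun m => dens (PB D kV m) fun x => ∃ v : Place F, m * pp F < 2 * dg v + b ∧
      v.1 (red (toM x)).jac.Δ ≤ exp (-2)) atTop (𝓝 0) := by
  obtain ⟨x₀, h₀, h₁₀⟩ := exists_sep F
  obtain ⟨y, y7, y17, y18, y19, hy⟩ := exists_pat1 F
  obtain ⟨z, z10, z12, z14, z15, z17, z19, z18, hz⟩ := exists_pat2 F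
  have hN : ∀ m, (m - b) / 2 ≤ (fun m => (m - b) / 2) m := fun _ => le_rfl
  have e1 := nD.large 1 D kV_pos two_pos hN h₀ (by rw [h₁₀]; exact (top_nD _).1)
  have e2 := nd.pair nD 18 D kV_pos two_pos hN (r := 2)
    (fun x => by rw [nd_pol]; exact natDegree_quadratic_le) (x₀ := y) one_ne_zero
    (by rw [nd_pol, y17]; simp) y18 hy
  have e3 := nR.pair nD 7 D kV_pos two_pos hN (r := 2)
    (fun x => by rw [nR_pol]; exact natDegree_quadratic_le) (x₀ := y) one_ne_zero
    (by rw [nR_pol, y17, y18, y19]; simp) y7 hy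
  have e4 := nh.pair nD 10 D kV_pos two_pos hN (r := 1)
    (fun x => by rw [nh_pol]; exact natDegree_linear_le) (x₀ := z) (neg_ne_zero.2 one_ne_zero)
    (by rw [nh_pol]; simp [nd, z12, z17, z18, z19]) z10 hz
  have e5 := nk.pair nD 14 D kV_pos two_pos hN (r := 1)
    (fun x => by rw [nk_pol]; exact natDegree_linear_le) (x₀ := z) (neg_ne_zero.2 one_ne_zero)
    (by rw [nk_pol]; simp [nd, z15, z17, z18, z19]) z14 hz
  have e6 := t3_pair D kV_pos two_pos hN
  obtain ⟨c₁, h₁⟩ := tl_integral D kV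
  refine squeeze_zero' (Eventually.of_forall fun d => dens_nonneg _ _) ?_
    (t4_or e1 (t4_or e2 (t4_or e3 (t4_or e4 (t4_or e5 e6)))))
  filter_upwards [eventually_ge_atTop (2 * c₁ + b)] with m hm
  refine dens_mono fun x hx => ?_
  rintro ⟨v, h2, h3⟩
  have h4 : m ≤ m * pp F := Nat.le_mul_of_pos_right m pp_pos
  have h5 : (m - b) / 2 ≤ dg v := by omega
  rw [← nD_f] at h3
  by_cases h : RedNe v (nD.pol 1 x)
  · exact Or.inl ⟨v, h5, h, h3⟩
  right
  have h6 : v.1 (nD.f x) < 1 := h3.trans_lt (by rw [← exp_zero, exp_lt_exp]; norm_num)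
  obtain ⟨w, rfl⟩ := (h₁ v (by omega)).2 m x hx
  have h7 := (top_nD fun j => rO v (w j)).2
  rw [not_not.1 fun h8 => h (nD.redNe 1 h8), coeff_zero] at h7
  by_cases hd : nd.f (fun j => rO v (w j)) = 0
  · refine Or.inl ⟨v, h5, nd.redNe 18 fun h8 => ?_, nd.lt_one.2 hd, h6⟩
    have := (Top.quad _ _ _).2.symm.trans (congrArg (coeff · 2) ((nd_pol _).symm.trans h8))
    exact one_ne_zero this
  right
  rcases mul_eq_zero.1 h7.symm with h8 | h8
  · rcases mul_eq_zero.1 h8 with h8 | h8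
    · have hR := (mul_eq_zero.1 h8).resolve_left (pow_ne_zero 2 hd)
      by_cases h9 : nR.pol 7 (fun j => rO v (w j)) = 0
      · obtain ⟨a3, a2⟩ := nR_zero _ hd h9
        exact Or.inr (Or.inr (Or.inr ⟨v, h5, 9, 19, by decide, (rO_eq_zero _).1 a3,
          (rO_eq_zero _).1 a2⟩))
      · exact Or.inl ⟨v, h5, nR.redNe 7 h9, nR.lt_one.2 hR, h6⟩
    · refine Or.inr (Or.inl ⟨v, h5, nh.redNe 10 fun h9 => hd ?_, nh.lt_one.2 h8, h6⟩)
      have := (Top.lin _ _).2.symm.trans (congrArg (coeff · 1) ((nh_pol _).symm.trans h9))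
      exact neg_eq_zero.1 this
  · refine Or.inr (Or.inr (Or.inl ⟨v, h5, nk.redNe 14 fun h9 => hd ?_, nk.lt_one.2 h8, h6⟩))
    have := (Top.lin _ _).2.symm.trans (congrArg (coeff · 1) ((nk_pol _).symm.trans h9))
    exact neg_eq_zero.1 this

theorem tendsto_c46_V (D : Fin 20 → Div F) :
    Tendsto (fun m => dens (PB D kV m) fun x =>
      (red (toM x)).jac.c₄ = 0 ∨ (red (toM x)).jac.c₆ = 0) atTop (𝓝 0) := by
  obtain ⟨x₀, h₀⟩ := exists_c46 F
  simpa only [nC, mul_eq_zero] using nC.tendsto_zero D kV_pos h₀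

theorem tendsto_twoTorsion (D : Fin 20 → Div F) :
    Tendsto (fun m => dens (PB D kV m) fun x => ¬NoTwoTorsion (red (toM x)).jac) atTop (𝓝 0) := by
  have hp := Fact.mk (prime_ringChar (F := F))
  by_cases h2 : ringChar F = 2
  · obtain ⟨d, t, K, hd⟩ := exists_der (F := F)
    obtain ⟨x₀, h₀, h₁₀⟩ := exists_sep F
    refine squeeze_zero (fun _ => dens_nonneg _ _) (fun m => dens_mono fun x _ h => ?_)
      (nD.der 1 D kV_pos (x₀ := x₀) (fun h0 => ?_) hd)
    · obtain ⟨s, hs⟩ := tl_Delta_sq (by exact_mod_cast h2 ▸ ringChar.Nat.cast_ringChar (R := F)) h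
      rw [nD_f, hs, ← h2, hd.map_pow_char]
    · rw [Polynomial.separable_def, h0, isCoprime_zero_right] at h₀
      rw [natDegree_eq_zero_of_isUnit h₀] at h₁₀
      exact absurd h₁₀ (by norm_num)
  obtain ⟨u, hu⟩ := hp.out.odd_of_ne_two h2
  have h0 : ∀ v : Place F, ((ringChar F : ℕ) : OO v) = 0 := fun v =>
    (OO v).subtype_injective (by rw [map_natCast, map_zero, ringChar.Nat.cast_ringChar])
  have h3 : ∀ v : Place F, (2 : OO v) * -(u : OO v) = 1 := fun v => by
    have := h0 v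
    rw [hu] at this
    push_cast at this
    linear_combination -this
  refine PB_sieve D kV_pos _ (c := 1 / 384) (by norm_num) 0
    (fun v y => ¬NoTwoTorsion (red (toM y)).jac) (fun v _ => dens_twoTorsion4 ?_) fun v y h => ?_
  · have := congrArg ((resv v).comp (tl_inc v)) (h3 v)
    rw [map_mul, map_one, map_ofNat] at this
    exact left_ne_zero_of_mul_eq_one this
  · rw [jac_toM_map] at h ⊢
    exact tl_twoTorsion (F := F) (h3 v) h _

theorem tendsto_triv (D : Fin 20 → Div F) :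
    Tendsto (fun m => dens (PB D kV m) fun x => (red (toM x)).Triv) atTop (𝓝 0) := by
  have hp := Fact.mk (prime_ringChar (F := F))
  obtain ⟨N, hN⟩ := exists_dens_branch4 (ringChar F)
  have h0 : ∀ v : Place F, ((ringChar F : ℕ) : OO v) = 0 := fun v =>
    (OO v).subtype_injective (by rw [map_natCast, map_zero, ringChar.Nat.cast_ringChar])
  refine PB_sieve D kV_pos _ (c := 1 / 16) (by norm_num) N
    (fun v y => ∃ x z, (x ≠ 0 ∨ z ≠ 0) ∧ (red (toM y)).q x z ^ 2 + 4 * (red (toM y)).g x z = 0)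
    (fun v hv => ?_) fun v y h => ?_
  · have : CharP (kv v) (ringChar F) := (CharP.charP_iff_prime_eq_zero hp.out).2 (by
      rw [← map_natCast ((resv v).comp (tl_inc v)), h0, map_zero])
    refine hN _ (hv.trans ?_)
    rw [← Nat.card_eq_fintype_card, (card_kv v).2]
    exact (Nat.lt_pow_self (Cv.two_le (F := F))).le
  · rw [toM_map, red_map] at h
    obtain ⟨a, b, hab, h1⟩ := tl_coprime h
    refine ⟨_, _, (hab.map ((resv v).comp (tl_inc v))).ne_zero_or_ne_zero, ?_⟩
    rw [toM_map, red_map, Model.map_q, Model.map_g, ← map_pow,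
      ← map_ofNat ((resv v).comp (tl_inc v)) 4, ← map_mul, ← map_add, h1, map_zero]

end SelAvg.FF.T4
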