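import Pool.Agent.H94Q.Fin1

/-! The ratio for one divisor class, for pairs of quadrics. -/

namespace SelAvg.FF.T4

open WeierstrassCurve WithZero Filter Topology
open scoped Classical

variable {F : Type} [Field F] [Cv F]

lemma fin2_zz_pos : 0 < zt F ^ 2 * ztN F 3 * ztN F 4 :=
  mul_pos (mul_pos (pow_pos fin2_zt_pos 2) (zero_lt_one.trans_le (one_le_ztN (by norm_num))))
    (zero_lt_one.trans_le (one_le_ztN (by norm_num)))

lemma fin2_tendsto : Tendsto (fun N => cS (plLE F N) ^ 2 * cSN 3 (plLE F N) * cSN 4 (plLE F N) *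
    (zt F ^ 2 * ztN F 3 * ztN F 4)) atTop (𝓝 1) := by
  have h := (((tendsto_cS_mul_zt (F := F)).pow 2).mul
    (tendsto_cSN_mul_ztN (F := F) (s := 3) (by norm_num))).mul
    (tendsto_cSN_mul_ztN (F := F) (s := 4) (by norm_num))
  rw [mul_one, mul_one, one_pow] at h
  exact h.congr fun N => by ring

lemma fin2_one_le (S : Finset (Place F)) :
    1 ≤ cS S ^ 2 * cSN 3 S * cSN 4 S * (zt F ^ 2 * ztN F 3 * ztN F 4) := by
  have h := one_le_mul_of_one_le_of_one_le (one_le_mul_of_one_le_of_one_le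
    (one_le_pow₀ (n := 2) (one_le_cS_mul_zt S)) (one_le_cSN_mul_ztN (s := 3) (by norm_num) S))
    (one_le_cSN_mul_ztN (s := 4) (by norm_num) S)
  exact h.trans_eq (by ring)

theorem SD_sub_le (R : Div F) {ε : ℝ} (hε : 0 < ε) :
    ∀ᶠ m : ℕ in atTop, SD (R + m • PP F) - 4 * TD (R + m • PP F) ≤ ε := by
  obtain ⟨C, -, hC⟩ := le_TD (F := F)
  have hz := fin2_zz_pos (F := F)
  have ha : 0 < ε / 32 := by positivity
  have hb := div_pos ha hz
  have h1 := (fin2_tendsto (F := F)).eventually (eventually_le_nhds (lt_add_of_pos_right _ ha))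
  obtain ⟨N, hN1, hN2⟩ := (h1.and (fin2_tau (F := F) C ha)).exists
  obtain ⟨j, hj, hL⟩ := exists_level (plLE F N) hb
  have hd0 := delta_nonneg (plLE F N) j
  have hd1 := delta_le_one (plLE F N) j
  have hc0 : 0 ≤ cS (plLE F N) ^ 2 * cSN 3 (plLE F N) * cSN 4 (plLE F N) :=
    mul_nonneg (mul_nonneg (sq_nonneg _) (cSN_nonneg _)) (cSN_nonneg _)
  filter_upwards [SD_eventually_le R (plLE F N) (by positivity)
    (fun g => Uup_le (plLE F N) hj hb hL g) ha, hC N hj ha R] with m hm hm'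
  generalize zt F ^ 2 * ztN F 3 * ztN F 4 = z at *
  generalize cS (plLE F N) ^ 2 * cSN 3 (plLE F N) * cSN 4 (plLE F N) = c at *
  have e : 4 * z * (2 * (c * delta (plLE F N) j) + 2 * (ε / 32 / z) + ε / 32 / z) =
      8 * (c * z * delta (plLE F N) j) + 12 * (ε / 32) := by
    field_simp
    ring
  have h2 : c * z * delta (plLE F N) j ≤ (1 + ε / 32) * delta (plLE F N) j :=
    mul_le_mul_of_nonneg_right hN1 hd0
  have h3 : ε / 32 * delta (plLE F N) j ≤ ε / 32 := mul_le_of_le_one_right ha.le hd1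
  rw [e] at hm
  linarith

theorem le_SD_sub (R : Div F) {ε : ℝ} (hε : 0 < ε) :
    ∀ᶠ m : ℕ in atTop, -ε ≤ SD (R + m • PP F) - 4 * TD (R + m • PP F) := by
  have hz := fin2_zz_pos (F := F)
  have ha : 0 < ε / 128 := by positivity
  have hb := div_pos ha hz
  obtain ⟨N, hN⟩ := (fin2_tau (F := F) (zt F ^ 2 * ztN F 3 * ztN F 4) ha).exists
  have hCS := CS_pos (plLE F N)
  obtain ⟨j, hj, hL⟩ := exists_level (plLE F N) (div_pos hb hCS)
  have hd0 := delta_nonneg (plLE F N) j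
  have h2 := le_mul_of_one_le_left hd0 (fin2_one_le (plLE F N))
  filter_upwards [SD_eventually_ge R (plLE F N)
    (fun g => le_Ulow N hj hb hL g) ha, TD_le (plLE F N) hj ha R] with m hm hm'
  generalize zt F ^ 2 * ztN F 3 * ztN F 4 = z at *
  generalize cS (plLE F N) ^ 2 * cSN 3 (plLE F N) * cSN 4 (plLE F N) = c at *
  have e : 4 * z * (2 * (c * delta (plLE F N) j) -
      2 * CS (plLE F N) * (ε / 128 / z / CS (plLE F N)) - 14 * tau F N - ε / 128 / z) =
      8 * (c * z * delta (plLE F N) j) - 56 * (z * tau F N) - 12 * (ε / 128) := by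
    field_simp
    ring
  rw [e] at hm
  linarith

theorem abs_SD_sub_le (R : Div F) {ε : ℝ} (hε : 0 < ε) :
    ∀ᶠ m : ℕ in atTop, |SD (R + m • PP F) - 4 * TD (R + m • PP F)| ≤ ε := by
  filter_upwards [SD_sub_le R hε, le_SD_sub R hε] with m h2 h3
  exact abs_le.2 ⟨h3, h2⟩

end SelAvg.FF.T4
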