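import Pool.Agent.H94Q.ModB
import Pool.Agent.H15G.SiegN
import Pool.Agent.H81Sel.Glob1

/-! Adelic points of `GL₂ × GL₄`, integrality, local models; invariance. -/

namespace SelAvg.FF.T4

open WeierstrassCurve WithZero Filter Topology Matrix SelAvg.Q4
open scoped Classical ENNReal

variable {F : Type} [Field F]

variable (F) in
/-- the integral points -/
noncomputable def KG : Subgroup (G4 (A F)) := (mapG (inc F)).range

variable (F) in
/-- torsors with a generic trivialisation -/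
abbrev XG : Type := RC (KG F)

/-- the underlying bundle of rank two -/
noncomputable def pN (x : XG F) : XN F 2 := RC.mk (KN F 2) x.out.1

/-- the underlying bundle of rank four -/
noncomputable def pM (x : XG F) : XN F 4 := RC.mk (KN F 4) x.out.2

/-- the divisor of the line bundle of the Jacobian -/
noncomputable def cls (g : G4 (A F)) : Div F :=
  idiv (GeneralLinearGroup.det g.1) + idiv (GeneralLinearGroup.det g.2)

lemma mem_KG {k : G4 (A F)} : k ∈ KG F ↔ k.1 ∈ KN F 2 ∧ k.2 ∈ KN F 4 := by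
  constructor
  · rintro ⟨k₀, rfl⟩
    exact ⟨⟨k₀.1, rfl⟩, ⟨k₀.2, rfl⟩⟩
  · rintro ⟨⟨N, hN⟩, M, hM⟩
    exact ⟨(N, M), Prod.ext hN hM⟩

lemma mem_KN_of_forall {n : ℕ} {k : GL (Fin n) (A F)}
    (h : ∀ v : Place F, ∃ h : GL (Fin n) v.loc.O,
      GeneralLinearGroup.map v.loc.incl h = GeneralLinearGroup.map (pr v) k) : k ∈ KN F n := by
  choose h hh using h
  refine mem_KN.2 ⟨fun i j => glob0_mem fun v => ⟨(h v).1 i j, ?_⟩,
    glob0_idiv fun v => ⟨GeneralLinearGroup.det (h v), ?_⟩⟩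
  · exact congrArg (fun g : GL (Fin n) v.Compl => g.1 i j) (hh v)
  · have := congrArg GeneralLinearGroup.det (hh v)
    rwa [GeneralLinearGroup.map_det, GeneralLinearGroup.map_det] at this

/-- membership can be tested place by place -/
lemma mem_KG_of_forall {k : G4 (A F)}
    (h : ∀ v : Place F, ∃ h : G4 v.loc.O, mapG v.loc.incl h = mapG (pr v) k) : k ∈ KG F :=
  mem_KG.2 ⟨mem_KN_of_forall fun v => (h v).elim fun h hh => ⟨h.1, congrArg Prod.fst hh⟩,
    mem_KN_of_forall fun v => (h v).elim fun h hh => ⟨h.2, congrArg Prod.snd hh⟩⟩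

lemma exists_GL_patch {n : ℕ} (T : Finset (Place F)) (g : ∀ v : Place F, GL (Fin n) v.Compl) :
    ∃ g₀ : GL (Fin n) (A F), (∀ v ∈ T, GeneralLinearGroup.map (pr v) g₀ = g v) ∧
      ∀ v ∉ T, GeneralLinearGroup.map (pr v) g₀ = 1 := by
  let g' : ∀ v : Place F, GL (Fin n) v.Compl := fun v => if v ∈ T then g v else 1
  have hg : ∀ v ∉ T, g' v = 1 := fun v hv => if_neg hv
  have key : ∀ a : ∀ v : Place F, v.Compl, (∀ v ∉ T, a v = 0 ∨ a v = 1) →
      ∃ b : A F, ∀ v, pr v b = a v := fun a ha =>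
    exists_adele a (T.finite_toSet.subset fun v hv => by
      by_contra hT
      rcases ha v hT with h | h <;> exact hv (by simp [h]))
  have hone : ∀ (v : Place F) (i j : Fin n), (1 : Matrix (Fin n) (Fin n) v.Compl) i j = 0 ∨
      (1 : Matrix (Fin n) (Fin n) v.Compl) i j = 1 := fun v i j => by
    by_cases h : i = j
    · exact Or.inr (by rw [h, one_apply_eq])
    · exact Or.inl (one_apply_ne h)
  choose M hM using fun i j => key (fun v => (g' v).1 i j) fun v hv => by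
    simpa [hg v hv] using hone v i j
  choose N hN using fun i j => key (fun v => ((g' v)⁻¹).1 i j) fun v hv => by
    simpa [hg v hv] using hone v i j
  have hM' : ∀ v, (pr v).mapMatrix (of M) = (g' v).1 := fun v => Matrix.ext fun i j => hM i j v
  have hN' : ∀ v, (pr v).mapMatrix (of N) = ((g' v)⁻¹).1 := fun v =>
    Matrix.ext fun i j => hN i j v
  have hext : ∀ X Y : Matrix (Fin n) (Fin n) (A F),
      (∀ v, (pr v).mapMatrix X = (pr v).mapMatrix Y) → X = Y := fun X Y h =>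
    Matrix.ext fun i j => A_ext fun v => congrFun (congrFun (h v) i) j
  have e : ∀ v, GeneralLinearGroup.map (pr v) ⟨of M, of N, hext _ _ fun v => by
        rw [map_mul, hM', hN', map_one, Units.mul_inv], hext _ _ fun v => by
        rw [map_mul, hM', hN', map_one, Units.inv_mul]⟩ = g' v :=
    fun v => Units.ext (hM' v)
  exact ⟨_, fun v hv => (e v).trans (if_pos hv), fun v hv => (e v).trans (hg v hv)⟩

/-- patching of local group elements that are trivial outside a finite set -/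
lemma exists_G_patch (T : Finset (Place F)) (g : ∀ v : Place F, G4 v.Compl) :
    ∃ g₀ : G4 (A F), (∀ v ∈ T, mapG (pr v) g₀ = g v) ∧ ∀ v ∉ T, mapG (pr v) g₀ = 1 := by
  obtain ⟨N, h1, h2⟩ := exists_GL_patch T fun v => (g v).1
  obtain ⟨M, h3, h4⟩ := exists_GL_patch T fun v => (g v).2
  exact ⟨(N, M), fun v hv => Prod.ext (h1 v hv) (h3 v hv),
    fun v hv => Prod.ext (h2 v hv) (h4 v hv)⟩

lemma pN_mk (g : G4 (A F)) : pN (RC.mk (KG F) g) = RC.mk (KN F 2) g.1 := by
  obtain ⟨k, hk, e⟩ := RC.out_mk (K := KG F) g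
  rw [pN, e, Prod.fst_mul]
  exact (RC.mk_eq.2 ⟨k.1, (mem_KG.1 hk).1, rfl⟩).symm

lemma pM_mk (g : G4 (A F)) : pM (RC.mk (KG F) g) = RC.mk (KN F 4) g.2 := by
  obtain ⟨k, hk, e⟩ := RC.out_mk (K := KG F) g
  rw [pM, e, Prod.snd_mul]
  exact (RC.mk_eq.2 ⟨k.2, (mem_KG.1 hk).2, rfl⟩).symm

/-- a torsor is a pair of bundles -/
lemma mkG_eq_iff {g g' : G4 (A F)} : RC.mk (KG F) g = RC.mk (KG F) g' ↔
    RC.mk (KN F 2) g.1 = RC.mk (KN F 2) g'.1 ∧ RC.mk (KN F 4) g.2 = RC.mk (KN F 4) g'.2 := by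
  rw [RC.mk_eq', RC.mk_eq', RC.mk_eq', mem_KG]
  rfl

variable (F) in
/-- the pair of bundles -/
noncomputable def pNM : XG F ≃ XN F 2 × XN F 4 where
  toFun x := (pN x, pM x)
  invFun y := RC.mk (KG F) (y.1.out, y.2.out)
  left_inv x := by
    obtain ⟨g, rfl⟩ := x.mk_surj
    exact mkG_eq_iff.2 ⟨(RC.mk_out _).trans (pN_mk g), (RC.mk_out _).trans (pM_mk g)⟩
  right_inv y := Prod.ext ((pN_mk _).trans y.1.mk_out) ((pM_mk _).trans y.2.mk_out)

lemma pNM_apply (x : XG F) : pNM F x = (pN x, pM x) := rfl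

lemma pN_symm (y : XN F 2 × XN F 4) : pN ((pNM F).symm y) = y.1 :=
  congrArg Prod.fst ((pNM F).apply_symm_apply y)

lemma pM_symm (y : XN F 2 × XN F 4) : pM ((pNM F).symm y) = y.2 :=
  congrArg Prod.snd ((pNM F).apply_symm_apply y)

lemma cls_mul (g g' : G4 (A F)) : cls (g * g') = cls g + cls g' := by
  rw [cls, cls, cls, Prod.fst_mul, Prod.snd_mul, map_mul, map_mul, idiv_mul, idiv_mul]
  abel

lemma cls_inv (g : G4 (A F)) : cls g⁻¹ = -cls g := by
  rw [cls, cls, Prod.fst_inv, Prod.snd_inv, map_inv, map_inv, idiv_inv, idiv_inv]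
  abel

lemma cls_K {k : G4 (A F)} (hk : k ∈ KG F) (g : G4 (A F)) : cls (k * g) = cls g := by
  rw [cls_mul, cls, (mem_KN.1 (mem_KG.1 hk).1).2, (mem_KN.1 (mem_KG.1 hk).2).2, zero_add, zero_add]

lemma cls_out (x : XG F) : cls x.out = detN (pN x) + detN (pM x) := by
  rw [pN, pM, detN_mk, detN_mk, cls]

lemma idiv_Gam (g : G4 (A F)) (f : M4 (A F)) : idiv ((hh g f).Gam (red f)).u = -cls g := by
  rw [Gam_hh_u, idiv_inv, idiv_mul]
  rfl

variable [Cv F]

variable (F) in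
/-- the diagonal embedding -/
noncomputable abbrev gA : G4 F →* G4 (A F) := mapG (toA F)

variable (F) in
/-- change of the generic trivialisation -/
noncomputable def actG : G4 F →* Equiv.Perm (XG F) := (RC.act (KG F)).comp (gA F)

lemma actG_mk (γ : G4 F) (g : G4 (A F)) :
    actG F γ (RC.mk (KG F) g) = RC.mk (KG F) (g * (gA F γ)⁻¹) := rfl

/-- the form in which invariance under `KG` and `G4 F` is used on representatives -/
lemma out_actG (γ : G4 F) (x : XG F) :
    ∃ k ∈ KG F, (actG F γ x).out = k * (x.out * (gA F γ)⁻¹) := by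
  conv => enter [1, k, 2, 1]; rw [← x.mk_out, actG_mk]
  exact RC.out_mk _

lemma pN_act (γ : G4 F) (x : XG F) : pN (actG F γ x) = actN F 2 γ.1 (pN x) := by
  obtain ⟨g, rfl⟩ := x.mk_surj
  rw [actG_mk, pN_mk, pN_mk, actN_mk]
  rfl

lemma pM_act (γ : G4 F) (x : XG F) : pM (actG F γ x) = actN F 4 γ.2 (pM x) := by
  obtain ⟨g, rfl⟩ := x.mk_surj
  rw [actG_mk, pM_mk, pM_mk, actN_mk]
  rfl

lemma pNM_act (γ : G4 F) (x : XG F) :
    pNM F (actG F γ x) = prodAct (actN F 2) (actN F 4) γ (pNM F x) :=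
  Prod.ext (pN_act γ x) (pM_act γ x)

lemma isBru_pNM {ρ : XG F → ℝ≥0∞} (hρ : IsBru (actG F) ρ) :
    IsBru (prodAct (actN F 2) (actN F 4)) fun y => ρ ((pNM F).symm y) := by
  intro y
  obtain ⟨x, rfl⟩ := (pNM F).surjective y
  simp only [← pNM_act, Equiv.symm_apply_apply]
  exact hρ x

lemma isBru_prod {β : XN F 2 → ℝ≥0∞} {ρ : XN F 4 → ℝ≥0∞} (hβ : IsBru (actN F 2) β)
    (hρ : IsBru (actN F 4) ρ) : IsBru (actG F) fun x => β (pN x) * ρ (pM x) := by
  intro x
  simp only [pN_act, pM_act]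
  exact hβ.prod hρ (pN x, pM x)

/-- the unit of a global element -/
def uG (γ : G4 F) : Fˣ := GeneralLinearGroup.det γ.1 * GeneralLinearGroup.det γ.2

lemma cls_gA (γ : G4 F) : cls (gA F γ) = dv ((uG γ : Fˣ) : F) := by
  have h1 : GeneralLinearGroup.det (gA F γ).1 = uA (GeneralLinearGroup.det γ.1) :=
    Units.ext (RingHom.map_det (toA F) γ.1.1).symm
  have h2 : GeneralLinearGroup.det (gA F γ).2 = uA (GeneralLinearGroup.det γ.2) :=
    Units.ext (RingHom.map_det (toA F) γ.2.1).symm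
  rw [cls, h1, h2, idiv_uA, idiv_uA, uG, Units.val_mul, dv_mul (Units.ne_zero _) (Units.ne_zero _)]

lemma cls_act (γ : G4 F) (g : G4 (A F)) : cls (g * (gA F γ)⁻¹) = cls g - dv ((uG γ : Fˣ) : F) := by
  rw [cls_mul, cls_inv, cls_gA, sub_eq_add_neg]

theorem finite_stabG (x : XG F) : {γ : G4 F | actG F γ x = x}.Finite := by
  refine ((finite_stabN (pN x)).prod (finite_stabN (pM x))).subset fun γ hγ => ⟨?_, ?_⟩
  · change actN F 2 γ.1 _ = _
    rw [← pN_act, hγ]
  · change actN F 4 γ.2 _ = _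
    rw [← pM_act, hγ]

/-- the torsors whose line bundle is isomorphic to that of `D` -/
def XD (D : Div F) : Set (XG F) := {x | ∃ u : Fˣ, cls x.out = D + dv (u : F)}

lemma mk_mem_XD {D : Div F} {g : G4 (A F)} :
    RC.mk (KG F) g ∈ XD D ↔ ∃ u : Fˣ, cls g = D + dv (u : F) := by
  obtain ⟨k, hk, e⟩ := RC.out_mk (K := KG F) g
  rw [XD, Set.mem_ofPred_eq, e, cls_K hk]

lemma mem_XD {D : Div F} {x : XG F} :
    x ∈ XD D ↔ ∃ u : Fˣ, detN (pN x) + detN (pM x) = D + dv (u : F) := by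
  rw [XD, Set.mem_ofPred_eq, cls_out]

lemma act_mem_XD {D : Div F} (γ : G4 F) {x : XG F} : actG F γ x ∈ XD D ↔ x ∈ XD D := by
  obtain ⟨g, rfl⟩ := x.mk_surj
  rw [actG_mk, mk_mem_XD, mk_mem_XD, cls_act]
  constructor
  · rintro ⟨u, hu⟩
    refine ⟨u * uG γ, ?_⟩
    rw [Units.val_mul, dv_mul u.ne_zero (Units.ne_zero _), ← add_assoc, ← hu]
    abel
  · rintro ⟨u, hu⟩
    refine ⟨u * (uG γ)⁻¹, ?_⟩
    rw [Units.val_mul, dv_mul u.ne_zero (Units.ne_zero _), Units.val_inv_eq_inv_val, dv_inv, hu]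
    abel

/-- the model is integral for the trivialisations `g` -/
def IntM (g : G4 (A F)) (f : M4 F) : Prop :=
  ∃ f₀ : M4 (Oh F), mapM (inc F) f₀ = g • mapM (toA F) f

lemma intM_iff {g : G4 (A F)} {f : M4 F} :
    IntM g f ↔ ∀ i j, (g • mapM (toA F) f) i j ∈ Oh F := by
  constructor
  · rintro ⟨f₀, h⟩ i j
    rw [← h]
    exact (f₀ i j).2
  · intro h
    exact ⟨fun i j => ⟨_, h i j⟩, rfl⟩

lemma intM_K {k : G4 (A F)} (hk : k ∈ KG F) (g : G4 (A F)) (f : M4 F) :
    IntM (k * g) f ↔ IntM g f := by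
  have key : ∀ {k : G4 (A F)}, k ∈ KG F → ∀ g, IntM g f → IntM (k * g) f := by
    rintro _ ⟨k₀, rfl⟩ g ⟨f₀, h⟩
    exact ⟨k₀ • f₀, by rw [mapM_smul, h, mul_smul]⟩
  refine ⟨fun h => ?_, key hk g⟩
  simpa using key ((KG F).inv_mem hk) _ h

lemma act_smul_map (γ : G4 F) (g : G4 (A F)) (f : M4 F) :
    (g * (gA F γ)⁻¹) • mapM (toA F) (γ • f) = g • mapM (toA F) f := by
  rw [mapM_smul, ← mul_smul, inv_mul_cancel_right]

lemma intM_act (γ : G4 F) (g : G4 (A F)) (f : M4 F) :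
    IntM (g * (gA F γ)⁻¹) (γ • f) ↔ IntM g f := by
  rw [IntM, IntM, act_smul_map]

/-- the local model -/
noncomputable def locM (v : Place F) (g : G4 (A F)) (f : M4 F) : M4 v.loc.O :=
  fun i j => cO v ((g • mapM (toA F) f) i j)

lemma locM_eq {g : G4 (A F)} {f : M4 F} {f₀ : M4 (Oh F)}
    (h : mapM (inc F) f₀ = g • mapM (toA F) f) (v : Place F) : locM v g f = mapM (prO v) f₀ := by
  funext i j
  rw [locM, ← h]
  exact cO_coe v _

lemma locM_act (v : Place F) (γ : G4 F) (g : G4 (A F)) (f : M4 F) :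
    locM v (g * (gA F γ)⁻¹) (γ • f) = locM v g f := by
  funext i j
  rw [locM, locM, act_smul_map]

lemma locM_K {k g : G4 (A F)} (hk : k ∈ KG F) {f : M4 F} (hf : IntM g f) (v : Place F) :
    ∃ h : G4 v.loc.O, locM v (k * g) f = h • locM v g f := by
  obtain ⟨k₀, rfl⟩ := hk
  obtain ⟨f₀, h⟩ := hf
  refine ⟨mapG (prO v) k₀, ?_⟩
  rw [locM_eq h, ← mapM_smul]
  exact locM_eq (by rw [mapM_smul, h, mul_smul]) v

lemma locM_map {g : G4 (A F)} {f : M4 F} (hf : IntM g f) (v : Place F) :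
    mapM v.loc.incl (locM v g f) = mapG (pr v) g • mapM (algebraMap F v.Compl) f := by
  obtain ⟨f₀, h⟩ := hf
  rw [locM_eq h, mapM_mapM, incl_comp_prO, ← mapM_mapM, h, mapM_smul, mapM_mapM, pr_comp_toA]

omit [Cv F] in
lemma jac_smul {R : Type*} [CommRing R] (g : G4 R) (f : M4 R) :
    (red (g • f)).jac = (hh g f).Gam (red f) • (red f).jac := by
  rw [red_smul, G.jac_smul]

lemma glob0_Delta {g : G4 (A F)} {f : M4 F} (hf : IntM g f) (v : Place F) :
    ((red (locM v g f)).jac.Δ : v.Compl) =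
      pr v ((GeneralLinearGroup.det g.1 * det4u g : (A F)ˣ)) ^ 12 *
        algebraMap F v.Compl (red f).jac.Δ := by
  have h := congrArg (fun f => (red f).jac.Δ) (locM_map hf v)
  simp only [jac_smul, variableChange_Δ, Gam_hh_u, inv_inv] at h
  simp only [red_map, Model.jac_map, map_Δ, det4u_map] at h
  refine h.trans ?_
  rw [Units.val_mul, Units.val_mul, map_mul]
  congr 3

lemma locM_Delta {g : G4 (A F)} {f : M4 F} (hf : IntM g f) (hΔ : (red f).jac.Δ ≠ 0)
    (v : Place F) : (red (locM v g f)).jac.Δ ≠ 0 := by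
  intro h0
  have h := glob0_Delta hf v
  rw [h0, ZeroMemClass.coe_zero, eq_comm, mul_eq_zero] at h
  rcases h with h | h
  · exact pow_ne_zero _ ((Units.isUnit _).map (pr v)).ne_zero h
  · exact hΔ ((map_eq_zero _).1 h)

lemma v_locM_Delta {g : G4 (A F)} {f : M4 F} (hf : IntM g f) (v : Place F) :
    v.vc ((red (locM v g f)).jac.Δ : v.Compl) = exp (-(12 * cls g v)) * v.1 (red f).jac.Δ := by
  rw [glob0_Delta hf v, map_mul, map_pow, vc_unit, Place.vc_algebraMap, ← WithZero.exp_nsmul,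
    idiv_mul, cls, det4u]
  congr 2
  simp only [Finsupp.add_apply, nsmul_eq_mul]
  push_cast
  ring

end SelAvg.FF.T4
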