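import Pool.Agent.H94Q.ModB
import Pool.Agent.H5T.Lang

/-!
Degenerate pairs of quadrics: criteria for the discriminant to vanish to second order, singular
points of intersections of two quadrics.
-/

namespace SelAvg.Q4

open WeierstrassCurve Matrix Polynomial

section Ring

variable {R : Type*} [CommRing R]

lemma l4_two_sing (f : Model R) {t : R} (hl : t ∣ f.l) (ha : t ^ 2 ∣ f.a) (hb : t ∣ f.b) :
    t ^ 2 ∣ f.jac.Δ := by
  obtain ⟨l, hl⟩ := hl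
  obtain ⟨a, ha⟩ := ha
  obtain ⟨b, hb⟩ := hb
  refine walg_sq_dvd _ ⟨l * f.d + f.n * b, ?_⟩
    ⟨-t * l ^ 2 * f.e - l * f.n * f.c - t * f.n ^ 2 * a - 4 * t * a * f.e + b * f.d, ?_⟩
    ⟨-l ^ 2 * f.c * f.e + l * f.m * b * f.e - l * f.n * b * f.d - f.m ^ 2 * a * f.e
      + f.m * f.n * a * f.d - f.n ^ 2 * a * f.c - 4 * a * f.c * f.e + a * f.d ^ 2
      + b ^ 2 * f.e, ?_⟩ <;>
    simp only [Model.jac, hl, ha, hb] <;> ring

lemma l4_two_red (f : Model R) {t : R} (ha : t ∣ f.a) (hb : t ∣ f.b) (hc : t ∣ f.c) (hd : t ∣ f.d)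
    (he : t ∣ f.e) : t ^ 2 ∣ f.jac.Δ := by
  obtain ⟨a, ha⟩ := ha
  obtain ⟨b, hb⟩ := hb
  obtain ⟨c, hc⟩ := hc
  obtain ⟨d, hd⟩ := hd
  obtain ⟨e, he⟩ := he
  refine walg_sq_dvd _ ⟨f.l * d + f.n * b, ?_⟩
    ⟨-f.l ^ 2 * e - f.l * f.n * c - f.n ^ 2 * a - 4 * t * a * e + t * b * d, ?_⟩
    ⟨-f.l ^ 2 * c * e + f.l * f.m * b * e - f.l * f.n * b * d - f.m ^ 2 * a * e
      + f.m * f.n * a * d - f.n ^ 2 * a * c - 4 * t * a * c * e + t * a * d ^ 2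
      + t * b ^ 2 * e, ?_⟩ <;>
    simp only [Model.jac, ha, hb, hc, hd, he] <;> ring

/-- the first form has rank at most two modulo `t` -/
theorem sq_dvd_of_rank (f : M4 R) {t : R} (h0 : t ∣ f 0 0) (h1 : t ∣ f 0 1) (h2 : t ∣ f 0 2)
    (h3 : t ∣ f 0 3) (h4 : t ∣ f 0 4) (h5 : t ∣ f 0 5) (h6 : t ∣ f 0 6) :
    t ^ 2 ∣ (red f).jac.Δ := by
  have hb : t ∣ (red f).b := by
    rw [← Ideal.Quotient.eq_zero_iff_dvd] at h0 h1 h2 h3 h4 h5 h6 ⊢
    simp [red, QM, h0, h1, h2, h3, h4, h5, h6]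
  obtain ⟨u0, h0⟩ := h0
  obtain ⟨u1, h1⟩ := h1
  obtain ⟨u2, h2⟩ := h2
  obtain ⟨u3, h3⟩ := h3
  obtain ⟨u4, h4⟩ := h4
  obtain ⟨u5, h5⟩ := h5
  obtain ⟨u6, h6⟩ := h6
  refine l4_two_sing _ ⟨u1 * f 0 8 - t * u2 * u6 + t * u3 * u5, ?_⟩
    ⟨4 * u0 * u4 * f 0 7 * f 0 9 - u0 * u4 * f 0 8 ^ 2 - t * u0 * f 0 7 * u6 ^ 2
      - t * u0 * f 0 9 * u5 ^ 2 - t * u4 * f 0 7 * u3 ^ 2 - t * u4 * f 0 9 * u2 ^ 2
      - f 0 7 * f 0 9 * u1 ^ 2 + t * u0 * u5 * u6 * f 0 8 + t * u4 * u2 * u3 * f 0 8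
      + t * f 0 7 * u1 * u3 * u6 + t * f 0 9 * u1 * u2 * u5 - t * u1 * f 0 8 * u3 * u5, ?_⟩ hb <;>
    simp only [red, P2, QM, h0, h1, h2, h3, h4, h5, h6] <;> ring

/-- both quadrics contain the line `x₂ = x₃ = 0` modulo `t` -/
theorem l4_sq_line (f : M4 R) {t : R} (h0 : ∀ i, t ∣ f i 0) (h1 : ∀ i, t ∣ f i 1)
    (h4 : ∀ i, t ∣ f i 4) : t ^ 2 ∣ (red f).jac.Δ := by
  simp only [← Ideal.Quotient.eq_zero_iff_dvd] at h0 h1 h4
  refine l4_two_red _ ?_ ?_ ?_ ?_ ?_ <;> rw [← Ideal.Quotient.eq_zero_iff_dvd] <;>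
    simp [red, QM, h0, h1, h4]

/-- both quadrics are singular at the standard point modulo `t` -/
theorem sq_dvd_of_cone (f : M4 R) {t : R} (h0 : ∀ i, t ∣ f i 0) (h1 : ∀ i, t ∣ f i 1)
    (h2 : ∀ i, t ∣ f i 2) (h3 : ∀ i, t ∣ f i 3) : t ^ 2 ∣ (red f).jac.Δ := by
  simp only [← Ideal.Quotient.eq_zero_iff_dvd] at h0 h1 h2 h3
  refine l4_two_red _ ?_ ?_ ?_ ?_ ?_ <;> rw [← Ideal.Quotient.eq_zero_iff_dvd] <;>
    simp [red, QM, h0, h1, h2, h3]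

lemma l4_Delta_smul (g : G4 R) (f : M4 R) :
    ∃ u : Rˣ, (red (g • f)).jac.Δ = u * (red f).jac.Δ :=
  ⟨((hh g f).Gam (red f)).u⁻¹ ^ 12, by
    rw [red_smul, G.jac_smul, variableChange_Δ, Units.val_pow_eq_pow_val]⟩

lemma l4_qv_pen (f : M4 R) (x z : R) (Q : Fin 4 → R) :
    qv (pen f x z) Q = x * qv (f 0) Q + z * qv (f 1) Q := by
  simp [qv, pen]; ring

lemma l4_pol_pen (f : M4 R) (x z : R) (Q w : Fin 4 → R) :
    pol (pen f x z) Q w = x * pol (f 0) Q w + z * pol (f 1) Q w := by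
  simp [pol, pen]; ring

lemma l4_qv_comb (c : QF R) (s t : R) (u w : Fin 4 → R) :
    qv c (s • u + t • w) = qv c u * s ^ 2 + pol c u w * s * t + qv c w * t ^ 2 := by
  simp [qv, pol]; ring

lemma l4_pol_comb (c : QF R) (s t : R) (Q u w : Fin 4 → R) :
    pol c Q (s • u + t • w) = s * pol c Q u + t * pol c Q w := by
  simp [pol]; ring

lemma l4_pol_comm (c : QF R) (u w : Fin 4 → R) : pol c u w = pol c w u := by
  simp only [pol]; ring

lemma l4_pol_self (c : QF R) (u : Fin 4 → R) : pol c u u = 2 * qv c u := by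
  simp only [pol, qv]; ring

/-- the coefficients of `act g c` in terms of the rows of `g` -/
lemma l4_act (g : Mat R) (c : QF R) : act g c = ![qv c (g 0), pol c (g 0) (g 1), pol c (g 0) (g 2),
    pol c (g 0) (g 3), qv c (g 1), pol c (g 1) (g 2), pol c (g 1) (g 3), qv c (g 2),
    pol c (g 2) (g 3), qv c (g 3)] := by
  funext i
  fin_cases i <;> simp [act, cf, conj_ut, qv, pol] <;> ring

end Ring

variable {L : Type*} [Field L]

/-- a point of the intersection -/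
def LOn (f : M4 L) (Q : Fin 4 → L) : Prop := Q ≠ 0 ∧ ∀ i, qv (f i) Q = 0

/-- some member of the pencil is singular at the point -/
def LSing (f : M4 L) (Q : Fin 4 → L) : Prop :=
  ∃ x z : L, (x ≠ 0 ∨ z ≠ 0) ∧ ∀ w, pol (pen f x z) Q w = 0

/-- the discriminant of every first order deformation vanishes to second order -/
def Deg (f : M4 L) : Prop :=
  ∀ h : M4 L[X], mapM (evalRingHom 0) h = f → X ^ 2 ∣ (red h).jac.Δ

lemma Deg.of_smul {g : G4 L} {f : M4 L} (hd : Deg (g • f)) : Deg f := fun h e => by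
  have e1 : (evalRingHom 0).comp (C : L →+* L[X]) = RingHom.id L := by ext; simp
  have := hd (mapG C g • h) (by rw [mapM_smul, mapG_mapG, e1, e]; rfl)
  obtain ⟨u, hu⟩ := l4_Delta_smul (mapG C g) h
  rw [hu] at this
  exact Units.dvd_mul_left.1 this

lemma l4_X_dvd {h : M4 L[X]} {f : M4 L} (e : mapM (evalRingHom 0) h = f) {i : Fin 2} {j : Fin 10}
    (h0 : f i j = 0) : X ∣ h i j :=
  X_dvd_iff.2 ((coeff_zero_eq_eval_zero _).trans ((congrFun (congrFun e i) j).trans h0))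

lemma l4_ind {u w : Fin 4 → L} {i : Fin 4} (hu : u i ≠ 0) (hi : w i = 0) (hw : w ≠ 0) :
    LinearIndependent L ![u, w] := by
  refine LinearIndependent.pair_iff.2 fun s t h => ?_
  have hs : s = 0 := by simpa [hu, hi] using congrFun h i
  exact ⟨hs, by simpa [hs, hw] using h⟩

lemma l4_two_rows {u w : Fin 4 → L} (h : LinearIndependent L ![u, w]) :
    ∃ M : GL (Fin 4) L, M.1 0 = u ∧ M.1 1 = w := by
  obtain ⟨x, hx⟩ := exists_linearIndependent_snoc_of_lt_finrank h (by simp)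
  obtain ⟨y, hy⟩ := exists_linearIndependent_snoc_of_lt_finrank hx (by simp)
  have hM : IsUnit (Matrix.of ![u, w, x, y]) := by
    have e : (Matrix.of ![u, w, x, y]).row = Fin.snoc (Fin.snoc ![u, w] x) y := by
      funext i
      fin_cases i <;> rfl
    rw [← linearIndependent_rows_iff_isUnit, e]
    exact hy
  exact ⟨hM.unit, rfl, rfl⟩

lemma l4_pencil {x z : L} (h : x ≠ 0 ∨ z ≠ 0) : ∃ N : GL (Fin 2) L, N.1 0 0 = x ∧ N.1 0 1 = z := by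
  rcases h with h | h
  · exact ⟨GeneralLinearGroup.mkOfDetNeZero !![x, z; 0, 1] (by simpa using h), rfl, rfl⟩
  · exact ⟨GeneralLinearGroup.mkOfDetNeZero !![x, z; 1, 0] (by simpa using h), rfl, rfl⟩

lemma l4_ker (r₁ r₂ r₃ : Fin 4 → L) :
    ∃ v : Fin 4 → L, v ≠ 0 ∧ r₁ ⬝ᵥ v = 0 ∧ r₂ ⬝ᵥ v = 0 ∧ r₃ ⬝ᵥ v = 0 := by
  obtain ⟨v, hv, h⟩ := (Matrix.exists_mulVec_eq_zero_iff (M := Matrix.of ![r₁, r₂, r₃, 0])).2
    (det_eq_zero_of_row_eq_zero 3 fun _ => rfl)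
  exact ⟨v, hv, congrFun h 0, congrFun h 1, congrFun h 2⟩

lemma l4_dot (c : QF L) (Q w : Fin 4 → L) :
    (fun j => pol c Q (Pi.single j 1)) ⬝ᵥ w = pol c Q w := by
  simp [pol, dotProduct, Fin.sum_univ_four]; ring

/-- a member of the pencil is singular at two points -/
theorem deg_two {f : M4 L} {x z : L} (hxz : x ≠ 0 ∨ z ≠ 0) {u w : Fin 4 → L}
    (h : LinearIndependent L ![u, w]) (hu : qv (pen f x z) u = 0) (hw : qv (pen f x z) w = 0)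
    (hu' : ∀ y, pol (pen f x z) u y = 0) (hw' : ∀ y, pol (pen f x z) w y = 0) : Deg f := by
  obtain ⟨M, h0, h1⟩ := l4_two_rows h
  obtain ⟨N, n0, n1⟩ := l4_pencil hxz
  have e : (((N, M) : G4 L) • f) 0 = act M.1 (pen f x z) := by rw [smul_apply, n0, n1]
  rw [l4_act, h0, h1] at e
  refine Deg.of_smul (g := (N, M)) fun k ek => sq_dvd_of_rank k ?_ ?_ ?_ ?_ ?_ ?_ ?_ <;>
    refine l4_X_dvd ek ?_ <;> simp [e, hu, hw, hu', hw']

/-- the intersection contains a line -/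
theorem deg_line {f : M4 L} {u w : Fin 4 → L} (h : LinearIndependent L ![u, w])
    (hu : ∀ i, qv (f i) u = 0) (hw : ∀ i, qv (f i) w = 0) (huw : ∀ i, pol (f i) u w = 0) :
    Deg f := by
  obtain ⟨M, h0, h1⟩ := l4_two_rows h
  refine Deg.of_smul (g := (1, M)) fun k ek => l4_sq_line k ?_ ?_ ?_ <;>
    refine fun i => l4_X_dvd ek ?_ <;>
    simp [smul_apply, l4_act, h0, h1, l4_qv_pen, l4_pol_pen, hu, hw, huw]

/-- the intersection is a cone -/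
theorem deg_cone {f : M4 L} {u : Fin 4 → L} (h : u ≠ 0) (hu : ∀ i, qv (f i) u = 0)
    (hu' : ∀ i y, pol (f i) u y = 0) : Deg f := by
  obtain ⟨w, hw⟩ := exists_linearIndependent_pair_of_one_lt_finrank (R := L) (by simp) h
  obtain ⟨M, h0, -⟩ := l4_two_rows hw
  refine Deg.of_smul (g := (1, M)) fun k ek => sq_dvd_of_cone k ?_ ?_ ?_ ?_ <;>
    refine fun i => l4_X_dvd ek ?_ <;>
    simp [smul_apply, l4_act, h0, l4_qv_pen, l4_pol_pen, hu, hu']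

/-- two singular points -/
theorem deg_of_two_sing {f : M4 L} {u w : Fin 4 → L} (h : LinearIndependent L ![u, w])
    (hu : LOn f u) (hw : LOn f w) (su : LSing f u) (sw : LSing f w) : Deg f := by
  obtain ⟨x, z, hxz, h1⟩ := su
  obtain ⟨x', z', hxz', h2⟩ := sw
  by_cases hd : x * z' - z * x' = 0
  · refine deg_two hxz h (by simp [l4_qv_pen, hu.2]) (by simp [l4_qv_pen, hw.2]) h1 fun y => ?_
    have := h2 y
    rw [l4_pol_pen] at this ⊢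
    rcases hxz' with h' | h'
    · exact mul_left_cancel₀ h' (by linear_combination x * this - pol (f 1) w y * hd)
    · exact mul_left_cancel₀ h' (by linear_combination z * this + pol (f 0) w y * hd)
  · have e1 := h1 w
    have e2 := h2 u
    rw [l4_pol_pen] at e1 e2
    rw [l4_pol_comm _ w, l4_pol_comm _ w] at e2
    refine deg_line h hu.2 hw.2 (Fin.forall_fin_two.2 ⟨?_, ?_⟩) <;> refine mul_left_cancel₀ hd ?_
    · linear_combination z' * e1 - z * e2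
    · linear_combination x * e2 - x' * e1

lemma LOn.smul {g : G4 L} {f : M4 L} {Q : Fin 4 → L} (h : LOn (g • f) Q) : LOn f (Q ᵥ* g.2.1) := by
  have h0 := h.2 0
  have h1 := h.2 1
  rw [smul_apply, qv_act, l4_qv_pen] at h0 h1
  have hd : g.1.1 0 0 * g.1.1 1 1 - g.1.1 0 1 * g.1.1 1 0 ≠ 0 := by
    rw [← det_fin_two]; exact g.1.det_ne_zero
  refine ⟨fun e => h.1 (eq_zero_of_vecMul_eq_zero g.2.det_ne_zero e),
    Fin.forall_fin_two.2 ⟨?_, ?_⟩⟩ <;> refine mul_left_cancel₀ hd ?_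
  · linear_combination g.1.1 1 1 * h0 - g.1.1 0 1 * h1
  · linear_combination g.1.1 0 0 * h1 - g.1.1 1 0 * h0

lemma LSing.smul {g : G4 L} {f : M4 L} {Q : Fin 4 → L} (h : LSing (g • f) Q) :
    LSing f (Q ᵥ* g.2.1) := by
  obtain ⟨x, z, hxz, h⟩ := h
  have hd : g.1.1 0 0 * g.1.1 1 1 - g.1.1 0 1 * g.1.1 1 0 ≠ 0 := by
    rw [← det_fin_two]; exact g.1.det_ne_zero
  refine ⟨x * g.1.1 0 0 + z * g.1.1 1 0, x * g.1.1 0 1 + z * g.1.1 1 1, ?_, fun w => ?_⟩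
  · by_contra hc
    rw [not_or, not_not, not_not] at hc
    rcases hxz with h' | h' <;> refine h' (mul_left_cancel₀ hd ?_)
    · linear_combination g.1.1 1 1 * hc.1 - g.1.1 1 0 * hc.2
    · linear_combination g.1.1 0 0 * hc.2 - g.1.1 0 1 * hc.1
  · have := h (w ᵥ* (g.2⁻¹).1)
    rwa [pen_smul, pol_act, vecMul_vecMul, Units.inv_mul, vecMul_one] at this

lemma l4_up {p : M4 L} (k0 : p 0 0 = 0) (k1 : p 0 1 = 0) (k2 : p 0 2 = 0) (k3 : p 0 3 = -1)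
    (k4 : p 0 4 = 0) (k5 : p 1 0 = 0) (k6 : p 1 1 = 0) (k7 : p 1 2 = 1) (k8 : p 1 3 = 0)
    (k9 : p 1 4 = -1) :
    ∃ (g : G4 L) (h : Model L), h.a = 0 ∧ g • p = up h ∧ g.2.1 0 = ![1, 0, 0, 0] := by
  let M : Mat L := !![1, 0, 0, 0; p 0 6, 1, 0, 0; p 0 8, 0, 1, 0; p 0 9, 0, 0, 1]
  have hM : M.det ≠ 0 := by simp [M, det4]
  refine ⟨(1, GeneralLinearGroup.mkOfDetNeZero M hM),
    ⟨-p 0 5, -(p 1 5 + p 0 6), -p 1 6, 0, p 0 7, p 1 7 + p 0 8, p 1 8 + p 0 9, p 1 9⟩, rfl, ?_,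
    rfl⟩
  have e : ∀ a, (((1, GeneralLinearGroup.mkOfDetNeZero M hM) : G4 L) • p) a = act M (p a) :=
    fun a => by
      rw [smul_apply]
      fin_cases a <;> simp [pen]
  funext a
  rw [e, l4_act]
  fin_cases a <;> simp [M, up, qv, pol, k0, k1, k2, k3, k4, k5, k6, k7, k8, k9]
  and_intros <;> ring

/-- the normal form at a smooth point whose tangent line is not a component -/
theorem l4_normal' {f : M4 L} {Q : Fin 4 → L} (hQ : LOn f Q) (hs : ¬LSing f Q) (hd : ¬Deg f) :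
    ∃ (g : G4 L) (h : Model L), h.a = 0 ∧ g • f = up h ∧ g.2.1 0 = Q := by
  obtain ⟨i, hi⟩ : ∃ i, Q i ≠ 0 := Function.ne_iff.1 hQ.1
  obtain ⟨v, hv, t0, t1, t2⟩ := l4_ker (fun j => pol (f 0) Q (Pi.single j 1))
    (fun j => pol (f 1) Q (Pi.single j 1)) (Pi.single i 1)
  rw [l4_dot] at t0 t1
  have hQv := l4_ind hi (by simpa using t2) hv
  obtain ⟨x, z, hxz⟩ : ∃ x z, x * qv (f 0) v + z * qv (f 1) v = -1 := by
    by_cases h0 : qv (f 0) v = 0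
    · by_cases h1 : qv (f 1) v = 0
      · exact (hd (deg_line hQv hQ.2 (Fin.forall_fin_two.2 ⟨h0, h1⟩)
          (Fin.forall_fin_two.2 ⟨t0, t1⟩))).elim
      · exact ⟨0, -(qv (f 1) v)⁻¹, by simp [h1]⟩
    · exact ⟨-(qv (f 0) v)⁻¹, 0, by simp [h0]⟩
  have hn : ∀ a b : L, a ≠ 0 ∨ b ≠ 0 → ∃ w, a * pol (f 0) Q w + b * pol (f 1) Q w ≠ 0 :=
    fun a b hab => by
      by_contra hc
      exact hs ⟨a, b, hab, fun w => by rw [l4_pol_pen]; exact not_not.1 (not_exists.1 hc w)⟩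
  obtain ⟨w₁, h₁⟩ := hn 1 0 (Or.inl one_ne_zero)
  obtain ⟨w₂, h₂⟩ := hn (-pol (f 1) Q w₁) (pol (f 0) Q w₁) (Or.inr (by simpa using h₁))
  have sj : ∀ a b : L, ∃ w, pol (f 0) Q w = a ∧ pol (f 1) Q w = b := fun a b => by
    obtain ⟨s, hs⟩ := exists_eq_mul_left_of_dvd (h₂.isUnit.dvd (a := a * pol (f 1) Q w₂
      - b * pol (f 0) Q w₂))
    obtain ⟨t, ht⟩ := exists_eq_mul_left_of_dvd (h₂.isUnit.dvd (a := b * pol (f 0) Q w₁
      - a * pol (f 1) Q w₁))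
    refine ⟨s • w₁ + t • w₂, mul_left_cancel₀ h₂ ?_, mul_left_cancel₀ h₂ ?_⟩ <;> rw [l4_pol_comb]
    · linear_combination -pol (f 0) Q w₁ * hs - pol (f 0) Q w₂ * ht
    · linear_combination -pol (f 1) Q w₁ * hs - pol (f 1) Q w₂ * ht
  obtain ⟨v₂, a₂, b₂⟩ := sj (-qv (f 0) v) (-qv (f 1) v)
  obtain ⟨v₃, a₃, b₃⟩ := sj z (-x)
  have hM : IsUnit (Matrix.of ![Q, v, v₂, v₃]) := by
    rw [← linearIndependent_rows_iff_isUnit, Fintype.linearIndependent_iff]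
    intro s hs0
    have e : s 0 • Q + s 1 • v + s 2 • v₂ + s 3 • v₃ = 0 := by
      simpa [Fin.sum_univ_four] using hs0
    have lin : ∀ c : QF L, s 0 * pol c Q Q + s 1 * pol c Q v + s 2 * pol c Q v₂
        + s 3 * pol c Q v₃ = 0 := fun c => by
      have h0 : pol c Q 0 = 0 := by simp [pol]
      rw [← h0, ← e]
      simp [pol]
      ring
    have p0 := lin (f 0)
    have p1 := lin (f 1)
    rw [l4_pol_self, hQ.2] at p0 p1
    rw [t0, a₂, a₃] at p0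
    rw [t1, b₂, b₃] at p1
    have s2 : s 2 = 0 := by linear_combination x * p0 + z * p1 + s 2 * hxz
    have s3 : s 3 = 0 := by
      linear_combination -qv (f 1) v * p0 + qv (f 0) v * p1 + s 3 * hxz
    rw [s2, s3, zero_smul, zero_smul, add_zero, add_zero] at e
    obtain ⟨s0, s1⟩ := LinearIndependent.pair_iff.1 hQv _ _ e
    intro j
    fin_cases j
    exacts [s0, s1, s2, s3]
  let g₁ : G4 L := (GeneralLinearGroup.mkOfDetNeZero !![qv (f 1) v, -qv (f 0) v; x, z]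
    (by rw [det_fin_two_of]; intro e; exact one_ne_zero (α := L) (by linear_combination hxz - e)),
    hM.unit)
  have c0 : (g₁ • f) 0 = act (Matrix.of ![Q, v, v₂, v₃]) (pen f (qv (f 1) v) (-qv (f 0) v)) := rfl
  have c1 : (g₁ • f) 1 = act (Matrix.of ![Q, v, v₂, v₃]) (pen f x z) := rfl
  have k : (g₁ • f) 0 0 = 0 ∧ (g₁ • f) 0 1 = 0 ∧ (g₁ • f) 0 2 = 0 ∧ (g₁ • f) 0 3 = -1 ∧
      (g₁ • f) 0 4 = 0 ∧ (g₁ • f) 1 0 = 0 ∧ (g₁ • f) 1 1 = 0 ∧ (g₁ • f) 1 2 = 1 ∧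
      (g₁ • f) 1 3 = 0 ∧ (g₁ • f) 1 4 = -1 := by
    rw [c0, c1, l4_act, l4_act]
    have r0 : Matrix.of ![Q, v, v₂, v₃] 0 = Q := rfl
    have r1 : Matrix.of ![Q, v, v₂, v₃] 1 = v := rfl
    have r2 : Matrix.of ![Q, v, v₂, v₃] 2 = v₂ := rfl
    have r3 : Matrix.of ![Q, v, v₂, v₃] 3 = v₃ := rfl
    simp only [r0, r1, r2, r3, cons_val, l4_qv_pen, l4_pol_pen, hQ.2, t0, t1, a₂, b₂, a₃, b₃]
    refine ⟨by ring, by ring, by ring, by linear_combination hxz, by ring, by ring, by ring,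
      by linear_combination -hxz, by ring, hxz⟩
  suffices ∃ (g : G4 L) (h : Model L), h.a = 0 ∧ g • g₁ • f = up h ∧ g.2.1 0 = ![1, 0, 0, 0] by
    obtain ⟨g, h, ha, e, e'⟩ := this
    refine ⟨g * g₁, h, ha, by rw [mul_smul, e], ?_⟩
    change g.2.1 0 ᵥ* Matrix.of ![Q, v, v₂, v₃] = Q
    rw [e']
    funext j
    simp [Matrix.vecMul, dotProduct, Fin.sum_univ_four]
  obtain ⟨k0, k1, k2, k3, k4, k5, k6, k7, k8, k9⟩ := k
  exact l4_up k0 k1 k2 k3 k4 k5 k6 k7 k8 k9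

theorem l4_normal {f : M4 L} {Q : Fin 4 → L} (hQ : LOn f Q) (hs : ¬LSing f Q) (hd : ¬Deg f) :
    ∃ (g : G4 L) (h : Model L), h.a = 0 ∧ g • f = up h :=
  let ⟨g, h, ha, e, _⟩ := l4_normal' hQ hs hd
  ⟨g, h, ha, e⟩

lemma l4_deg_up {h : Model L} (hl : h.l = 0) (hb : h.b = 0) : Deg (up h) := by
  refine deg_two (x := 1) (z := 0) (Or.inl one_ne_zero) (u := ![0, 1, 0, 0]) (w := ![0, 0, 1, 0])
    (l4_ind (i := 1) (by simp) (by simp) (by simp)) ?_ ?_ (fun y => ?_) fun y => ?_ <;>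
    simp [qv, pol, pen, up, hl, hb]

/-- the normal form with all its properties -/
theorem l4_good {f : M4 L} {Q : Fin 4 → L} (hQ : LOn f Q) (hs : ¬LSing f Q) (hd : ¬Deg f) :
    ∃ (g : G4 L) (h : Model L), h.a = 0 ∧ (h.l ≠ 0 ∨ h.b ≠ 0) ∧ g • f = up h ∧ g.2.1 0 = Q := by
  obtain ⟨g, h, ha, e, e'⟩ := l4_normal' hQ hs hd
  refine ⟨g, h, ha, ?_, e, e'⟩
  by_contra hc
  rw [not_or, not_not, not_not] at hc
  exact hd (Deg.of_smul (g := g) (e ▸ l4_deg_up hc.1 hc.2))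

variable {K : Type*} [Field K] [IsAlgClosed K]

lemma l4_iso (c : QF K) {u w : Fin 4 → K} (h : LinearIndependent K ![u, w]) :
    ∃ s t : K, s • u + t • w ≠ 0 ∧ qv c (s • u + t • w) = 0 := by
  by_cases hu : qv c u = 0
  · exact ⟨1, 0, fun e => one_ne_zero (LinearIndependent.pair_iff.1 h _ _ e).1, by simpa using hu⟩
  · obtain ⟨s, hs⟩ := FF.T3.lg_quad hu (pol c u w) (qv c w)
    exact ⟨s, 1, fun e => one_ne_zero (LinearIndependent.pair_iff.1 h _ _ e).2, by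
      rw [l4_qv_comb]; linear_combination hs⟩

lemma l4_iso_ker (c : QF K) (r₁ r₂ : Fin 4 → K) :
    ∃ v : Fin 4 → K, v ≠ 0 ∧ r₁ ⬝ᵥ v = 0 ∧ r₂ ⬝ᵥ v = 0 ∧ qv c v = 0 := by
  obtain ⟨u, hu, u1, u2, -⟩ := l4_ker r₁ r₂ 0
  obtain ⟨i, hi⟩ : ∃ i, u i ≠ 0 := Function.ne_iff.1 hu
  obtain ⟨w, hw, w1, w2, w3⟩ := l4_ker r₁ r₂ (Pi.single i 1)
  obtain ⟨s, t, h1, h2⟩ := l4_iso c (l4_ind hi (by simpa using w3) hw)
  exact ⟨_, h1, by simp [u1, w1], by simp [u2, w2], h2⟩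

/-- two quadrics in projective three-space meet -/
theorem l4_exists_on (f : M4 K) : ∃ Q, LOn f Q := by
  obtain ⟨u, hu, -, -, qu⟩ := l4_iso_ker (f 0) 0 0
  obtain ⟨i, hi⟩ : ∃ i, u i ≠ 0 := Function.ne_iff.1 hu
  obtain ⟨w, hw, w1, w2, qw⟩ := l4_iso_ker (f 0) (fun j => pol (f 0) u (Pi.single j 1))
    (Pi.single i 1)
  rw [l4_dot] at w1
  obtain ⟨s, t, h1, h2⟩ := l4_iso (f 1) (l4_ind hi (by simpa using w2) hw)
  exact ⟨_, h1, Fin.forall_fin_two.2 ⟨by simp [l4_qv_comb, qu, qw, w1], h2⟩⟩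

lemma l4_sing_up {h : Model K} (ha : h.a = 0) (hΔ : h.jac.Δ = 0) :
    ∃ Q, LOn (up h) Q ∧ LSing (up h) Q := by
  obtain ⟨P, hP, hs⟩ := FF.T3.Model.exists_sing_pt (f := FF.T3.Model.unred h) (by
    rw [← FF.T3.Model.jac_red (FF.T3.Model.unred_std h), FF.T3.Model.red_unred ha, hΔ])
  have hF := hP.eq
  simp only [FF.T3.Model.Smooth, not_or, not_not] at hs
  obtain ⟨hx, hy, hz⟩ := hs
  simp only [FF.T3.Model.F, FF.T3.Model.Fx, FF.T3.Model.Fy, FF.T3.Model.Fz,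
    FF.T3.Model.unred] at hF hx hy hz
  have hyz : P 1 ≠ 0 ∨ P 2 ≠ 0 := by
    by_contra hc
    rw [not_or, not_not, not_not] at hc
    refine hP.prim (funext fun i => ?_)
    have h0 : P 0 = 0 :=
      pow_eq_zero_iff two_ne_zero |>.1 (by rw [hc.1, hc.2] at hz; linear_combination -hz)
    fin_cases i
    exacts [h0, hc.1, hc.2]
  obtain ⟨t, t0, t1⟩ : ∃ t, t * P 2 = h.l * P 0 * P 1 + h.b * P 1 ^ 2 ∧ t * P 1 = P 0 ^ 2
      - h.m * P 0 * P 1 - h.n * P 0 * P 2 - h.c * P 1 ^ 2 - h.d * P 1 * P 2 - h.e * P 2 ^ 2 := by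
    rcases hyz with h1 | h2
    · exact ⟨_ / P 1, mul_left_cancel₀ h1 (by field_simp; linear_combination -hF),
        div_mul_cancel₀ _ h1⟩
    · exact ⟨_ / P 2, div_mul_cancel₀ _ h2, mul_left_cancel₀ h2 (by
        field_simp; linear_combination hF)⟩
  refine ⟨![t, -P 0, P 1, P 2], ⟨fun e => ?_, Fin.forall_fin_two.2 ⟨?_, ?_⟩⟩, P 1, P 2, hyz,
    fun w => ?_⟩
  · exact hyz.elim (fun h1 => h1 (congrFun e 2)) fun h2 => h2 (congrFun e 3)
  · simp [up, qv]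
    linear_combination -t0
  · simp [up, qv]
    linear_combination t1
  · simp [up, pol, pen]
    linear_combination -w 1 * hx + w 2 * hy + w 3 * hz + w 2 * t0 - w 3 * t1

/-- a pair with vanishing discriminant has a singular point or is degenerate -/
theorem l4_exists_sing {f : M4 K} (hΔ : (red f).jac.Δ = 0) (hd : ¬Deg f) :
    ∃ Q, LOn f Q ∧ LSing f Q := by
  obtain ⟨Q, hQ⟩ := l4_exists_on f
  by_cases hs : LSing f Q
  · exact ⟨Q, hQ, hs⟩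
  obtain ⟨g, h, ha, e⟩ := l4_normal hQ hs hd
  obtain ⟨u, hu⟩ := l4_Delta_smul g f
  rw [e, red_up ha, hΔ, mul_zero] at hu
  obtain ⟨P, h1, h2⟩ := l4_sing_up ha hu
  rw [← e] at h1 h2
  exact ⟨_, h1.smul, h2.smul⟩

end SelAvg.Q4
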