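import Pool.Agent.H94Q.LangA

/-!
Rational points of singular intersections of two quadrics over finite fields, and the passage from
the residue field to the valuation ring.
-/

namespace SelAvg.Q4

open WeierstrassCurve Matrix Polynomial FF.T3

section Fin

variable {κ : Type*} [Field κ]

/-- a quadric has a rational point in every coordinate plane -/
lemma l4_warning [Finite κ] (c : QF κ) (i : Fin 4) :
    ∃ v : Fin 4 → κ, v ≠ 0 ∧ v i = 0 ∧ qv c v = 0 := by
  classical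
  have := Fintype.ofFinite κ
  obtain ⟨p, hp⟩ := CharP.exists κ
  have hpp : p.Prime := CharP.char_is_prime κ p
  let P : MvPolynomial (Fin 4) κ := qv (fun k => MvPolynomial.C (c k)) MvPolynomial.X
  have h1 : ∀ (a : κ) (j k : Fin 4), (MvPolynomial.C a * MvPolynomial.X j * MvPolynomial.X k :
      MvPolynomial (Fin 4) κ).IsHomogeneous 2 := fun a j k =>
    (MvPolynomial.isHomogeneous_C_mul_X a j).mul (MvPolynomial.isHomogeneous_X κ k)
  have h2 : ∀ (a : κ) (j : Fin 4), (MvPolynomial.C a * MvPolynomial.X j ^ 2 :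
      MvPolynomial (Fin 4) κ).IsHomogeneous 2 := fun a j =>
    MvPolynomial.isHomogeneous_C_mul_X_pow a j 2
  have hP : P.IsHomogeneous 2 :=
    (((((((((h2 _ _).add (h1 _ _ _)).add (h1 _ _ _)).add (h1 _ _ _)).add (h2 _ _)).add
      (h1 _ _ _)).add (h1 _ _ _)).add (h2 _ _)).add (h1 _ _ _)).add (h2 _ _)
  have h := char_dvd_card_solutions_of_add_lt p (f₁ := P) (f₂ := MvPolynomial.X i) (by
    have := hP.totalDegree_le
    rw [MvPolynomial.totalDegree_X, Fintype.card_fin]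
    omega)
  have ev : ∀ v, MvPolynomial.eval v P = qv c v := fun v => by simp [P, qv]
  by_contra hc
  refine hpp.one_lt.ne' (Nat.dvd_one.1 ?_)
  rw [← (Fintype.card_eq_one_iff (α := {x : Fin 4 → κ //
    MvPolynomial.eval x P = 0 ∧ MvPolynomial.eval x (MvPolynomial.X i) = 0})).2
    ⟨⟨0, by rw [ev]; simp [qv], by simp⟩, fun ⟨v, h1, h2⟩ => Subtype.ext (by
      by_contra hv
      exact hc ⟨v, hv, by simpa using h2, by rw [← ev, h1]⟩)⟩]
  exact h

lemma l4_both {a b : (Fin 4 → κ) → κ} (ha : ∀ u w, a (u + w) = a u + a w)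
    (hb : ∀ u w, b (u + w) = b u + b w) {u w : Fin 4 → κ} (hu : a u ≠ 0) (hw : b w ≠ 0) :
    ∃ y, a y ≠ 0 ∧ b y ≠ 0 := by
  by_cases h1 : b u = 0
  · by_cases h2 : a w = 0
    · exact ⟨u + w, by rwa [ha, h2, add_zero], by rwa [hb, h1, zero_add]⟩
    · exact ⟨w, h2, hw⟩
  · exact ⟨u, hu, h1⟩

/-- a rational singular point gives a rational smooth point -/
theorem smooth_of_sing [Finite κ] {f : M4 κ} {Q : Fin 4 → κ} (hQ : LOn f Q) (hs : LSing f Q)
    (hd : ¬Deg f) : ∃ P, LOn f P ∧ ¬LSing f P := by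
  obtain ⟨x, z, hxz, hc⟩ := hs
  obtain ⟨x', z', hdet⟩ : ∃ x' z', x * z' - z * x' = 1 := by
    rcases hxz with h | h
    · exact ⟨0, x⁻¹, by simp [h]⟩
    · exact ⟨-z⁻¹, 0, by simp [h]⟩
  obtain ⟨i, hi⟩ : ∃ i, Q i ≠ 0 := Function.ne_iff.1 hQ.1
  have qc : qv (pen f x z) Q = 0 := by simp [l4_qv_pen, hQ.2]
  have qd : qv (pen f x' z') Q = 0 := by simp [l4_qv_pen, hQ.2]
  have add : ∀ (c : QF κ) (u y y' : Fin 4 → κ), pol c u (y + y') = pol c u y + pol c u y' :=
    fun c u y y' => by simpa using l4_pol_comb c 1 1 u y y'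
  obtain ⟨w, hw⟩ : ∃ w, pol (pen f x' z') Q w ≠ 0 := by
    by_contra h
    refine hd (deg_cone hQ.1 hQ.2 fun j y => ?_)
    have e1 := hc y
    have e2 := not_not.1 (not_exists.1 h y)
    rw [l4_pol_pen] at e1 e2
    revert j
    refine Fin.forall_fin_two.2 ⟨?_, ?_⟩
    · linear_combination z' * e1 - z * e2 - pol (f 0) Q y * hdet
    · linear_combination x * e2 - x' * e1 - pol (f 1) Q y * hdet
  obtain ⟨v, hv, lv⟩ : ∃ v, qv (pen f x z) v = 0 ∧ pol (pen f x' z') Q v ≠ 0 := by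
    obtain ⟨v, h0, h1, h2⟩ := l4_warning (pen f x z) i
    by_cases h3 : pol (pen f x' z') Q v = 0
    swap
    · exact ⟨v, h2, h3⟩
    obtain ⟨u, hu⟩ : ∃ u, pol (pen f x z) v u ≠ 0 := by
      by_contra h
      exact hd (deg_two hxz (l4_ind hi h1 h0) qc h2 hc fun y => not_not.1 (not_exists.1 h y))
    obtain ⟨y, y1, y2⟩ := l4_both (add _ v) (add _ Q) hu hw
    refine ⟨qv (pen f x z) y • v + (-pol (pen f x z) v y) • y, by rw [l4_qv_comb, h2]; ring, ?_⟩
    rw [l4_pol_comb, h3, mul_zero, zero_add]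
    exact mul_ne_zero (neg_ne_zero.2 y1) y2
  obtain ⟨s, hs⟩ : ∃ s, pol (pen f x' z') Q v * s = -qv (pen f x' z') v :=
    ⟨_ / _, mul_div_cancel₀ _ lv⟩
  have pc : qv (pen f x z) (s • Q + (1 : κ) • v) = 0 := by rw [l4_qv_comb, qc, hc, hv]; ring
  have pd : qv (pen f x' z') (s • Q + (1 : κ) • v) = 0 := by
    rw [l4_qv_comb, qd]; linear_combination hs
  have pl : pol (pen f x' z') Q (s • Q + (1 : κ) • v) ≠ 0 := by
    rwa [l4_pol_comb, l4_pol_self, qd, mul_zero, mul_zero, zero_add, one_mul]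
  generalize s • Q + (1 : κ) • v = P at pc pd pl
  have hQP : LinearIndependent κ ![Q, P] := LinearIndependent.pair_iff.2 fun a b e => by
    have e1 := l4_pol_comb (pen f x' z') a b Q Q P
    rw [e, l4_pol_self, qd] at e1
    have hb : b = 0 := (mul_eq_zero.1 (by simpa [pol] using e1.symm)).resolve_right pl
    exact ⟨by simpa [hb, hQ.1] using e, hb⟩
  have hP : LOn f P := by
    refine ⟨hQP.ne_zero 1, ?_⟩
    rw [l4_qv_pen] at pc pd
    refine Fin.forall_fin_two.2 ⟨?_, ?_⟩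
    · linear_combination z' * pc - z * pd - qv (f 0) P * hdet
    · linear_combination x * pd - x' * pc - qv (f 1) P * hdet
  exact ⟨P, hP, fun h => hd (deg_of_two_sing hQP hQ hP ⟨x, z, hxz, hc⟩ h)⟩

end Fin

section Frob

lemma l4_qv_map {R S : Type*} [CommRing R] [CommRing S] (φ : R →+* S) (c : QF R) (Q : Fin 4 → R) :
    qv (φ ∘ c) (φ ∘ Q) = φ (qv c Q) := by simp [qv]

lemma l4_pol_map {R S : Type*} [CommRing R] [CommRing S] (φ : R →+* S) (c : QF R)
    (Q w : Fin 4 → R) : pol (φ ∘ c) (φ ∘ Q) (φ ∘ w) = φ (pol c Q w) := by simp [pol, map_ofNat]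

variable {L L' : Type*} [Field L] [Field L']

lemma LOn.map {f : M4 L} {Q : Fin 4 → L} (h : LOn f Q) (φ : L →+* L') :
    LOn (mapM φ f) (φ ∘ Q) :=
  ⟨fun e => h.1 (funext fun i => (_root_.map_eq_zero φ).1 (congrFun e i)),
    fun i => (l4_qv_map φ _ _).trans (by rw [h.2, map_zero])⟩

lemma LSing.map {f : M4 L} {Q : Fin 4 → L} (h : LSing f Q) (φ : L →+* L') :
    LSing (mapM φ f) (φ ∘ Q) := by
  obtain ⟨x, z, hxz, h⟩ := h
  refine ⟨φ x, φ z, by simpa using hxz, fun w => ?_⟩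
  rw [← l4_dot, pen_map]
  have : ∀ j, pol (φ ∘ pen f x z) (φ ∘ Q) (Pi.single j 1) = 0 := fun j => by
    have e : (Pi.single j 1 : Fin 4 → L') = φ ∘ Pi.single j 1 := by
      funext k; by_cases hk : k = j <;> simp [hk]
    rw [e, l4_pol_map, h, map_zero]
  simp [dotProduct, this]

variable {κ K : Type*} [Field κ] [Fintype κ] [Field K] [Algebra κ K]

lemma l4_map_fr (f : M4 κ) :
    mapM (lgFr κ K) (mapM (algebraMap κ K) f) = mapM (algebraMap κ K) f := by
  rw [mapM_mapM, lg_comp]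

/-- a point proportional to its conjugate comes from a rational point -/
lemma l4_rat {f : M4 κ} {Q : Fin 4 → K} (hQ : LOn (mapM (algebraMap κ K) f) Q) {t : K}
    (h : t • Q = lgFr κ K ∘ Q) : ∃ Q₀, LOn f Q₀ := by
  obtain ⟨i, hi⟩ : ∃ i, Q i ≠ 0 := Function.ne_iff.1 hQ.1
  have h' : ∀ j, lgFr κ K (Q j) = t * Q j := fun j => (congrFun h j).symm
  have ht : t ≠ 0 := fun e => (_root_.map_ne_zero _).2 hi (by rw [h', e, zero_mul])
  choose Q₀ h₀ using fun j => lg_fixed (κ := κ) (x := (Q i)⁻¹ * Q j) (by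
    rw [map_mul, map_inv₀, h', h']
    field_simp)
  have e : algebraMap κ K ∘ Q₀ = (Q i)⁻¹ • Q + (0 : K) • Q := funext fun j => by simp [h₀]
  refine ⟨Q₀, fun e0 => ?_, fun j => (algebraMap κ K).injective ?_⟩
  · have := h₀ i
    rw [e0, inv_mul_cancel₀ hi] at this
    simp at this
  · have := hQ.2 j
    rw [← l4_qv_map, e, l4_qv_comb, map_zero]
    change qv (algebraMap κ K ∘ f j) Q = 0 at this
    rw [this]
    ring

/-- a singular intersection without rational points is degenerate -/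
theorem deg_of_no_point [IsAlgClosed K] {f : M4 κ}
    (hΔ : (red (mapM (algebraMap κ K) f)).jac.Δ = 0) (hn : ¬∃ Q₀, LOn f Q₀) :
    Deg (mapM (algebraMap κ K) f) := by
  by_contra hd
  obtain ⟨Q, hQ, hs⟩ := l4_exists_sing hΔ hd
  have hQ' := hQ.map (lgFr κ K)
  have hs' := hs.map (lgFr κ K)
  rw [l4_map_fr] at hQ' hs'
  exact hd (deg_of_two_sing ((LinearIndependent.pair_iff' hQ.1).2 fun t e => hn (l4_rat hQ e))
    hQ hQ' hs hs')

end Frob

variable {L κ : Type*} [Field L] [Field κ] {V : LocalField L} {ρ : V.O →+* κ}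

/-- a degenerate reduction forces the square of the uniformiser to divide the discriminant -/
theorem sq_dvd_of_deg [Finite κ] (hred : V.IsRed ρ 1) {p : ℕ} (hp : p.Prime)
    (hp0 : (p : L) = 0) (f : M4 V.O) {K : Type*} [Field K] (ι : κ →+* K)
    (H : Deg (mapM ι (mapM ρ f))) : V.unif ^ 2 ∣ (red f).jac.Δ := by
  have hker : ∀ x : V.O, ρ x = 0 ↔ V.unif ∣ x := fun x => by
    rw [hred.ker, V.le_exp_iff_dvd, pow_one]
  have := Fact.mk hp
  have : CharP L p := (CharP.charP_iff_prime_eq_zero hp).2 hp0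
  have : CharP V.O p := RingHom.charP V.incl V.incl_injective p
  have : CharP κ p := (CharP.charP_iff_prime_eq_zero hp).2 (by
    rw [← map_natCast ρ, CharP.cast_eq_zero, map_zero])
  have dec : ∀ x : V.O, ∃ t h : V.O, x = t ^ p + V.unif * h := fun x => by
    obtain ⟨s, hs⟩ := surjective_frobenius κ p (ρ x)
    obtain ⟨t, rfl⟩ := hred.surj s
    obtain ⟨h, hh⟩ := (hker (x - t ^ p)).1 (by
      rw [map_sub, map_pow, ← hs, frobenius_def, sub_self])
    exact ⟨t, h, by linear_combination hh⟩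
  choose t h hth using dec
  let fT : M4 V.O[X] := fun i j => C (t (f i j) ^ p) + X * C (h (f i j))
  let f₀ : M4 V.O := fun i j => t (f i j)
  have e1 : mapM (evalRingHom V.unif) fT = f := by
    funext i j
    simp only [mapM, fT, Function.comp_apply, coe_evalRingHom, eval_add, eval_mul, eval_C, eval_X]
    exact (hth _).symm
  have e0 : mapM (evalRingHom 0) fT = mapM (frobenius V.O p) f₀ := by
    funext i j
    simp [mapM, fT, f₀, frobenius_def]
  have e2 : mapM (evalRingHom 0) (mapM (mapRingHom (ι.comp ρ)) fT) = mapM ι (mapM ρ f) := by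
    funext i j
    simp only [mapM, Function.comp_apply]
    conv_rhs => rw [hth (f i j)]
    simp [fT, (hker _).2 dvd_rfl]
  have hX := H _ e2
  rw [red_map, Model.jac_map, map_Δ, coe_mapRingHom, X_pow_dvd_iff] at hX
  have c0 := hX 0 (by norm_num)
  have c1 := hX 1 (by norm_num)
  rw [coeff_map, RingHom.comp_apply, _root_.map_eq_zero] at c0 c1
  have d0 : (red fT).jac.Δ.coeff 0 = (red f₀).jac.Δ ^ p := by
    rw [coeff_zero_eq_eval_zero, ← coe_evalRingHom, ← map_Δ, ← Model.jac_map, ← red_map, e0,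
      red_map, Model.jac_map, map_Δ, frobenius_def]
  rw [← e1, red_map, Model.jac_map, map_Δ, coe_evalRingHom]
  refine lg_sq_dvd_eval ?_ ((hker _).1 c1)
  rw [d0, map_pow, pow_eq_zero_iff hp.ne_zero, hker] at c0
  rw [d0]
  exact (pow_dvd_pow _ hp.two_le).trans (pow_dvd_pow_of_dvd c0 p)

/-- the existence of a smooth point, given the theorem of Lang for nonsingular intersections -/
theorem exists_smooth_of_lang [Finite κ] (hred : V.IsRed ρ 1) {p : ℕ} (hp : p.Prime)
    (hp0 : (p : L) = 0) {f : M4 V.O} (hΔ : ¬V.unif ^ 2 ∣ (red f).jac.Δ)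
    (hL : (red (mapM (algebraMap κ (AlgebraicClosure κ)) (mapM ρ f))).jac.Δ ≠ 0 →
      ∃ Q, LOn (mapM ρ f) Q) :
    ¬Deg (mapM ρ f) ∧ ∃ Q, LOn (mapM ρ f) Q ∧ ¬LSing (mapM ρ f) Q := by
  have := Fintype.ofFinite κ
  have hd : ¬Deg (mapM ρ f) := fun h => hΔ (sq_dvd_of_deg hred hp hp0 f (RingHom.id κ) h)
  obtain ⟨Q, hQ⟩ : ∃ Q, LOn (mapM ρ f) Q := by
    by_contra hn
    exact hΔ (sq_dvd_of_deg hred hp hp0 f _ (deg_of_no_point (by_contra fun h => hn (hL h)) hn))
  by_cases hs : LSing (mapM ρ f) Q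
  · exact ⟨hd, smooth_of_sing hQ hs hd⟩
  · exact ⟨hd, Q, hQ, hs⟩

end SelAvg.Q4
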