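import Pool.Agent.H94Q.Pt4
import Pool.Agent.H38Sel.LocC

/-! Local theory of degree 4 models: definitions. -/

namespace SelAvg.Q4

open WeierstrassCurve WithZero
open scoped Classical

section Count

variable {κ R : Type*} [Field κ] [CommRing R]

/-- indices of the points of projective 3-space -/
abbrev I4 (κ : Type*) := (κ × κ × κ) ⊕ (κ × κ) ⊕ Option κ

/-- normalised representatives of the points of projective 3-space -/
def npt : I4 κ → P4 κ
  | .inl p => ![1, p.1, p.2.1, p.2.2]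
  | .inr (.inl p) => ![0, 1, p.1, p.2]
  | .inr (.inr (some z)) => ![0, 0, 1, z]
  | .inr (.inr none) => ![0, 0, 0, 1]

/-- the number of good points -/
noncomputable def nGood (f : M4 κ) : ℕ := Nat.card {p : I4 κ // Good f (npt p)}

/-- the weight of a model over a finite local ring `R` with residue map `θ` -/
noncomputable def phiR (θ : R →+* κ) (f : M4 R) : ℝ :=
  (nGood (mapM θ f) : ℝ) / (1 + (nAff (red f).jac : ℝ) * Nat.card κ / Nat.card R)

lemma phiR_nonneg (θ : R →+* κ) (f : M4 R) : 0 ≤ phiR θ f := by unfold phiR; positivity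

lemma nGood_le [Finite κ] (f : M4 κ) :
    nGood f ≤ Nat.card κ ^ 3 + Nat.card κ ^ 2 + Nat.card κ + 1 := by
  refine (Finite.card_subtype_le _).trans (le_of_eq ?_)
  rw [Nat.card_sum, Nat.card_sum, Nat.card_prod, Nat.card_prod, Finite.card_option]
  ring

lemma phiR_le [Finite κ] (θ : R →+* κ) (f : M4 R) :
    phiR θ f ≤ (Nat.card κ : ℝ) ^ 3 + (Nat.card κ : ℝ) ^ 2 + Nat.card κ + 1 := by
  have h1 : (nGood (mapM θ f) : ℝ) ≤ (Nat.card κ : ℝ) ^ 3 + (Nat.card κ : ℝ) ^ 2 + Nat.card κ + 1 := by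
    exact_mod_cast nGood_le (mapM θ f)
  refine le_trans (div_le_self (Nat.cast_nonneg _) ?_) h1
  exact le_add_of_nonneg_right (by positivity)

end Count

variable {L : Type*} [Field L]

/-- primitive integral points -/
def _root_.SelAvg.LocalField.IPrim4 (V : LocalField L) (Q : P4 V.O) : Prop := ∃ i, IsUnit (Q i)

/-- the two elements define the same class modulo scalars and integral elements -/
def _root_.SelAvg.LocalField.MEq4 (V : LocalField L) (g g' : G4 L) : Prop :=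
  ∃ (t : Lˣ) (h : G4 V.O), g' = scal L t * mapG V.incl h * g

/-- an integral object together with an isomorphism to `z₀` -/
structure _root_.SelAvg.LocalField.LocRep4 (V : LocalField L) (z₀ : Obj4 L) where
  g : G4 L
  z : Obj4 V.O
  eq : g • z₀ = z.map V.incl

/-- the local weight -/
noncomputable def _root_.SelAvg.LocalField.phiL4 (V : LocalField L) {κ : Type*} [Field κ]
    (ρ : V.O →+* κ) (f : M4 V.O) : ℝ :=
  (nGood (mapM ρ f) : ℝ) / V.Nloc (red f).jac

variable {V : LocalField L}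

lemma _root_.SelAvg.LocalField.MEq4.refl (g : G4 L) : V.MEq4 g g := ⟨1, 1, by simp⟩

lemma _root_.SelAvg.LocalField.MEq4.symm {g g' : G4 L} (h : V.MEq4 g g') : V.MEq4 g' g := by
  obtain ⟨t, H, rfl⟩ := h
  refine ⟨t⁻¹, H⁻¹, ?_⟩
  rw [map_inv, map_inv, ← _root_.mul_inv_rev, ← scal_comm, inv_mul_cancel_left]

lemma _root_.SelAvg.LocalField.MEq4.trans {g g' g'' : G4 L} (h : V.MEq4 g g')
    (h' : V.MEq4 g' g'') : V.MEq4 g g'' := by
  obtain ⟨t, H, rfl⟩ := h
  obtain ⟨t', H', rfl⟩ := h'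
  refine ⟨t' * t, H' * H, ?_⟩
  rw [map_mul, map_mul]
  simp only [mul_assoc]
  rw [← mul_assoc _ (scal L t), ← scal_comm t, mul_assoc]

lemma _root_.SelAvg.LocalField.MEq4.mul_right {g g' : G4 L} (h : V.MEq4 g g') (k : G4 L) :
    V.MEq4 (g * k) (g' * k) := by
  obtain ⟨t, H, rfl⟩ := h
  exact ⟨t, H, by simp only [mul_assoc]⟩

lemma _root_.SelAvg.LocalField.LocRep4.over {W : WeierstrassCurve V.O} {z₀ : Obj4 L}
    (hz : z₀.Over (W.map V.incl)) (p : V.LocRep4 z₀) : p.z.Over W := by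
  have h := hz.smul p.g
  rw [p.eq, Obj4.Over, Obj4.two_map] at h
  unfold Obj4.Over
  unfold Obj.Over at h ⊢
  rw [Obj.map_f, Obj.map_γ, Model.jac_map, map_variableChange] at h
  exact WeierstrassCurve.map_injective V.incl_injective h

lemma _root_.SelAvg.LocalField.LocRep4.jac_Delta {W : WeierstrassCurve V.O} (hW : W.Δ ≠ 0)
    {z₀ : Obj4 L} (hz : z₀.Over (W.map V.incl)) (p : V.LocRep4 z₀) : (red p.z.f).jac.Δ ≠ 0 := by
  rw [show (red p.z.f).jac = p.z.γ • W from p.over hz, variableChange_Δ]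
  exact mul_ne_zero (pow_ne_zero _ (Units.ne_zero _)) hW

namespace LocalField

open SelAvg.LocalField

theorem equiv_lift {z₀ : Obj4 L} (p p' : V.LocRep4 z₀) (h : V.MEq4 p.g p'.g) :
    ∃ (t : Lˣ) (h : G4 V.O), p'.g = scal L t * mapG V.incl h * p.g ∧ p'.z = h • p.z := by
  obtain ⟨t, h, e⟩ := h
  refine ⟨t, h, e, Obj4.map_injective V.incl_injective ?_⟩
  rw [Obj4.map_smul, ← p.eq, ← p'.eq, e, mul_smul, mul_smul, Obj4.scal_smul]

variable {κ R : Type*} [Field κ] [CommRing R] {θ₁ : V.O →+* κ} {ρ : V.O →+* R}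

lemma phiL_nonneg (θ₁ : V.O →+* κ) (f : M4 V.O) : 0 ≤ V.phiL4 θ₁ f := by
  unfold phiL4; positivity

theorem phiR_eq_phiL [Finite κ] (hred : V.IsRed θ₁ 1) {j : ℕ} (hρ : V.IsRed ρ (2 * j))
    (θ : R →+* κ) (hθ : θ.comp ρ = θ₁) {f : M4 V.O} (hΔ : ρ (red f).jac.Δ ≠ 0) :
    phiR θ (mapM ρ f) = V.phiL4 θ₁ f := by
  obtain ⟨hpos, hN⟩ := nAff_eq hred hρ hΔ
  have hj : j ≠ 0 := by
    rintro rfl
    exact hΔ ((hρ.ker _).2 (by simpa using V.v_le_one _))
  have hR := (hred.card hρ).2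
  unfold phiR phiL4
  rw [mapM_mapM, hθ, red_map, Model.jac_map, hN, hR]
  congr 1
  obtain ⟨N, hN'⟩ := Nat.exists_eq_succ_of_ne_zero hpos.ne'
  have hq : (Nat.card κ : ℝ) ≠ 0 := by exact_mod_cast (Nat.card_pos (α := κ)).ne'
  have hp : (Nat.card κ : ℝ) ^ (2 * j) = (Nat.card κ : ℝ) ^ (2 * j - 1) * Nat.card κ := by
    rw [← pow_succ]; congr 1; omega
  rw [hN']
  push_cast [Nat.succ_sub_one]
  rw [hp]
  field_simp
  ring

end LocalField

end SelAvg.Q4
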