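import Pool.Agent.H94Q.LocP
import Pool.Agent.H94Q.DifA
import Pool.Agent.H38Sel.LocB

/-! Row LOCE: residue discs. -/

namespace SelAvg.Q4

open WeierstrassCurve WithZero Matrix SelAvg.LocalField
open scoped Classical

/-- the point of the degree 2 model given by the chord from the standard point to `Q` -/
def le_chordPt {R : Type*} [CommRing R] (f : Model R) (Q : Fin 4 → R) : Pt R :=
  ⟨Q 2, Q 3, -(Q 1 * Q 3) - f.q (Q 2) (Q 3)⟩

lemma le_chordPt_map {R S : Type*} [CommRing R] [CommRing S] (φ : R →+* S) (f : Model R)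
    (Q : Fin 4 → R) : (le_chordPt f Q).map φ = le_chordPt (f.map φ) (φ ∘ Q) := by
  ext <;> simp [le_chordPt, Model.q]

lemma le_qv_up_zero {R : Type*} [CommRing R] (f : Model R) (Q : Fin 4 → R) :
    qv (up f 0) Q = -(Q 0 * Q 3) - f.l * Q 1 * Q 2 + f.b * Q 2 ^ 2 := by
  simp [qv, up]; ring

lemma le_qv_up_one {R : Type*} [CommRing R] (f : Model R) (Q : Fin 4 → R) :
    qv (up f 1) Q = Q 0 * Q 2 - Q 1 ^ 2 - f.m * Q 1 * Q 2 - f.n * Q 1 * Q 3 + f.c * Q 2 ^ 2 +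
      f.d * Q 2 * Q 3 + f.e * Q 3 ^ 2 := by
  simp [qv, up]; ring

lemma le_F_chordPt {R : Type*} [CommRing R] {f : Model R} (ha : f.a = 0) {Q : Fin 4 → R}
    (hF : ∀ i, qv (up f i) Q = 0) : f.F (le_chordPt f Q) = 0 := by
  have h0 := hF 0
  have h1 := hF 1
  rw [le_qv_up_zero] at h0
  rw [le_qv_up_one] at h1
  simp only [le_chordPt, Model.F, Model.q, Model.g, ha]
  linear_combination (-(Q 2 * Q 3)) * h0 - Q 3 ^ 2 * h1

variable {L : Type*} [Field L] {V : LocalField L}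

theorem le_disc_core {f : Model V.O} (ha : f.a = 0) (hs : IsUnit f.l ∨ IsUnit f.b)
    {Q : Fin 4 → V.O} (hQ : ∃ i, IsUnit (Q i)) (hF : ∀ i, qv (up f i) Q = 0)
    (h0 : ¬(Q 2 = 0 ∧ Q 3 = 0)) :
    V.InE1 ((f.map V.incl).stdDiff ((le_chordPt f Q).map V.incl)) ↔
      V.v (Q 1 : L) < 1 ∧ V.v (Q 2 : L) < 1 ∧ V.v (Q 3 : L) < 1 := by
  have mem : ∀ x : V.O, V.v (x : L) < 1 ↔ x ∈ IsLocalRing.maximalIdeal V.O := fun x => by
    rw [← locDisc0_not_unit, IsLocalRing.mem_maximalIdeal, mem_nonunits_iff]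
  have nu : ∀ x : V.O, IsUnit x → x ∉ IsLocalRing.maximalIdeal V.O := fun x hx hm =>
    (IsLocalRing.mem_maximalIdeal x).1 hm hx
  have hF0 := le_F_chordPt ha hF
  have E0 := hF 0
  have E1 := hF 1
  rw [le_qv_up_zero] at E0
  rw [le_qv_up_one] at E1
  rw [mem, mem, mem]
  by_cases hu : IsUnit (Q 2) ∨ IsUnit (Q 3)
  · rw [SelAvg.LocalField.disc_std ha hs (Q := le_chordPt f Q) hu hF0, mem, mem]
    refine iff_of_false ?_ fun k => hu.elim (fun u => nu _ u k.2.1) fun u => nu _ u k.2.2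
    rintro ⟨h3, hy⟩
    have h3' : Q 3 ∈ IsLocalRing.maximalIdeal V.O := h3
    have h2 : IsUnit (Q 2) := hu.resolve_right fun u => nu _ u h3'
    have e1 : f.l * Q 2 ^ 2 = -(le_chordPt f Q).y - Q 3 * (Q 1 + f.m * Q 2 + f.n * Q 3) := by
      simp only [le_chordPt, Model.q]
      ring
    have m1 : f.l * Q 2 ^ 2 ∈ IsLocalRing.maximalIdeal V.O := by
      rw [e1]
      exact sub_mem (neg_mem hy) (Ideal.mul_mem_right _ _ h3')
    have e2 : f.b * Q 2 ^ 3 = Q 1 * (f.l * Q 2 ^ 2) + Q 3 * (Q 0 * Q 2) := by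
      linear_combination Q 2 * E0
    have m2 : f.b * Q 2 ^ 3 ∈ IsLocalRing.maximalIdeal V.O := by
      rw [e2]
      exact add_mem (Ideal.mul_mem_left _ _ m1) (Ideal.mul_mem_right _ _ h3')
    exact hs.elim (fun u => nu _ (u.mul (h2.pow 2)) m1) fun u => nu _ (u.mul (h2.pow 3)) m2
  rw [not_or] at hu
  have m2 : Q 2 ∈ IsLocalRing.maximalIdeal V.O := (IsLocalRing.mem_maximalIdeal _).2 hu.1
  have m3 : Q 3 ∈ IsLocalRing.maximalIdeal V.O := (IsLocalRing.mem_maximalIdeal _).2 hu.2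
  have m1 : Q 1 ∈ IsLocalRing.maximalIdeal V.O := by
    by_contra hn
    have h1 : IsUnit (Q 1) := by
      rwa [IsLocalRing.mem_maximalIdeal, mem_nonunits_iff, not_not] at hn
    refine nu _ (h1.pow 2) ?_
    have e : Q 1 ^ 2 = Q 2 * (Q 0 - f.m * Q 1 + f.c * Q 2 + f.d * Q 3) +
        Q 3 * (f.e * Q 3 - f.n * Q 1) := by linear_combination -E1
    rw [e]
    exact add_mem (Ideal.mul_mem_right _ _ m2) (Ideal.mul_mem_right _ _ m3)
  refine iff_of_true ?_ ⟨m1, m2, m3⟩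
  have hx : IsUnit (Q 0) := by
    obtain ⟨i, hi⟩ := hQ
    fin_cases i
    · exact hi
    · exact absurd m1 (nu _ hi)
    · exact absurd hi hu.1
    · exact absurd hi hu.2
  obtain ⟨x', hx'⟩ := hx.exists_right_inv
  obtain ⟨s, hs'⟩ : ∃ s, s = (f.b * Q 2 - f.l * Q 1) * x' := ⟨_, rfl⟩
  have ms : s ∈ IsLocalRing.maximalIdeal V.O := by
    rw [hs']
    exact Ideal.mul_mem_right _ _ (sub_mem (Ideal.mul_mem_left _ _ m2) (Ideal.mul_mem_left _ _ m1))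
  have h3 : Q 3 = Q 2 * s := by
    rw [hs']
    linear_combination (-x') * E0 - Q 3 * hx'
  have hy : Q 2 ≠ 0 := fun k => h0 ⟨k, by rw [h3, k, zero_mul]⟩
  obtain ⟨Y, hY⟩ : ∃ Y, Y = -(Q 1 * ((f.l * (f.m + f.n * s) + f.b) * x')) +
    Q 2 * (f.l * (f.c + f.d * s + f.e * s ^ 2) * x') - s * (f.m + f.n * s) := ⟨_, rfl⟩
  have mY : Y ∈ IsLocalRing.maximalIdeal V.O := by
    rw [hY]
    exact sub_mem (add_mem (neg_mem (Ideal.mul_mem_right _ _ m1)) (Ideal.mul_mem_right _ _ m2))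
      (Ideal.mul_mem_right _ _ ms)
  have e : le_chordPt f Q = (⟨1, s, Y⟩ : Pt V.O).sc (Q 2) := by
    refine Pt.ext (mul_one _).symm h3 ?_
    simp only [le_chordPt, Model.q, Pt.sc_y, hY]
    rw [h3] at E1 ⊢
    linear_combination (-(Q 1 * Q 2)) * hs' - (f.l * x' * Q 2) * E1 + f.l * Q 2 ^ 2 * hx'
  have hF1 : f.F ⟨1, s, Y⟩ = 0 := by
    rw [e, Model.F_sc] at hF0
    exact (mul_eq_zero.1 hF0).resolve_left (pow_ne_zero _ hy)
  have e' : ((⟨1, s, Y⟩ : Pt V.O).map V.incl).Eqv ((le_chordPt f Q).map V.incl) :=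
    ⟨V.incl (Q 2), fun k => hy (Subtype.ext k), by rw [e]; ext <;> simp⟩
  rw [← Model.stdDiff_eqv _ e',
    SelAvg.LocalField.disc_std ha hs (Or.inl isUnit_one) hF1, mem, mem]
  exact ⟨ms, mY⟩

end SelAvg.Q4

namespace SelAvg.Q4.LocalField

open WeierstrassCurve WithZero Matrix SelAvg.LocalField
open scoped Classical

variable {L κ : Type*} [Field L] [Field κ] {V : LocalField L} {θ : V.O →+* κ}

lemma le_e0_eqv_iff {Q : P4 κ} (hQ : Q ≠ 0) : Eqv e0 Q ↔ Q 1 = 0 ∧ Q 2 = 0 ∧ Q 3 = 0 := by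
  constructor
  · rintro ⟨t, -, rfl⟩
    simp [e0]
  · rintro ⟨h1, h2, h3⟩
    have e : Q = Q 0 • e0 := by
      funext i; fin_cases i <;> simp [e0, h1, h2, h3]
    exact ⟨Q 0, fun h0 => hQ (by rw [e, h0, zero_smul]), e⟩

lemma le_sig_up_std {m : Model L} (ha : m.a = 0) (hΔ : m.jac.Δ ≠ 0) :
    (sig (up m) e0 e0).Eqv Pt.std :=
  (chord_up_std m).sig_eqv (by rwa [red_up ha]) (on_up m) (on_up m)

theorem disc_up {m : Model V.O} (ha : m.a = 0) (hs : IsUnit m.l ∨ IsUnit m.b) {Q : P4 V.O}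
    (hQ : V.IPrim4 Q) (hF : Zero (up m) Q) (hne : Q 2 ≠ 0 ∨ Q 3 ≠ 0) :
    V.InE1 ((m.map V.incl).stdDiff (sigU (m.map V.incl) (V.incl ∘ Q))) ↔
      V.v (Q 1 : L) < 1 ∧ V.v (Q 2 : L) < 1 ∧ V.v (Q 3 : L) < 1 := by
  have e3 : sigU (m.map V.incl) (V.incl ∘ Q) = (le_chordPt m Q).map V.incl := by
    rw [le_chordPt_map, sigU, le_chordPt, neg_mul]
  rw [e3]
  exact le_disc_core ha hs hQ hF fun k => hne.elim (fun h => h k.1) fun h => h k.2

/-- the disc of the standard point -/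
theorem le_disc_std {W : WeierstrassCurve V.O} (hW : W.Δ ≠ 0) {z : Obj V.O} (hz : z.Over W)
    (ha : z.f.a = 0) (hs : IsUnit z.f.l ∨ IsUnit z.f.b) {Q : P4 V.O} (hQ : V.IPrim4 Q)
    (hF : Zero (up z.f) Q) :
    V.InE1 (toRaw (D4 (W.map V.incl) (upO (z.map V.incl)) e0 (V.incl ∘ Q))) ↔
      V.v (Q 1 : L) < 1 ∧ V.v (Q 2 : L) < 1 ∧ V.v (Q 3 : L) < 1 := by
  have hW' := locDisc_Delta hW
  have hz' := hz.map V.incl
  have ha' : (z.map V.incl).f.a = 0 := by rw [Obj.map_f, Model.map_a, ha, map_zero]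
  have hΔ := Obj.Over.jac_Delta hW' hz'
  have hΔ' : (red (up (z.map V.incl).f)).jac.Δ ≠ 0 := by rwa [red_up ha']
  have hon : On (up (z.map V.incl).f) (V.incl ∘ Q) := by
    have := on_int hQ hF
    rwa [up_map] at this
  have h1 := sig_on hΔ' (on_up _) (on_up _)
  have h2 := sig_on hΔ' (on_up _) hon
  rw [red_up ha'] at h1 h2
  have e1 := le_sig_up_std ha' hΔ
  rw [D4, two_upO ha']
  change V.InE1 (toRaw (D _ _ (sig (up (z.map V.incl).f) e0 e0)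
    (sig (up (z.map V.incl).f) e0 (V.incl ∘ Q)))) ↔ _
  by_cases he : Eqv e0 (V.incl ∘ Q)
  · have e2 := (sig_eqv hΔ' (on_up _) (on_up _) (Eqv.refl _) he).symm.trans e1
    obtain ⟨k1, k2, k3⟩ := (le_e0_eqv_iff hon.prim).1 he
    rw [D_eqv hW' hz' h1 h2 e1 e2, toRaw_D_std hW' hz' ha' (h1.eqv e1), Obj.map_γ, inE1_vcRaw,
      show (Q 1 : L) = 0 from k1, show (Q 2 : L) = 0 from k2, show (Q 3 : L) = 0 from k3]
    refine iff_of_true ?_ (by simp)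
    have : (z.map V.incl).f.stdDiff Pt.std = none := normal_diff_std _
    rw [this]
    exact locDisc0_none
  have e2 := (chord_up hon he).sig_eqv hΔ' (on_up _) hon
  rw [D_eqv hW' hz' h1 h2 e1 e2, toRaw_D_std hW' hz' ha' (h2.eqv e2), Obj.map_γ, inE1_vcRaw]
  refine disc_up ha hs hQ hF (not_and_or.1 fun k => he ((eqv_e0_iff hon).2
    ⟨congrArg Subtype.val k.1, congrArg Subtype.val k.2⟩))

theorem disc (hred : V.IsRed θ 1) {W : WeierstrassCurve V.O} (hW : W.Δ ≠ 0) {z : Obj4 V.O}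
    (hz : z.Over W) {Q Q' : P4 V.O} (hQ : V.IPrim4 Q) (hF : Zero z.f Q)
    (hs : Good (mapM θ z.f) (θ ∘ Q)) (hQ' : V.IPrim4 Q') (hF' : Zero z.f Q') :
    V.InE1 (toRaw (D4 (W.map V.incl) (z.map V.incl) (V.incl ∘ Q) (V.incl ∘ Q'))) ↔
      Eqv (θ ∘ Q) (θ ∘ Q') := by
  obtain ⟨g, m, ha, hu, hg, hp⟩ := exists_up_ring (isResidue hred) hF hs
  have hQ'' : V.IPrim4 (pt g⁻¹ Q') := hQ'.pt g⁻¹
  have hF'' : Zero (up m) (pt g⁻¹ Q') := by rwa [← hg, ← zero_pt, pt_inv_pt]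
  have e : g • z = upO ⟨m, (g • z).γ⟩ := Obj4.ext hg rfl
  have ho : (⟨m, (g • z).γ⟩ : Obj V.O).Over W := by
    have := hz.smul g
    rwa [e, Obj4.Over, two_upO ha] at this
  have e' : mapG V.incl g • z.map V.incl = upO ((⟨m, (g • z).γ⟩ : Obj V.O).map V.incl) := by
    rw [← Obj4.map_smul, ← upO_map, ← e]
  have h1 := D4_smul (locDisc_Delta hW) (hz.map V.incl) (mapG V.incl g) (Q := e0)
    (Q' := V.incl ∘ pt g⁻¹ Q') (by rw [e']; exact on_up _) (by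
      rw [Obj4.smul_f, ← on_pt, map_pt, pt_inv_pt]; exact on_int hQ' hF')
  rw [map_pt, pt_inv_pt, ← map_e0 V.incl, map_pt, hp, map_e0, e'] at h1
  rw [← h1]
  refine (le_disc_std hW ho ha hu hQ'' hF'').trans ?_
  rw [← hred.red_eq_zero, ← hred.red_eq_zero, ← hred.red_eq_zero]
  refine (le_e0_eqv_iff ((IPrim4.map_red hred).1 hQ'')).symm.trans ⟨fun h4 => ?_, fun h => ?_⟩
  · have h5 := h4.pt (mapG θ g)
    rwa [map_pt, pt_inv_pt, ← map_e0 θ, map_pt, hp] at h5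
  · have h5 := h.pt (mapG θ g⁻¹)
    rwa [map_pt, map_pt, ← hp, inv_pt_pt, map_e0] at h5

end SelAvg.Q4.LocalField
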