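import Pool.Agent.H94Q.LocP
import Pool.Agent.H94Q.Lift
import Pool.Agent.H38Sel.LocB

/-! Row LOCU: uniqueness of good models; integral points are good if the discriminant is small. -/

namespace SelAvg.Q4.LocalField

open WeierstrassCurve WithZero Matrix SelAvg.LocalField
open scoped Classical

variable {L κ : Type*} [Field L] [Field κ] {V : LocalField L} {θ : V.O →+* κ}

/-- `k = hh g _` fixes `std` (`hh_fix`); `SelAvg.LocalField.unique_std` and `equiv_lift` give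
`k = scalar t * h` with `h` integral; lift `h` over `V.O` (`exists_lift4`), then `eq_scal_of_hh`. -/
theorem unique_std {y y' : Obj V.O} (ha : y.f.a = 0) (ha' : y'.f.a = 0)
    (hs : IsUnit y.f.l ∨ IsUnit y.f.b) (hs' : IsUnit y'.f.l ∨ IsUnit y'.f.b) {g : G4 L}
    (hg : g • (upO y').map V.incl = (upO y).map V.incl) (hQ : Eqv (pt g e0) e0) : V.MEq4 1 g := by
  obtain ⟨s, -, hs0⟩ := hQ.symm
  have hb : (y.map V.incl).f.a = 0 := by rw [Obj.map_f, Model.map_a, ha, map_zero]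
  have hb' : (y'.map V.incl).f.a = 0 := by rw [Obj.map_f, Model.map_a, ha', map_zero]
  rw [upO_map, upO_map] at hg
  have hgf : g • up (y'.map V.incl).f = up (y.map V.incl).f := congrArg Obj4.f hg
  obtain ⟨h12, h0⟩ := hh_fix hgf hs0
  set k := hh g (up (y'.map V.incl).f) with hk
  have hkz : k • y'.map V.incl = y.map V.incl := by
    have := congrArg Obj4.two hg
    rwa [Obj4.two_smul, two_upO hb, two_upO hb'] at this
  have h11 : k.m11 ≠ 0 := fun e => by
    have : k.M.1.det ≠ 0 := (GeneralLinearGroup.det k.M).ne_zero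
    rw [det_fin_two] at this
    exact this (by rw [show k.M.1 0 0 = 0 from e, show k.M.1 0 1 = 0 from h12]; ring)
  have hM := SelAvg.LocalField.unique_std ha ha' hs hs' hkz
    (by rw [G.pt_std, h12, h0]; exact Pt.Eqv.symm ⟨_, h11, by ext <;> simp⟩)
  obtain ⟨t, k₀, e, ez⟩ := SelAvg.LocalField.equiv_lift (V := V) (z₀ := y'.map V.incl)
    ⟨1, y', one_smul _ _⟩ ⟨k, y, hkz⟩ hM
  simp only [mul_one] at e ez
  have e12 : k.m12 = t * V.incl k₀.m12 := by simp [e, G.mul_m12]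
  have er0 : k.r0 = V.incl k₀.r0 * t ^ 2 := by simp [e, G.mul_r0]
  have z12 : k₀.m12 = 0 := V.incl_injective (by
    rw [h12] at e12
    rw [map_zero]
    exact (mul_eq_zero.1 e12.symm).resolve_left t.ne_zero)
  have z0 : k₀.r0 = 0 := V.incl_injective (by
    rw [h0] at er0
    rw [map_zero]
    exact (mul_eq_zero.1 er0.symm).resolve_right (pow_ne_zero _ t.ne_zero))
  obtain ⟨g₀, s₀, ν, a1, a2, a3⟩ := exists_lift4 ha' z12 z0
  set g₁ := mapG V.incl g₀ with hg₁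
  have b1 : g₁ • up (y'.map V.incl).f = up (y.map V.incl).f := by
    rw [Obj.map_f, Obj.map_f, ← up_map, ← up_map, ← mapM_smul, a1, ez, Obj.smul_f]
  have b2 : pt g₁ e0 = V.incl s₀ • e0 := by
    rw [← map_e0 V.incl, map_pt, a2]
    funext i; simp
  have b3 : hh g₁ (up (y'.map V.incl).f) =
      G.scalar (Units.map (V.incl : V.O →* L) ν) * G.map V.incl k₀ := by
    rw [Obj.map_f, ← up_map, hh_map, a3, map_mul, G.map_scalar]
  have hs₀ : V.incl s₀ ≠ 0 := (s₀.isUnit.map V.incl).ne_zero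
  have c1 : (g₁⁻¹ * g) • up (y'.map V.incl).f = up (y'.map V.incl).f := by
    rw [mul_smul, hgf, ← b1, inv_smul_smul]
  have c2 : pt (g₁⁻¹ * g) e0 = ((V.incl s₀)⁻¹ * s) • e0 := by
    have : pt g₁⁻¹ e0 = (V.incl s₀)⁻¹ • e0 := by
      rw [eq_inv_smul_iff₀ hs₀, ← pt_smul, ← b2, inv_pt_pt]
    rw [mul_pt, this, pt_smul, hs0, smul_smul]
  have c3 : hh (g₁⁻¹ * g) (up (y'.map V.incl).f) =
      G.scalar ((Units.map (V.incl : V.O →* L) ν)⁻¹ * t) := by
    have h1 := hh_mul g₁ (g₁⁻¹ * g) (up (y'.map V.incl).f)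
    rw [mul_inv_cancel_left, c1, b3, ← hk, e] at h1
    refine mul_left_cancel (h1.symm.trans ?_)
    rw [mul_assoc, ← G.scalar_comm, ← mul_assoc, ← G.scalar_mul, mul_inv_cancel_left]
  obtain ⟨τ, hτ⟩ := eq_scal_of_hh c1 c2 c3
  exact ⟨τ, g₀, by rw [mul_one, scal_comm, ← hτ, mul_inv_cancel_left]⟩

/-- every integral point is good: `exists_move`, `not_good_e0`, `exists_lift_G`, and the three
patterns of row NF with `c = V.unif` (`locGood_red_eq_zero`) -/
theorem good_of_not_sq_dvd (hred : V.IsRed θ 1) {f : M4 V.O} (hΔ : ¬V.unif ^ 2 ∣ (red f).jac.Δ)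
    {Q : P4 V.O} (hQ : V.IPrim4 Q) (hF : Zero f Q) : Good (mapM θ f) (θ ∘ Q) := by
  by_contra hn
  obtain ⟨g, -, hg⟩ := exists_move hQ
  rw [← hg] at hF hn
  rw [← map_pt, map_e0, good_pt, ← mapM_smul] at hn
  rw [zero_pt] at hF
  obtain ⟨k, hk, hp⟩ := not_good_e0 (by simpa only [map_e0] using hF.map θ) hn
  obtain ⟨k₀, rfl, hk₀⟩ := exists_lift_G (isResidue hred) k (Q := e0) (by rw [hk, map_e0])
  have h0 := zero_e0.1 ((zero_pt k₀ (g • f) e0).1 (by rwa [hk₀]))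
  rw [← mapM_smul] at hp
  have d : ∀ i j, mapM θ (k₀ • g • f) i j = 0 → V.unif ∣ (k₀ • g • f) i j := fun i j h =>
    (locGood_red_eq_zero hred _).1 h
  refine hΔ (sq_dvd_smul g (sq_dvd_smul k₀ ?_))
  rcases hp with h | h | h
  · exact sq_dvd_of_sing (h0 0 ▸ dvd_zero _) (h0 1 ▸ dvd_zero _) (d _ _ h.1) (d _ _ h.2.1)
      (d _ _ h.2.2)
  · exact sq_dvd_of_line (fun i => h0 i ▸ dvd_zero _) (fun i => d _ _ (h i).1)
      fun i => d _ _ (h i).2
  · exact sq_dvd_of_plane (h0 0 ▸ dvd_zero _) (d _ _ h.1) (d _ _ h.2.1) (d _ _ h.2.2.1)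
      (d _ _ h.2.2.2.1) (d _ _ h.2.2.2.2)

end SelAvg.Q4.LocalField
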