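import Pool.Agent.H94Q.LocU
import Pool.Agent.H94Q.LocE
import Pool.Agent.H94Q.Dif

/-! Local theory of degree 4 models: the local weights of the integral models in a class sum to
one. -/

namespace SelAvg.Q4.LocalField

open WeierstrassCurve WithZero Matrix SelAvg.LocalField
open scoped Classical

variable {L κ : Type*} [Field L] [Field κ] {V : LocalField L} {θ : V.O →+* κ}

/-- a point is good on at most one integral model; reduce to `unique_std` with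
`exists_std_good` -/
theorem unique_good (hred : V.IsRed θ 1) {z₀ : Obj4 L} (p p' : V.LocRep4 z₀) {Q Q' : P4 V.O}
    (hQ : V.IPrim4 Q) (hF : Zero p.z.f Q) (hs : Good (mapM θ p.z.f) (θ ∘ Q))
    (hQ' : V.IPrim4 Q') (hF' : Zero p'.z.f Q') (hs' : Good (mapM θ p'.z.f) (θ ∘ Q'))
    (e : Eqv (pt p.g (V.incl ∘ Q)) (pt p'.g (V.incl ∘ Q'))) : V.MEq4 p.g p'.g := by
  obtain ⟨k, m, ha, hu, hm, hk⟩ := exists_up_ring (isResidue hred) hF hs
  obtain ⟨k', m', ha', hu', hm', hk'⟩ := exists_up_ring (isResidue hred) hF' hs'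
  have e1 : k • p.z = upO ⟨m, (k • p.z).γ⟩ := Obj4.ext hm rfl
  have e2 : k' • p'.z = upO ⟨m', (k' • p'.z).γ⟩ := Obj4.ext hm' rfl
  have hg : (mapG V.incl k * p.g * (mapG V.incl k' * p'.g)⁻¹) • (k' • p'.z).map V.incl =
      (k • p.z).map V.incl := by
    rw [Obj4.map_smul, Obj4.map_smul, ← p.eq, ← p'.eq, ← mul_smul (mapG V.incl k'), ← mul_smul,
      inv_mul_cancel_right, mul_smul]
  have hpt : ∀ (k : G4 V.O) (g : G4 L), pt (mapG V.incl k * g) e0 = pt g (V.incl ∘ pt k e0) := by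
    intro k g
    rw [mul_pt, ← map_pt, map_e0]
  have hQe : Eqv (pt (mapG V.incl k * p.g * (mapG V.incl k' * p'.g)⁻¹) e0) e0 := by
    have h1 := e.pt (mapG V.incl k' * p'.g)⁻¹
    rw [← hk', ← hpt k' p'.g, inv_pt_pt] at h1
    rw [mul_pt, hpt, hk]
    exact h1
  rw [e1, e2] at hg
  have h := (unique_std ha ha' hu hu' hg hQe).mul_right (mapG V.incl k' * p'.g)
  rw [one_mul, inv_mul_cancel_right] at h
  have h1 : V.MEq4 p.g (mapG V.incl k * p.g) := ⟨1, k, by simp⟩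
  have h2 : V.MEq4 p'.g (mapG V.incl k' * p'.g) := ⟨1, k', by simp⟩
  exact h1.trans (h.symm.trans h2.symm)

lemma locModel_on_smul {z₀ : Obj4 L} (p : V.LocRep4 z₀) {Q : P4 V.O} (hQ : V.IPrim4 Q)
    (hF : Zero p.z.f Q) : On (p.g • z₀).f (V.incl ∘ Q) := by
  rw [p.eq]
  exact on_int hQ hF

lemma locModel_on {z₀ : Obj4 L} (p : V.LocRep4 z₀) {Q : P4 V.O} (hQ : V.IPrim4 Q)
    (hF : Zero p.z.f Q) : On z₀.f (pt p.g (V.incl ∘ Q)) :=
  (on_pt _ _ _).2 (locModel_on_smul p hQ hF)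

/-- `disc` transported to `z₀` -/
lemma locModel_disc (hred : V.IsRed θ 1) {W : WeierstrassCurve V.O} (hW : W.Δ ≠ 0)
    {z₀ : Obj4 L} (hz : z₀.Over (W.map V.incl)) (p : V.LocRep4 z₀) {Q Q' : P4 V.O}
    (hQ : V.IPrim4 Q) (hF : Zero p.z.f Q) (hs : Good (mapM θ p.z.f) (θ ∘ Q))
    (hQ' : V.IPrim4 Q') (hF' : Zero p.z.f Q') :
    D4 (W.map V.incl) z₀ (pt p.g (V.incl ∘ Q)) (pt p.g (V.incl ∘ Q')) ∈ V.E1 W ↔
      Eqv (θ ∘ Q) (θ ∘ Q') := by
  rw [mem_E1 hW, ← D4_smul (locModel_Delta hW) hz p.g (locModel_on_smul p hQ hF)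
    (locModel_on_smul p hQ' hF'), p.eq]
  exact disc hred hW (LocRep4.over hz p) hQ hF hs hQ' hF'

/-- every point of `z₀` has an integral representative on every integral model -/
lemma locModel_rep {z₀ : Obj4 L} (p : V.LocRep4 z₀) {P : P4 L} (hP : On z₀.f P) :
    ∃ Q : P4 V.O, V.IPrim4 Q ∧ Zero p.z.f Q ∧ Eqv P (pt p.g (V.incl ∘ Q)) := by
  have h1 : On (mapM V.incl p.z.f) (pt p.g⁻¹ P) := by
    have h2 : p.g • z₀.f = mapM V.incl p.z.f := congrArg Obj4.f p.eq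
    rw [← h2, ← on_pt, pt_inv_pt]
    exact hP
  obtain ⟨Q, hQ, hF, e⟩ := exists_integral_rep p.z.f h1
  refine ⟨Q, hQ, hF, ?_⟩
  have := e.pt p.g
  rwa [pt_inv_pt] at this

lemma locModel_coset {W : WeierstrassCurve V.O} (hW : W.Δ ≠ 0) {z₀ : Obj4 L}
    (hz : z₀.Over (W.map V.incl)) {Q₁ P P' : P4 L} (h₁ : On z₀.f Q₁) (hP : On z₀.f P)
    (hP' : On z₀.f P') :
    ((D4 (W.map V.incl) z₀ Q₁ P : (W.map V.incl).toAffine.Point) :
        (W.map V.incl).toAffine.Point ⧸ V.E1 W) =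
      (D4 (W.map V.incl) z₀ Q₁ P' : (W.map V.incl).toAffine.Point) ↔
      D4 (W.map V.incl) z₀ P P' ∈ V.E1 W := by
  rw [QuotientAddGroup.eq, ← D4_symm (locModel_Delta hW) hz h₁ hP,
    D4_add (locModel_Delta hW) hz hP h₁ hP']

lemma locModel_card [Finite κ] {z₀ : Obj4 L} {ι : Type*} (s : Finset ι) (p : ι → V.LocRep4 z₀) :
    Nat.card (Σ i : s, {q : I4 κ // Good (mapM θ (p i).z.f) (npt q)}) = ∑ i ∈ s, nGood (mapM θ (p i).z.f) := by
  rw [Nat.card_sigma, ← Finset.sum_coe_sort s]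
  rfl

/-- every point of `z₀` is good on some integral model -/
lemma locModel_cover (hred : V.IsRed θ 1) {W : WeierstrassCurve V.O} (hW : W.Δ ≠ 0)
    {z₀ : Obj4 L} (hz : z₀.Over (W.map V.incl)) {P : P4 L} (hP : On z₀.f P) :
    ∃ (p : V.LocRep4 z₀) (Q : P4 V.O), V.IPrim4 Q ∧ Zero p.z.f Q ∧
      Good (mapM θ p.z.f) (θ ∘ Q) ∧ Eqv (pt p.g (V.incl ∘ Q)) P := by
  obtain ⟨y, hzW, ha, hu, hπ⟩ := exists_good hW (piP4 (W.map V.incl) z₀ P)
  have hstd : On ((upO y).map V.incl).f e0 := by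
    rw [upO_map]
    exact on_up _
  obtain ⟨g, hg, e⟩ := exists_iso4 (locModel_Delta hW) (hzW.map V.incl) hz hstd hP hπ
  refine ⟨⟨g, upO y, hg⟩, e0, ⟨0, isUnit_one⟩, zero_up _, ?_, ?_⟩
  · rw [map_e0]
    change Good (mapM θ (up y.f)) e0
    rw [up_map]
    exact good_up (by simp [ha]) (hu.imp (hred.isUnit_iff _).1 (hred.isUnit_iff _).1)
  · rw [map_e0]
    exact e

/-- good points move to equivalent integral models -/
lemma locModel_transport {z₀ : Obj4 L} (p p' : V.LocRep4 z₀) (h : V.MEq4 p.g p'.g) {Q : P4 V.O}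
    (hQ : V.IPrim4 Q) (hF : Zero p.z.f Q) (hs : Good (mapM θ p.z.f) (θ ∘ Q)) :
    ∃ Q' : P4 V.O, V.IPrim4 Q' ∧ Zero p'.z.f Q' ∧ Good (mapM θ p'.z.f) (θ ∘ Q') ∧
      Eqv (pt p.g (V.incl ∘ Q)) (pt p'.g (V.incl ∘ Q')) := by
  obtain ⟨t, k, hg, hz⟩ := equiv_lift p p' h
  refine ⟨pt k⁻¹ Q, hQ.pt _, ?_, ?_, ?_⟩
  · rw [hz, Obj4.smul_f, ← zero_pt, pt_inv_pt]
    exact hF
  · rw [hz, Obj4.smul_f, mapM_smul, ← good_pt, map_pt, pt_inv_pt]
    exact hs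
  · rw [hg, mul_pt, mul_pt, scal_pt, pt_smul, map_pt, pt_inv_pt, pt_smul]
    exact ⟨t, t.ne_zero, rfl⟩

/-- If the sum is positive fix a point `Q₁` of `z₀`.  Send `(i, Q)` (a good point of the
reduction, lifted by `exists_lift`) to the coset of `D Q₁ (pt (p i).g Q)`.  If two cosets agree,
transport the second point to the first model (`exists_integral_rep`), use `D4_add`, `D4_smul`,
`disc` to see that it reduces to the same good point, `unique_good` to get `i = j`, and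
`IPrim4.eqv_red`, `npt_inj`. -/
theorem sum_nGood_le [Finite κ] (hred : V.IsRed θ 1) {W : WeierstrassCurve V.O} (hW : W.Δ ≠ 0)
    {z₀ : Obj4 L} (hz : z₀.Over (W.map V.incl)) {ι : Type*} (s : Finset ι) (p : ι → V.LocRep4 z₀)
    (hp : ∀ i ∈ s, ∀ j ∈ s, V.MEq4 (p i).g (p j).g → i = j) :
    ∑ i ∈ s, nGood (mapM θ (p i).z.f) ≤ V.Nloc W := by
  rw [← locModel_card]
  set T := Σ i : s, {q : I4 κ // Good (mapM θ (p i).z.f) (npt q)} with hT
  have hlift : ∀ τ : T, ∃ Q : P4 V.O, V.IPrim4 Q ∧ Zero (p τ.1).z.f Q ∧ θ ∘ Q = npt τ.2.1 :=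
    fun τ => exists_lift hred _ τ.2.2.on τ.2.2.smooth
  choose lift hl1 hl2 hl3 using hlift
  rcases isEmpty_or_nonempty T with hE | ⟨⟨τ₁⟩⟩
  · simp
  have h₁ := locModel_on (p τ₁.1) (hl1 τ₁) (hl2 τ₁)
  have : Finite ((W.map V.incl).toAffine.Point ⧸ V.E1 W) :=
    Nat.finite_of_card_ne_zero (Nloc_pos hred hW).ne'
  refine Nat.card_le_card_of_injective (fun τ : T =>
    ((D4 (W.map V.incl) z₀ (pt (p τ₁.1).g (V.incl ∘ lift τ₁))
      (pt (p τ.1).g (V.incl ∘ lift τ)) : (W.map V.incl).toAffine.Point) :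
        (W.map V.incl).toAffine.Point ⧸ V.E1 W)) ?_
  intro τ τ' hττ
  have hP := locModel_on (p τ.1) (hl1 τ) (hl2 τ)
  have hP' := locModel_on (p τ'.1) (hl1 τ') (hl2 τ')
  have hsm : ∀ τ : T, Good (mapM θ (p τ.1).z.f) (θ ∘ lift τ) := fun τ => by
    rw [hl3]; exact τ.2.2
  have hE := (locModel_coset hW hz h₁ hP hP').1 hττ
  obtain ⟨Q₀, hQ₀, hF₀, e₀⟩ := locModel_rep (p τ.1) hP'
  rw [D4_eqv (locModel_Delta hW) hz hP hP' (Eqv.refl _) e₀,
    locModel_disc hred hW hz (p τ.1) (hl1 τ) (hl2 τ) (hsm τ) hQ₀ hF₀] at hE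
  have hM := unique_good hred (p τ.1) (p τ'.1) hQ₀ hF₀ ((hsm τ).eqv hE) (hl1 τ') (hl2 τ')
    (hsm τ') e₀.symm
  obtain ⟨i, q⟩ := τ
  obtain ⟨j, q'⟩ := τ'
  have hij : i = j := Subtype.ext (hp i i.2 j j.2 hM)
  subst hij
  have e1 := e₀.pt (p i).g⁻¹
  rw [inv_pt_pt, inv_pt_pt] at e1
  have e2 := IPrim4.eqv_red hred (hl1 ⟨i, q'⟩) hQ₀ e1
  have e3 := hE.trans e2.symm
  rw [hl3, hl3] at e3
  have : q = q' := Subtype.ext (npt_inj e3)
  rw [this]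

/-- For each coset choose `R`, a point `Q_R` with `D Q₁ Q_R = R`, the integral normal form of
`piP Q_R` (`exists_good`) and an isomorphism (`exists_iso`).  Choose one representative in
each `MEq` class; by `equiv_lift` the point `Q_R` becomes a good point on the representative,
and by `disc` its reduction determines the coset. -/
theorem exists_sum_nGood_ge [Finite κ] (hred : V.IsRed θ 1) {W : WeierstrassCurve V.O}
    (hW : W.Δ ≠ 0) {z₀ : Obj4 L} (hz : z₀.Over (W.map V.incl)) (hsol : Soluble z₀.f) :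
    ∃ s : Finset (V.LocRep4 z₀), (∀ p ∈ s, ∀ p' ∈ s, V.MEq4 p.g p'.g → p = p') ∧
      V.Nloc W ≤ ∑ p ∈ s, nGood (mapM θ p.z.f) := by
  obtain ⟨Q₁, h₁⟩ := hsol
  have hfin : Finite ((W.map V.incl).toAffine.Point ⧸ V.E1 W) :=
    Nat.finite_of_card_ne_zero (Nloc_pos hred hW).ne'
  have := Fintype.ofFinite ((W.map V.incl).toAffine.Point ⧸ V.E1 W)
  let S : Setoid (V.LocRep4 z₀) :=
    ⟨fun p p' => V.MEq4 p.g p'.g, ⟨fun _ => MEq4.refl _, MEq4.symm, MEq4.trans⟩⟩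
  have hc : ∀ c : (W.map V.incl).toAffine.Point ⧸ V.E1 W, ∃ a : Quotient S, ∃ Q : P4 V.O,
      V.IPrim4 Q ∧ Zero a.out.z.f Q ∧ Good (mapM θ a.out.z.f) (θ ∘ Q) ∧
      ((D4 (W.map V.incl) z₀ Q₁ (pt a.out.g (V.incl ∘ Q)) : (W.map V.incl).toAffine.Point) :
        (W.map V.incl).toAffine.Point ⧸ V.E1 W) = c := by
    intro c
    obtain ⟨R, rfl⟩ := QuotientAddGroup.mk_surjective c
    obtain ⟨P, hP, rfl⟩ := D4_surjective (locModel_Delta hW) hz h₁ R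
    obtain ⟨p, Q, hQ, hF, hs, e⟩ := locModel_cover hred hW hz hP
    have hM : V.MEq4 p.g (Quotient.mk S p).out.g := MEq4.symm (Quotient.mk_out (s := S) p)
    obtain ⟨Q', hQ', hF', hs', e'⟩ := locModel_transport p _ hM hQ hF hs
    refine ⟨Quotient.mk S p, Q', hQ', hF', hs', ?_⟩
    rw [D4_eqv (locModel_Delta hW) hz h₁ hP (Eqv.refl _) (e.symm.trans e')]
  choose a Qc hc1 hc2 hc3 hc4 using hc
  refine ⟨Finset.univ.image fun c => (a c).out, ?_, ?_⟩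
  · intro p hp p' hp' hM
    obtain ⟨c, -, rfl⟩ := Finset.mem_image.1 hp
    obtain ⟨c', -, rfl⟩ := Finset.mem_image.1 hp'
    have h1 : Quotient.mk S (a c).out = Quotient.mk S (a c').out := Quotient.sound hM
    rw [Quotient.out_eq, Quotient.out_eq] at h1
    rw [h1]
  set s : Finset (V.LocRep4 z₀) := Finset.univ.image fun c => (a c).out with hs
  rw [← locModel_card (θ := θ) s fun x => x]
  set T := Σ i : s, {q : I4 κ // Good (mapM θ i.1.z.f) (npt q)} with hT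
  have hlift : ∀ τ : T, ∃ Q : P4 V.O, V.IPrim4 Q ∧ Zero τ.1.1.z.f Q ∧ θ ∘ Q = npt τ.2.1 :=
    fun τ => exists_lift hred _ τ.2.2.on τ.2.2.smooth
  choose lift hl1 hl2 hl3 using hlift
  refine Nat.card_le_card_of_surjective (fun τ : T =>
    ((D4 (W.map V.incl) z₀ Q₁ (pt τ.1.1.g (V.incl ∘ lift τ)) : (W.map V.incl).toAffine.Point) :
        (W.map V.incl).toAffine.Point ⧸ V.E1 W)) ?_
  intro c
  have hprim : θ ∘ Qc c ≠ 0 := (IPrim4.map_red hred).1 (hc1 c)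
  obtain ⟨q, hq⟩ := exists_npt hprim
  let τ : T := ⟨⟨(a c).out, Finset.mem_image.2 ⟨c, Finset.mem_univ _, rfl⟩⟩,
    ⟨q, (hc3 c).eqv hq⟩⟩
  refine ⟨τ, ?_⟩
  rw [← hc4 c]
  symm
  refine (locModel_coset hW hz h₁ (locModel_on _ (hc1 c) (hc2 c))
    (locModel_on (a c).out (hl1 τ) (hl2 τ))).2 ?_
  rw [locModel_disc hred hW hz (a c).out (hc1 c) (hc2 c) (hc3 c) (hl1 τ) (hl2 τ), hl3]
  exact hq

theorem nGood_le_Nloc [Finite κ] (hred : V.IsRed θ 1) {f : M4 V.O} (hΔ : (red f).jac.Δ ≠ 0) :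
    nGood (mapM θ f) ≤ V.Nloc (red f).jac := by
  have hz : (⟨f, 1⟩ : Obj4 V.O).Over (red f).jac := (one_smul _ _).symm
  have h := sum_nGood_le hred hΔ (hz.map V.incl) ({()} : Finset Unit)
    (fun _ => ⟨1, ⟨f, 1⟩, one_smul _ _⟩) (fun _ _ _ _ _ => rfl)
  simpa using h

theorem phiL_le_one [Finite κ] (hred : V.IsRed θ 1) {f : M4 V.O} (hΔ : (red f).jac.Δ ≠ 0) :
    V.phiL4 θ f ≤ 1 := by
  have h0 : (0 : ℝ) < V.Nloc (red f).jac := by exact_mod_cast Nloc_pos hred hΔ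
  unfold phiL4
  rw [div_le_one h0]
  exact_mod_cast nGood_le_Nloc hred hΔ

theorem phiL_smul (θ : V.O →+* κ) (h : G4 V.O) {f : M4 V.O} (hΔ : (red f).jac.Δ ≠ 0) :
    V.phiL4 θ (h • f) = V.phiL4 θ f := by
  unfold phiL4
  rw [mapM_smul, nGood_smul, jac_smul4, Nloc_smul _ hΔ]

/-- `LocRep4.over`, `Nloc_smul` -/
lemma _root_.SelAvg.LocalField.LocRep4.phiL_eq {W : WeierstrassCurve V.O} (hW : W.Δ ≠ 0) {z₀ : Obj4 L}
    (hz : z₀.Over (W.map V.incl)) (p : V.LocRep4 z₀) :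
    V.phiL4 θ p.z.f = (nGood (mapM θ p.z.f) : ℝ) / V.Nloc W := by
  rw [phiL4, show (red p.z.f).jac = p.z.γ • W from p.over hz, Nloc_smul _ hW]

/-- `equiv_lift`, `phiL_smul` -/
theorem _root_.SelAvg.LocalField.LocRep4.phiL_eq_of_mEq {W : WeierstrassCurve V.O} (hW : W.Δ ≠ 0) {z₀ : Obj4 L}
    (hz : z₀.Over (W.map V.incl)) (p p' : V.LocRep4 z₀) (h : V.MEq4 p.g p'.g) :
    V.phiL4 θ p.z.f = V.phiL4 θ p'.z.f := by
  obtain ⟨-, k, -, e⟩ := equiv_lift p p' h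
  rw [e, Obj4.smul_f, phiL_smul θ k (p.jac_Delta hW hz)]

theorem sum_phiL_le_one [Finite κ] (hred : V.IsRed θ 1) {W : WeierstrassCurve V.O}
    (hW : W.Δ ≠ 0) {z₀ : Obj4 L} (hz : z₀.Over (W.map V.incl)) {ι : Type*} (s : Finset ι)
    (p : ι → V.LocRep4 z₀) (hp : ∀ i ∈ s, ∀ j ∈ s, V.MEq4 (p i).g (p j).g → i = j) :
    ∑ i ∈ s, V.phiL4 θ (p i).z.f ≤ 1 := by
  have h0 : (0 : ℝ) < V.Nloc W := by exact_mod_cast Nloc_pos hred hW
  simp only [LocRep4.phiL_eq hW hz, ← Finset.sum_div]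
  rw [div_le_one h0]
  exact_mod_cast sum_nGood_le hred hW hz s p hp

theorem exists_sum_phiL_ge_one [Finite κ] (hred : V.IsRed θ 1) {W : WeierstrassCurve V.O}
    (hW : W.Δ ≠ 0) {z₀ : Obj4 L} (hz : z₀.Over (W.map V.incl)) (hsol : Soluble z₀.f) :
    ∃ s : Finset (V.LocRep4 z₀), (∀ p ∈ s, ∀ p' ∈ s, V.MEq4 p.g p'.g → p = p') ∧
      1 ≤ ∑ p ∈ s, V.phiL4 θ p.z.f := by
  have h0 : (0 : ℝ) < V.Nloc W := by exact_mod_cast Nloc_pos hred hW
  obtain ⟨s, h1, h2⟩ := exists_sum_nGood_ge hred hW hz hsol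
  refine ⟨s, h1, ?_⟩
  simp only [LocRep4.phiL_eq hW hz, ← Finset.sum_div]
  rw [one_le_div h0]
  exact_mod_cast h2

/-- two representatives of weight one are equivalent (`sum_phiL_le_one` with two indices) -/
theorem mEq_of_phiL_eq_one [Finite κ] (hred : V.IsRed θ 1) {W : WeierstrassCurve V.O}
    (hW : W.Δ ≠ 0) {z₀ : Obj4 L} (hz : z₀.Over (W.map V.incl)) (p p' : V.LocRep4 z₀)
    (h : V.phiL4 θ p.z.f = 1) (h' : V.phiL4 θ p'.z.f = 1) : V.MEq4 p.g p'.g := by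
  by_contra hn
  have h1 := sum_phiL_le_one hred hW hz Finset.univ (fun b : Bool => cond b p p') (by
    rintro (_ | _) - (_ | _) - k
    exacts [rfl, absurd k.symm hn, absurd k hn, rfl])
  rw [Fintype.sum_bool] at h1
  simp only [cond_true, cond_false, h, h'] at h1
  norm_num at h1

end SelAvg.Q4.LocalField
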