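import Pool.Agent.H94Q.LocQ
import Pool.Agent.H94Q.DifA

/-! Existence of good integral models. -/

namespace SelAvg.Q4.LocalField

open WeierstrassCurve WithZero Matrix SelAvg.LocalField
open scoped Classical

variable {L : Type*} [Field L] {V : LocalField L}

/-- integral normal forms -/
theorem exists_good {W : WeierstrassCurve V.O} (hW : W.Δ ≠ 0)
    (P : (W.map V.incl).toAffine.Point) :
    ∃ y : Obj V.O, (upO y).Over W ∧ y.f.a = 0 ∧ (IsUnit y.f.l ∨ IsUnit y.f.b) ∧
      piP4 (W.map V.incl) ((upO y).map V.incl) e0 = P := by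
  obtain ⟨y, hy, ha, hu, hπ⟩ := exists_smooth hW P
  refine ⟨y, by rwa [Obj4.Over, two_upO ha], ha, hu, ?_⟩
  rw [upO_map, piP4_upO (locModel_Delta hW) (hy.map V.incl) (by simp [ha]), hπ]

end SelAvg.Q4.LocalField
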