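import Pool.Agent.H94Q.SelO

/-! Row LOW: the lower bound for the number of Selmer classes of one curve. -/

namespace SelAvg.FF.T4

open WeierstrassCurve WithZero Filter Topology Matrix SelAvg.Q4
open scoped Classical ENNReal

variable {F : Type} [Field F] [Cv F]

omit [Cv F] in
/-- At every place `g'_v = scal (t v) * h v * g_v`.  Taking determinants shows that `t v` is a unit
for almost all `v`; let `E v = ord (t v)`. -/
theorem exists_twG_of_mEq {g g' : G4 (A F)}
    (hM : ∀ v : Place F, v.loc.MEq4 (mapG (pr v) g) (mapG (pr v) g')) :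
    ∃ E, RC.mk (KG F) g' = twG E g := by
  choose t k hk using hM
  have h0 : ∀ v : Place F, v.vc (t v : v.Compl) ≠ 0 := fun v => v.vc.ne_zero_iff.2 (t v).ne_zero
  have h1 : ∀ v : Place F, 4 * -log (v.vc (t v : v.Compl)) =
      idiv (det4u g') v - idiv (det4u g) v := fun v => by
    have e := congrArg (fun a : G4 v.Compl => v.vc (det4u a : v.Compl)) (hk v)
    have e2 : v.vc (v.loc.incl (det4u (k v) : v.loc.O)) = 1 :=
      (v.loc.isUnit_iff _).1 (det4u (k v)).isUnit
    have e3 : det4u (Q4.scal v.Compl (t v)) = t v ^ 4 := det_scN (t v)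
    simp only [det4u_mul, det4u_map, e3, Units.val_mul, Units.coe_map, MonoidHom.coe_coe,
      map_mul, Units.val_pow_eq_pow_val, map_pow, vc_unit, e2, mul_one] at e
    rw [← exp_log (h0 v), ← WithZero.exp_nsmul, ← exp_add, exp_inj, nsmul_eq_mul] at e
    push_cast at e
    omega
  have hfin : (Function.support fun v : Place F => -log (v.vc (t v : v.Compl))).Finite :=
    (idiv (det4u g') - idiv (det4u g)).hasFiniteSupport.subset fun v hv => by
      have h2 := h1 v
      have h3 : -log (v.vc (t v : v.Compl)) ≠ 0 := hv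
      rw [Function.mem_support, Finsupp.sub_apply]
      omega
  refine ⟨Finsupp.ofSupportFinite _ hfin, (RC.mk_eq.2 ⟨g' * (Q4.scal (A F) (piD _) * g)⁻¹,
    mem_KG_of_forall fun v => ?_, (inv_mul_cancel_right _ _).symm⟩).symm⟩
  obtain ⟨u, hu⟩ : ∃ u : v.Complˣ, u = Units.map (pr v : A F →* v.Compl)
    (piD (Finsupp.ofSupportFinite _ hfin)) := ⟨_, rfl⟩
  have h2 : v.vc ((t v * u⁻¹ : v.Complˣ) : v.Compl) = 1 := by
    have h3 : v.vc (u : v.Compl) = v.vc (t v : v.Compl) := by
      rw [hu, Units.coe_map, MonoidHom.coe_coe, vc_unit, idiv_piD]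
      change exp (- -log (v.vc (t v : v.Compl))) = _
      rw [neg_neg, exp_log (h0 v)]
    rw [Units.val_mul, Units.val_inv_eq_inv_val, map_mul, map_inv₀, h3, mul_inv_cancel₀ (h0 v)]
  obtain ⟨e, he⟩ := (v.loc.isUnit_iff ⟨_, h2.le⟩).2 h2
  have h4 : Units.map (v.loc.incl : v.loc.O →* v.Compl) e = t v * u⁻¹ :=
    Units.ext (congrArg Subtype.val he)
  refine ⟨Q4.scal _ e * k v, ?_⟩
  rw [map_mul, map_mul, map_inv, map_mul, mapG_scal, mapG_scal, hk, ← hu, h4, map_mul,
    _root_.mul_inv_rev, ← mul_assoc, mul_inv_cancel_right, mul_assoc, mul_assoc, scal_comm u⁻¹,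
    map_inv]

lemma low_ne {S : Finset (Place F)} {D : Div F} {z : Obj4 F} {x : XG F} (h : PhiL S D z x ≠ 0) :
    SqM S x.out z.f ∧ parN (pM x) ∧ IntO D z x.out ∧ PhiS S x.out z.f ≠ 0 ∧
      PhiL S D z x = ENNReal.ofReal (PhiS S x.out z.f) := by
  unfold PhiL PhiO at h ⊢
  split_ifs at h ⊢ with h1 h2
  · exact ⟨h1, h2.2.1, h2.2.2, fun e => h (by rw [e, ENNReal.ofReal_zero]), rfl⟩
  · exact absurd rfl h
  · exact absurd rfl h

/-- It suffices to bound finite partial sums (`ENNReal.tsum_eq_iSup_sum`) over `x` with nonzero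
weight.  Let `c v x` be the `MEq`-class of the matrix of `x.out` at `v`.  Two `x` with the same
classes on `S` have the same classes everywhere (`phi_eq_one`, `mEq_of_phiL_eq_one`,
`IntO.exists_locRep`), so they are twists of each other and have total mass at most `kap`
(`exists_twG_of_mEq`, `tsum_twG`).  Use `LocRep4.phiL_eq_of_mEq`, `sum_phiL_le_one` and
`sum_prod_le_one` with `a x = (τ x).toReal / kapR`. -/
theorem low_one {D : Div F} {W : WeierstrassCurve F} (hW : W ∈ WB D) (hΔ : W.Δ ≠ 0)
    (S : Finset (Place F)) {z₀ : Obj4 F} (hz : z₀.Over W) {τ : XG F → ℝ≥0∞}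
    (hτ : IsBru ((actG F).comp (Q4.scal F)) τ) : ∑' x, τ x * PhiL S D z₀ x ≤ kap F := by
  rw [ENNReal.tsum_eq_iSup_sum]
  refine iSup_le fun s₀ => ?_
  obtain ⟨s, hs⟩ : ∃ s, s = s₀.filter fun x => PhiL S D z₀ x ≠ 0 := ⟨_, rfl⟩
  have hmem : ∀ x : s, _ := fun x => low_ne (Finset.mem_filter.1 (hs.subset x.2)).2
  choose hq hpar hb _ hval using hmem
  choose rep hg hrep using fun (v : Place F) (x : s) => (hb x).exists_locRep v
  have hrep' : ∀ (v : Place F) (x : s),
      v.loc.phiL4 (resv v) (rep v x).z.f = phi v x.1.out z₀.f := fun v x => by rw [hrep]; rfl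
  have hτ1 : ∀ x, τ x ≠ ⊤ := fun x => ne_top_of_le_ne_top ENNReal.one_ne_top (hτ.le_one x)
  let r : Place F → Setoid s := fun v =>
    ⟨fun x y => v.loc.MEq4 (rep v x).g (rep v y).g,
      ⟨fun _ => LocalField.MEq4.refl _, LocalField.MEq4.symm, LocalField.MEq4.trans⟩⟩
  have key := sum_prod_le_one (κ := fun v => Quotient (r v)) S
    (Finset.univ : Finset s) (fun v x => Quotient.mk (r v) x)
    (fun v q => v.loc.phiL4 (resv v) (rep v q.out).z.f)
    (fun v q => Q4.LocalField.phiL_nonneg _ _)
    (fun v _ => Q4.LocalField.sum_phiL_le_one (resv_isRed v) (locW_Delta hW hΔ v)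
      (objAt_over hW hz v) _ (fun q : Quotient (r v) => rep v q.out)
      fun q _ q' _ h => by
        rw [← q.out_eq, ← q'.out_eq]
        exact Quotient.sound h)
    (fun x => (τ x.1).toReal / kapR F) (by
      intro y _
      suffices H : ∀ t : Finset s, (∀ y' ∈ t, ∀ v ∈ S,
          Quotient.mk (r v) y' = Quotient.mk (r v) y) →
          ∑ y' ∈ t, (τ y'.1).toReal / kapR F ≤ 1 from
        H _ fun y' hy' => ((@Finset.mem_filter _ _ (_) _ _).1 hy').2
      intro t ht
      have hall : ∀ y' : t, ∃ E, y'.1.1 = twG E y.1.out := by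
        intro y'
        rw [← y'.1.1.mk_out]
        refine exists_twG_of_mEq fun v => ?_
        rw [← hg, ← hg]
        by_cases hv : v ∈ S
        · exact Quotient.exact (ht y'.1 y'.2 v hv).symm
        · refine Q4.LocalField.mEq_of_phiL_eq_one (resv_isRed _) (locW_Delta hW hΔ v)
            (objAt_over hW hz v) _ _ ?_ ?_
          · rw [hrep']; exact phi_eq_one (hq y v hv)
          · rw [hrep']; exact phi_eq_one (hq y'.1 v hv)
      choose E hE using hall
      have hinj : Function.Injective E := fun a b e =>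
        Subtype.ext (Subtype.ext (by rw [hE, hE, e]))
      have h1 : ∑ y' ∈ t, τ y'.1 ≤ kap F := by
        rw [← tsum_twG hτ y.1.out, ← Finset.sum_coe_sort t]
        refine le_trans (le_of_eq ?_) (ENNReal.sum_le_tsum (Finset.univ.map ⟨E, hinj⟩))
        rw [Finset.sum_map]
        refine Finset.sum_congr rfl fun a _ => ?_
        change _ = if parN (pM (twG (E a) y.1.out)) then τ (twG (E a) y.1.out) else 0
        rw [← hE, if_pos (hpar a.1)]
      rw [← Finset.sum_div, div_le_one kapR_pos, ← ENNReal.toReal_sum fun a _ => hτ1 _]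
      exact ENNReal.toReal_mono kap_ne_top h1)
  have h2 : ∀ x : s, ∏ v ∈ S, v.loc.phiL4 (resv v) (rep v (Quotient.mk (r v) x).out).z.f =
      PhiS S x.1.out z₀.f := by
    intro x
    refine Finset.prod_congr rfl fun v _ => ?_
    rw [← hrep']
    exact LocalField.LocRep4.phiL_eq_of_mEq (locW_Delta hW hΔ v) (objAt_over hW hz v) _ _
      (Quotient.mk_out (s := r v) x)
  simp only [h2, div_mul_eq_mul_div, ← Finset.sum_div, div_le_one (kapR_pos (F := F))] at key
  have h3 : ∑ x ∈ s₀, τ x * PhiL S D z₀ x = ∑ x ∈ s, τ x * PhiL S D z₀ x := by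
    rw [hs]
    exact (Finset.sum_filter_of_ne fun x _ h => right_ne_zero_of_mul h).symm
  rw [h3, ← Finset.sum_coe_sort s, ← ofReal_kapR]
  refine le_trans (le_of_eq ?_) (ENNReal.ofReal_le_ofReal key)
  rw [ENNReal.ofReal_sum_of_nonneg fun x _ => mul_nonneg ENNReal.toReal_nonneg (PhiS_nonneg _ _ _)]
  exact Finset.sum_congr rfl fun x _ => by
    rw [ENNReal.ofReal_mul ENNReal.toReal_nonneg, ENNReal.ofReal_toReal (hτ1 _), hval]

/-- An object with nonzero weight is everywhere locally soluble (`soluble_of_phi`, `phi_eq_one`),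
so its class is in `SelO W`.  Sum `unfold_le` and `low_one` over the finitely many classes. -/
theorem low_card {D : Div F} {W : WeierstrassCurve F} (hW : W ∈ WB D) (hΔ : W.Δ ≠ 0)
    (S : Finset (Place F)) {ρ : XG F → ℝ≥0∞} (hρ : IsBru (actG F) ρ) (hfin : (SelO W).Finite) :
    ∑' x, ρ x * ∑' z : Obj4 F, (if z.Over W ∧ ¬(red z.f).Triv then PhiL S D z x else 0) ≤
      kap F * (SelO W).ncard := by
  obtain ⟨τ, hτ⟩ := exists_bru ((actG F).comp (Q4.scal F)) fun x =>
    (finite_stabG x).preimage Q4.scal_injective.injOn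
  have hout : ∀ c ∈ hfin.toFinset, (Quotient.out c).Over W := by
    intro c hc
    obtain ⟨z, hzx, hz, -⟩ := hfin.mem_toFinset.1 hc
    have h1 : orb (Quotient.out c) = orb z := (Quotient.out_eq c).trans hzx.symm
    obtain ⟨g, hg⟩ := orb_eq_iff.1 h1
    rw [← hg]
    exact hz.smul g
  calc _ ≤ ∑' x, ρ x * ∑' z : Obj4 F, ∑ c ∈ hfin.toFinset,
          (if ∃ g, actO F g (Quotient.out c) = z then PhiL S D z x else 0) := by
        refine ENNReal.tsum_le_tsum fun x => mul_le_mul_right (ENNReal.tsum_le_tsum fun z => ?_) _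
        split_ifs with hc
        swap
        · exact zero_le
        by_cases hp : PhiL S D z x = 0
        · rw [hp]; exact zero_le
        obtain ⟨hq, -, hb, h0, -⟩ := low_ne hp
        have hels : ELSF z.f := fun v => by
          refine soluble_of_phi hb.1 ?_
          by_cases hv : v ∈ S
          · exact Finset.prod_ne_zero_iff.1 h0 v hv
          · rw [phi_eq_one (hq v hv)]; exact one_ne_zero
        have hx : orb z ∈ hfin.toFinset := hfin.mem_toFinset.2 ⟨z, rfl, hc.1, hels, hc.2⟩
        refine le_trans (le_of_eq ?_) (Finset.single_le_sum (fun _ _ => zero_le) hx)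
        exact (if_pos (orb_eq_iff.1 (Quotient.out_eq (orb z)).symm)).symm
    _ = ∑ c ∈ hfin.toFinset, ∑' x, ρ x * ∑' z : Obj4 F,
          (if ∃ g, actO F g (Quotient.out c) = z then PhiL S D z x else 0) := by
        rw [← Summable.tsum_finsetSum fun _ _ => ENNReal.summable]
        refine tsum_congr fun x => ?_
        rw [Summable.tsum_finsetSum fun _ _ => ENNReal.summable, Finset.mul_sum]
    _ ≤ ∑ _c ∈ hfin.toFinset, kap F := Finset.sum_le_sum fun c hc =>
        (unfold_le (actO F) (Q4.scal F) Q4.scal_injective hρ hτ _ (fun t => Obj4.scal_smul t _)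
          (PhiL S D) (PhiL_act S D)).trans (low_one hW hΔ S (hout c hc) hτ)
    _ = _ := by
        rw [Finset.sum_const, nsmul_eq_mul, mul_comm, Set.ncard_eq_toFinset_card _ hfin]

end SelAvg.FF.T4
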