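import Pool.Agent.H94Q.Two
import Pool.Agent.H94Q.Fin2
import Pool.Agent.H5T.Abhn

/-! The average size of the 4-Selmer group. -/

namespace SelAvg.FF.T4

open WeierstrassCurve WithZero Filter Topology SelAvg.Q4
open scoped Classical

variable {F : Type} [Field F]

section

variable [Cv F]

lemma main_fin {W : WeierstrassCurve F} (hW : W.Δ ≠ 0) :
    (Sel W 2).Finite ∧ (Sel4' W).Finite ∧ (Sel4' W).ncard = (SelO W).ncard := by
  have h1 := encard_Sel4' (H5T.abhn four_pos) hW
  refine ⟨(FF.finite_Sel_of hW (FF.finite_SelO hW)).1, ?_, by rw [Set.ncard_def, h1, Set.ncard_def]⟩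
  rw [← Set.encard_lt_top_iff, h1, Set.encard_lt_top_iff]
  exact finite_SelO hW

theorem selmerAverage_cv : SelmerAverage F 4 7 := by
  refine selmerAverage_four_of (fun W => (SelO W).ncard) (fun C W => ?_) (fun W hW => ?_)
    (fun W hW => ?_) (fun W hW => ?_) (fun W hW ht => ?_)
    fun R => tendsto_div_TD (A := SD) R fun ε hε => abs_SD_sub_le R hε
  · simp only [Set.ncard_def, encard_SelO_smul]
  · obtain ⟨h1, h2, -⟩ := main_fin hW
    exact (finite_Sel_four hW h1 h2).1
  · obtain ⟨h1, h2, h3⟩ := main_fin hW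
    have h4 := (finite_Sel_four hW h1 h2).2.2.1
    omega
  · obtain ⟨h1, h2, h3⟩ := main_fin hW
    have h4 : Sel4' W ⊂ Sel W 4 := by
      have h5 : incH (trivClass W 2) ∈ Sel W 4 ∩ {x | dblH x = trivClass W 2} :=
        image_incH hW ▸ Set.mem_image_of_mem _ trivClass_mem_Sel
      exact (Set.ssubset_iff_of_subset Set.sdiff_subset).2 ⟨_, h5.1, fun h => h.2 h5.2⟩
    have h6 := Set.ncard_lt_ncard h4 (finite_Sel_four hW h1 h2).1
    omega
  · obtain ⟨h1, h2, h3⟩ := main_fin hW
    have h4 := (finite_Sel_four hW h1 h2).2.2.2 ht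
    omega

end

theorem selmerAverage_four (k F : Type) [Field k] [Finite k] [Field F] [Algebra (RatFunc k) F]
    [FiniteDimensional (RatFunc k) F] : SelStmt.SelmerAverage F 4 7 := by
  obtain ⟨h⟩ := exists_cv k F
  exact selmerAverage_bridge selmerAverage_cv

end SelAvg.FF.T4
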