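import Pool.Agent.H94Q.ModB
import Pool.Agent.H38Sel.LocC
import Pool.Agent.H38Sel.RatB

/-! Row MASS, part A: counting by movers, and the reduction of the sum over pairs of quadrics with a
good point in standard position to degree 2 models. -/

namespace SelAvg.Q4

open WeierstrassCurve Matrix
open scoped Classical

section Mover

variable {G X Y : Type*} [Group G] [MulAction G X] [Fintype X]

lemma inv_of_fwd (g : G) {P : X → Prop} (h : ∀ x, P x → P (g • x)) {x : X} (hx : P (g • x)) :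
    P x := by
  have hb : Set.BijOn (fun x => g • x) {x | P x} {x | P x} :=
    ((Set.toFinite _).injOn_iff_bijOn_of_mapsTo (fun x hx => h x hx)).1
      (MulAction.injective g).injOn
  obtain ⟨x', h1, h2⟩ := hb.surjOn hx
  rwa [← MulAction.injective g h2]

/-- double counting of the pairs `(x, y)` with `P x` and `C (u y • x)` -/
lemma sum_mover (Φ : X → ℝ) (hΦ : ∀ (g : G) x, Φ (g • x) = Φ x) (T : Finset Y) (u : Y → G)
    (P C : X → Prop) (c : ℕ) (hP : ∀ y ∈ T, ∀ x, P x → P (u y • x))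
    (hc : ∀ x, P x → (T.filter fun y => C (u y • x)).card = c) :
    c * ∑ x with P x, Φ x = T.card * ∑ x with P x ∧ C x, Φ x := by
  have h1 : ∀ y ∈ T, ∑ x, (if P x ∧ C (u y • x) then Φ x else 0) =
      ∑ x with P x ∧ C x, Φ x := fun y hy => by
    rw [Finset.sum_filter, ← Equiv.sum_comp (MulAction.toPerm (u y))
      fun x => if P x ∧ C x then Φ x else 0]
    refine Finset.sum_congr rfl fun x _ => ?_
    rw [MulAction.toPerm_apply, hΦ]
    exact if_congr (and_congr_left fun _ => ⟨hP y hy x, inv_of_fwd _ (hP y hy)⟩) rfl rfl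
  rw [← nsmul_eq_mul T.card, ← Finset.sum_const, ← Finset.sum_congr rfl h1, Finset.sum_comm,
    Finset.sum_filter, Finset.mul_sum]
  refine Finset.sum_congr rfl fun x _ => ?_
  by_cases hx : P x
  · rw [if_pos hx, ← hc x hx, ← Finset.sum_filter, Finset.sum_const, nsmul_eq_mul]
    simp only [hx, true_and]
  · simp [hx]

/-- normalising a coordinate `π` to the value `y₀` -/
lemma sum_norm (Φ : X → ℝ) (hΦ : ∀ (g : G) x, Φ (g • x) = Φ x) (T : Finset Y) (π : X → Y) (y₀ : Y)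
    (P : X → Prop) (hT : ∀ x, P x → π x ∈ T)
    (hu : ∀ y ∈ T, ∃ g : G, (∀ x, P x → P (g • x)) ∧ ∀ x, P x → (π (g • x) = y ↔ π x = y₀)) :
    ∑ x with P x, Φ x = T.card * ∑ x with P x ∧ π x = y₀, Φ x := by
  choose! u h1 h2 using hu
  have h3 : ∀ y ∈ T, ∀ x, P x → P ((u y)⁻¹ • x) := fun y hy x hx =>
    inv_of_fwd (u y) (h1 y hy) (by rwa [smul_inv_smul])
  have := sum_mover Φ hΦ T (fun y => (u y)⁻¹) P (fun x => π x = y₀) 1 h3 fun x hx => by
    rw [Finset.card_eq_one]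
    refine ⟨π x, Finset.ext fun y => ?_⟩
    rw [Finset.mem_filter, Finset.mem_singleton]
    refine ⟨fun h => ?_, fun h => ?_⟩
    · have := (h2 y h.1 _ (h3 y h.1 x hx)).2 h.2
      rw [smul_inv_smul] at this
      exact this.symm
    · subst h
      exact ⟨hT x hx, (h2 _ (hT x hx) _ (h3 _ (hT x hx) x hx)).1 (by rw [smul_inv_smul])⟩
  rwa [Nat.cast_one, one_mul] at this

lemma card_lift {A B : Type*} [AddCommGroup A] [AddCommGroup B] [Fintype A] [Fintype B]
    (φ : A →+ B) (hφ : Function.Surjective φ) (p : B → Prop) :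
    ((Finset.univ.filter fun a => p (φ a)).card : ℝ) =
      (Finset.univ.filter p).card * Fintype.card A / Fintype.card B := by
  have h := avg_comp_hom (s := Finset.univ) (Finset.mem_univ _) (fun _ _ _ _ => Finset.mem_univ _)
    φ (fun b => (hφ b).imp fun _ h => ⟨Finset.mem_univ _, h⟩) fun b => if p b then 1 else 0
  have hA : (Fintype.card A : ℝ) ≠ 0 := by exact_mod_cast Fintype.card_ne_zero
  have hB : (Fintype.card B : ℝ) ≠ 0 := by exact_mod_cast Fintype.card_ne_zero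
  simp only [avg, Finset.sum_boole, Finset.card_univ] at h
  rw [div_eq_div_iff hA hB] at h
  rw [eq_div_iff hB]
  convert h

end Mover

section Ring

variable {R S : Type*} [CommRing R] [CommRing S]

lemma act_eq (g : Mat R) (c : QF R) : act g c = ![qv c (g 0), pol c (g 0) (g 1), pol c (g 0) (g 2),
    pol c (g 0) (g 3), qv c (g 1), pol c (g 1) (g 2), pol c (g 1) (g 3), qv c (g 2),
    pol c (g 2) (g 3), qv c (g 3)] := by
  funext i
  fin_cases i <;> simp [act, cf, conj_ut, qv, pol] <;> ring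

/-- the linear forms `∂ f i / ∂ x₀` at the standard point -/
def Tl (f : M4 R) : Fin 2 → Fin 3 → R := fun i => ![f i 1, f i 2, f i 3]

/-- their normal form -/
def T0 : Fin 2 → Fin 3 → R := ![![0, 0, -1], ![0, 1, 0]]

lemma Tl_map (φ : R →+* S) (f : M4 R) (i : Fin 2) : Tl (mapM φ f) i = φ ∘ Tl f i := by
  funext j; fin_cases j <;> rfl

lemma Tl_eq_T0 {f : M4 R} : Tl f = T0 ↔
    f 0 1 = 0 ∧ f 0 2 = 0 ∧ f 0 3 = -1 ∧ f 1 1 = 0 ∧ f 1 2 = 1 ∧ f 1 3 = 0 := by
  simp [Tl, T0, funext_iff, Fin.forall_fin_succ, and_assoc]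

lemma eq_zero_of_triple {u v w d : Fin 3 → R} (hD : IsUnit (w ⬝ᵥ u ⨯₃ v)) (h1 : u ⬝ᵥ d = 0)
    (h2 : v ⬝ᵥ d = 0) (h3 : w ⬝ᵥ d = 0) : d = 0 := by
  have key : ∀ i, (w ⬝ᵥ u ⨯₃ v) * d i = 0 := by
    simp only [cross_apply, dotProduct, Fin.sum_univ_three, cons_val_zero, cons_val_one,
      cons_val_two, head_cons, tail_cons, Fin.forall_fin_succ, Fin.succ_zero_eq_one,
      Fin.succ_one_eq_two, IsEmpty.forall_iff, and_true] at h1 h2 h3 ⊢
    refine ⟨?_, ?_, ?_⟩
    · linear_combination (v 1 * w 2 - v 2 * w 1) * h1 + (w 1 * u 2 - w 2 * u 1) * h2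
        + (u 1 * v 2 - u 2 * v 1) * h3
    · linear_combination (v 2 * w 0 - v 0 * w 2) * h1 + (w 2 * u 0 - w 0 * u 2) * h2
        + (u 2 * v 0 - u 0 * v 2) * h3
    · linear_combination (v 0 * w 1 - v 1 * w 0) * h1 + (w 0 * u 1 - w 1 * u 0) * h2
        + (u 0 * v 1 - u 1 * v 0) * h3
  exact funext fun i => hD.mul_right_eq_zero.1 (key i)

/-- moving the point -/
noncomputable def gC (y : Fin 3 → R) : G4 R :=
  (1, GeneralLinearGroup.mk'' !![1, y 0, y 1, y 2; 0, 1, 0, 0; 0, 0, 1, 0; 0, 0, 0, 1]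
    (by simp [det4]))

/-- moving the tangent planes -/
noncomputable def gB (U : Matrix (Fin 3) (Fin 3) R) (h : IsUnit U.det) : G4 R :=
  (1, GeneralLinearGroup.mk''
    !![1, 0, 0, 0; 0, U 0 0, U 0 1, U 0 2; 0, U 1 0, U 1 1, U 1 2; 0, U 2 0, U 2 1, U 2 2]
    (by convert h using 1; simp [det4, det_fin_three]; ring))

/-- moving the pencil -/
noncomputable def gD (a b x y : R) (h : a * x + b * y = 1) : G4 R :=
  (GeneralLinearGroup.mk'' !![-y, -a; x, -b]
    (by convert isUnit_one using 1; simp; linear_combination h),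
   GeneralLinearGroup.mk'' !![1, 0, 0, 0; 0, 1, 0, 0; 0, 0, -y, -a; 0, 0, x, -b]
    (by convert isUnit_one using 1; simp [det4]; linear_combination h))

/-- shifting `x₀` -/
noncomputable def gE (y : Fin 3 → R) : G4 R :=
  (1, GeneralLinearGroup.mk'' !![1, 0, 0, 0; -y 0, 1, 0, 0; -y 1, 0, 1, 0; -y 2, 0, 0, 1]
    (by simp [det4]))

lemma smul_one_fst (k : GL (Fin 4) R) (f : M4 R) (i : Fin 2) :
    (((1, k) : G4 R) • f) i = act k.1 (f i) := by
  rw [smul_apply]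
  fin_cases i <;> simp [pen]

lemma gC_zero (y : Fin 3 → R) (f : M4 R) (i : Fin 2) :
    (gC y • f) i 0 = qv (f i) ![1, y 0, y 1, y 2] := by
  rw [gC, smul_one_fst, act_eq]; rfl

lemma gB_zero (U : Matrix (Fin 3) (Fin 3) R) (h : IsUnit U.det) (f : M4 R) (i : Fin 2) :
    (gB U h • f) i 0 = f i 0 := by
  rw [gB, smul_one_fst, act_eq]; simp [qv]

lemma gB_Tl (U : Matrix (Fin 3) (Fin 3) R) (h : IsUnit U.det) (f : M4 R) (i : Fin 2) :
    Tl (gB U h • f) i = U *ᵥ Tl f i := by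
  funext j
  rw [Tl, gB, smul_one_fst, act_eq]
  fin_cases j <;> simp [pol, Tl, Matrix.mulVec, dotProduct, Fin.sum_univ_three] <;> ring

lemma gD_apply {a b x y : R} (h : a * x + b * y = 1) (f : M4 R) (i : Fin 2) : (gD a b x y h • f) i =
    act !![1, 0, 0, 0; 0, 1, 0, 0; 0, 0, -y, -a; 0, 0, x, -b]
      (pen f (!![-y, -a; x, -b] i 0) (!![-y, -a; x, -b] i 1)) := rfl

lemma gE_apply (y : Fin 3 → R) (f : M4 R) (i : Fin 2) : (gE y • f) i =
    act !![1, 0, 0, 0; -y 0, 1, 0, 0; -y 1, 0, 1, 0; -y 2, 0, 0, 1] (f i) :=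
  smul_one_fst _ _ _

/-- the difference quotient of `y ↦ c (1, y)` -/
def Lv (c : QF R) (y z : Fin 3 → R) : Fin 3 → R :=
  ![c 1 + c 4 * (y 0 + z 0) + c 5 * y 1 + c 6 * y 2,
    c 2 + c 5 * z 0 + c 7 * (y 1 + z 1) + c 8 * y 2,
    c 3 + c 6 * z 0 + c 8 * z 1 + c 9 * (y 2 + z 2)]

lemma Lv_dot (c : QF R) (y z : Fin 3 → R) :
    Lv c y z ⬝ᵥ (y - z) = qv c ![1, y 0, y 1, y 2] - qv c ![1, z 0, z 1, z 2] := by
  simp [Lv, qv, dotProduct, Fin.sum_univ_three]; ring

lemma map_triple (φ : R →+* S) (u v w : Fin 3 → R) :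
    φ (w ⬝ᵥ u ⨯₃ v) = (φ ∘ w) ⬝ᵥ (φ ∘ u) ⨯₃ (φ ∘ v) := by
  simp [cross_apply, dotProduct, Fin.sum_univ_three]

lemma mass_jac_smul (Ψ : WeierstrassCurve R → ℝ)
    (hΨ : ∀ (C : VariableChange R) W, Ψ (C • W) = Ψ W) (g : G4 R) (f : M4 R) :
    Ψ (red (g • f)).jac = Ψ (red f).jac := by
  rw [red_smul, G.jac_smul, hΨ]

end Ring

variable {R κ : Type*} [CommRing R] [Field κ] [Fintype R] [Fintype κ] {θ : R →+* κ}

/-- what the mass formula uses about the standard point being a good point -/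
structure IsGd (Gd : M4 κ → Prop) : Prop where
  inv : ∀ g : G4 κ, g.2.1 0 = e0 → ∀ f, Gd f → Gd (g • f)
  on : ∀ f, Gd f → ∀ i, f i 0 = 0
  sm : ∀ f, Gd f → Tl f 0 ⨯₃ Tl f 1 ≠ 0
  nl : ∀ f, Gd f → Tl f = T0 → f 0 4 ≠ 0 ∨ f 1 4 ≠ 0
  up : ∀ f : Model κ, f.a = 0 → (Gd (up f) ↔ f.l ≠ 0 ∨ f.b ≠ 0)

variable {Gd : M4 κ → Prop}

omit [Fintype R] [Fintype κ] in
lemma IsGd.inv_map (hG : IsGd Gd) (g : G4 R) (hg : θ ∘ g.2.1 0 = e0) {f : M4 R}
    (hf : Gd (mapM θ f)) : Gd (mapM θ (g • f)) := by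
  rw [mapM_smul]
  exact hG.inv _ hg _ hf

omit [Fintype R] [Fintype κ] in
lemma exists_triple_unit (h : IsResidue θ) {u v : Fin 3 → κ} (huv : u ⨯₃ v ≠ 0) :
    ∃ w : Fin 3 → R, ∀ u' v' : Fin 3 → R, θ ∘ u' = u → θ ∘ v' = v → IsUnit (w ⬝ᵥ u' ⨯₃ v') := by
  obtain ⟨j, hj⟩ := Function.ne_iff.1 huv
  refine ⟨Pi.single j 1, fun u' v' hu hv => (h.unit _).2 ?_⟩
  have : θ ∘ (Pi.single j 1 : Fin 3 → R) = Pi.single j 1 := by
    funext i; by_cases e : i = j <;> simp [e]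
  rwa [map_triple, hu, hv, this, single_one_dotProduct]

omit [Fintype κ] in
/-- the points of the curve that reduce to a smooth point -/
lemma card_pts (h : IsResidue θ) (f : M4 R) (h0 : ∀ i, θ (f i 0) = 0)
    (hT : Tl (mapM θ f) 0 ⨯₃ Tl (mapM θ f) 1 ≠ 0) :
    ((Fintype.piFinset fun _ : Fin 3 => Finset.univ.filter fun x : R => θ x = 0).filter
      fun y => ∀ i, (gC y • f) i 0 = 0).card = (Finset.univ.filter fun x : R => θ x = 0).card := by
  obtain ⟨w, hw⟩ := exists_triple_unit h hT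
  set K := Finset.univ.filter fun x : R => θ x = 0 with hK
  have mK : ∀ x, x ∈ K ↔ θ x = 0 := by simp [hK]
  let F : (Fin 3 → R) → Fin 3 → R := fun y =>
    ![qv (f 0) ![1, y 0, y 1, y 2], qv (f 1) ![1, y 0, y 1, y 2], w ⬝ᵥ y]
  have hm : ∀ y ∈ Fintype.piFinset fun _ : Fin 3 => K, F y ∈ Fintype.piFinset fun _ : Fin 3 => K := by
    intro y hy
    simp only [Fintype.mem_piFinset, mK] at hy ⊢
    intro i
    fin_cases i <;> simp [F, qv, hy, h0, dotProduct, Fin.sum_univ_three]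
  have hi : ∀ y ∈ Fintype.piFinset fun _ : Fin 3 => K, ∀ z ∈ Fintype.piFinset fun _ : Fin 3 => K,
      F y = F z → y = z := by
    intro y hy z hz e
    simp only [Fintype.mem_piFinset, mK] at hy hz
    have hL : ∀ i, θ ∘ Lv (f i) y z = Tl (mapM θ f) i := fun i => by
      funext j; fin_cases j <;> simp [Lv, Tl, mapM, hy, hz]
    refine sub_eq_zero.1 (eq_zero_of_triple (hw _ _ (hL 0) (hL 1)) ?_ ?_ ?_)
    · rw [Lv_dot]; exact sub_eq_zero.2 (congrFun e 0)
    · rw [Lv_dot]; exact sub_eq_zero.2 (congrFun e 1)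
    · rw [dotProduct_sub]; exact sub_eq_zero.2 (congrFun e 2)
  have hs := Finset.surj_on_of_inj_on_of_card_le (fun y _ => F y) hm
    (fun y z hy hz e => hi y hy z hz e) le_rfl
  refine Finset.card_bij (fun y _ => w ⬝ᵥ y) ?_ ?_ ?_
  · intro y hy
    exact Fintype.mem_piFinset.1 (hm y (Finset.mem_filter.1 hy).1) 2
  · intro y hy z hz e
    rw [Finset.mem_filter] at hy hz
    refine hi y hy.1 z hz.1 ?_
    have a0 := hy.2 0
    have a1 := hy.2 1
    have b0 := hz.2 0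
    have b1 := hz.2 1
    rw [gC_zero] at a0 a1 b0 b1
    simp only [F, a0, a1, b0, b1, e]
  · intro t ht
    obtain ⟨y, hy, e⟩ := hs ![0, 0, t] (by
      rw [Fintype.mem_piFinset]
      intro i
      fin_cases i
      exacts [(mK _).2 (map_zero θ), (mK _).2 (map_zero θ), ht])
    refine ⟨y, Finset.mem_filter.2 ⟨hy, fun i => ?_⟩, (congrFun e 2).symm⟩
    rw [gC_zero]
    fin_cases i
    exacts [(congrFun e 0).symm, (congrFun e 1).symm]

/-- Step C: move the point to the standard point exactly -/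
theorem mass_exact (h : IsResidue θ) (hG : IsGd Gd) (Φ : M4 R → ℝ)
    (hΦ : ∀ (g : G4 R) f, Φ (g • f) = Φ f) :
    ∑ f : M4 R with Gd (mapM θ f), Φ f = ((Fintype.card R : ℝ) / Fintype.card κ) ^ 2 *
      ∑ f : M4 R with Gd (mapM θ f) ∧ ∀ i, f i 0 = 0, Φ f := by
  have hq : (Fintype.card κ : ℝ) ≠ 0 := by exact_mod_cast Fintype.card_ne_zero
  have hN : (Fintype.card R : ℝ) ≠ 0 := by exact_mod_cast Fintype.card_ne_zero
  have key := sum_mover Φ hΦ (Fintype.piFinset fun _ : Fin 3 => Finset.univ.filter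
    fun x : R => θ x = 0) gC (fun f => Gd (mapM θ f)) (fun f => ∀ i, f i 0 = 0) _
    (fun y hy f hf => hG.inv_map _ (by
      simp only [Fintype.mem_piFinset, Finset.mem_filter, Finset.mem_univ, true_and] at hy
      funext i; fin_cases i <;> simp [gC, e0, hy]) hf)
    fun f hf => by convert card_pts h f (hG.on _ hf) (hG.sm _ hf)
  rw [Fintype.card_piFinset_const, Nat.cast_pow, mass_card_ker h] at key
  refine mul_left_cancel₀ (div_ne_zero hN hq) ?_
  rw [← mul_assoc, ← pow_succ']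
  convert key

lemma card_rank_two (h : IsResidue θ) :
    ((Finset.univ.filter fun y : Fin 2 → Fin 3 → R => (θ ∘ y 0) ⨯₃ (θ ∘ y 1) ≠ 0).card : ℝ) =
      ((Fintype.card κ : ℝ) ^ 3 - 1) * ((Fintype.card κ : ℝ) ^ 3 - Fintype.card κ) *
        ((Fintype.card R : ℝ) / Fintype.card κ) ^ 6 := by
  have h1 := card_lift ((θ.toAddMonoidHom.compLeft (Fin 3)).compLeft (Fin 2))
    (h.surj.comp_left.comp_left) fun y => y 0 ⨯₃ y 1 ≠ 0
  have h2 := card_linearIndependent (K := κ) (V := Fin 3 → κ) (k := 2) (by simp)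
  have h3 : (Finset.univ.filter fun y : Fin 2 → Fin 3 → κ => y 0 ⨯₃ y 1 ≠ 0).card =
      Nat.card {s : Fin 2 → Fin 3 → κ // LinearIndependent κ s} := by
    rw [Nat.card_eq_fintype_card, Fintype.card_subtype]
    congr 1
    ext y
    simp only [Finset.mem_filter, Finset.mem_univ, true_and,
      crossProduct_ne_zero_iff_linearIndependent]
    rw [show ![y 0, y 1] = y by funext i; fin_cases i <;> rfl]
  have hq : 1 ≤ Fintype.card κ := Fintype.card_pos
  have h4 : Fintype.card κ ≤ Fintype.card κ ^ 3 := Nat.le_self_pow (by norm_num) _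
  have h5 : 1 ≤ Fintype.card κ ^ 3 := hq.trans h4
  rw [← h3] at h2
  simp only [Module.finrank_fin_fun, Fin.prod_univ_two, Fin.val_zero, Fin.val_one, pow_zero,
    pow_one] at h2
  refine Eq.trans (by convert rfl <;> rfl) (h1.trans ?_)
  have h6 := congrArg (Nat.cast : ℕ → ℝ) h2
  rw [Nat.cast_mul, Nat.cast_sub h4, Nat.cast_sub h5] at h6
  simp only [Fintype.card_fun, Fintype.card_fin]
  push_cast at h6 ⊢
  rw [mul_div_assoc, ← div_pow, ← div_pow, ← pow_mul, ← h6]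
  convert rfl

/-- Step B: normalise the tangent planes -/
theorem mass_planes (h : IsResidue θ) (hG : IsGd Gd) (Φ : M4 R → ℝ)
    (hΦ : ∀ (g : G4 R) f, Φ (g • f) = Φ f) :
    ∑ f : M4 R with Gd (mapM θ f) ∧ ∀ i, f i 0 = 0, Φ f =
      ((Fintype.card κ : ℝ) ^ 3 - 1) * ((Fintype.card κ : ℝ) ^ 3 - Fintype.card κ) *
        ((Fintype.card R : ℝ) / Fintype.card κ) ^ 6 *
      ∑ f : M4 R with (Gd (mapM θ f) ∧ ∀ i, f i 0 = 0) ∧ Tl f = T0, Φ f := by
  rw [← card_rank_two h]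
  convert sum_norm Φ hΦ _ Tl T0 (fun f => Gd (mapM θ f) ∧ ∀ i, f i 0 = 0) ?_ ?_
  · intro f hf
    have := hG.sm _ hf.1
    rw [Tl_map, Tl_map] at this
    exact Finset.mem_filter.2 ⟨Finset.mem_univ _, this⟩
  · intro y hy
    obtain ⟨w, hw⟩ := exists_triple_unit h (Finset.mem_filter.1 hy).2
    let U : Matrix (Fin 3) (Fin 3) R := (Matrix.of ![w, y 1, -y 0])ᵀ
    have hU : IsUnit U.det := by
      convert hw _ _ rfl rfl using 1
      simp [U, det_fin_three, cross_apply, dotProduct, Fin.sum_univ_three]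
      ring
    have hy0 : ∀ i, U *ᵥ T0 i = y i := fun i => by
      funext j
      fin_cases i <;> simp [U, T0, Matrix.mulVec, dotProduct, Fin.sum_univ_three]
    have hinj : Function.Injective U.mulVec :=
      Matrix.mulVec_injective_of_isUnit ((Matrix.isUnit_iff_isUnit_det _).2 hU)
    refine ⟨gB U hU, fun f hf => ⟨hG.inv_map _ ?_ hf.1, fun i => ?_⟩, fun f _ => ?_⟩
    · funext i; fin_cases i <;> simp [gB, e0]
    · rw [gB_zero, hf.2]
    · simp only [funext_iff (f := Tl _), gB_Tl, ← hy0, hinj.eq_iff]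

lemma card_unimod (h : IsResidue θ) :
    ((Finset.univ.filter fun y : R × R => θ y.1 ≠ 0 ∨ θ y.2 ≠ 0).card : ℝ) =
      (Fintype.card R : ℝ) ^ 2 - ((Fintype.card R : ℝ) / Fintype.card κ) ^ 2 := by
  have h1 := Finset.card_filter_add_card_filter_not (s := (Finset.univ : Finset (R × R)))
    fun y => θ y.1 ≠ 0 ∨ θ y.2 ≠ 0
  have h2 : (Finset.univ.filter fun y : R × R => ¬(θ y.1 ≠ 0 ∨ θ y.2 ≠ 0)) =
      (Finset.univ.filter fun x : R => θ x = 0) ×ˢ (Finset.univ.filter fun x : R => θ x = 0) := by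
    ext y; simp
  rw [h2, Finset.card_product, Finset.card_univ, Fintype.card_prod] at h1
  rw [← mass_card_ker h, eq_sub_iff_add_eq, sq, sq]
  exact_mod_cast h1

/-- Step D: normalise the pencil -/
theorem mass_pencil (h : IsResidue θ) (hG : IsGd Gd) (Φ : M4 R → ℝ)
    (hΦ : ∀ (g : G4 R) f, Φ (g • f) = Φ f) :
    ∑ f : M4 R with (Gd (mapM θ f) ∧ ∀ i, f i 0 = 0) ∧ Tl f = T0, Φ f =
      ((Fintype.card R : ℝ) ^ 2 - ((Fintype.card R : ℝ) / Fintype.card κ) ^ 2) *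
      ∑ f : M4 R with ((Gd (mapM θ f) ∧ ∀ i, f i 0 = 0) ∧ Tl f = T0) ∧ (f 0 4, f 1 4) = (0, -1),
        Φ f := by
  rw [← card_unimod h]
  convert sum_norm Φ hΦ _ (fun f => (f 0 4, f 1 4)) (0, -1)
    (fun f => (Gd (mapM θ f) ∧ ∀ i, f i 0 = 0) ∧ Tl f = T0) ?_ ?_
  · intro f hf
    refine Finset.mem_filter.2 ⟨Finset.mem_univ _, hG.nl _ hf.1.1 ?_⟩
    obtain ⟨h1, h2, h3, h4, h5, h6⟩ := Tl_eq_T0.1 hf.2
    simp [Tl_eq_T0, mapM, h1, h2, h3, h4, h5, h6]
  · rintro ⟨a, b⟩ hy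
    obtain ⟨x, y, e⟩ : ∃ x y : R, a * x + b * y = 1 := by
      rcases (Finset.mem_filter.1 hy).2 with h1 | h1
      · obtain ⟨x, hx⟩ := ((h.unit _).2 h1).exists_right_inv
        exact ⟨x, 0, by rw [mul_zero, add_zero]; exact hx⟩
      · obtain ⟨y, hy⟩ := ((h.unit _).2 h1).exists_right_inv
        exact ⟨0, y, by rw [mul_zero, zero_add]; exact hy⟩
    refine ⟨gD a b x y e, fun f hf => ⟨⟨hG.inv_map _ ?_ hf.1.1, fun i => ?_⟩, ?_⟩, fun f _ => ?_⟩
    · funext i; fin_cases i <;> simp [gD, e0]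
    · rw [gD_apply, act_eq]; simp [qv, pen, hf.1.2]
    · obtain ⟨h1, h2, h3, h4, h5, h6⟩ := Tl_eq_T0.1 hf.2
      simp only [Tl_eq_T0, gD_apply, act_eq]
      simp [pol, pen, h1, h2, h3, h4, h5, h6]
      refine ⟨?_, ?_, ?_, ?_⟩
      exacts [by ring, by linear_combination -e, by linear_combination e, by ring]
    · simp only [gD_apply, act_eq]
      simp only [Prod.mk.injEq]
      simp [qv, pen]
      refine ⟨fun h => ⟨?_, ?_⟩, fun h => ⟨?_, ?_⟩⟩
      · linear_combination (-b) * h.1 + a * h.2 - f 0 4 * e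
      · linear_combination (-x) * h.1 - y * h.2 - (f 1 4 + 1) * e
      · rw [h.1, h.2]; ring
      · rw [h.1, h.2]; ring

/-- Step E: shift `x₀` -/
theorem mass_shift (hG : IsGd Gd) (Φ : M4 R → ℝ) (hΦ : ∀ (g : G4 R) f, Φ (g • f) = Φ f) :
    ∑ f : M4 R with ((Gd (mapM θ f) ∧ ∀ i, f i 0 = 0) ∧ Tl f = T0) ∧ (f 0 4, f 1 4) = (0, -1),
      Φ f = (Fintype.card R : ℝ) ^ 3 *
      ∑ f : M4 R with (((Gd (mapM θ f) ∧ ∀ i, f i 0 = 0) ∧ Tl f = T0) ∧ (f 0 4, f 1 4) = (0, -1))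
        ∧ ![f 0 6, f 0 8, f 0 9] = 0, Φ f := by
  have hc : (Fintype.card R : ℝ) ^ 3 = (Finset.univ : Finset (Fin 3 → R)).card := by simp
  rw [hc]
  convert sum_norm Φ hΦ _ (fun f => ![f 0 6, f 0 8, f 0 9]) 0
    (fun f => ((Gd (mapM θ f) ∧ ∀ i, f i 0 = 0) ∧ Tl f = T0) ∧ (f 0 4, f 1 4) = (0, -1))
    (fun _ _ => Finset.mem_univ _) ?_
  intro y _
  refine ⟨gE y, fun f hf => ⟨⟨⟨hG.inv_map _ ?_ hf.1.1.1, fun i => ?_⟩, ?_⟩, ?_⟩, fun f hf => ?_⟩
  · funext i; fin_cases i <;> simp [gE, e0]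
  · rw [gE_apply, act_eq]; simp [qv, hf.1.1.2]
  · obtain ⟨h1, h2, h3, h4, h5, h6⟩ := Tl_eq_T0.1 hf.1.2
    simp only [Tl_eq_T0, gE_apply, act_eq]
    simp [pol, h1, h2, h3, h4, h5, h6, hf.1.1.2]
  · obtain ⟨h1, h2, h3, h4, h5, h6⟩ := Tl_eq_T0.1 hf.1.2
    obtain ⟨h7, h8⟩ := Prod.ext_iff.1 hf.2
    simp only at h7 h8
    simp only [gE_apply, act_eq]
    simp [qv, h1, h4, h7, h8, hf.1.1.2]
  · obtain ⟨h1, h2, h3, h4, h5, h6⟩ := Tl_eq_T0.1 hf.1.2
    simp only [gE_apply, act_eq]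
    simp [qv, pol, h1, h2, h3, hf.1.1.2, funext_iff, Fin.forall_fin_succ]

omit [Fintype κ] in
/-- Step F: the normal forms are the degree 2 models with `a = 0` -/
theorem mass_up (hG : IsGd Gd) (Φ : M4 R → ℝ) :
    ∑ f : M4 R with (((Gd (mapM θ f) ∧ ∀ i, f i 0 = 0) ∧ Tl f = T0) ∧ (f 0 4, f 1 4) = (0, -1))
        ∧ ![f 0 6, f 0 8, f 0 9] = 0, Φ f =
      ∑ f : Model R with f.a = 0 ∧ (θ f.l ≠ 0 ∨ θ f.b ≠ 0), Φ (up f) := by
  symm
  refine Finset.sum_bij (fun f _ => up f) ?_ ?_ ?_ fun _ _ => rfl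
  · intro f hf
    simp only [Finset.mem_filter, Finset.mem_univ, true_and] at hf ⊢
    refine ⟨⟨⟨⟨?_, ?_⟩, ?_⟩, ?_⟩, ?_⟩
    · rw [up_map]
      exact (hG.up _ (by simp [Model.map, hf.1])).2 hf.2
    · intro i; fin_cases i <;> rfl
    · simp [Tl_eq_T0, up]
    · rfl
    · funext i; fin_cases i <;> rfl
  · intro f hf f' hf' e
    simp only [Finset.mem_filter, Finset.mem_univ, true_and] at hf hf'
    rw [← red_up hf.1, e, red_up hf'.1]
  · intro f hf
    simp only [Finset.mem_filter, Finset.mem_univ, true_and] at hf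
    obtain ⟨⟨⟨⟨h0, h9⟩, hT⟩, h78⟩, hz⟩ := hf
    obtain ⟨h1, h2, h3, h4, h5, h6⟩ := Tl_eq_T0.1 hT
    obtain ⟨h7, h8⟩ := Prod.ext_iff.1 h78
    simp only at h7 h8
    have z0 : f 0 6 = 0 := congrFun hz 0
    have z1 : f 0 8 = 0 := congrFun hz 1
    have z2 : f 0 9 = 0 := congrFun hz 2
    have e : up ⟨-f 0 5, -f 1 5, -f 1 6, 0, f 0 7, f 1 7, f 1 8, f 1 9⟩ = f := by
      funext i j
      fin_cases i <;> fin_cases j <;> simp [up, *]
    refine ⟨_, Finset.mem_filter.2 ⟨Finset.mem_univ _, rfl, ?_⟩, e⟩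
    rw [← e, up_map] at h0
    exact (hG.up _ (by simp [Model.map])).1 h0

omit [Fintype κ] in
lemma mass4_unit (h : IsResidue θ) (Ψ : WeierstrassCurve R → ℝ)
    (hΨ : ∀ (C : VariableChange R) W, Ψ (C • W) = Ψ W) :
    ∑ f : Model R with f.a = 0 ∧ θ f.l ≠ 0, Ψ f.jac =
      ((Finset.univ.filter fun x : R => θ x ≠ 0).card : ℝ) *
        ∑ W : WeierstrassCurve R, (nAff W : ℝ) * Ψ W := by
  have key : ∑ p ∈ (Finset.univ.filter fun x : R => θ x ≠ 0) ×ˢ ((Finset.univ : Finset (R × R)) ×ˢ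
        (Finset.univ.filter fun W : WeierstrassCurve R => W.a₆ = 0)), Ψ p.2.2 =
      ∑ f : Model R with f.a = 0 ∧ θ f.l ≠ 0, Ψ f.jac := by
    refine Finset.sum_bij (fun p _ => mass1_par ((0, p.1), p.2)) ?_ ?_ ?_ ?_
    · intro p hp
      simp only [Finset.mem_product, Finset.mem_filter, Finset.mem_univ, true_and] at hp ⊢
      simp [mass1_par, Model.shift, Model.scale, hp.1]
    · intro p hp p' hp' e
      simp only [Finset.mem_product, Finset.mem_filter, Finset.mem_univ, true_and] at hp hp'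
      have := mass1_par_inj h (p := ((0, p.1), p.2)) (p' := ((0, p'.1), p'.2)) (map_zero θ) hp.1
        hp.2 (map_zero θ) hp'.2 e
      exact Prod.ext (congrArg (·.1.2) this) (congrArg (·.2) this)
    · intro f hf
      simp only [Finset.mem_filter, Finset.mem_univ, true_and] at hf
      obtain ⟨⟨⟨r, l⟩, p⟩, h0, hl, h6, e⟩ := mass1_par_surj h (f := f) (by rw [hf.1, map_zero]) hf.2
      simp only at h0 hl h6
      have ea := (congrArg Model.a e).trans hf.1
      simp only [mass1_par, Model.shift, Model.scale] at ea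
      have hu : IsUnit (l + r) := (h.unit _).2 (by simpa [h0] using hl)
      have hr : r = 0 := hu.mul_right_eq_zero.1 (by linear_combination -ea)
      subst hr
      exact ⟨(l, p), by simp [hl, h6], e⟩
    · intro p hp
      simp only [Finset.mem_product, Finset.mem_filter, Finset.mem_univ, true_and] at hp
      exact (mass1_par_jac h Ψ hΨ ((0, p.1), p.2) hp.1 hp.2).symm
  rw [← key, Finset.sum_product, mass_step3 Ψ hΨ]
  simp only [Finset.sum_product (Finset.univ : Finset (R × R)), Finset.sum_const, nsmul_eq_mul,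
    Finset.card_univ, Fintype.card_prod, Nat.cast_mul]
  ring

lemma mass4_nonunit (h : IsResidue θ) (Ψ : WeierstrassCurve R → ℝ) :
    ∑ f : Model R with f.a = 0 ∧ θ f.l = 0 ∧ θ f.b ≠ 0, Ψ f.jac =
      ((Finset.univ.filter fun x : R => θ x = 0).card : ℝ) *
        (Finset.univ.filter fun x : R => θ x ≠ 0).card * ∑ W : WeierstrassCurve R, Ψ W := by
  have e : (Finset.univ.filter fun p : R × R × R => p.1 = 0 ∧ θ p.2.1 = 0 ∧ θ p.2.2 ≠ 0) =
      {0} ×ˢ ((Finset.univ.filter fun x : R => θ x = 0) ×ˢ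
        (Finset.univ.filter fun x : R => θ x ≠ 0)) := by
    ext p
    simp only [Finset.mem_product, Finset.mem_filter, Finset.mem_univ, true_and,
      Finset.mem_singleton]
  have c : ((Finset.univ.filter fun x : R => θ x = 0).card : ℝ) *
      (Finset.univ.filter fun x : R => θ x ≠ 0).card = (Finset.univ.filter
        fun p : R × R × R => p.1 = 0 ∧ θ p.2.1 = 0 ∧ θ p.2.2 ≠ 0).card := by
    rw [e, Finset.card_product, Finset.card_product, Finset.card_singleton, one_mul, Nat.cast_mul]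
  rw [c, Finset.sum_filter, ← mass_split.sum_comp, Fintype.sum_prod_type,
    ← nsmul_eq_mul, ← Finset.sum_const, Finset.sum_filter]
  refine Finset.sum_congr rfl fun p _ => ?_
  by_cases hp : p.1 = 0 ∧ θ p.2.1 = 0 ∧ θ p.2.2 ≠ 0
  · rw [if_pos hp, ← mass_fibre h Ψ ⟨by rw [hp.1, map_zero], hp.2⟩]
    exact Finset.sum_congr rfl fun v _ => if_pos hp
  · rw [if_neg hp]
    exact Finset.sum_eq_zero fun v _ => if_neg hp

/-- the degree 2 sum with `a = 0` exactly -/
theorem mass_two (h : IsResidue θ) (Ψ : WeierstrassCurve R → ℝ)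
    (hΨ : ∀ (C : VariableChange R) W, Ψ (C • W) = Ψ W) :
    ∑ f : Model R with f.a = 0 ∧ (θ f.l ≠ 0 ∨ θ f.b ≠ 0), Ψ f.jac =
      (Fintype.card R - (Fintype.card R : ℝ) / Fintype.card κ) *
        (∑ W : WeierstrassCurve R, (nAff W : ℝ) * Ψ W +
          (Fintype.card R : ℝ) / Fintype.card κ * ∑ W : WeierstrassCurve R, Ψ W) := by
  have e : ∑ f : Model R with f.a = 0 ∧ (θ f.l ≠ 0 ∨ θ f.b ≠ 0), Ψ f.jac =
      ∑ f : Model R with f.a = 0 ∧ θ f.l ≠ 0, Ψ f.jac +
        ∑ f : Model R with f.a = 0 ∧ θ f.l = 0 ∧ θ f.b ≠ 0, Ψ f.jac := by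
    simp only [Finset.sum_filter, ← Finset.sum_add_distrib]
    refine Finset.sum_congr rfl fun f _ => ?_
    by_cases h1 : f.a = 0 <;> by_cases h2 : θ f.l = 0 <;> by_cases h3 : θ f.b = 0 <;>
      simp [h1, h2, h3]
  rw [e, mass4_unit h Ψ hΨ, mass4_nonunit h Ψ, mass_card_ker h, mass_card_unit h]
  ring

/-- The sum over the models for which the standard point is good modulo the maximal ideal. -/
theorem mass_std (h : IsResidue θ) (hG : IsGd Gd) (Ψ : WeierstrassCurve R → ℝ)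
    (hΨ : ∀ (C : VariableChange R) W, Ψ (C • W) = Ψ W) :
    ∑ f : M4 R with Gd (mapM θ f), Ψ (red f).jac =
      (Fintype.card R : ℝ) ^ 14 * (1 - 1 / (Fintype.card κ : ℝ) ^ 2) ^ 2 *
        (1 - 1 / (Fintype.card κ : ℝ) ^ 3) * (1 - 1 / (Fintype.card κ : ℝ)) /
        (Fintype.card κ : ℝ) ^ 2 * (∑ W : WeierstrassCurve R, (nAff W : ℝ) * Ψ W +
          (Fintype.card R : ℝ) / Fintype.card κ * ∑ W : WeierstrassCurve R, Ψ W) := by
  have hq : (Fintype.card κ : ℝ) ≠ 0 := by exact_mod_cast Fintype.card_ne_zero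
  have hΦ := mass_jac_smul Ψ hΨ
  have e : ∑ f : Model R with f.a = 0 ∧ (θ f.l ≠ 0 ∨ θ f.b ≠ 0), Ψ (red (up f)).jac =
      ∑ f : Model R with f.a = 0 ∧ (θ f.l ≠ 0 ∨ θ f.b ≠ 0), Ψ f.jac :=
    Finset.sum_congr rfl fun f hf => by rw [red_up (Finset.mem_filter.1 hf).2.1]
  rw [mass_exact h hG _ hΦ, mass_planes h hG _ hΦ, mass_pencil h hG _ hΦ, mass_shift hG _ hΦ,
    mass_up hG, e, mass_two h Ψ hΨ]
  generalize ∑ W : WeierstrassCurve R, (nAff W : ℝ) * Ψ W +
    (Fintype.card R : ℝ) / Fintype.card κ * ∑ W : WeierstrassCurve R, Ψ W = S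
  field_simp

/-- a unimodular vector is the first row of an invertible matrix -/
lemma exists_row {A : Type*} [CommRing A] {v : Fin 4 → A} (hv : ∃ j, IsUnit (v j)) :
    ∃ k : GL (Fin 4) A, k.1 0 = v := by
  obtain ⟨j, hj⟩ := hv
  have h1 : ((1 : Mat A).updateRow j v).det = v j := by
    have := Matrix.det_updateRow_sum (1 : Mat A) j v
    rw [det_one, smul_eq_mul, mul_one] at this
    rw [← this]
    congr 2
    funext i
    simp [Finset.sum_apply, Matrix.one_apply]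
  refine ⟨GeneralLinearGroup.mk'' (((1 : Mat A).updateRow j v).submatrix (Equiv.swap 0 j) id) ?_, ?_⟩
  · rw [det_permute, h1]
    exact ((Equiv.Perm.sign (Equiv.swap 0 j)).isUnit.map (Int.castRingHom A)).mul hj
  · funext i
    simp

omit [Fintype κ] in
/-- Step A: move the point to the standard point modulo the maximal ideal -/
theorem mass_point (h : IsResidue θ) (Good : M4 κ → (Fin 4 → κ) → Prop)
    (hG : ∀ (g : G4 κ) f, Good (g • f) e0 ↔ Good f (g.2.1 0)) (Φ : M4 R → ℝ)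
    (hΦ : ∀ (g : G4 R) f, Φ (g • f) = Φ f) {x : Fin 4 → κ} (hx : x ≠ 0) :
    ∑ f : M4 R, (if Good (mapM θ f) x then Φ f else 0) =
      ∑ f : M4 R with Good (mapM θ f) e0, Φ f := by
  obtain ⟨v, rfl⟩ := h.surj.comp_left x
  obtain ⟨k, hk⟩ := exists_row (v := v) ((Function.ne_iff.1 hx).imp fun j hj => (h.unit _).2 hj)
  rw [Finset.sum_filter, ← Equiv.sum_comp (MulAction.toPerm ((1, k) : G4 R))
    fun f : M4 R => if Good (mapM θ f) e0 then Φ f else 0]
  refine Finset.sum_congr rfl fun f _ => ?_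
  rw [MulAction.toPerm_apply, hΦ, mapM_smul, hG, ← hk]
  rfl

/-- The mass formula for any notion of good point with the listed properties; `pt` lists the points
of projective space. -/
theorem mass_abs (h : IsResidue θ) (Good : M4 κ → (Fin 4 → κ) → Prop)
    (hG : ∀ (g : G4 κ) f, Good (g • f) e0 ↔ Good f (g.2.1 0)) (hG' : IsGd fun f => Good f e0)
    {P : Type*} [Fintype P] (pt : P → Fin 4 → κ) (hpt : ∀ p, pt p ≠ 0)
    (hP : Fintype.card P = Fintype.card κ ^ 3 + Fintype.card κ ^ 2 + Fintype.card κ + 1)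
    (ψ : WeierstrassCurve R → ℝ) (hψ : ∀ (C : VariableChange R) W, ψ (C • W) = ψ W) :
    avg Finset.univ (fun f : M4 R => (Nat.card {p : P // Good (mapM θ f) (pt p)} : ℝ) /
        (1 + (nAff (red f).jac : ℝ) * Nat.card κ / Nat.card R) * ψ (red f).jac) =
      (1 - 1 / (Fintype.card κ : ℝ) ^ 2) ^ 2 * (1 - 1 / (Fintype.card κ : ℝ) ^ 3) *
        (1 - 1 / (Fintype.card κ : ℝ) ^ 4) * avg Finset.univ ψ := by
  have hq : (0 : ℝ) < Fintype.card κ := by exact_mod_cast Fintype.card_pos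
  have hN : (0 : ℝ) < Fintype.card R := by exact_mod_cast Fintype.card_pos
  set Ψ : WeierstrassCurve R → ℝ :=
    fun W => ψ W / (1 + (nAff W : ℝ) * Fintype.card κ / Fintype.card R) with hΨdef
  have hΨ : ∀ (C : VariableChange R) W, Ψ (C • W) = Ψ W := by
    intro C W
    simp only [hΨdef, hψ, nAff_smul]
  have h5 : ∑ W : WeierstrassCurve R, ψ W = ∑ W : WeierstrassCurve R, Ψ W +
      (Fintype.card κ : ℝ) / Fintype.card R * ∑ W : WeierstrassCurve R, (nAff W : ℝ) * Ψ W := by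
    rw [Finset.mul_sum, ← Finset.sum_add_distrib]
    refine Finset.sum_congr rfl fun W _ => ?_
    have hpos : (0 : ℝ) < 1 + (nAff W : ℝ) * Fintype.card κ / Fintype.card R := by positivity
    have : ψ W = (1 + (nAff W : ℝ) * Fintype.card κ / Fintype.card R) * Ψ W := by
      simp only [hΨdef]
      rw [mul_div_cancel₀ _ hpos.ne']
    rw [this]
    ring
  have h6 : ∀ f : M4 R, (Nat.card {p : P // Good (mapM θ f) (pt p)} : ℝ) /
      (1 + (nAff (red f).jac : ℝ) * Nat.card κ / Nat.card R) * ψ (red f).jac =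
      ∑ p : P, if Good (mapM θ f) (pt p) then Ψ (red f).jac else 0 := fun f => by
    rw [← Finset.sum_filter, Finset.sum_const, nsmul_eq_mul]
    simp only [hΨdef, Nat.card_eq_fintype_card, Fintype.card_subtype]
    ring
  have h7 : ∀ p : P, ∑ f : M4 R, (if Good (mapM θ f) (pt p) then Ψ (red f).jac else 0) = _ :=
    fun p => mass_point h Good hG _ (mass_jac_smul Ψ hΨ) (hpt p)
  have h8 : Fintype.card (M4 R) = Fintype.card R ^ 20 := by simp [← pow_mul]
  unfold avg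
  simp only [h6]
  rw [Finset.sum_comm]
  simp only [h7]
  rw [mass_std h hG' Ψ hΨ, h5, Finset.sum_const, nsmul_eq_mul, Finset.card_univ, Finset.card_univ,
    Finset.card_univ, hP, h8, card_W]
  push_cast
  field_simp
  ring

end SelAvg.Q4
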