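import Pool.Agent.H38Sel.AlgC

/-!
Degree 4 models (pairs of quaternary quadratic forms), the group `GL₂ × GL₄`, the attached degree 2
model `red f` and the induced action on it.
-/

namespace SelAvg.Q4

open WeierstrassCurve Matrix

variable {R S : Type*} [CommRing R] [CommRing S]

/-- coefficients of a quaternary quadratic form, in the order 11,12,13,14,22,23,24,33,34,44 -/
abbrev QF (R : Type*) := Fin 10 → R

abbrev Mat (R : Type*) := Matrix (Fin 4) (Fin 4) R

/-- the upper triangular matrix of a form -/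
def ut (c : QF R) : Mat R := !![c 0, c 1, c 2, c 3; 0, c 4, c 5, c 6; 0, 0, c 7, c 8; 0, 0, 0, c 9]

/-- the form `x ↦ x N xᵀ` -/
def cf (N : Mat R) : QF R := ![N 0 0, N 0 1 + N 1 0, N 0 2 + N 2 0, N 0 3 + N 3 0, N 1 1,
  N 1 2 + N 2 1, N 1 3 + N 3 1, N 2 2, N 2 3 + N 3 2, N 3 3]

/-- the value of a form -/
def qv (c : QF R) (x : Fin 4 → R) : R :=
  c 0 * x 0 ^ 2 + c 1 * x 0 * x 1 + c 2 * x 0 * x 2 + c 3 * x 0 * x 3 + c 4 * x 1 ^ 2
    + c 5 * x 1 * x 2 + c 6 * x 1 * x 3 + c 7 * x 2 ^ 2 + c 8 * x 2 * x 3 + c 9 * x 3 ^ 2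

/-- the polar form -/
def pol (c : QF R) (x y : Fin 4 → R) : R :=
  2 * c 0 * x 0 * y 0 + c 1 * (x 0 * y 1 + x 1 * y 0) + c 2 * (x 0 * y 2 + x 2 * y 0)
    + c 3 * (x 0 * y 3 + x 3 * y 0) + 2 * c 4 * x 1 * y 1 + c 5 * (x 1 * y 2 + x 2 * y 1)
    + c 6 * (x 1 * y 3 + x 3 * y 1) + 2 * c 7 * x 2 * y 2 + c 8 * (x 2 * y 3 + x 3 * y 2)
    + 2 * c 9 * x 3 * y 3

/-- the form `x ↦ c (x g)` -/
def act (g : Mat R) (c : QF R) : QF R := cf (g * ut c * gᵀ)

/-- the alternating matrix with the given entries above the diagonal -/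
def alt (s : Fin 6 → R) : Mat R :=
  !![0, s 0, s 1, s 2; -s 0, 0, s 3, s 4; -s 1, -s 3, 0, s 5; -s 2, -s 4, -s 5, 0]

/-- the entries above the diagonal -/
def up6 (N : Mat R) : Fin 6 → R := ![N 0 1, N 0 2, N 0 3, N 1 2, N 1 3, N 2 3]

/-- the entries below the diagonal -/
def low (N : Mat R) : Fin 6 → R := ![N 1 0, N 2 0, N 3 0, N 2 1, N 3 1, N 3 2]

/-- the mixed coefficients of a form -/
def off (c : QF R) : Fin 6 → R := ![c 1, c 2, c 3, c 5, c 6, c 8]

/-- the polar form of the Pfaffian -/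
def pf2 (a b : Fin 6 → R) : R :=
  a 0 * b 5 + a 5 * b 0 - a 1 * b 4 - a 4 * b 1 + a 2 * b 3 + a 3 * b 2

/-- the action on alternating matrices -/
def cj (g : Mat R) (s : Fin 6 → R) : Fin 6 → R := up6 (g * alt s * gᵀ)

/-- the shift of the root of `y^2 + P y - Q` under `c ↦ act g c` -/
def shq (g : Mat R) (c : QF R) : R := pf2 (up6 (g * ut c * gᵀ)) (low (g * ut c * gᵀ))

def P2 (c d : QF R) : R := c 1 * d 8 - c 2 * d 6 + c 3 * d 5

def QM (c d e f : QF R) : R :=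
  4 * c 0 * d 4 * e 7 * f 9 - c 0 * d 4 * e 8 * f 8 - c 0 * d 7 * e 6 * f 6 - c 0 * d 9 * e 5 * f 5
    - c 4 * d 7 * e 3 * f 3 - c 4 * d 9 * e 2 * f 2 - c 7 * d 9 * e 1 * f 1 + c 0 * d 5 * e 6 * f 8
    + c 4 * d 2 * e 3 * f 8 + c 7 * d 1 * e 3 * f 6 + c 9 * d 1 * e 2 * f 5 - c 1 * d 8 * e 3 * f 5

/-- the Pfaffian of the mixed coefficients -/
def PP (c : QF R) : R := P2 c c

/-- `4 QQ + PP^2` is the determinant of the polar form -/
def QQ (c : QF R) : R := QM c c c c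

lemma det4 (M : Mat R) : M.det =
    M 0 0 * (M 1 1 * (M 2 2 * M 3 3 - M 2 3 * M 3 2) - M 1 2 * (M 2 1 * M 3 3 - M 2 3 * M 3 1)
      + M 1 3 * (M 2 1 * M 3 2 - M 2 2 * M 3 1))
    - M 0 1 * (M 1 0 * (M 2 2 * M 3 3 - M 2 3 * M 3 2) - M 1 2 * (M 2 0 * M 3 3 - M 2 3 * M 3 0)
      + M 1 3 * (M 2 0 * M 3 2 - M 2 2 * M 3 0))
    + M 0 2 * (M 1 0 * (M 2 1 * M 3 3 - M 2 3 * M 3 1) - M 1 1 * (M 2 0 * M 3 3 - M 2 3 * M 3 0)
      + M 1 3 * (M 2 0 * M 3 1 - M 2 1 * M 3 0))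
    - M 0 3 * (M 1 0 * (M 2 1 * M 3 2 - M 2 2 * M 3 1) - M 1 1 * (M 2 0 * M 3 2 - M 2 2 * M 3 0)
      + M 1 2 * (M 2 0 * M 3 1 - M 2 1 * M 3 0)) := by
  rw [Matrix.det_succ_row_zero]
  simp [Fin.sum_univ_four, Matrix.det_fin_three, Fin.succAbove]
  ring

lemma cf_ut (c : QF R) : cf (ut c) = c := by
  funext i; fin_cases i <;> simp [cf, ut]

lemma add_alt_low (N : Mat R) : N + alt (low N) = ut (cf N) := by
  ext i j; fin_cases i <;> fin_cases j <;> simp [alt, low, ut, cf]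

lemma cf_add (N N' : Mat R) : cf (N + N') = cf N + cf N' := by
  funext i; fin_cases i <;> simp [cf] <;> ring

lemma cf_smul (a : R) (N : Mat R) : cf (a • N) = a • cf N := by
  funext i; fin_cases i <;> simp [cf] <;> ring

lemma cf_alt (s : Fin 6 → R) : cf (alt s) = 0 := by
  funext i; fin_cases i <;> simp [cf, alt]

lemma ut_add (c d : QF R) : ut (c + d) = ut c + ut d := by
  ext i j; fin_cases i <;> fin_cases j <;> simp [ut]

lemma ut_smul (a : R) (c : QF R) : ut (a • c) = a • ut c := by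
  ext i j; fin_cases i <;> fin_cases j <;> simp [ut]

lemma alt_add (s t : Fin 6 → R) : alt (s + t) = alt s + alt t := by
  ext i j; fin_cases i <;> fin_cases j <;> simp [alt] <;> ring

lemma alt_sub (s t : Fin 6 → R) : alt (s - t) = alt s - alt t := by
  ext i j; fin_cases i <;> fin_cases j <;> simp [alt] <;> ring

lemma alt_smul (a : R) (s : Fin 6 → R) : alt (a • s) = a • alt s := by
  ext i j; fin_cases i <;> fin_cases j <;> simp [alt]

lemma up6_alt (s : Fin 6 → R) : up6 (alt s) = s := by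
  funext i; fin_cases i <;> simp [up6, alt]

lemma conj_transpose (g N : Mat R) : (g * N * gᵀ)ᵀ = g * Nᵀ * gᵀ := by
  rw [transpose_mul, transpose_mul, transpose_transpose, Matrix.mul_assoc]

lemma alt_transpose (s : Fin 6 → R) : (alt s)ᵀ = -alt s := by
  ext i j; fin_cases i <;> fin_cases j <;> simp [alt]

lemma alt_up6 {M : Mat R} (h : Mᵀ = -M) (hd : ∀ i, M i i = 0) : alt (up6 M) = M := by
  have h' : ∀ i j, M j i = -M i j := fun i j => congrFun (congrFun h i) j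
  ext i j
  fin_cases i <;> fin_cases j <;> simp [alt, up6, hd, h' 0 1, h' 0 2, h' 0 3, h' 1 2, h' 1 3, h' 2 3]

lemma conj_apply (g N : Mat R) (i j : Fin 4) : (g * N * gᵀ) i j =
    (g i 0 * N 0 0 + g i 1 * N 1 0 + g i 2 * N 2 0 + g i 3 * N 3 0) * g j 0
    + (g i 0 * N 0 1 + g i 1 * N 1 1 + g i 2 * N 2 1 + g i 3 * N 3 1) * g j 1
    + (g i 0 * N 0 2 + g i 1 * N 1 2 + g i 2 * N 2 2 + g i 3 * N 3 2) * g j 2
    + (g i 0 * N 0 3 + g i 1 * N 1 3 + g i 2 * N 2 3 + g i 3 * N 3 3) * g j 3 := by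
  simp only [Matrix.mul_apply, Fin.sum_univ_four, transpose_apply]

lemma conj_ut (g : Mat R) (c : QF R) (i j : Fin 4) : (g * ut c * gᵀ) i j =
    g i 0 * c 0 * g j 0 + (g i 0 * c 1 + g i 1 * c 4) * g j 1
    + (g i 0 * c 2 + g i 1 * c 5 + g i 2 * c 7) * g j 2
    + (g i 0 * c 3 + g i 1 * c 6 + g i 2 * c 8 + g i 3 * c 9) * g j 3 := by
  rw [conj_apply]; simp [ut]

lemma conj_alt (g : Mat R) (s : Fin 6 → R) (i j : Fin 4) : (g * alt s * gᵀ) i j =
    s 0 * (g i 0 * g j 1 - g i 1 * g j 0) + s 1 * (g i 0 * g j 2 - g i 2 * g j 0)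
    + s 2 * (g i 0 * g j 3 - g i 3 * g j 0) + s 3 * (g i 1 * g j 2 - g i 2 * g j 1)
    + s 4 * (g i 1 * g j 3 - g i 3 * g j 1) + s 5 * (g i 2 * g j 3 - g i 3 * g j 2) := by
  rw [conj_apply]; simp [alt]; ring

lemma alt_cj (g : Mat R) (s : Fin 6 → R) : alt (cj g s) = g * alt s * gᵀ :=
  alt_up6 (by rw [conj_transpose, alt_transpose, Matrix.mul_neg, Matrix.neg_mul])
    fun i => by rw [conj_alt]; ring

lemma cj_add (g : Mat R) (s t : Fin 6 → R) : cj g (s + t) = cj g s + cj g t := by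
  rw [← up6_alt (cj g s + cj g t), alt_add, alt_cj, alt_cj, cj, alt_add, Matrix.mul_add,
    Matrix.add_mul]

lemma pf2_cj (g : Mat R) (a b : Fin 6 → R) : pf2 (cj g a) (cj g b) = g.det * pf2 a b := by
  rw [det4]
  simp [pf2, cj, up6, conj_alt]
  ring

lemma alt_off (c : QF R) : alt (off c) = ut c - (ut c)ᵀ := by
  ext i j; fin_cases i <;> fin_cases j <;> simp [alt, off, ut]

lemma cj_off (g : Mat R) (c : QF R) :
    cj g (off c) = up6 (g * ut c * gᵀ) - low (g * ut c * gᵀ) := by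
  rw [cj, alt_off, Matrix.mul_sub, Matrix.sub_mul, ← conj_transpose]
  generalize g * ut c * gᵀ = N
  funext i; fin_cases i <;> simp [up6, low]

lemma off_cf (N : Mat R) : off (cf N) = up6 N + low N := by
  funext i; fin_cases i <;> simp [off, cf, up6, low]

lemma act_add (g : Mat R) (c d : QF R) : act g (c + d) = act g c + act g d := by
  rw [act, ut_add, Matrix.mul_add, Matrix.add_mul, cf_add, act, act]

lemma act_smul (g : Mat R) (a : R) (c : QF R) : act g (a • c) = a • act g c := by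
  rw [act, ut_smul, Matrix.mul_smul, Matrix.smul_mul, cf_smul, act]

lemma act_one (c : QF R) : act 1 c = c := by
  rw [act, transpose_one, Matrix.one_mul, Matrix.mul_one, cf_ut]

lemma act_cf (g N : Mat R) : act g (cf N) = cf (g * N * gᵀ) := by
  rw [act, ← add_alt_low, Matrix.mul_add, Matrix.add_mul, cf_add, ← alt_cj, cf_alt, add_zero]

lemma act_mul (g h : Mat R) (c : QF R) : act (g * h) c = act g (act h c) := by
  rw [act, act.eq_1 h, act_cf, transpose_mul]
  simp only [Matrix.mul_assoc]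

lemma qv_act (g : Mat R) (c : QF R) (x : Fin 4 → R) : qv (act g c) x = qv c (x ᵥ* g) := by
  simp [qv, act, cf, conj_ut, Matrix.vecMul, dotProduct, Fin.sum_univ_four]
  ring

lemma qv_add (c : QF R) (x y : Fin 4 → R) : qv c (x + y) = qv c x + qv c y + pol c x y := by
  simp [qv, pol]; ring

lemma pol_act (g : Mat R) (c : QF R) (x y : Fin 4 → R) :
    pol (act g c) x y = pol c (x ᵥ* g) (y ᵥ* g) := by
  have h1 := qv_add (act g c) x y
  have h2 := qv_add c (x ᵥ* g) (y ᵥ* g)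
  rw [qv_act, qv_act, qv_act, Matrix.add_vecMul] at h1
  linear_combination h2 - h1

lemma two_PP (c : QF R) : 2 * PP c = pf2 (off c) (off c) := by
  simp [PP, P2, pf2, off]; ring

lemma four_QQ (c : QF R) : 4 * QQ c + PP c ^ 2 = (ut c + (ut c)ᵀ).det := by
  rw [det4]
  simp [QQ, QM, PP, P2, ut]
  ring

lemma PP_act (g : Mat R) (c : QF R) : PP (act g c) = g.det * PP c + 2 * shq g c := by
  rw [det4]
  simp [PP, P2, act, cf, shq, pf2, up6, low, conj_ut]
  ring

lemma shq_one (c : QF R) : shq 1 c = 0 := by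
  simp [shq, pf2, low, ut]

lemma shq_mul (g h : Mat R) (c : QF R) :
    shq (g * h) c = shq g (act h c) + g.det * shq h c := by
  set N := h * ut c * hᵀ with hN
  have e1 : g * h * ut c * (g * h)ᵀ = g * N * gᵀ := by
    rw [hN, transpose_mul]; simp only [Matrix.mul_assoc]
  have e2 : g * ut (act h c) * gᵀ = g * N * gᵀ + alt (cj g (low N)) := by
    rw [act, ← hN, ← add_alt_low, Matrix.mul_add, Matrix.add_mul, alt_cj]
  have e3 : cj g (up6 N - low N) = up6 (g * N * gᵀ) - low (g * N * gᵀ) := by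
    have h1 : alt (up6 N - low N) = N - Nᵀ := by
      ext i j; fin_cases i <;> fin_cases j <;> simp [alt, up6, low]
    rw [cj, h1, Matrix.mul_sub, Matrix.sub_mul, ← conj_transpose]
    generalize g * N * gᵀ = M
    funext i; fin_cases i <;> simp [up6, low]
  have e4 := pf2_cj g (up6 N - low N + low N) (low N)
  rw [cj_add, e3, sub_add_cancel] at e4
  rw [shq, shq, shq, e1, e2, ← hN, ← e4]
  generalize g * N * gᵀ = M
  generalize cj g (low N) = t
  simp [pf2, up6, low, alt]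
  ring

lemma act_map (φ : R →+* S) (g : Mat R) (c : QF R) :
    act (g.map φ) (φ ∘ c) = φ ∘ act g c := by
  funext i
  fin_cases i <;> simp [act, cf, conj_ut]

lemma shq_map (φ : R →+* S) (g : Mat R) (c : QF R) : shq (g.map φ) (φ ∘ c) = φ (shq g c) := by
  simp [shq, pf2, up6, low, conj_ut]

lemma PP_map (φ : R →+* S) (c : QF R) : PP (φ ∘ c) = φ (PP c) := by simp [PP, P2]

lemma QQ_map (φ : R →+* S) (c : QF R) : QQ (φ ∘ c) = φ (QQ c) := by simp [QQ, QM, map_ofNat]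

lemma four_QQ_act (g : Mat R) (c : QF R) : 4 * (QQ (act g c) + shq g c ^ 2
    + g.det * PP c * shq g c) = 4 * (g.det ^ 2 * QQ c) := by
  have h1 := four_QQ (act g c)
  have h2 := four_QQ c
  have h3 : ut (act g c) + (ut (act g c))ᵀ = g * (ut c + (ut c)ᵀ) * gᵀ := by
    rw [Matrix.mul_add, Matrix.add_mul, ← conj_transpose, act]
    generalize g * ut c * gᵀ = N
    ext i j; fin_cases i <;> fin_cases j <;> simp [ut, cf] <;> ring
  rw [h3, det_mul, det_mul, det_transpose, ← h2, PP_act] at h1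
  linear_combination h1

lemma QQ_act (g : Mat R) (c : QF R) :
    QQ (act g c) + shq g c ^ 2 + g.det * PP c * shq g c = g.det ^ 2 * QQ c := by
  let U := MvPolynomial ((Fin 4 × Fin 4) ⊕ Fin 10) ℤ
  let φ : U →+* R := MvPolynomial.eval₂Hom (Int.castRingHom R) (Sum.elim (fun p => g p.1 p.2) c)
  let g₀ : Mat U := Matrix.of fun i j => MvPolynomial.X (Sum.inl (i, j))
  let c₀ : QF U := fun i => MvPolynomial.X (Sum.inr i)
  have hg : g₀.map φ = g := by ext i j; exact MvPolynomial.eval₂Hom_X' _ _ _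
  have hc : φ ∘ c₀ = c := by funext i; exact MvPolynomial.eval₂Hom_X' _ _ _
  have h4 : (4 : U) ≠ 0 := by
    have : ((4 : ℕ) : U) ≠ 0 := Nat.cast_ne_zero.2 (by norm_num)
    exact_mod_cast this
  have h := congrArg φ (mul_left_cancel₀ h4 (four_QQ_act g₀ c₀))
  rw [← hg, ← hc, act_map, QQ_map, QQ_map, PP_map, shq_map, ← RingHom.mapMatrix_apply,
    ← RingHom.map_det]
  simpa only [map_add, map_mul, map_pow] using h

end SelAvg.Q4
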