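import Pool.Agent.H94Q.Mod

/-! Pairs of forms, the group, the degree 2 model `red f`, objects, lines on quadrics. -/

namespace SelAvg.Q4

open WeierstrassCurve Matrix

variable {R S : Type*} [CommRing R] [CommRing S]

/-- degree 4 models -/
abbrev M4 (R : Type*) := Fin 2 → QF R

/-- the group -/
abbrev G4 (R : Type*) [CommRing R] := GL (Fin 2) R × GL (Fin 4) R

/-- the member `x q₀ + z q₁` of the pencil -/
def pen (f : M4 R) (x z : R) : QF R := x • f 0 + z • f 1

def mapM (φ : R →+* S) (f : M4 R) : M4 S := fun i => φ ∘ f i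

/-- the model `y^2 + PP (x q₀ + z q₁) y = QQ (x q₀ + z q₁)` -/
def red (f : M4 R) : Model R where
  l := P2 (f 0) (f 0)
  m := P2 (f 0) (f 1) + P2 (f 1) (f 0)
  n := P2 (f 1) (f 1)
  a := QM (f 0) (f 0) (f 0) (f 0)
  b := QM (f 1) (f 0) (f 0) (f 0) + QM (f 0) (f 1) (f 0) (f 0) + QM (f 0) (f 0) (f 1) (f 0)
    + QM (f 0) (f 0) (f 0) (f 1)
  c := QM (f 1) (f 1) (f 0) (f 0) + QM (f 1) (f 0) (f 1) (f 0) + QM (f 1) (f 0) (f 0) (f 1)
    + QM (f 0) (f 1) (f 1) (f 0) + QM (f 0) (f 1) (f 0) (f 1) + QM (f 0) (f 0) (f 1) (f 1)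
  d := QM (f 0) (f 1) (f 1) (f 1) + QM (f 1) (f 0) (f 1) (f 1) + QM (f 1) (f 1) (f 0) (f 1)
    + QM (f 1) (f 1) (f 1) (f 0)
  e := QM (f 1) (f 1) (f 1) (f 1)

lemma red_q (f : M4 R) (x z : R) : (red f).q x z = PP (pen f x z) := by
  simp [red, Model.q, PP, P2, pen]; ring

lemma red_g (f : M4 R) (x z : R) : (red f).g x z = QQ (pen f x z) := by
  simp [red, Model.g, QQ, QM, pen]; ring

lemma red_map (φ : R →+* S) (f : M4 R) : red (mapM φ f) = (red f).map φ := by
  ext <;> simp [red, mapM, P2, QM, map_ofNat]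

lemma pen_map (φ : R →+* S) (f : M4 R) (x z : R) : pen (mapM φ f) (φ x) (φ z) = φ ∘ pen f x z := by
  funext i; simp [pen, mapM]

lemma mapM_mapM {T : Type*} [CommRing T] (φ : R →+* S) (ψ : S →+* T) (f : M4 R) :
    mapM ψ (mapM φ f) = mapM (ψ.comp φ) f := rfl

lemma mapM_injective {φ : R →+* S} (h : Function.Injective φ) : Function.Injective (mapM φ) :=
  fun _ _ e => funext fun i => funext fun j => h (congrFun (congrFun e i) j)

/-- two models with the same `q` and `g` over the polynomial ring are equal -/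
lemma model_ext {f f' : Model R}
    (hq : (f.map Polynomial.C).q Polynomial.X 1 = (f'.map Polynomial.C).q Polynomial.X 1)
    (hg : (f.map Polynomial.C).g Polynomial.X 1 = (f'.map Polynomial.C).g Polynomial.X 1) :
    f = f' := by
  have h1 := fun n => congrArg (fun p => Polynomial.coeff p n) hq
  have h2 := fun n => congrArg (fun p => Polynomial.coeff p n) hg
  simp only [Model.q, Model.g, Model.map, one_pow, mul_one, Polynomial.coeff_add,
    Polynomial.coeff_C_mul, Polynomial.coeff_X_pow, Polynomial.coeff_X, Polynomial.coeff_C] at h1 h2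
  ext
  exacts [by simpa using h1 2, by simpa using h1 1, by simpa using h1 0, by simpa using h2 4,
    by simpa using h2 3, by simpa using h2 2, by simpa using h2 1, by simpa using h2 0]

instance : SMul (G4 R) (M4 R) := ⟨fun g f i => act g.2.1 (pen f (g.1.1 i 0) (g.1.1 i 1))⟩

lemma smul_apply (g : G4 R) (f : M4 R) (i : Fin 2) :
    (g • f) i = act g.2.1 (pen f (g.1.1 i 0) (g.1.1 i 1)) := rfl

lemma pen_smul (g : G4 R) (f : M4 R) (x z : R) : pen (g • f) x z =
    act g.2.1 (pen f (x * g.1.1 0 0 + z * g.1.1 1 0) (x * g.1.1 0 1 + z * g.1.1 1 1)) := by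
  rw [pen, smul_apply, smul_apply, ← act_smul, ← act_smul, ← act_add]
  congr 1
  funext i; simp [pen]; ring

instance : MulAction (G4 R) (M4 R) where
  one_smul f := by
    funext i
    rw [smul_apply]
    fin_cases i <;> simp [pen, act_one]
  mul_smul g h f := by
    funext i
    rw [smul_apply, smul_apply, pen_smul, ← act_mul]
    simp [Matrix.mul_apply, Fin.sum_univ_two]

/-- base change of group elements -/
def mapG (φ : R →+* S) : G4 R →* G4 S :=
  (GeneralLinearGroup.map φ).prodMap (GeneralLinearGroup.map φ)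

lemma mapG_fst (φ : R →+* S) (g : G4 R) : (mapG φ g).1.1 = g.1.1.map φ := rfl

lemma mapG_snd (φ : R →+* S) (g : G4 R) : (mapG φ g).2.1 = g.2.1.map φ := rfl

lemma mapG_mapG {T : Type*} [CommRing T] (φ : R →+* S) (ψ : S →+* T) (g : G4 R) :
    mapG ψ (mapG φ g) = mapG (ψ.comp φ) g := rfl

lemma mapG_injective {φ : R →+* S} (h : Function.Injective φ) : Function.Injective (mapG φ) :=
  fun _ _ e => Prod.ext
    (Units.ext (Matrix.map_injective h (congrArg (fun g : G4 S => g.1.1) e)))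
    (Units.ext (Matrix.map_injective h (congrArg (fun g : G4 S => g.2.1) e)))

lemma mapM_smul (φ : R →+* S) (g : G4 R) (f : M4 R) : mapM φ (g • f) = mapG φ g • mapM φ f := by
  funext i
  rw [smul_apply, mapG_fst, mapG_snd, Matrix.map_apply, Matrix.map_apply, pen_map, act_map]
  rfl

/-- the scalars, which act trivially -/
def scal (R : Type*) [CommRing R] : Rˣ →* G4 R :=
  ((GeneralLinearGroup.scalar (Fin 2)).comp ((powMonoidHom 2).comp invMonoidHom)).prod
    (GeneralLinearGroup.scalar (Fin 4))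

lemma scal_fst (t : Rˣ) : (scal R t).1 = G.scM (t⁻¹ ^ 2) := rfl

lemma scal_snd (t : Rˣ) : (scal R t).2 = GeneralLinearGroup.scalar (Fin 4) t := rfl

lemma scal_snd_val (t : Rˣ) : (scal R t).2.1 = (t : R) • (1 : Mat R) := by
  ext i j; simp [scal_snd, Matrix.diagonal_apply, Matrix.one_apply]

lemma scal_fst_val (t : Rˣ) :
    (scal R t).1.1 = ((t⁻¹ ^ 2 : Rˣ) : R) • (1 : Matrix (Fin 2) (Fin 2) R) := by
  rw [scal_fst]
  generalize t⁻¹ ^ 2 = u
  ext i j; simp [G.scM, Matrix.diagonal_apply, Matrix.one_apply]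

lemma scal_comm (t : Rˣ) (g : G4 R) : scal R t * g = g * scal R t := by
  refine Prod.ext (Units.ext ?_) (Units.ext ?_)
  · simp only [Prod.fst_mul, Units.val_mul, scal_fst_val, Matrix.smul_mul, Matrix.mul_smul,
      Matrix.one_mul, Matrix.mul_one]
  · simp only [Prod.snd_mul, Units.val_mul, scal_snd_val, Matrix.smul_mul, Matrix.mul_smul,
      Matrix.one_mul, Matrix.mul_one]

lemma scal_injective : Function.Injective (scal R) := fun t t' h => Units.ext (by
  have := congrArg (fun g : G4 R => g.2.1 0 0) h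
  simpa [scal_snd_val] using this)

lemma mapG_scal (φ : R →+* S) (t : Rˣ) : mapG φ (scal R t) = scal S (Units.map (φ : R →* S) t) := by
  refine Prod.ext (Units.ext ?_) (Units.ext ?_)
  · rw [mapG_fst, scal_fst_val, scal_fst_val]
    ext i j; by_cases h : i = j <;> simp [h]
  · rw [mapG_snd, scal_snd_val, scal_snd_val]
    ext i j; by_cases h : i = j <;> simp [h]

lemma act_scalar (t : R) (c : QF R) : act (t • (1 : Mat R)) c = t ^ 2 • c := by
  rw [act, transpose_smul, transpose_one, Matrix.smul_mul, Matrix.mul_smul, Matrix.smul_mul,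
    Matrix.one_mul, Matrix.mul_one, cf_smul, cf_smul, cf_ut, smul_smul, sq]

lemma scal_smul (t : Rˣ) (f : M4 R) : scal R t • f = f := by
  have h : (t : R) ^ 2 * ((t⁻¹ : Rˣ) : R) ^ 2 = 1 := by rw [← mul_pow, Units.mul_inv, one_pow]
  funext i j
  rw [smul_apply, scal_snd_val, scal_fst_val, act_scalar]
  fin_cases i <;> simp [pen, ← mul_assoc, h]

/-- the determinant of the second component -/
def det4u (g : G4 R) : Rˣ := GeneralLinearGroup.det g.2

lemma det4u_val (g : G4 R) : (det4u g : R) = g.2.1.det := rfl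

lemma shq_quad (g : Mat R) (c d : QF R) (x z : R) : shq g (x • c + z • d) =
    shq g c * x ^ 2 + (shq g (c + d) - shq g c - shq g d) * x * z + shq g d * z ^ 2 := by
  simp only [shq, ut_add, ut_smul, Matrix.mul_add, Matrix.add_mul, Matrix.mul_smul,
    Matrix.smul_mul]
  generalize g * ut c * gᵀ = N
  generalize g * ut d * gᵀ = N'
  simp [pf2, up6, low]
  ring

/-- the element of the group of degree 2 models induced by `g` at `f` -/
def hh (g : G4 R) (f : M4 R) : G R where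
  M := g.1
  μ := (det4u g)⁻¹
  r0 := ((det4u g)⁻¹ : Rˣ) * shq g.2.1 (pen f (g.1.1 0 0) (g.1.1 0 1))
  r1 := ((det4u g)⁻¹ : Rˣ) * (shq g.2.1 (pen f (g.1.1 0 0) (g.1.1 0 1) + pen f (g.1.1 1 0) (g.1.1 1 1))
    - shq g.2.1 (pen f (g.1.1 0 0) (g.1.1 0 1)) - shq g.2.1 (pen f (g.1.1 1 0) (g.1.1 1 1)))
  r2 := ((det4u g)⁻¹ : Rˣ) * shq g.2.1 (pen f (g.1.1 1 0) (g.1.1 1 1))

@[simp] lemma hh_M (g : G4 R) (f : M4 R) : (hh g f).M = g.1 := rfl

@[simp] lemma hh_μ (g : G4 R) (f : M4 R) : (hh g f).μ = (det4u g)⁻¹ := rfl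

lemma hh_r (g : G4 R) (f : M4 R) (x z : R) :
    (hh g f).r0 * x ^ 2 + (hh g f).r1 * x * z + (hh g f).r2 * z ^ 2 = ((det4u g)⁻¹ : Rˣ) *
      shq g.2.1 (pen f (x * g.1.1 0 0 + z * g.1.1 1 0) (x * g.1.1 0 1 + z * g.1.1 1 1)) := by
  have h : pen f (x * g.1.1 0 0 + z * g.1.1 1 0) (x * g.1.1 0 1 + z * g.1.1 1 1) =
      x • pen f (g.1.1 0 0) (g.1.1 0 1) + z • pen f (g.1.1 1 0) (g.1.1 1 1) := by
    funext i; simp [pen]; ring
  rw [h, shq_quad]
  simp only [hh]
  ring

lemma det4u_map (φ : R →+* S) (g : G4 R) : det4u (mapG φ g) = Units.map (φ : R →* S) (det4u g) :=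
  Units.ext (by
    rw [det4u_val, mapG_snd, ← RingHom.mapMatrix_apply, ← RingHom.map_det]; rfl)

lemma hh_map (φ : R →+* S) (g : G4 R) (f : M4 R) :
    hh (mapG φ g) (mapM φ f) = G.map φ (hh g f) := by
  have e : ∀ c d : QF R, φ ∘ c + φ ∘ d = φ ∘ (c + d) := fun c d => by funext i; simp
  refine G.ext rfl ?_ ?_ ?_ ?_
  · rw [hh_μ, det4u_map, ← map_inv]; rfl
  all_goals
    simp only [hh, det4u_map, mapG_fst, mapG_snd, Matrix.map_apply, pen_map, e, shq_map]
    simp [G.map]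

lemma red_smul_aux (g : G4 R) (f : M4 R) (x z : R) :
    (red (g • f)).q x z = (hh g f • red f).q x z ∧ (red (g • f)).g x z = (hh g f • red f).g x z := by
  have h1 := G.q_pt (hh g f) (red f) x z
  have h2 := G.g_pt (hh g f) (red f) x z
  rw [hh_r, red_q] at h1 h2
  rw [red_g] at h2
  simp only [G.m11, G.m12, G.m21, G.m22, hh_M, hh_μ] at h1 h2
  rw [red_q, red_g, pen_smul]
  generalize pen f (x * g.1.1 0 0 + z * g.1.1 1 0) (x * g.1.1 0 1 + z * g.1.1 1 1) = c at h1 h2 ⊢
  have h3 := PP_act g.2.1 c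
  have h4 := QQ_act g.2.1 c
  rw [← det4u_val] at h3 h4
  have hu : (det4u g : R) * ((det4u g)⁻¹ : Rˣ) = 1 := Units.mul_inv _
  generalize (((det4u g)⁻¹ : Rˣ) : R) = w at h1 h2 hu
  generalize (det4u g : R) = u at h3 h4 hu
  constructor
  · linear_combination h3 + u * h1 - (2 * shq g.2.1 c - (hh g f • red f).q x z) * hu
  · linear_combination h4 + u ^ 2 * h2 + (shq g.2.1 c ^ 2 * (u * w + 1) + u * PP c * shq g.2.1 c
      + (hh g f • red f).g x z * (u * w + 1)) * hu

theorem red_smul (g : G4 R) (f : M4 R) : red (g • f) = hh g f • red f := by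
  have h := red_smul_aux (mapG Polynomial.C g) (mapM Polynomial.C f) Polynomial.X 1
  rw [← mapM_smul, red_map, hh_map, red_map, ← G.map_smul] at h
  exact model_ext h.1 h.2

lemma G_ext_r {k k' : G R} (hM : k.M = k'.M) (hμ : k.μ = k'.μ)
    (h : ∀ x z : R, k.r0 * x ^ 2 + k.r1 * x * z + k.r2 * z ^ 2 =
      k'.r0 * x ^ 2 + k'.r1 * x * z + k'.r2 * z ^ 2) : k = k' := by
  have h0 := h 1 0
  have h2 := h 0 1
  have h1 := h 1 1
  exact G.ext hM hμ (by linear_combination h0) (by linear_combination h1 - h0 - h2)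
    (by linear_combination h2)

lemma det4u_mul (g g' : G4 R) : det4u (g * g') = det4u g * det4u g' := map_mul _ _ _

theorem hh_mul (g g' : G4 R) (f : M4 R) : hh (g * g') f = hh g (g' • f) * hh g' f := by
  refine G_ext_r rfl (by simp [det4u_mul, mul_comm]) fun x z => ?_
  have h1 := congrArg Pt.y (G.mul_pt (hh g (g' • f)) (hh g' f) ⟨x, z, 0⟩)
  simp only [G.pt, mul_zero, zero_add] at h1
  rw [h1, hh_r, hh_r, hh_r, pen_smul]
  simp only [G.m11, G.m12, G.m21, G.m22, hh_M, hh_μ, Prod.fst_mul, Prod.snd_mul, Units.val_mul,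
    Matrix.mul_apply, Fin.sum_univ_two, det4u_mul, mul_inv, shq_mul, ← det4u_val]
  have hu : (det4u g : R) * ((det4u g)⁻¹ : Rˣ) = 1 := Units.mul_inv _
  rw [show x * (g.1.1 0 0 * g'.1.1 0 0 + g.1.1 0 1 * g'.1.1 1 0) +
      z * (g.1.1 1 0 * g'.1.1 0 0 + g.1.1 1 1 * g'.1.1 1 0) =
      (x * g.1.1 0 0 + z * g.1.1 1 0) * g'.1.1 0 0 + (x * g.1.1 0 1 + z * g.1.1 1 1) * g'.1.1 1 0
      by ring,
    show x * (g.1.1 0 0 * g'.1.1 0 1 + g.1.1 0 1 * g'.1.1 1 1) +
      z * (g.1.1 1 0 * g'.1.1 0 1 + g.1.1 1 1 * g'.1.1 1 1) =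
      (x * g.1.1 0 0 + z * g.1.1 1 0) * g'.1.1 0 1 + (x * g.1.1 0 1 + z * g.1.1 1 1) * g'.1.1 1 1
      by ring]
  generalize pen f _ _ = c
  linear_combination ((((det4u g')⁻¹ : Rˣ) : R) * shq g'.2.1 c) * hu

theorem hh_one (f : M4 R) : hh 1 f = 1 := by
  refine G_ext_r rfl (by simp [det4u]) fun x z => ?_
  rw [hh_r]
  simp [shq_one]

theorem hh_scal (t : Rˣ) (f : M4 R) : hh (scal R t) f = G.scalar (t⁻¹ ^ 2) := by
  refine G_ext_r rfl ?_ fun x z => ?_
  · rw [hh_μ, G.scalar_μ, ← pow_mul, inv_pow]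
    congr 1
    apply Units.ext
    rw [det4u_val, scal_snd_val]
    simp
  · rw [hh_r, scal_snd_val]
    simp [shq, pf2, low, ut]

/-- a model with an identification of the Jacobian -/
@[ext] structure Obj4 (R : Type*) [CommRing R] where
  f : M4 R
  γ : VariableChange R

namespace Obj4

/-- the attached object of degree 2 -/
def two (z : Obj4 R) : Obj R := ⟨red z.f, z.γ⟩

def Over (z : Obj4 R) (W : WeierstrassCurve R) : Prop := z.two.Over W

def map (φ : R →+* S) (z : Obj4 R) : Obj4 S := ⟨mapM φ z.f, z.γ.map φ⟩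

def rmul (z : Obj4 R) (C : VariableChange R) : Obj4 R := ⟨z.f, z.γ * C⟩

instance : SMul (G4 R) (Obj4 R) := ⟨fun g z => ⟨g • z.f, (hh g z.f).Gam (red z.f) * z.γ⟩⟩

@[simp] lemma smul_f (g : G4 R) (z : Obj4 R) : (g • z).f = g • z.f := rfl
@[simp] lemma smul_γ (g : G4 R) (z : Obj4 R) : (g • z).γ = (hh g z.f).Gam (red z.f) * z.γ := rfl
@[simp] lemma map_f (φ : R →+* S) (z : Obj4 R) : (z.map φ).f = mapM φ z.f := rfl
@[simp] lemma map_γ (φ : R →+* S) (z : Obj4 R) : (z.map φ).γ = z.γ.map φ := rfl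
@[simp] lemma rmul_f (z : Obj4 R) (C : VariableChange R) : (z.rmul C).f = z.f := rfl
@[simp] lemma rmul_γ (z : Obj4 R) (C : VariableChange R) : (z.rmul C).γ = z.γ * C := rfl
@[simp] lemma two_f (z : Obj4 R) : z.two.f = red z.f := rfl
@[simp] lemma two_γ (z : Obj4 R) : z.two.γ = z.γ := rfl

lemma two_smul (g : G4 R) (z : Obj4 R) : (g • z).two = hh g z.f • z.two :=
  Obj.ext (red_smul g z.f) rfl

lemma two_map (φ : R →+* S) (z : Obj4 R) : (z.map φ).two = z.two.map φ :=
  Obj.ext (red_map φ z.f) rfl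

lemma two_rmul (z : Obj4 R) (C : VariableChange R) : (z.rmul C).two = z.two.rmul C := rfl

instance : MulAction (G4 R) (Obj4 R) where
  one_smul z := by ext1 <;> simp [hh_one, G.Gam_one]
  mul_smul g h z := by ext1 <;> simp [mul_smul, hh_mul, G.Gam_mul, red_smul, mul_assoc]

lemma Over.smul {z : Obj4 R} {W : WeierstrassCurve R} (h : z.Over W) (g : G4 R) : (g • z).Over W := by
  rw [Over, two_smul]; exact Obj.Over.smul h _

lemma over_smul_iff {z : Obj4 R} {W : WeierstrassCurve R} (g : G4 R) :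
    (g • z).Over W ↔ z.Over W :=
  ⟨fun h => by simpa using h.smul g⁻¹, fun h => h.smul g⟩

lemma Over.map {z : Obj4 R} {W : WeierstrassCurve R} (h : z.Over W) (φ : R →+* S) :
    (z.map φ).Over (W.map φ) := by
  rw [Over, two_map]; exact Obj.Over.map h φ

lemma map_smul (φ : R →+* S) (g : G4 R) (z : Obj4 R) : (g • z).map φ = mapG φ g • z.map φ := by
  ext1
  · exact mapM_smul φ g z.f
  · simp only [map_γ, smul_γ, map_f, hh_map, red_map, Obj.vc_map_mul, G.Gam_map]

lemma map_map {T : Type*} [CommRing T] (φ : R →+* S) (ψ : S →+* T) (z : Obj4 R) :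
    (z.map φ).map ψ = z.map (ψ.comp φ) := by
  ext1
  · rfl
  · simp [VariableChange.map_map]

lemma map_injective {φ : R →+* S} (h : Function.Injective φ) : Function.Injective (Obj4.map φ) :=
  fun _ _ e => Obj4.ext (mapM_injective h (congrArg Obj4.f e))
    (VariableChange.map_injective h (congrArg Obj4.γ e))

lemma smul_rmul (g : G4 R) (z : Obj4 R) (C : VariableChange R) :
    g • z.rmul C = (g • z).rmul C := by
  ext1 <;> simp [mul_assoc]

lemma rmul_rmul (z : Obj4 R) (C C' : VariableChange R) :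
    (z.rmul C).rmul C' = z.rmul (C * C') := by
  ext1 <;> simp [mul_assoc]

lemma map_rmul (φ : R →+* S) (z : Obj4 R) (C : VariableChange R) :
    (z.rmul C).map φ = (z.map φ).rmul (C.map φ) := by
  ext1 <;> simp [Obj.vc_map_mul]

lemma scal_smul (t : Rˣ) (z : Obj4 R) : scal R t • z = z := by
  ext1 <;> simp [Q4.scal_smul, hh_scal, G.Gam_scalar]

end Obj4

/-- the unit by which `g` rescales the Weierstrass equation -/
lemma Gam_hh_u (g : G4 R) (f : M4 R) :
    ((hh g f).Gam (red f)).u = (GeneralLinearGroup.det g.1 * det4u g)⁻¹ := by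
  rw [G.Gam_u, hh_μ, mul_inv, mul_comm]; rfl

/-- The form `c` vanishes on the span of `u`, `v` and `y` is the root of `y^2 + PP y - QQ` that
belongs to the ruling of this line. -/
def Line (c : QF R) (u v : Fin 4 → R) (y : R) : Prop :=
  ∃ s : Fin 6 → R, (ut c + alt s) *ᵥ u = 0 ∧ (ut c + alt s) *ᵥ v = 0 ∧ y = pf2 (off c + s) s

theorem Line.act {g : Mat R} {c : QF R} {u v : Fin 4 → R} {y : R}
    (h : Line c (u ᵥ* g) (v ᵥ* g) y) : Line (act g c) u v (g.det * y - shq g c) := by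
  obtain ⟨s, hu, hv, rfl⟩ := h
  have e : ut (Q4.act g c) + alt (cj g s - low (g * ut c * gᵀ)) = g * (ut c + alt s) * gᵀ := by
    rw [Q4.act, ← add_alt_low, alt_sub, alt_cj, Matrix.mul_add, Matrix.add_mul]; abel
  refine ⟨cj g s - low (g * ut c * gᵀ), ?_, ?_, ?_⟩
  · rw [e, ← Matrix.mulVec_mulVec, ← Matrix.mulVec_mulVec, Matrix.mulVec_transpose, hu,
      Matrix.mulVec_zero]
  · rw [e, ← Matrix.mulVec_mulVec, ← Matrix.mulVec_mulVec, Matrix.mulVec_transpose, hv,
      Matrix.mulVec_zero]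
  · rw [← pf2_cj, cj_add, cj_off, shq, Q4.act, off_cf]
    generalize g * ut c * gᵀ = N
    simp [pf2]
    ring

/-- the standard point -/
def e0 : Fin 4 → R := ![1, 0, 0, 0]

/-- The normal form attached to a degree 2 model with `a = 0`:
`-x₀ x₃ - l x₁ x₂ + b x₂^2`, `x₀ x₂ - x₁^2 - m x₁ x₂ - n x₁ x₃ + c x₂^2 + d x₂ x₃ + e x₃^2`. -/
def up (f : Model R) : M4 R :=
  ![![0, 0, 0, -1, 0, -f.l, 0, f.b, 0, 0], ![0, 0, 1, 0, -1, -f.m, -f.n, f.c, f.d, f.e]]

lemma red_up {f : Model R} (ha : f.a = 0) : red (up f) = f := by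
  ext <;> simp [red, up, P2, QM, ha]

lemma up_map (φ : R →+* S) (f : Model R) : mapM φ (up f) = up (f.map φ) := by
  funext i j; fin_cases i <;> fin_cases j <;> simp [mapM, up]

/-- coefficient vectors: index `10 i + j` -/
def equivVec : M4 R ≃ (Fin 20 → R) where
  toFun f := ![f 0 0, f 0 1, f 0 2, f 0 3, f 0 4, f 0 5, f 0 6, f 0 7, f 0 8, f 0 9,
    f 1 0, f 1 1, f 1 2, f 1 3, f 1 4, f 1 5, f 1 6, f 1 7, f 1 8, f 1 9]
  invFun x := ![![x 0, x 1, x 2, x 3, x 4, x 5, x 6, x 7, x 8, x 9],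
    ![x 10, x 11, x 12, x 13, x 14, x 15, x 16, x 17, x 18, x 19]]
  left_inv f := by funext i j; fin_cases i <;> fin_cases j <;> rfl
  right_inv x := by funext k; fin_cases k <;> rfl

end SelAvg.Q4
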