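import Pool.Agent.H94Q.Glob0
import Pool.Agent.H94Q.ToM

/-! The lattice of integral models of a torsor; twists. -/

namespace SelAvg.FF.T4

open WeierstrassCurve WithZero Filter Topology Matrix SelAvg.Q4
open scoped Classical ENNReal

section Lin

variable {R : Type} [CommRing R]

lemma smul_addM (g : G4 R) (f f' : M4 R) : g • (f + f') = g • f + g • f' := by
  funext i
  rw [Pi.add_apply, Q4.smul_apply, Q4.smul_apply, Q4.smul_apply, ← act_add]
  congr 1
  funext j
  simp [pen]
  ring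

lemma smul_smulM (g : G4 R) (a : R) (f : M4 R) : g • (a • f) = a • g • f := by
  funext i
  rw [Pi.smul_apply, Q4.smul_apply, Q4.smul_apply, ← act_smul]
  congr 1
  funext j
  simp [pen]
  ring

lemma vec_add (f f' : M4 R) : equivVec (f + f') = equivVec f + equivVec f' := by
  funext i
  fin_cases i <;> rfl

lemma vec_smul (a : R) (f : M4 R) : equivVec (a • f) = a • equivVec f := by
  funext i
  fin_cases i <;> rfl

lemma toM_add (x y : Fin 20 → R) : toM (x + y) = toM x + toM y :=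
  equivVec.injective (by
    rw [vec_add, Equiv.apply_symm_apply, Equiv.apply_symm_apply, Equiv.apply_symm_apply])

lemma toM_smul (a : R) (x : Fin 20 → R) : toM (a • x) = a • toM x :=
  equivVec.injective (by rw [vec_smul, Equiv.apply_symm_apply, Equiv.apply_symm_apply])

omit [CommRing R] in
lemma toM_comp {S : Type} (φ : R → S) (x : Fin 20 → R) :
    toM (fun k => φ (x k)) = fun i j => φ (toM x i j) := by
  funext i j
  fin_cases i <;> fin_cases j <;> rfl

omit [CommRing R] in
lemma forall_vec {p : R → Prop} {f : M4 R} : (∀ k, p (equivVec f k)) ↔ ∀ i j, p (f i j) := by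
  constructor
  · intro h i j
    fin_cases i <;> fin_cases j
    exacts [h 0, h 1, h 2, h 3, h 4, h 5, h 6, h 7, h 8, h 9, h 10, h 11, h 12, h 13, h 14, h 15,
      h 16, h 17, h 18, h 19]
  · intro h k
    fin_cases k <;> exact h _ _

/-- the action on coefficient vectors -/
noncomputable def linG (g : G4 R) : (Fin 20 → R) ≃ₗ[R] (Fin 20 → R) where
  toFun x := equivVec (g • toM x)
  invFun x := equivVec (g⁻¹ • toM x)
  map_add' x y := by rw [toM_add, smul_addM, vec_add]
  map_smul' a x := by rw [toM_smul, smul_smulM, vec_smul, RingHom.id_apply]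
  left_inv x := by simp [toM]
  right_inv x := by simp [toM]

lemma linG_apply (g : G4 R) (x : Fin 20 → R) : linG g x = equivVec (g • toM x) := rfl

/-- the scalars of the first factor -/
def sc1 (t : Rˣ) : G4 R := (scN 2 t, 1)

lemma sc1_smul (t : Rˣ) (f : M4 R) : sc1 t • f = (t : R) • f := by
  funext i j
  rw [Q4.smul_apply]
  change act 1 (pen f ((scN 2 t).1 i 0) ((scN 2 t).1 i 1)) j = _
  rw [act_one, scN_val]
  fin_cases i <;> simp [pen]

lemma sc1_comm (t : Rˣ) (g : G4 R) : sc1 t * g = g * sc1 t :=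
  Prod.ext (scN_comm t g.1) ((one_mul g.2).trans (mul_one g.2).symm)

end Lin

variable {F : Type} [Field F]

lemma cls_sc1 (t : (A F)ˣ) : cls (sc1 t) = 2 • idiv t := by
  change idiv (GeneralLinearGroup.det (scN 2 t)) + idiv (GeneralLinearGroup.det 1) = _
  rw [det_scN, idiv_pow, map_one, idiv_one, add_zero]

/-- the twist of the bundle of rank two -/
noncomputable def tw1G (E : Div F) : Equiv.Perm (XG F) := RC.act (KG F) (sc1 (piD E))⁻¹

lemma tw1G_mk (E : Div F) (g : G4 (A F)) :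
    tw1G E (RC.mk (KG F) g) = RC.mk (KG F) (sc1 (piD E) * g) := by
  rw [tw1G, RC.act_mk, inv_inv, sc1_comm]

lemma pN_tw1G (E : Div F) (x : XG F) : pN (tw1G E x) = twN 2 E (pN x) := by
  obtain ⟨g, rfl⟩ := x.mk_surj
  rw [tw1G_mk, pN_mk, pN_mk, twN_mk]
  rfl

lemma pM_tw1G (E : Div F) (x : XG F) : pM (tw1G E x) = pM x := by
  obtain ⟨g, rfl⟩ := x.mk_surj
  rw [tw1G_mk, pM_mk, pM_mk]
  exact congrArg _ (one_mul _)

lemma orb_wdg (u : (A F)ˣ) (a : Fin 20 → A F) : wdg kV u a = (u : A F) • a := by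
  funext i
  rw [wdg_apply]
  exact congrArg (· * a i) (pow_one _)

/-- the family of lattices of models -/
noncomputable def LV (g : G4 (A F)) : Lat F 20 :=
  ⟨kV, kV_pos, linG g, fun u a => by rw [orb_wdg, orb_wdg, map_smul]⟩

variable [Cv F]

lemma tw1G_act (E : Div F) (γ : G4 F) (x : XG F) :
    tw1G E (actG F γ x) = actG F γ (tw1G E x) := by
  obtain ⟨g, rfl⟩ := x.mk_surj
  rw [actG_mk, tw1G_mk, tw1G_mk, actG_mk, mul_assoc]

lemma tw1G_mem_XD {D E : Div F} {x : XG F} : tw1G E x ∈ XD (D + 2 • E) ↔ x ∈ XD D := by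
  obtain ⟨g, rfl⟩ := x.mk_surj
  rw [tw1G_mk, mk_mem_XD, mk_mem_XD, cls_mul, cls_sc1, idiv_piD]
  exact exists_congr fun u => by rw [add_right_comm, add_comm (2 • E), add_left_inj]

lemma linG_dlg (g : G4 (A F)) (x : Fin 20 → F) :
    linG g (dlg x) = equivVec (g • mapM (toA F) (toM x)) := by
  rw [linG_apply]
  exact congrArg (fun f => equivVec (g • f)) (toM_comp (toA F) x)

lemma mem_hbox_linG {g : G4 (A F)} {x : Fin 20 → F} : x ∈ hbox (linG g) ↔ IntM g (toM x) := by
  rw [mem_hbox, linG_dlg, intM_iff]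
  exact forall_vec (p := fun a => a ∈ Oh F)

/-- the integral models -/
noncomputable def VB (g : G4 (A F)) : Finset (M4 F) :=
  (hbox (linG g)).map equivVec.symm.toEmbedding

lemma mem_VB {g : G4 (A F)} {f : M4 F} : f ∈ VB g ↔ IntM g f := by
  rw [VB, Finset.mem_map_equiv, mem_hbox_linG, Equiv.symm_symm, toM, Equiv.symm_apply_apply]

lemma card_VB (g : G4 (A F)) : (VB g).card = (hbox (linG g)).card := Finset.card_map _

lemma VB_K {k : G4 (A F)} (hk : k ∈ KG F) (g : G4 (A F)) : VB (k * g) = VB g := by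
  ext f
  rw [mem_VB, mem_VB, intM_K hk]

lemma sum_VB_act {M : Type} [AddCommMonoid M] (γ : G4 F) (g : G4 (A F)) (h : M4 F → M) :
    ∑ f ∈ VB (g * (gA F γ)⁻¹), h f = ∑ f ∈ VB g, h (γ • f) := by
  refine (Finset.sum_equiv (MulAction.toPerm γ) (fun f => ?_) fun f _ => rfl).symm
  rw [mem_VB, mem_VB, MulAction.toPerm_apply, intM_act]

/-- the family of torsors through `g` -/
noncomputable def gm (g : G4 (A F)) (m : ℕ) : G4 (A F) := sc1 (piD (m • PP F)) * g

lemma cls_gm (g : G4 (A F)) (m : ℕ) : cls (gm g m) = cls g + (2 * m) • PP F := by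
  rw [gm, cls_mul, cls_sc1, idiv_piD, add_comm, smul_smul]

lemma tw1G_out (x : XG F) (m : ℕ) : tw1G (m • PP F) x = RC.mk (KG F) (gm x.out m) := by
  rw [gm, ← tw1G_mk, RC.mk_out]

lemma LV_tw (g : G4 (A F)) (m : ℕ) (a : Fin 20 → A F) : (LV g).tw m a = linG (gm g m) a := by
  change wdg kV (piD (m • PP F)) (linG g a) = _
  rw [orb_wdg, linG_apply, linG_apply, gm, mul_smul, sc1_smul, vec_smul]

lemma mem_LV_box {g : G4 (A F)} {m : ℕ} {x : Fin 20 → F} :
    x ∈ (LV g).box m ↔ IntM (gm g m) (toM x) := by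
  rw [Lat.box, mem_hbox, LV_tw, ← mem_hbox, mem_hbox_linG]

lemma LV_loc (g : G4 (A F)) (m : ℕ) (v : Place F) (x : Fin 20 → F) :
    toM ((LV g).loc m v x) = locM v (gm g m) (toM x) := by
  unfold Lat.loc locM
  rw [toM_comp, LV_tw, linG_dlg, toM, Equiv.symm_apply_apply]

lemma avg_VB_gm (g : G4 (A F)) (m : ℕ) (h : M4 F → ℝ) :
    avg (VB (gm g m)) h = avg ((LV g).box m) fun x => h (toM x) := by
  have e : VB (gm g m) = ((LV g).box m).map equivVec.symm.toEmbedding := by
    ext f
    rw [Finset.mem_map_equiv, mem_LV_box, mem_VB, Equiv.symm_symm, toM, Equiv.symm_apply_apply]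
  rw [e, avg, avg, Finset.sum_map, Finset.card_map]
  rfl

end SelAvg.FF.T4
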