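import Pool.Agent.H94Q.ModB

/-! Points of degree 4 models, chords, the difference map and the covering map: definitions. -/

namespace SelAvg.Q4

open WeierstrassCurve Matrix
open scoped Classical

variable {R S : Type*} [CommRing R] [CommRing S] {L L' : Type*} [Field L] [Field L']

abbrev P4 (R : Type*) := Fin 4 → R

/-- the action on points: `Q` lies on `g • f` iff `pt g Q` lies on `f` -/
def pt (g : G4 R) (Q : P4 R) : P4 R := Q ᵥ* g.2.1

def e1 : P4 R := ![0, 1, 0, 0]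

/-- both forms vanish -/
def Zero (f : M4 R) (Q : P4 R) : Prop := ∀ i, qv (f i) Q = 0

/-- `v` is tangent at `Q` -/
def Tan (f : M4 R) (Q v : P4 R) : Prop := ∀ i, pol (f i) Q v = 0

/-- the same point of projective space -/
def Eqv (Q Q' : P4 L) : Prop := ∃ t : L, t ≠ 0 ∧ Q' = t • Q

structure On (f : M4 L) (Q : P4 L) : Prop where
  prim : Q ≠ 0
  eq : Zero f Q

def Soluble (f : M4 L) : Prop := ∃ Q, On f Q

/-- the two gradients at `Q` are independent -/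
def Smooth (f : M4 L) (Q : P4 L) : Prop :=
  ∃ u w, pol (f 0) Q u * pol (f 1) Q w - pol (f 0) Q w * pol (f 1) Q u ≠ 0

/-- the pointed curve has a normal form whose standard point is smooth -/
def Good (f : M4 L) (Q : P4 L) : Prop :=
  ∃ (g : G4 L) (m : Model L), m.a = 0 ∧ (m.l ≠ 0 ∨ m.b ≠ 0) ∧ g • f = up m ∧ pt g e0 = Q

def Indep (u v : P4 L) : Prop := ∀ a b : L, a • u + b • v = 0 → a = 0 ∧ b = 0

/-- `Q, v` span the chord through `Q, Q'` (the tangent if `Q = Q'`) -/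
def Dir (f : M4 L) (Q Q' v : P4 L) : Prop := Indep Q v ∧ (v = Q' ∨ (Eqv Q Q' ∧ Tan f Q v))

/-- `T` is the point of `red f` given by the member of the pencil containing the chord -/
def Chord (f : M4 L) (Q Q' : P4 L) (T : Pt L) : Prop :=
  T.Prim ∧ ∃ v, Dir f Q Q' v ∧ Line (pen f T.x T.z) Q v T.y

noncomputable def sig (f : M4 L) (Q Q' : P4 L) : Pt L :=
  if h : ∃ T, Chord f Q Q' T then h.choose else Pt.std

/-- the difference of two points -/
noncomputable def D4 (W : WeierstrassCurve L) (z : Obj4 L) (Q Q' : P4 L) : W.toAffine.Point :=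
  D W z.two (sig z.f Q Q) (sig z.f Q Q')

/-- the covering map -/
noncomputable def piP4 (W : WeierstrassCurve L) (z : Obj4 L) (Q : P4 L) : W.toAffine.Point :=
  piP W z.two (sig z.f Q Q)

/-- the normal form of a degree 2 object -/
def upO (z : Obj R) : Obj4 R := ⟨up z.f, z.γ⟩

lemma two_upO {z : Obj R} (ha : z.f.a = 0) : (upO z).two = z := Obj.ext (red_up ha) rfl

lemma upO_map (φ : R →+* S) (z : Obj R) : (upO z).map φ = upO (z.map φ) :=
  Obj4.ext (up_map φ z.f) rfl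

lemma mul_pt (g h : G4 R) (Q : P4 R) : pt (g * h) Q = pt h (pt g Q) := by
  simp only [pt, Prod.snd_mul, Units.val_mul, vecMul_vecMul]

@[simp] lemma one_pt (Q : P4 R) : pt (1 : G4 R) Q = Q := by simp [pt]

lemma inv_pt_pt (g : G4 R) (Q : P4 R) : pt g⁻¹ (pt g Q) = Q := by
  rw [← mul_pt, mul_inv_cancel, one_pt]

lemma pt_inv_pt (g : G4 R) (Q : P4 R) : pt g (pt g⁻¹ Q) = Q := by
  rw [← mul_pt, inv_mul_cancel, one_pt]

lemma pt_smul (g : G4 R) (t : R) (Q : P4 R) : pt g (t • Q) = t • pt g Q := smul_vecMul _ _ _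

lemma pt_add (g : G4 R) (Q Q' : P4 R) : pt g (Q + Q') = pt g Q + pt g Q' := add_vecMul _ _ _

lemma pt_zero (g : G4 R) : pt g 0 = 0 := zero_vecMul _

lemma pt_injective (g : G4 R) : Function.Injective (pt g) :=
  Function.LeftInverse.injective (inv_pt_pt g)

lemma pt_ne_zero (g : G4 R) {Q : P4 R} : pt g Q ≠ 0 ↔ Q ≠ 0 := by
  rw [← pt_zero g, (pt_injective g).ne_iff, pt_zero]

lemma scal_pt (t : Rˣ) (Q : P4 R) : pt (scal R t) Q = (t : R) • Q := by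
  rw [pt, scal_snd_val, vecMul_smul, vecMul_one]

lemma map_pt (φ : R →+* S) (g : G4 R) (Q : P4 R) : pt (mapG φ g) (φ ∘ Q) = φ ∘ pt g Q := by
  funext j
  simp [pt, mapG_snd, vecMul, dotProduct]

lemma map_e0 (φ : R →+* S) : φ ∘ (e0 : P4 R) = e0 := by
  funext i; fin_cases i <;> simp [e0]

lemma map_e1 (φ : R →+* S) : φ ∘ (e1 : P4 R) = e1 := by
  funext i; fin_cases i <;> simp [e1]

lemma e0_ne_zero [Nontrivial R] : (e0 : P4 R) ≠ 0 := fun h => by simpa [e0] using congrFun h 0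

lemma qv_map (φ : R →+* S) (c : QF R) (x : P4 R) : qv (φ ∘ c) (φ ∘ x) = φ (qv c x) := by
  simp [qv]

lemma pol_map (φ : R →+* S) (c : QF R) (x y : P4 R) :
    pol (φ ∘ c) (φ ∘ x) (φ ∘ y) = φ (pol c x y) := by
  simp [pol, map_ofNat]

lemma qv_smul (c : QF R) (t : R) (x : P4 R) : qv c (t • x) = t ^ 2 * qv c x := by
  simp [qv]; ring

lemma pol_comm (c : QF R) (x y : P4 R) : pol c x y = pol c y x := by
  simp [pol]; ring

lemma pol_smul_left (c : QF R) (t : R) (x y : P4 R) : pol c (t • x) y = t * pol c x y := by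
  simp [pol]; ring

lemma pol_smul_right (c : QF R) (t : R) (x y : P4 R) : pol c x (t • y) = t * pol c x y := by
  simp [pol]; ring

lemma pol_add_right (c : QF R) (x y y' : P4 R) : pol c x (y + y') = pol c x y + pol c x y' := by
  simp [pol]; ring

lemma pol_self (c : QF R) (x : P4 R) : pol c x x = 2 * qv c x := by
  simp [pol, qv]; ring

lemma qv_pen (f : M4 R) (x z : R) (Q : P4 R) :
    qv (pen f x z) Q = x * qv (f 0) Q + z * qv (f 1) Q := by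
  simp [qv, pen]; ring

lemma pol_pen (f : M4 R) (x z : R) (Q v : P4 R) :
    pol (pen f x z) Q v = x * pol (f 0) Q v + z * pol (f 1) Q v := by
  simp [pol, pen]; ring

lemma qv_e0 (c : QF R) : qv c e0 = c 0 := by simp [qv, e0]

lemma qv_smul_G (g : G4 R) (f : M4 R) (i : Fin 2) (Q : P4 R) : qv ((g • f) i) Q =
    g.1.1 i 0 * qv (f 0) (pt g Q) + g.1.1 i 1 * qv (f 1) (pt g Q) := by
  rw [smul_apply, qv_act, qv_pen]; rfl

lemma pol_smul_G (g : G4 R) (f : M4 R) (i : Fin 2) (Q v : P4 R) : pol ((g • f) i) Q v =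
    g.1.1 i 0 * pol (f 0) (pt g Q) (pt g v) + g.1.1 i 1 * pol (f 1) (pt g Q) (pt g v) := by
  rw [smul_apply, pol_act, pol_pen]; rfl

lemma zero_pt (g : G4 R) (f : M4 R) (Q : P4 R) : Zero f (pt g Q) ↔ Zero (g • f) Q := by
  have key : ∀ (g : G4 R) (f : M4 R) (Q : P4 R), Zero f (pt g Q) → Zero (g • f) Q :=
    fun g f Q h i => by rw [qv_smul_G, h 0, h 1, mul_zero, mul_zero, add_zero]
  refine ⟨key g f Q, fun h => ?_⟩
  have := key g⁻¹ (g • f) (pt g Q) (by rwa [inv_pt_pt])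
  rwa [inv_smul_smul] at this

lemma tan_pt (g : G4 R) (f : M4 R) (Q v : P4 R) : Tan f (pt g Q) (pt g v) ↔ Tan (g • f) Q v := by
  have key : ∀ (g : G4 R) (f : M4 R) (Q v : P4 R), Tan f (pt g Q) (pt g v) → Tan (g • f) Q v :=
    fun g f Q v h i => by rw [pol_smul_G, h 0, h 1, mul_zero, mul_zero, add_zero]
  refine ⟨key g f Q v, fun h => ?_⟩
  have := key g⁻¹ (g • f) (pt g Q) (pt g v) (by rwa [inv_pt_pt, inv_pt_pt])
  rwa [inv_smul_smul] at this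

lemma Zero.map {f : M4 R} {Q : P4 R} (h : Zero f Q) (φ : R →+* S) : Zero (mapM φ f) (φ ∘ Q) :=
  fun i => (qv_map φ _ _).trans (by rw [h i, map_zero])

lemma zero_map {φ : R →+* S} (hφ : Function.Injective φ) {f : M4 R} {Q : P4 R} :
    Zero (mapM φ f) (φ ∘ Q) ↔ Zero f Q :=
  ⟨fun h i => hφ ((qv_map φ _ _).symm.trans ((h i).trans (map_zero φ).symm)), fun h => h.map φ⟩

lemma Zero.smul {f : M4 R} {Q : P4 R} (h : Zero f Q) (t : R) : Zero f (t • Q) :=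
  fun i => by rw [qv_smul, h i, mul_zero]

lemma zero_e0 {f : M4 R} : Zero f e0 ↔ ∀ i, f i 0 = 0 := by simp only [Zero, qv_e0]

lemma zero_up (m : Model R) : Zero (up m) e0 :=
  zero_e0.2 fun i => by fin_cases i <;> simp [up]

lemma Eqv.refl (Q : P4 L) : Eqv Q Q := ⟨1, one_ne_zero, (one_smul _ _).symm⟩

lemma Eqv.symm {Q Q' : P4 L} (h : Eqv Q Q') : Eqv Q' Q := by
  obtain ⟨t, ht, rfl⟩ := h
  exact ⟨t⁻¹, inv_ne_zero ht, by rw [smul_smul, inv_mul_cancel₀ ht, one_smul]⟩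

lemma Eqv.trans {Q Q' Q'' : P4 L} (h : Eqv Q Q') (h' : Eqv Q' Q'') : Eqv Q Q'' := by
  obtain ⟨t, ht, rfl⟩ := h
  obtain ⟨s, hs, rfl⟩ := h'
  exact ⟨s * t, mul_ne_zero hs ht, smul_smul _ _ _⟩

lemma Eqv.pt {Q Q' : P4 L} (h : Eqv Q Q') (g : G4 L) : Eqv (pt g Q) (pt g Q') := by
  obtain ⟨t, ht, rfl⟩ := h
  exact ⟨t, ht, pt_smul _ _ _⟩

lemma Eqv.map {Q Q' : P4 L} (h : Eqv Q Q') (φ : L →+* L') : Eqv (φ ∘ Q) (φ ∘ Q') := by
  obtain ⟨t, ht, rfl⟩ := h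
  exact ⟨φ t, (map_ne_zero φ).2 ht, funext fun i => map_mul φ _ _⟩

lemma map_ne_zero4 (φ : L →+* L') {Q : P4 L} : φ ∘ Q ≠ 0 ↔ Q ≠ 0 := by
  simp only [Function.ne_iff, Function.comp_apply, Pi.zero_apply, map_ne_zero]

lemma Eqv.of_map {Q Q' : P4 L} (hQ : Q ≠ 0) (φ : L →+* L') (h : Eqv (φ ∘ Q) (φ ∘ Q')) :
    Eqv Q Q' := by
  obtain ⟨t, ht, e⟩ := h
  obtain ⟨i, hi⟩ := Function.ne_iff.1 hQ
  have hi' : Q i ≠ 0 := hi
  have e' : ∀ j, φ (Q' j) = t * φ (Q j) := fun j => congrFun e j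
  have h1 : φ (Q' i / Q i) = t := by
    rw [map_div₀, e', mul_div_cancel_right₀ _ ((map_ne_zero φ).2 hi')]
  refine ⟨Q' i / Q i, fun h0 => ht (by rw [← h1, h0, map_zero]), funext fun j => φ.injective ?_⟩
  rw [e', Pi.smul_apply, smul_eq_mul, map_mul, h1]

lemma on_pt (g : G4 L) (f : M4 L) (Q : P4 L) : On f (pt g Q) ↔ On (g • f) Q :=
  ⟨fun h => ⟨(pt_ne_zero g).1 h.prim, (zero_pt g f Q).1 h.eq⟩,
    fun h => ⟨(pt_ne_zero g).2 h.prim, (zero_pt g f Q).2 h.eq⟩⟩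

lemma On.eqv {f : M4 L} {Q Q' : P4 L} (h : On f Q) (e : Eqv Q Q') : On f Q' := by
  obtain ⟨t, ht, rfl⟩ := e
  exact ⟨smul_ne_zero ht h.prim, h.eq.smul t⟩

lemma on_map (φ : L →+* L') (f : M4 L) (Q : P4 L) : On (mapM φ f) (φ ∘ Q) ↔ On f Q :=
  ⟨fun h => ⟨(map_ne_zero4 φ).1 h.prim, (zero_map φ.injective).1 h.eq⟩,
    fun h => ⟨(map_ne_zero4 φ).2 h.prim, h.eq.map φ⟩⟩

lemma on_up (m : Model L) : On (up m) e0 := ⟨e0_ne_zero, zero_up m⟩

lemma soluble_smul (g : G4 L) (f : M4 L) : Soluble (g • f) ↔ Soluble f :=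
  ⟨fun ⟨Q, h⟩ => ⟨pt g Q, (on_pt g f Q).2 h⟩,
    fun ⟨Q, h⟩ => ⟨pt g⁻¹ Q, (on_pt g f _).1 (by rwa [pt_inv_pt])⟩⟩

lemma triv_smul (g : G4 L) (f : M4 L) : (red (g • f)).Triv ↔ (red f).Triv := by
  rw [red_smul, Model.triv_smul]

lemma jac_smul4 (g : G4 R) (f : M4 R) :
    (red (g • f)).jac = (hh g f).Gam (red f) • (red f).jac := by
  rw [red_smul, G.jac_smul]

lemma Delta_smul4 (g : G4 R) (f : M4 R) : (red (g • f)).jac.Δ ≠ 0 ↔ (red f).jac.Δ ≠ 0 := by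
  rw [jac_smul4, Delta_smul_ne_zero]

lemma Obj4.Over.jac_Delta {W : WeierstrassCurve L} {z : Obj4 L} (hW : W.Δ ≠ 0) (hz : z.Over W) :
    (red z.f).jac.Δ ≠ 0 := Obj.Over.jac_Delta (z := z.two) hW hz

lemma good_pt (g : G4 L) (f : M4 L) (Q : P4 L) : Good f (pt g Q) ↔ Good (g • f) Q := by
  constructor
  · rintro ⟨k, m, h1, h2, h3, h4⟩
    exact ⟨k * g⁻¹, m, h1, h2, by rw [mul_smul, inv_smul_smul, h3],
      by rw [mul_pt, h4, inv_pt_pt]⟩
  · rintro ⟨k, m, h1, h2, h3, h4⟩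
    exact ⟨k * g, m, h1, h2, by rw [mul_smul, h3], by rw [mul_pt, h4]⟩

lemma Good.eqv {f : M4 L} {Q Q' : P4 L} (h : Good f Q) (e : Eqv Q Q') : Good f Q' := by
  obtain ⟨t, ht, rfl⟩ := e
  obtain ⟨k, m, h1, h2, h3, h4⟩ := h
  refine ⟨scal L (Units.mk0 t ht) * k, m, h1, h2, by rw [mul_smul, h3, scal_smul], ?_⟩
  rw [mul_pt, scal_pt, pt_smul, h4, Units.val_mk0]

lemma good_up {m : Model L} (ha : m.a = 0) (h : m.l ≠ 0 ∨ m.b ≠ 0) : Good (up m) e0 :=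
  ⟨1, m, ha, h, one_smul _ _, one_pt _⟩

lemma Good.on {f : M4 L} {Q : P4 L} (h : Good f Q) : On f Q := by
  obtain ⟨k, m, -, -, h3, rfl⟩ := h
  rw [on_pt, h3]
  exact on_up m

lemma smooth_pt (g : G4 L) (f : M4 L) (Q : P4 L) : Smooth f (pt g Q) ↔ Smooth (g • f) Q := by
  have key : ∀ (g : G4 L) (f : M4 L) (Q : P4 L), Smooth (g • f) Q → Smooth f (pt g Q) := by
    rintro g f Q ⟨u, w, h⟩
    refine ⟨pt g u, pt g w, fun h0 => h ?_⟩
    simp only [pol_smul_G]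
    linear_combination (g.1.1 0 0 * g.1.1 1 1 - g.1.1 0 1 * g.1.1 1 0) * h0
  refine ⟨fun h => ?_, key g f Q⟩
  have := key g⁻¹ (g • f) (pt g Q) (by rwa [inv_smul_smul])
  rwa [inv_pt_pt] at this

lemma Good.smooth {f : M4 L} {Q : P4 L} (h : Good f Q) : Smooth f Q := by
  obtain ⟨k, m, -, -, h3, rfl⟩ := h
  rw [smooth_pt, h3]
  exact ⟨![0, 0, 0, 1], ![0, 0, 1, 0], by simp [pol, up, e0]⟩

lemma Indep.pt {u v : P4 L} (h : Indep u v) (g : G4 L) : Indep (pt g u) (pt g v) := fun a b e =>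
  h a b (pt_injective g (by rw [pt_add, pt_smul, pt_smul, e, pt_zero]))

lemma Indep.symm {u v : P4 L} (h : Indep u v) : Indep v u := fun a b e =>
  (h b a (by rwa [add_comm])).symm

lemma sig_spec {f : M4 L} {Q Q' : P4 L} (h : ∃ T, Chord f Q Q' T) : Chord f Q Q' (sig f Q Q') := by
  rw [sig, dif_pos h]
  exact h.choose_spec

end SelAvg.Q4
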