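import Pool.Agent.H94Q.Glob1
import Pool.Agent.H94Q.Fib
import Pool.Agent.H94Q.Loc
import Pool.Agent.H94Q.Desc4

/-! The local weights, for pairs of quadrics. -/

namespace SelAvg.FF.T4

open WeierstrassCurve WithZero Filter Topology Matrix SelAvg.Q4
open scoped Classical ENNReal

variable {F : Type} [Field F] [Cv F]

/-- the local representatives given by an integral object -/
lemma IntO.exists_locRep {D : Div F} {z : Obj4 F} {g : G4 (A F)} (h : IntO D z g) (v : Place F) :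
    ∃ p : v.loc.LocRep4 (objAt v D z), p.g = mapG (pr v) g ∧ p.z.f = locM v g z.f := by
  obtain ⟨z₀, h₀⟩ := intO_iff.1 h
  exact ⟨⟨mapG (pr v) g, z₀.map (prO v), glob1_loc h₀ v⟩, rfl,
    (T4.locM_eq (f₀ := z₀.f) (congrArg Obj4.f h₀) v).symm⟩

lemma IntO.locM_eq {D : Div F} {z : Obj4 F} {g : G4 (A F)} (h : IntO D z g) {v : Place F}
    (p : v.loc.LocRep4 (objAt v D z)) (hp : p.g = mapG (pr v) g) : locM v g z.f = p.z.f := by
  refine mapM_injective v.loc.incl_injective ?_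
  rw [locM_map h.1, ← hp]
  exact congrArg Obj4.f p.eq

/-- the local weight -/
noncomputable def phi (v : Place F) (g : G4 (A F)) (f : M4 F) : ℝ :=
  v.loc.phiL4 (resv v) (locM v g f)

/-- the product of the local weights -/
noncomputable def PhiS (S : Finset (Place F)) (g : G4 (A F)) (f : M4 F) : ℝ := ∏ v ∈ S, phi v g f

/-- the discriminant is squarefree outside `S` -/
def SqM (S : Finset (Place F)) (g : G4 (A F)) (f : M4 F) : Prop :=
  ∀ v ∉ S, ¬v.loc.unif ^ 2 ∣ (red (locM v g f)).jac.Δ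

lemma phi_nonneg (v : Place F) (g : G4 (A F)) (f : M4 F) : 0 ≤ phi v g f := by
  exact Q4.LocalField.phiL_nonneg _ _

lemma phi_le_one {g : G4 (A F)} {f : M4 F} (hf : IntM g f) (hΔ : (red f).jac.Δ ≠ 0) (v : Place F) :
    phi v g f ≤ 1 := by
  exact Q4.LocalField.phiL_le_one (resv_isRed v) (locM_Delta hf hΔ v)

lemma phi_eq_one {v : Place F} {g : G4 (A F)} {f : M4 F}
    (h : ¬v.loc.unif ^ 2 ∣ (red (locM v g f)).jac.Δ) : phi v g f = 1 := by
  exact Q4.LocalField.phiL_eq_one (resv_isRed v) (prime_ringChar (F := F)) (by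
    rw [← map_natCast (algebraMap F v.Compl), ringChar.Nat.cast_ringChar, map_zero]) h

lemma soluble_of_phi {v : Place F} {g : G4 (A F)} {f : M4 F} (hf : IntM g f)
    (h : phi v g f ≠ 0) : Soluble (mapM (algebraMap F v.Compl) f) := by
  have h1 : 0 < Q4.nGood (mapM (resv v) (locM v g f)) := by
    refine Nat.pos_of_ne_zero fun h0 => h ?_
    unfold phi LocalField.phiL4
    rw [h0, Nat.cast_zero, zero_div]
  have h2 := Q4.LocalField.soluble_of_nGood_pos (resv_isRed v) _ h1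
  rwa [locM_map hf, Q4.soluble_smul] at h2

lemma PhiS_nonneg (S : Finset (Place F)) (g : G4 (A F)) (f : M4 F) : 0 ≤ PhiS S g f := by
  exact Finset.prod_nonneg fun v _ => phi_nonneg v g f

lemma PhiS_le_one (S : Finset (Place F)) {g : G4 (A F)} {f : M4 F} (hf : IntM g f)
    (hΔ : (red f).jac.Δ ≠ 0) : PhiS S g f ≤ 1 := by
  exact Finset.prod_le_one (fun v _ => phi_nonneg v g f) fun v _ => phi_le_one hf hΔ v

lemma PhiS_K (S : Finset (Place F)) {k g : G4 (A F)} (hk : k ∈ KG F) {f : M4 F} (hf : IntM g f)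
    (hΔ : (red f).jac.Δ ≠ 0) : PhiS S (k * g) f = PhiS S g f := by
  refine Finset.prod_congr rfl fun v _ => ?_
  obtain ⟨h, e⟩ := locM_K hk hf v
  rw [phi, e, Q4.LocalField.phiL_smul _ _ (locM_Delta hf hΔ v), phi]

lemma PhiS_act (S : Finset (Place F)) (γ : G4 F) (g : G4 (A F)) (f : M4 F) :
    PhiS S (g * (gA F γ)⁻¹) (γ • f) = PhiS S g f := by
  simp only [PhiS, phi, locM_act]

lemma sqM_K (S : Finset (Place F)) {k g : G4 (A F)} (hk : k ∈ KG F) {f : M4 F} (hf : IntM g f) :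
    SqM S (k * g) f ↔ SqM S g f := by
  refine forall_congr' fun v => forall_congr' fun _ => ?_
  obtain ⟨h, e⟩ := locM_K hk hf v
  rw [e, jac_smul, variableChange_Δ, ← Units.val_pow_eq_pow_val, Units.dvd_mul_left]

lemma sqM_act (S : Finset (Place F)) (γ : G4 F) (g : G4 (A F)) (f : M4 F) :
    SqM S (g * (gA F γ)⁻¹) (γ • f) ↔ SqM S g f := by
  simp only [SqM, locM_act]

/-- the weight of an object on a torsor -/
noncomputable def PhiO (S : Finset (Place F)) (D : Div F) (z : Obj4 F) (x : XG F) : ℝ≥0∞ :=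
  if (red z.f).jac.Δ ≠ 0 ∧ parN (pM x) ∧ IntO D z x.out then ENNReal.ofReal (PhiS S x.out z.f) else 0

/-- the weight used in the lower bound -/
noncomputable def PhiL (S : Finset (Place F)) (D : Div F) (z : Obj4 F) (x : XG F) : ℝ≥0∞ :=
  if SqM S x.out z.f then PhiO S D z x else 0

lemma PhiO_mk (S : Finset (Place F)) (D : Div F) (z : Obj4 F) (g : G4 (A F)) :
    PhiO S D z (RC.mk (KG F) g) = if (red z.f).jac.Δ ≠ 0 ∧ parN (RC.mk (KN F 4) g.2) ∧ IntO D z g then
      ENNReal.ofReal (PhiS S g z.f) else 0 := by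
  obtain ⟨k, hk, e⟩ := RC.out_mk (K := KG F) g
  rw [PhiO, pM_mk, e, intO_K hk]
  split_ifs with h
  · rw [PhiS_K S hk h.2.2.1 h.1]
  · rfl

lemma PhiL_mk (S : Finset (Place F)) (D : Div F) (z : Obj4 F) (g : G4 (A F)) :
    PhiL S D z (RC.mk (KG F) g) = if SqM S g z.f then PhiO S D z (RC.mk (KG F) g) else 0 := by
  obtain ⟨k, hk, e⟩ := RC.out_mk (K := KG F) g
  rw [PhiL, e]
  by_cases hf : IntM g z.f
  · rw [sqM_K S hk hf]
  · rw [PhiO_mk, if_neg (fun h : _ ∧ _ ∧ IntO D z g => hf h.2.2.1), ite_self, ite_self]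

lemma PhiO_act (S : Finset (Place F)) (D : Div F) (γ : G4 F) (z : Obj4 F) (x : XG F) :
    PhiO S D (actO F γ z) (actG F γ x) = PhiO S D z x := by
  obtain ⟨g, rfl⟩ := x.mk_surj
  have h1 : parN (RC.mk (KN F 4) (g * (gA F γ)⁻¹).2) ↔ parN (RC.mk (KN F 4) g.2) := by
    rw [← pM_mk, ← actG_mk, pM_act, parN_act, pM_mk]
  have h2 : (red (γ • z.f)).jac.Δ ≠ 0 ↔ (red z.f).jac.Δ ≠ 0 := by
    rw [jac_smul, variableChange_Δ, ← Units.val_pow_eq_pow_val, Ne, Units.mul_right_eq_zero]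
  rw [actG_mk, PhiO_mk, PhiO_mk, actO_apply, intO_act, Obj4.smul_f, PhiS_act, h1]
  simp only [h2]

lemma PhiL_act (S : Finset (Place F)) (D : Div F) (γ : G4 F) (z : Obj4 F) (x : XG F) :
    PhiL S D (actO F γ z) (actG F γ x) = PhiL S D z x := by
  obtain ⟨g, rfl⟩ := x.mk_surj
  have h := PhiO_act S D γ z (RC.mk (KG F) g)
  rw [actG_mk] at h
  rw [actG_mk, PhiL_mk, PhiL_mk, h, actO_apply, Obj4.smul_f, sqM_act]

/-- scalars act trivially on objects -/
lemma PhiO_twG (S : Finset (Place F)) (D : Div F) (z : Obj4 F) (E : Div F) (g : G4 (A F)) :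
    PhiO S D z (twG E g) = if (red z.f).jac.Δ ≠ 0 ∧ parN (pM (twG E g)) ∧ IntO D z g then
      ENNReal.ofReal (PhiS S g z.f) else 0 := by
  have h1 : IntO D z (Q4.scal (A F) (piD E) * g) ↔ IntO D z g := by
    rw [intO_iff, intO_iff, mul_smul, Obj4.scal_smul]
  have h0 : ∀ v, locM v (Q4.scal (A F) (piD E) * g) z.f = locM v g z.f := fun v => by
    funext i j
    rw [locM, locM, mul_smul, Q4.scal_smul]
  have h2 : PhiS S (Q4.scal (A F) (piD E) * g) z.f = PhiS S g z.f := by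
    simp only [PhiS, phi, h0]
  rw [twG, PhiO_mk, pM_mk, h1, h2]

end SelAvg.FF.T4
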