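import Pool.Agent.H94Q.SelO
import Pool.Agent.H81Sel.Up

/-! Row UP: the upper bound for the number of Selmer classes of one curve. -/

namespace SelAvg.FF.T4

open WeierstrassCurve WithZero Filter Topology Matrix SelAvg.Q4
open scoped Classical ENNReal

variable {F : Type} [Field F] [Cv F]

omit [Cv F] in
/-- equal twists are equivalent at every place -/
lemma up_mEq {E E' : Div F} {g g' : G4 (A F)} (h : twG E g = twG E' g') (v : Place F) :
    v.loc.MEq4 (mapG (pr v) g) (mapG (pr v) g') := by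
  obtain ⟨k, ⟨k₀, rfl⟩, hk⟩ := RC.mk_eq.1 h
  have h1 : g' = Q4.scal (A F) ((piD E')⁻¹ * piD E) * mapG (inc F) k₀ * g := by
    rw [map_mul, map_inv, mul_assoc, mul_assoc, eq_inv_mul_iff_mul_eq, hk, ← mul_assoc,
      ← mul_assoc, scal_comm]
  have h3 : mapG (pr v) (mapG (inc F) k₀) = mapG v.loc.incl (mapG (prO v) k₀) := by
    rw [mapG_mapG, mapG_mapG, incl_comp_prO]
  refine ⟨Units.map (pr v : A F →* v.Compl) ((piD E')⁻¹ * piD E), mapG (prO v) k₀, ?_⟩
  rw [h1, map_mul, map_mul, h3, mapG_scal]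

/-- Let `T ⊇ S` be a finite set of places outside of which `objAt v D z₀` is integral
(`eventually_objAt_int`).  For every `v` take `R v` from `exists_sum_phiL_ge_one` (`objAt_over`,
`locW_Delta`).  Then `1 ≤ ∏ v ∈ T, ∑ p ∈ R v, φ p`, a sum over choices (`Finset.prod_sum`).  For a
choice `p` let `g p` be the patched element (`exists_G_patch`, `intO_iff_forall`,
`IntO.locM_eq`).  The map `(p, E) ↦ twG E (g p)` is injective (`MEq`, `twG_injective`); use
`PhiO_twG`, `tsum_twG`, `phi_le_one`, `ENNReal.tsum_comp_le_tsum_of_injective`. -/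
theorem up_one {D : Div F} {W : WeierstrassCurve F} (hW : W ∈ WB D) (hΔ : W.Δ ≠ 0)
    (S : Finset (Place F)) {z₀ : Obj4 F} (hz : z₀.Over W) (hs : ELSF z₀.f) {τ : XG F → ℝ≥0∞}
    (hτ : IsBru ((actG F).comp (Q4.scal F)) τ) : kap F ≤ ∑' x, τ x * PhiO S D z₀ x := by
  have hfin := eventually_cofinite.1 (eventually_objAt_int D z₀)
  obtain ⟨T, hST, hT⟩ : ∃ T : Finset (Place F), S ⊆ T ∧
      ∀ v ∉ T, ∃ z : Obj4 v.loc.O, objAt v D z₀ = z.map v.loc.incl :=
    ⟨S ∪ hfin.toFinset, Finset.subset_union_left, fun v hv => by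
      by_contra h
      exact hv (Finset.mem_union_right _ (hfin.mem_toFinset.2 h))⟩
  have hΔ' : (red z₀.f).jac.Δ ≠ 0 := by
    rw [show (red z₀.f).jac = z₀.γ • W from hz, variableChange_Δ]
    exact mul_ne_zero (pow_ne_zero _ (Units.ne_zero _)) hΔ
  choose R hR1 hR2 using fun v : Place F => Q4.LocalField.exists_sum_phiL_ge_one (resv_isRed v)
    (locW_Delta hW hΔ v) (objAt_over hW hz v) (hs v)
  choose g hg1 hg2 using fun c : ∀ v ∈ T, v.loc.LocRep4 (objAt v D z₀) =>
    exists_G_patch T fun v => if h : v ∈ T then (c v h).g else 1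
  have hg : ∀ c v (h : v ∈ T), mapG (pr v) (g c) = (c v h).g := fun c v h =>
    (hg1 c v h).trans (dif_pos h)
  have hint : ∀ c, IntO D z₀ (g c) := fun c => intO_iff_forall.2 fun v => by
    by_cases h : v ∈ T
    · exact ⟨(c v h).z, by rw [hg c v h]; exact (c v h).eq⟩
    · obtain ⟨z, hz'⟩ := hT v h
      exact ⟨z, by rw [hg2 c v h, one_smul]; exact hz'⟩
  have hφ : ∀ c v (h : v ∈ T), v.loc.phiL4 (resv v) (c v h).z.f = phi v (g c) z₀.f := by
    intro c v h
    unfold phi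
    rw [(hint c).locM_eq (c v h) (hg c v h).symm]
  have h1 : (1 : ℝ) ≤ ∏ v ∈ T, ∑ p ∈ R v, v.loc.phiL4 (resv v) p.z.f :=
    Finset.one_le_prod fun v _ => hR2 v
  rw [Finset.prod_sum] at h1
  have h2 : ∀ c ∈ T.pi R, ∏ x ∈ T.attach, x.1.loc.phiL4 (resv x.1) (c x.1 x.2).z.f ≤
      PhiS S (g c) z₀.f := by
    intro c _
    rw [Finset.prod_congr rfl fun x _ => hφ c x.1 x.2,
      Finset.prod_attach T fun v => phi v (g c) z₀.f]
    exact Finset.prod_le_prod_of_subset_of_le_one hST (fun v _ => phi_nonneg _ _ _)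
      fun v _ _ => phi_le_one (hint c).1 hΔ' v
  have h3 : (1 : ℝ≥0∞) ≤ ∑ c ∈ T.pi R, ENNReal.ofReal (PhiS S (g c) z₀.f) := by
    rw [← ENNReal.ofReal_sum_of_nonneg fun c _ => PhiS_nonneg S (g c) z₀.f]
    exact ENNReal.one_le_ofReal.2 (h1.trans (Finset.sum_le_sum h2))
  have h4 : ∀ c, kap F * ENNReal.ofReal (PhiS S (g c) z₀.f) =
      ∑' E : Div F, τ (twG E (g c)) * PhiO S D z₀ (twG E (g c)) := by
    intro c
    rw [← tsum_twG hτ (g c), ← ENNReal.tsum_mul_right]
    refine tsum_congr fun E => ?_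
    rw [PhiO_twG]
    by_cases h : parN (pM (twG E (g c)))
    · rw [if_pos h, if_pos ⟨hΔ', h, hint c⟩]
    · rw [if_neg h, if_neg fun h' => h h'.2.1, zero_mul, mul_zero]
  calc kap F = kap F * 1 := (mul_one _).symm
    _ ≤ kap F * ∑ c ∈ T.pi R, ENNReal.ofReal (PhiS S (g c) z₀.f) := mul_le_mul_right h3 _
    _ = ∑ c ∈ T.pi R, ∑' E : Div F, τ (twG E (g c)) * PhiO S D z₀ (twG E (g c)) := by
        rw [Finset.mul_sum]
        exact Finset.sum_congr rfl fun c _ => h4 c
    _ ≤ _ := by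
        refine up_sum_le (T.pi R) (fun c E => twG E (g c)) (fun x => τ x * PhiO S D z₀ x) ?_
        intro c hc c' hc' E E' h
        have e : c = c' := by
          funext v hv
          have a := up_mEq h v
          rw [hg c v hv, hg c' v hv] at a
          exact hR1 v _ (Finset.mem_pi.1 hc v hv) _ (Finset.mem_pi.1 hc' v hv) a
        subst e
        exact ⟨rfl, twG_injective (g c) h⟩

/-- `exists_bru` for the scalars (`finite_stabG`), `le_unfold` with `card_le_autF`; different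
classes have disjoint orbits, which consist of nontrivial objects over `W` -/
theorem up_card {D : Div F} {W : WeierstrassCurve F} (hW : W ∈ WB D) (hΔ : W.Δ ≠ 0)
    (S : Finset (Place F)) {ρ : XG F → ℝ≥0∞} (hρ : IsBru (actG F) ρ) (s : Finset (Orb F))
    (hs : ↑s ⊆ SelO W) : kap F * s.card ≤ autF W * ∑' x, ρ x *
      ∑' z : Obj4 F, (if z.Over W ∧ ¬(red z.f).Triv then PhiO S D z x else 0) := by
  have h0 : ∀ o : Orb F, ∃ z : Obj4 F, o ∈ s → orb z = o ∧ z.Over W ∧ ELSF z.f ∧ ¬(red z.f).Triv := by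
    intro o
    by_cases ho : o ∈ s
    · obtain ⟨z, hz⟩ := hs ho
      exact ⟨z, fun _ => hz⟩
    · exact ⟨Quotient.out o, fun h => (ho h).elim⟩
  choose z hz using h0
  obtain ⟨τ, hτ⟩ := exists_bru ((actG F).comp (Q4.scal F)) fun x =>
    (finite_stabG x).preimage Q4.scal_injective.injOn
  have h1 : ∀ o ∈ s, kap F ≤ autF W * ∑' x, ρ x *
      ∑' y : Obj4 F, (if ∃ g, actO F g (z o) = y then PhiO S D y x else 0) := fun o ho =>
    (up_one hW hΔ S (hz o ho).2.1 (hz o ho).2.2.1 hτ).trans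
      (le_unfold (actO F) (Q4.scal F) Q4.scal_injective hρ hτ (z o) (fun t => Obj4.scal_smul t _)
        (PhiO S D) (PhiO_act S D) (autF W) (card_le_autF hΔ (hz o ho).2.1))
  have h2 : ∀ x y, ∑ o ∈ s, (if ∃ g, actO F g (z o) = y then PhiO S D y x else 0) ≤
      if y.Over W ∧ ¬(red y.f).Triv then PhiO S D y x else 0 := by
    intro x y
    by_cases h : ∃ o ∈ s, ∃ g, actO F g (z o) = y
    · obtain ⟨o, ho, g, hg⟩ := h
      rw [Finset.sum_eq_single_of_mem o ho, if_pos ⟨g, hg⟩, if_pos]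
      · rw [← hg, actO_apply, Obj4.smul_f, red_smul, Model.triv_smul]
        exact ⟨(hz o ho).2.1.smul g, (hz o ho).2.2.2⟩
      · intro o' ho' hne
        refine if_neg fun h' => hne ?_
        rw [← (hz o ho).1, ← (hz o' ho').1, ← orb_eq_iff.2 h', ← orb_eq_iff.2 ⟨g, hg⟩]
    · rw [Finset.sum_eq_zero fun o ho => if_neg fun h' => h ⟨o, ho, h'⟩]
      exact zero_le
  calc kap F * s.card = ∑ _o ∈ s, kap F := by rw [Finset.sum_const, nsmul_eq_mul, mul_comm]
    _ ≤ _ := Finset.sum_le_sum h1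
    _ ≤ _ := by
        rw [← Finset.mul_sum, ← Summable.tsum_finsetSum fun _ _ => ENNReal.summable]
        refine mul_le_mul_right (ENNReal.tsum_le_tsum fun x => ?_) _
        rw [← Finset.mul_sum, ← Summable.tsum_finsetSum fun _ _ => ENNReal.summable]
        exact mul_le_mul_right (ENNReal.tsum_le_tsum (h2 x)) _

end SelAvg.FF.T4
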