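import Pool.Agent.H5T.Tail3A

/-! Block TAIL4, generic part: polynomial functions with integer coefficients, pairs of them that
vanish at a large place, and values killed by a derivation. -/

namespace SelAvg.FF

open Polynomial WithZero Filter Topology
open scoped Classical

/-- a polynomial function that commutes with base change -/
structure NatP (n : ℕ) where
  f : ∀ {R : Type} [CommRing R], (Fin n → R) → R
  map : ∀ {R S : Type} [CommRing R] [CommRing S] (φ : R →+* S) (x : Fin n → R),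
    f (fun i => φ (x i)) = φ (f x)

namespace NatP

variable {n : ℕ} (Φ Ψ : NatP n) (i : Fin n) {R S : Type} [CommRing R] [CommRing S]

/-- the polynomial in the coordinate `i` -/
noncomputable def pol (x : Fin n → R) : R[X] := Φ.f (Function.update (fun j => C (x j)) i X)

lemma pol_eval (x : Fin n → R) (a : R) : (Φ.pol i x).eval a = Φ.f (Function.update x i a) := by
  rw [pol, ← coe_evalRingHom, ← Φ.map]
  congr 1
  funext j
  by_cases h : j = i
  · subst h; simp
  · simp [Function.update_of_ne h]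

lemma pol_eval_self (x : Fin n → R) : (Φ.pol i x).eval (x i) = Φ.f x := by
  rw [pol_eval, Function.update_eq_self]

lemma pol_map (φ : R →+* S) (x : Fin n → R) : (Φ.pol i x).map φ = Φ.pol i fun j => φ (x j) := by
  rw [pol, ← coe_mapRingHom, ← Φ.map, pol]
  congr 1
  funext j
  by_cases h : j = i
  · subst h; simp
  · simp [Function.update_of_ne h]

lemma pol_update (x : Fin n → R) (a : R) : Φ.pol i (Function.update x i a) = Φ.pol i x := by
  rw [pol, pol]
  congr 1
  funext j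
  by_cases h : j = i
  · subst h; simp
  · simp [Function.update_of_ne h]

variable {F : Type} [Field F]

lemma spec (x : Fin n → F) : t3spec (Φ.pol i MvPolynomial.X) x = Φ.pol i x := by
  rw [t3spec, pol_map]
  congr 1
  funext j
  exact MvPolynomial.aeval_X x j

lemma aeval_gen {A : Type} [CommRing A] [Algebra F A] (x : Fin n → A) :
    MvPolynomial.aeval x (Φ.f (MvPolynomial.X : Fin n → MvPolynomial (Fin n) F)) = Φ.f x := by
  have h := Φ.map (MvPolynomial.aeval x : MvPolynomial (Fin n) F →ₐ[F] A).toRingHom MvPolynomial.X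
  refine h.symm.trans ?_
  congr 1
  funext j
  exact MvPolynomial.aeval_X x j

lemma redNe {v : Place F} {y : Fin n → OO v} (h : Φ.pol i (fun j => rO v (y j)) ≠ 0) :
    RedNe v (Φ.pol i fun j => (OO v).subtype (y j)) :=
  ⟨Φ.pol i y, Φ.pol_map i _ _, by rwa [pol_map]⟩

lemma lt_one {v : Place F} {y : Fin n → OO v} :
    v.1 (Φ.f fun j => (OO v).subtype (y j)) < 1 ↔ Φ.f (fun j => rO v (y j)) = 0 := by
  rw [Φ.map, Φ.map, rO_eq_zero]
  rfl

lemma coprime_of {x : Fin n → F} {c : F} (hc : c ≠ 0) {k : ℕ} (h : Φ.pol i x = C c * X ^ k)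
    (h0 : x i = 0) (h1 : Ψ.f x ≠ 0) : IsCoprime (Φ.pol i x) (Ψ.pol i x) := by
  rw [h, isCoprime_mul_unit_left_left (isUnit_C.2 hc.isUnit)]
  refine IsCoprime.pow_left (irreducible_X.coprime_iff_not_dvd.2 fun hd => h1 ?_)
  rw [← Ψ.pol_eval_self i, h0, ← coeff_zero_eq_eval_zero]
  exact X_dvd_iff.1 hd

variable [Cv F] (D : Fin n → Div F) {k : Fin n → ℕ}

theorem tendsto_zero (hk0 : ∀ i, 0 < k i) {x₀ : Fin n → F} (h : Φ.f x₀ ≠ 0) :
    Tendsto (fun m => dens (PB D k m) fun x => Φ.f x = 0) atTop (𝓝 0) := by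
  have h1 := dens_aeval_tendsto D hk0 (p := Φ.f MvPolynomial.X) fun h0 => h (by
    rw [← Φ.aeval_gen (F := F) x₀, h0, map_zero])
  simpa only [aeval_gen] using h1

/-- two functions that are coprime in one coordinate vanish together at a large place -/
theorem pair (hk0 : ∀ i, 0 < k i) {N : ℕ → ℕ} {c e : ℕ} (he : 0 < e)
    (hN : ∀ m, (m - c) / e ≤ N m) {r : ℕ} (hr : ∀ x : Fin n → F, (Φ.pol i x).natDegree ≤ r)
    {x₀ : Fin n → F} {u : F} (hu : u ≠ 0) (hx : Φ.pol i x₀ = C u * X ^ r) (hx0 : x₀ i = 0)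
    (hx1 : Ψ.f x₀ ≠ 0) :
    Tendsto (fun m => dens (PB D k m) fun x => ∃ v : Place F, N m ≤ dg v ∧
      RedNe v (Φ.pol i x) ∧ v.1 (Φ.f x) < 1 ∧ v.1 (Ψ.f x) < 1) atTop (𝓝 0) := by
  obtain ⟨s, hs⟩ : ∃ s, ∀ x : Fin n → F, (Ψ.pol i x).natDegree ≤ s :=
    ⟨_, fun x => by rw [← Ψ.spec i x]; exact natDegree_map_le⟩
  have hG : ∀ x : Fin n → F, MvPolynomial.aeval x ((Φ.pol i MvPolynomial.X).resultant
      (Ψ.pol i (MvPolynomial.X : Fin n → MvPolynomial (Fin n) F)) r (s + 1)) =
      (Φ.pol i x).resultant (Ψ.pol i x) r (s + 1) := fun x => by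
    rw [← Φ.spec i x, ← Ψ.spec i x, t3spec, t3spec, resultant_map_map]
    rfl
  have h1 := ek_tendsto D hk0 he hN i (F₁ := (Φ.pol i MvPolynomial.X).resultant
      (Ψ.pol i MvPolynomial.X) r (s + 1)) ?_ (fun x a => by rw [hG, hG, pol_update, pol_update])
    (fun x => Φ.pol i x) (fun x a => Φ.pol_update i x a) hr
  · obtain ⟨c₁, h₁⟩ := tl_integral D k
    refine squeeze_zero' (Eventually.of_forall fun d => dens_nonneg _ _) ?_ h1
    filter_upwards [(ta_tendsto he hN).eventually_ge_atTop c₁] with m hm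
    refine dens_mono fun x hx => ?_
    rintro ⟨v, a1, a2, a3, a4⟩
    refine ⟨v, a1, ?_, a2, by rwa [pol_eval_self]⟩
    obtain ⟨y, rfl⟩ := (h₁ v (hm.trans a1)).2 m x hx
    have b1 := hr fun j => (OO v).subtype (y j)
    have b2 := hs fun j => (OO v).subtype (y j)
    rw [← pol_map, natDegree_map_eq_of_injective (OO v).subtype_injective] at b1 b2
    obtain ⟨a, b, -, -, hab⟩ := exists_mul_add_mul_eq_C_resultant (m := r) (n := s + 1)
      (Φ.pol i y) (Ψ.pol i y) b1 (b2.trans s.le_succ) (Or.inr s.succ_ne_zero)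
    have h4 := congrArg (eval (y i)) hab
    rw [eval_C, eval_add, eval_mul, eval_mul, pol_eval_self, pol_eval_self] at h4
    rw [Φ.map] at a3
    rw [Ψ.map] at a4
    rw [hG, ← pol_map, ← pol_map, resultant_map_map, ← h4]
    refine (rO_eq_zero (Φ.f y * eval (y i) a + Ψ.f y * eval (y i) b)).1 ?_
    rw [map_add, map_mul, map_mul, (rO_eq_zero _).2 a3, (rO_eq_zero _).2 a4, zero_mul, zero_mul,
      add_zero]
  · intro h
    have h2 := hG x₀
    have hd : (Φ.pol i x₀).natDegree = r := by rw [hx, natDegree_C_mul_X_pow _ _ hu]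
    have h5 : Φ.pol i x₀ ≠ 0 := by
      rw [hx]
      exact mul_ne_zero (C_ne_zero.2 hu) (pow_ne_zero _ X_ne_zero)
    obtain ⟨t, ht⟩ : ∃ t, s + 1 = (Ψ.pol i x₀).natDegree + t :=
      Nat.exists_eq_add_of_le ((hs x₀).trans s.le_succ)
    rw [h, map_zero, ht, ← hd, resultant_add_right_deg _ _ _ _ _ le_rfl] at h2
    exact mul_ne_zero (pow_ne_zero _ (leadingCoeff_ne_zero.2 h5))
      (resultant_ne_zero _ _ (Φ.coprime_of Ψ i hu hx hx0 hx1)) h2.symm

omit [Cv F] in
lemma spec_eq : t3spec (Φ.pol i (MvPolynomial.X : Fin n → MvPolynomial (Fin n) F)) = Φ.pol i :=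
  funext (Φ.spec i)

/-- squares of large places -/
theorem large (hk0 : ∀ i, 0 < k i) {N : ℕ → ℕ} {c e : ℕ} (he : 0 < e)
    (hN : ∀ m, (m - c) / e ≤ N m) {x₀ : Fin n → F} (h₀ : (Φ.pol i x₀).Separable)
    (hd : (Φ.pol i (MvPolynomial.X : Fin n → MvPolynomial (Fin n) F)).natDegree ≤
      (Φ.pol i x₀).natDegree) :
    Tendsto (fun m => dens (PB D k m) fun x => ∃ v : Place F, N m ≤ dg v ∧
      RedNe v (Φ.pol i x) ∧ v.1 (Φ.f x) ≤ exp (-2)) atTop (𝓝 0) := by
  have h := t3_large D hk0 he hN i (Φ.pol i MvPolynomial.X)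
    (fun x a => by rw [spec, spec, pol_update]) (x₀ := x₀) (by rwa [spec]) (by rwa [spec])
  simpa only [spec, pol_eval_self] using h

end NatP

variable {F : Type} [Field F] [Cv F]

theorem t4_der_core {D : F →+ F} {t : F} {K : Div F} {r : ℕ} (hD : IsDer D t K) {A A' T : Div F}
    {N : ℕ} (h0 : (c0 F : ℤ) ≤ deg A') (hN : (N : ℤ) ≤ deg A') (hT : 0 ≤ T) (ht : t ∈ LL T)
    (hA : T + ringChar F • A' ≤ A) {P : F[X]} (h3 : P.natDegree ≤ r) (h : derivative P ≠ 0) :
    dens (box A) (fun e => D (P.eval e) = 0) ≤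
      (1 + r * ringChar F) * (tkap F * (1 / 2 : ℝ) ^ N) := by
  have hp := prime_ringChar (F := F)
  have hk := tkap_nonneg (F := F)
  refine (tb_main hD h0 hN hT ht hA (fun u => dcf D P + C u * derivative P = 0) (r := 1)
    (fun s hs => Finset.card_le_one.2 fun a ha b hb => ?_)
    (c := ((r * ringChar F : ℕ) : ℝ) * (tkap F * (1 / 2 : ℝ) ^ N)) (by positivity)
    fun a _ hR => ?_).trans_eq (by push_cast; ring)
  · exact C_injective (mul_right_cancel₀ h (add_left_cancel ((hs a ha).trans (hs b hb).symm)))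
  · refine le_trans (dens_mono fun w _ hw => ?_) (dens_root_zero_le h0 hN
      (tailCore_ne hR hp.ne_zero a) (t3_comp (t3_deg h3 (D a)) a))
    have e : (X ^ ringChar F + C a).eval w = a + w ^ ringChar F := by
      rw [eval_add, eval_pow, eval_X, eval_C, add_comm]
    have a4 := hD.eval P (a + w ^ ringChar F)
    rw [map_add D a, hD.map_pow_char, add_zero] at a4
    rw [eval_comp, e, ← a4]
    exact hw

/-- the values that a derivation kills -/
theorem NatP.der {n : ℕ} (Φ : NatP n) (i : Fin n) (D : Fin n → Div F) {k : Fin n → ℕ}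
    (hk0 : ∀ i, 0 < k i) {x₀ : Fin n → F} (h₀ : derivative (Φ.pol i x₀) ≠ 0)
    {d : F →+ F} {t : F} {K : Div F} (hd : IsDer d t K) :
    Tendsto (fun m => dens (PB D k m) fun x => d (Φ.f x) = 0) atTop (𝓝 0) := by
  obtain ⟨j, hj⟩ : ∃ j, (derivative (Φ.pol i x₀)).coeff j ≠ 0 := by
    by_contra hc
    exact h₀ (Polynomial.ext fun j => not_not.1 fun h => hc ⟨j, h⟩)
  have hG : ∀ x : Fin n → F, MvPolynomial.aeval x ((derivative (Φ.pol i
      (MvPolynomial.X : Fin n → MvPolynomial (Fin n) F))).coeff j) =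
      (derivative (Φ.pol i x)).coeff j := fun x => by
    rw [← Φ.spec i x, t3spec, derivative_map, coeff_map]
    rfl
  obtain ⟨r, hr⟩ : ∃ s, ∀ x : Fin n → F, (Φ.pol i x).natDegree ≤ s :=
    ⟨_, fun x => by rw [← Φ.spec i x]; exact natDegree_map_le⟩
  obtain ⟨T, hT, ht⟩ := exists_mem_LL fun _ : Unit => t
  obtain ⟨c₁, hc₁⟩ := ta_deg_ge (-(D i)⁻ - T)
  have hp := (prime_ringChar (F := F)).pos
  have hk := tkap_nonneg (F := F)
  have h1 := dens_aeval_tendsto D hk0 (p := (derivative (Φ.pol i MvPolynomial.X)).coeff j)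
    fun h => hj (by rw [← hG, h, map_zero])
  have h2 := tendsto_lin_mul_pow 0 ((1 + r * ringChar F) * tkap F)
    (fun m => (m - c₁ * ringChar F) / ringChar F) (c₁ * ringChar F) (ringChar F) hp
    fun _ => le_rfl
  have h3 := h1.add h2
  rw [add_zero] at h3
  refine squeeze_zero' (Eventually.of_forall fun d => dens_nonneg _ _) ?_ h3
  filter_upwards [eventually_ge_atTop (c₁ * ringChar F)] with m hm
  have h5 := hc₁ (k i * m / ringChar F) ((Nat.le_div_iff_mul_le hp).2
    (hm.trans (Nat.le_mul_of_pos_left m (hk0 i))))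
  refine dens_pi_le _ i _ _ (by positivity) fun x _ h => ?_
  simp only [← Φ.pol_eval]
  refine (t4_der_core hd (N := (m - c₁ * ringChar F) / ringChar F) h5.1
    (le_trans (Nat.cast_le.2 (t3_div (hk0 i) m c₁ _)) h5.2) hT (ht ()) (tb_small (D i) hT _)
    (hr x) fun h0 => h ?_).trans_eq (by ring)
  rw [hG, h0, coeff_zero]

end SelAvg.FF
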