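import Pool.Agent.H94Q.ToM
import Pool.Agent.H94Q.Tail4A
import Pool.Agent.H5T.Tail3W

/-! Block TAIL4: the discriminant as a polynomial in the coefficient `a₁₂`. -/

namespace SelAvg.FF.T4

open SelAvg.Q4 WeierstrassCurve Polynomial

variable {R S : Type} [CommRing R] [CommRing S]

lemma toM_map (φ : R →+* S) (x : Fin 20 → R) : toM (fun i => φ (x i)) = mapM φ (toM x) := by
  funext i j; fin_cases i <;> fin_cases j <;> rfl

lemma jac_toM_map (φ : R →+* S) (x : Fin 20 → R) :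
    (red (toM fun i => φ (x i))).jac = (red (toM x)).jac.map φ := by
  rw [toM_map, red_map, Model.jac_map]

/-- the discriminant -/
def nD : NatP 20 := ⟨fun x => (red (toM x)).jac.Δ, fun φ x => by rw [jac_toM_map, map_Δ]⟩

lemma nD_f (x : Fin 20 → R) : nD.f x = (red (toM x)).jac.Δ := rfl

lemma nD_pol (i : Fin 20) (x : Fin 20 → R) :
    nD.pol i x = (red (toM (Function.update (fun j => C (x j)) i X))).jac.Δ := by
  rw [NatP.pol, nD_f]

omit [CommRing R] in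
lemma toM_eq (x : Fin 20 → R) : toM x = ![![x 0, x 1, x 2, x 3, x 4, x 5, x 6, x 7, x 8, x 9],
    ![x 10, x 11, x 12, x 13, x 14, x 15, x 16, x 17, x 18, x 19]] := rfl

/-- the product `c₄ c₆` -/
def nC : NatP 20 := ⟨fun x => (red (toM x)).jac.c₄ * (red (toM x)).jac.c₆,
  fun φ x => by rw [jac_toM_map, map_c₄, map_c₆, map_mul]⟩

/-- the factors of the leading coefficient -/
def nd : NatP 20 := ⟨fun x => x 18 ^ 2 - 4 * x 17 * x 19, fun φ x => by simp [map_ofNat]⟩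

def nR : NatP 20 := ⟨fun x => (x 7 * x 19 - x 9 * x 17) ^ 2
  - (x 7 * x 18 - x 8 * x 17) * (x 8 * x 19 - x 9 * x 18), fun φ x => by simp⟩

def nh : NatP 20 := ⟨fun x => 4 * x 10 * x 17 * x 19 - x 10 * x 18 ^ 2 - x 17 * x 13 ^ 2
  - x 19 * x 12 ^ 2 + x 12 * x 13 * x 18, fun φ x => by simp [map_ofNat]⟩

def nk : NatP 20 := ⟨fun x => 4 * x 14 * x 17 * x 19 - x 14 * x 18 ^ 2 - x 17 * x 16 ^ 2
  - x 19 * x 15 ^ 2 + x 15 * x 16 * x 18, fun φ x => by simp [map_ofNat]⟩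

lemma nd_pol (x : Fin 20 → R) : nd.pol 18 x = C 1 * X ^ 2 + C 0 * X + C (-(4 * x 17 * x 19)) := by
  simp [NatP.pol, nd, map_ofNat]; ring

lemma nR_pol (x : Fin 20 → R) : nR.pol 7 x = C (x 19 ^ 2) * X ^ 2
    + C (x 9 * x 18 ^ 2 - 2 * x 9 * x 17 * x 19 - x 8 * x 18 * x 19) * X
    + C (x 9 ^ 2 * x 17 ^ 2 + x 8 ^ 2 * x 17 * x 19 - x 8 * x 9 * x 17 * x 18) := by
  simp [NatP.pol, nR, map_ofNat]; ring

lemma nh_pol (x : Fin 20 → R) : nh.pol 10 x = C (-nd.f x) * X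
    + C (x 12 * x 13 * x 18 - x 17 * x 13 ^ 2 - x 19 * x 12 ^ 2) := by
  simp [NatP.pol, nh, nd, map_ofNat]; ring

lemma nk_pol (x : Fin 20 → R) : nk.pol 14 x = C (-nd.f x) * X
    + C (x 15 * x 16 * x 18 - x 17 * x 16 ^ 2 - x 19 * x 15 ^ 2) := by
  simp [NatP.pol, nk, nd, map_ofNat]; ring

/-- degree at most `n`, with coefficient `c` in degree `n` -/
def Top (p : R[X]) (n : ℕ) (c : R) : Prop := p.natDegree ≤ n ∧ p.coeff n = c

namespace Top

variable {p q : R[X]} {n m : ℕ} {c d : R}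

lemma mul (h : Top p n c) (h' : Top q m d) : Top (p * q) (n + m) (c * d) :=
  ⟨natDegree_mul_le_of_le h.1 h'.1, by rw [coeff_mul_add_eq_of_natDegree_le h.1 h'.1, h.2, h'.2]⟩

lemma add (h : Top p n c) (h' : Top q n d) : Top (p + q) n (c + d) :=
  ⟨natDegree_add_le_of_degree_le h.1 h'.1, by rw [coeff_add, h.2, h'.2]⟩

lemma neg (h : Top p n c) : Top (-p) n (-c) := ⟨by rw [natDegree_neg]; exact h.1, by
  rw [coeff_neg, h.2]⟩

lemma sub (h : Top p n c) (h' : Top q n d) : Top (p - q) n (c - d) := by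
  rw [sub_eq_add_neg, sub_eq_add_neg]; exact h.add h'.neg

lemma sq (h : Top p n c) : Top (p ^ 2) (n + n) (c * c) := by rw [pow_two]; exact h.mul h

lemma cube (h : Top p n c) : Top (p ^ 3) (n + n + n) (c * c * c) := by
  rw [pow_succ]; exact h.sq.mul h

lemma low (h : Top p n c) (hn : n < m) : Top p m 0 :=
  ⟨h.1.trans hn.le, coeff_eq_zero_of_natDegree_lt (h.1.trans_lt hn)⟩

lemma const (c : R) : Top (C c) 0 c := ⟨(natDegree_C c).le, coeff_C_zero⟩

lemma num (k : ℕ) [k.AtLeastTwo] : Top (ofNat(k) : R[X]) 0 ofNat(k) := by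
  rw [← map_ofNat C k]; exact const _

lemma lin (a b : R) : Top (C a * X + C b) 1 a := ⟨natDegree_linear_le, by simp⟩

lemma quad (a b c : R) : Top (C a * X ^ 2 + C b * X + C c) 2 a := ⟨natDegree_quadratic_le, by simp⟩

lemma cast (h : Top p n c) (e : c = d) : Top p n d := e ▸ h

end Top

lemma top_Delta {W : WeierstrassCurve R[X]} {a1 a2 a3 a4 a6 : R} (h1 : Top W.a₁ 1 a1)
    (h2 : Top W.a₂ 2 a2) (h3 : Top W.a₃ 2 a3) (h4 : Top W.a₄ 3 a4) (h6 : Top W.a₆ 4 a6) :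
    Top W.Δ 10 (-((a1 ^ 2 + 4 * a2) ^ 2 *
      (a1 ^ 2 * a6 + 4 * a2 * a6 - a1 * a3 * a4 + a2 * a3 ^ 2 - a4 ^ 2))) := by
  have b2 : Top W.b₂ 2 _ := h1.sq.add ((Top.num 4).mul h2)
  have b4 : Top W.b₄ 3 _ := ((Top.num 2).mul h4).add (h1.mul h3)
  have b6 : Top W.b₆ 4 _ := h3.sq.add ((Top.num 4).mul h6)
  have b8 : Top W.b₈ 6 _ := ((((h1.sq.mul h6).add (((Top.num 4).mul h2).mul h6)).sub
    ((h1.mul h3).mul h4)).add (h2.mul h3.sq)).sub h4.sq
  have b43 : Top (W.b₄ ^ 3) 9 _ := b4.cube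
  refine Top.cast (c := _) ((((b2.sq.neg.mul b8).sub (((Top.num 8).mul b43).low (by norm_num))).sub
    (((Top.num 27).mul b6.sq).low (by norm_num))).add
    (((((Top.num 9).mul b2).mul b4).mul b6).low (by norm_num))) ?_
  ring

lemma top_jac {f : Model R[X]} {l m n a b c d e : R} (hl : Top f.l 1 l) (hm : Top f.m 1 m)
    (hn : Top f.n 0 n) (ha : Top f.a 2 a) (hb : Top f.b 2 b) (hc : Top f.c 2 c) (hd : Top f.d 1 d)
    (he : Top f.e 0 e) : Top f.jac.Δ 10 (-((m ^ 2 + 4 * c) ^ 2 *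
      ((-l ^ 2 * c + l * m * b - m ^ 2 * a - 4 * a * c + b ^ 2) *
        ((m ^ 2 + 4 * c) * e - (m * n * d - n ^ 2 * c + d ^ 2))))) := by
  have h2 : Top f.jac.a₂ 2 _ := hc.sub ((hl.mul hn).low (by norm_num))
  have h3 : Top f.jac.a₃ 2 _ := (hl.mul hd).add (hn.mul hb)
  have h4 : Top f.jac.a₄ 3 _ := (((((hl.sq.neg.mul he).low (by norm_num)).sub
    ((hl.mul hn).mul hc)).sub ((hn.sq.mul ha).low (by norm_num))).sub
    ((((Top.num 4).mul ha).mul he).low (by norm_num))).add (hb.mul hd)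
  have h6 : Top f.jac.a₆ 4 _ := (((((((((hl.sq.neg.mul hc).mul he).add
    (((hl.mul hm).mul hb).mul he)).sub (((hl.mul hn).mul hb).mul hd)).sub
    ((hm.sq.mul ha).mul he)).add (((hm.mul hn).mul ha).mul hd)).sub ((hn.sq.mul ha).mul hc)).sub
    ((((Top.num 4).mul ha).mul hc).mul he)).add (ha.mul hd.sq)).add (hb.sq.mul he)
  refine (top_Delta (W := f.jac) hm h2 h3 h4 h6).cast ?_
  ring

lemma top_jac' (l l' m m' n a a' a'' b b' b'' c c' c'' d d' e : R) :
    Top (Model.jac ⟨C l * X + C l', C m * X + C m', C n, C a * X ^ 2 + C a' * X + C a'',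
      C b * X ^ 2 + C b' * X + C b'', C c * X ^ 2 + C c' * X + C c'', C d * X + C d', C e⟩).Δ 10
      (-((m ^ 2 + 4 * c) ^ 2 * ((-l ^ 2 * c + l * m * b - m ^ 2 * a - 4 * a * c + b ^ 2) *
        ((m ^ 2 + 4 * c) * e - (m * n * d - n ^ 2 * c + d ^ 2))))) :=
  top_jac (Top.lin l l') (Top.lin m m') (Top.const n) (Top.quad a a' a'') (Top.quad b b' b'')
    (Top.quad c c' c'') (Top.lin d d') (Top.const e)

lemma toM_lift (x : Fin 20 → R) : toM (Function.update (fun j => C (x j)) 1 X) =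
    ![![C (x 0), X, C (x 2), C (x 3), C (x 4), C (x 5), C (x 6), C (x 7), C (x 8), C (x 9)],
      ![C (x 10), C (x 11), C (x 12), C (x 13), C (x 14), C (x 15), C (x 16), C (x 17), C (x 18),
        C (x 19)]] := by
  funext i j; fin_cases i <;> fin_cases j <;> rfl

/-- the pair with `a₁₂ = 0` -/
def zM (x : Fin 20 → R) : M4 R :=
  ![![x 0, 0, x 2, x 3, x 4, x 5, x 6, x 7, x 8, x 9],
    ![x 10, x 11, x 12, x 13, x 14, x 15, x 16, x 17, x 18, x 19]]

lemma red_lift (x : Fin 20 → R) : red (toM (Function.update (fun j => C (x j)) 1 X)) =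
    ⟨C (x 8) * X + C (red (zM x)).l, C (x 18) * X + C (red (zM x)).m, C (red (zM x)).n,
      C (-(x 7 * x 9)) * X ^ 2 + C (x 2 * x 5 * x 9 - x 3 * x 5 * x 8 + x 3 * x 6 * x 7) * X
        + C (red (zM x)).a,
      C (-(x 7 * x 19) - x 9 * x 17) * X ^ 2 + C (x 2 * x 5 * x 19 + x 2 * x 9 * x 15
        - x 3 * x 5 * x 18 + x 3 * x 6 * x 17 + x 3 * x 7 * x 16 - x 3 * x 8 * x 15
        - x 5 * x 8 * x 13 + x 5 * x 9 * x 12 + x 6 * x 7 * x 13 - 2 * x 7 * x 9 * x 11) * X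
        + C (red (zM x)).b,
      C (-(x 17 * x 19)) * X ^ 2 + C (x 2 * x 15 * x 19 - x 3 * x 15 * x 18 + x 3 * x 16 * x 17
        + x 5 * x 12 * x 19 - x 5 * x 13 * x 18 + x 6 * x 13 * x 17 - 2 * x 7 * x 11 * x 19
        + x 7 * x 13 * x 16 - x 8 * x 13 * x 15 - 2 * x 9 * x 11 * x 17 + x 9 * x 12 * x 15) * X
        + C (red (zM x)).c,
      C (-(2 * x 11 * x 17 * x 19) + x 12 * x 15 * x 19 - x 13 * x 15 * x 18 + x 13 * x 16 * x 17)
        * X + C (red (zM x)).d, C (red (zM x)).e⟩ := by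
  rw [toM_lift]
  ext : 1 <;> simp only [red, zM, P2, QM, Matrix.cons_val, Matrix.cons_val_zero,
    Matrix.cons_val_one, map_add, map_sub, map_mul, map_neg, map_ofNat, map_zero] <;> ring

theorem top_nD (x : Fin 20 → R) :
    Top (nD.pol 1 x) 10 (nd.f x ^ 2 * nR.f x * nh.f x * nk.f x) := by
  rw [nD_pol, red_lift]
  refine (top_jac' ..).cast ?_
  simp only [red, zM, P2, QM, Matrix.cons_val, Matrix.cons_val_zero, Matrix.cons_val_one, nd, nR,
    nh, nk]
  ring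

/-- first witness for separability -/
def wA : Fin 20 → R := ![0, 0, 1, 0, 0, 1, 0, -1, 0, 1, -1, 1, 1, 0, -1, 0, 0, 0, 1, 0]

/-- second witness for separability -/
def wB : Fin 20 → R := ![0, 0, 0, 0, -1, 0, 0, -1, 0, 1, 1, 0, 0, 0, 1, 1, 0, 0, 1, 0]

lemma nD_wA : nD.pol 1 (wA : Fin 20 → R) = -21411 - 85860 * X - 136836 * X ^ 2 - 111861 * X ^ 3
    - 52533 * X ^ 4 - 16290 * X ^ 5 - 3609 * X ^ 6 - 460 * X ^ 7 - 83 * X ^ 8 - 2 * X ^ 9
    - X ^ 10 := by
  have h : red (toM (Function.update (fun j => C ((wA : Fin 20 → R) j)) 1 X)) =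
      ⟨0, X, 1, X + X ^ 2, 3 + 3 * X, 0, 1, -1⟩ := by
    rw [toM_lift]
    ext : 1 <;> simp only [red, wA, P2, QM, Matrix.cons_val, Matrix.cons_val_zero,
      Matrix.cons_val_one, map_neg, map_zero, map_one] <;> ring
  rw [nD_pol, h]
  simp only [Model.jac, WeierstrassCurve.Δ, b₂, b₄, b₆, b₈]
  ring

lemma nD_wB : nD.pol 1 (wB : Fin 20 → R) = -176128 - 200704 * X ^ 2 - 7936 * X ^ 4 - 1520 * X ^ 6
    - 64 * X ^ 8 - X ^ 10 := by
  have h : red (toM (Function.update (fun j => C ((wB : Fin 20 → R) j)) 1 X)) =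
      ⟨0, X, 0, X ^ 2, 4, -4, 0, -1⟩ := by
    rw [toM_lift]
    ext : 1 <;> simp only [red, wB, P2, QM, Matrix.cons_val, Matrix.cons_val_zero,
      Matrix.cons_val_one, map_neg, map_zero, map_one] <;> ring
  rw [nD_pol, h]
  simp only [Model.jac, WeierstrassCurve.Δ, b₂, b₄, b₆, b₈]
  ring

section Field

variable {F : Type} [Field F]

lemma nD_wA_sep (h : (878104445161245550943650100286309 : F) ≠ 0) :
    (nD.pol 1 (wA : Fin 20 → F)).Separable := by
  refine H5T.sep_of_bezout _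
    (145871789117120330149112627945366833201 + 318871645174435009741935803662093352064 * X
      + 250804545616941414374260407492744277966 * X ^ 2
      + 105835273212776868866075342271488361170 * X ^ 3
      + 32390633767448396676743949672845650864 * X ^ 4
      + 4351414280603971545196243468110093296 * X ^ 5
      + 1112890639211030266012222832683901366 * X ^ 6
      + 13596533423944214738505390783933318 * X ^ 7
      + 16964871978723802686432136397721960 * X ^ 8)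
    (-36376204025911575052223340646190302422 - 109442861638091159707609266786327563653 * X
      - 122875905085772561211772241564970669391 * X ^ 2
      - 66992067608276223064784353121531211314 * X ^ 3
      - 22161656390565555561035827606589793821 * X ^ 4
      - 5482079057904078460656316089697245802 * X ^ 5
      - 641474180675541011667404742132362517 * X ^ 6
      - 139111946683029366458758180593969266 * X ^ 7
      - 1698950781968897527579181806347771 * X ^ 8 - 1696487197872380268643213639772196 * X ^ 9)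
    _ h ?_
  rw [nD_wA, map_ofNat]
  simp only [derivative_sub, derivative_neg, derivative_mul, derivative_X_pow, derivative_X,
    derivative_ofNat, map_natCast]
  push_cast
  ring

lemma nD_wB_sep (h : (27505797247068570124288 : F) ≠ 0) :
    (nD.pol 1 (wB : Fin 20 → F)).Separable := by
  refine H5T.sep_of_bezout _
    (-156169361186572096 - 8806542562170752 * X ^ 2 - 3659963036142324 * X ^ 4
      - 215240149076822 * X ^ 6 - 4301080631960 * X ^ 8)
    (81948775799136480 * X + 2616062458736352 * X ^ 3 + 621133776559602 * X ^ 5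
      + 27029398116591 * X ^ 7 + 430108063196 * X ^ 9) _ h ?_
  rw [nD_wB, map_ofNat]
  simp only [derivative_sub, derivative_neg, derivative_mul, derivative_X_pow, derivative_ofNat,
    map_natCast]
  push_cast
  ring

theorem exists_sep (F : Type) [Field F] :
    ∃ x : Fin 20 → F, (nD.pol 1 x).Separable ∧ (nD.pol 1 x).natDegree = 10 := by
  have key : ∀ x : Fin 20 → F, nd.f x ^ 2 * nR.f x * nh.f x * nk.f x ≠ 0 →
      (nD.pol 1 x).natDegree = 10 := fun x h =>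
    natDegree_eq_of_le_of_coeff_ne_zero (top_nD x).1 (by rwa [(top_nD x).2])
  by_cases h : (878104445161245550943650100286309 : F) = 0
  · refine ⟨wB, nD_wB_sep fun h' => one_ne_zero (α := F) ?_, key _ ?_⟩
    · linear_combination 7013819196167388391021 * h - 223911554294912824985624252418776 * h'
    · simp [nd, nR, nh, nk, wB]
  · exact ⟨wA, nD_wA_sep h, key _ (by simp [nd, nR, nh, nk, wA])⟩

lemma nD_w0 : nD.f (![0, 0, 0, 1, 0, 1, 0, 0, 0, 0, 0, 1, 1, 0, 0, 0, 0, 0, 0, 1] : Fin 20 → F)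
    = -27 := by
  have h : red (toM (![0, 0, 0, 1, 0, 1, 0, 0, 0, 0, 0, 1, 1, 0, 0, 0, 0, 0, 0, 1] : Fin 20 → F))
      = ⟨1, 0, 0, 0, 0, 0, 1, 0⟩ := by
    rw [toM_eq]
    ext : 1 <;> simp only [red, P2, QM, Matrix.cons_val, Matrix.cons_val_zero,
      Matrix.cons_val_one] <;> ring
  rw [nD_f, h]
  simp only [Model.jac, WeierstrassCurve.Δ, b₂, b₄, b₆, b₈]
  ring

lemma nD_w1 : nD.f (![0, 1, 0, 0, 0, 0, 0, 0, -1, 0, 0, 0, 1, 0, 0, 1, 1, 0, 0, 1] : Fin 20 → F)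
    = -11 := by
  have h : red (toM (![0, 1, 0, 0, 0, 0, 0, 0, -1, 0, 0, 0, 1, 0, 0, 1, 1, 0, 0, 1] : Fin 20 → F))
      = ⟨-1, 0, -1, 0, 0, 0, 1, 0⟩ := by
    rw [toM_eq]
    ext : 1 <;> simp only [red, P2, QM, Matrix.cons_val, Matrix.cons_val_zero,
      Matrix.cons_val_one] <;> ring
  rw [nD_f, h]
  simp only [Model.jac, WeierstrassCurve.Δ, b₂, b₄, b₆, b₈]
  ring

lemma nD_w2 : nD.f (![0, 0, 0, -1, 0, 0, 1, 1, 0, 0, 0, 1, 0, 0, 0, 0, 0, 0, 1, 0] : Fin 20 → F)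
    = -27 := by
  have h : red (toM (![0, 0, 0, -1, 0, 0, 1, 1, 0, 0, 0, 1, 0, 0, 0, 0, 0, 0, 1, 0] : Fin 20 → F))
      = ⟨0, 0, 1, 0, -1, 0, 0, 0⟩ := by
    rw [toM_eq]
    ext : 1 <;> simp only [red, P2, QM, Matrix.cons_val, Matrix.cons_val_zero,
      Matrix.cons_val_one] <;> ring
  rw [nD_f, h]
  simp only [Model.jac, WeierstrassCurve.Δ, b₂, b₄, b₆, b₈]
  ring

lemma nD_w3 : nD.f (![0, 0, 1, 0, 0, -1, 0, -1, 0, -1, 0, 1, 0, 0, 0, 0, 0, 0, 1, 0] : Fin 20 → F)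
    = -11 := by
  have h : red (toM (![0, 0, 1, 0, 0, -1, 0, -1, 0, -1, 0, 1, 0, 0, 0, 0, 0, 0, 1, 0] : Fin 20 → F))
      = ⟨0, 0, 1, 0, 1, -1, 0, 0⟩ := by
    rw [toM_eq]
    ext : 1 <;> simp only [red, P2, QM, Matrix.cons_val, Matrix.cons_val_zero,
      Matrix.cons_val_one] <;> ring
  rw [nD_f, h]
  simp only [Model.jac, WeierstrassCurve.Δ, b₂, b₄, b₆, b₈]
  ring

theorem exists_pat1 (F : Type) [Field F] :
    ∃ x : Fin 20 → F, x 7 = 0 ∧ x 17 = 0 ∧ x 18 = 0 ∧ x 19 = 1 ∧ nD.f x ≠ 0 := by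
  by_cases h : (11 : F) = 0
  · refine ⟨_, ?_, ?_, ?_, ?_, fun h' => one_ne_zero (α := F) (by
      linear_combination 9 * (nD_w0.symm.trans h').symm - 22 * h)⟩ <;> rfl
  · refine ⟨_, ?_, ?_, ?_, ?_, fun h' => h (by
      linear_combination (nD_w1.symm.trans h').symm)⟩ <;> rfl

theorem exists_pat2 (F : Type) [Field F] :
    ∃ x : Fin 20 → F, x 10 = 0 ∧ x 12 = 0 ∧ x 14 = 0 ∧ x 15 = 0 ∧ x 17 = 0 ∧ x 19 = 0 ∧ x 18 = 1 ∧
      nD.f x ≠ 0 := by
  by_cases h : (11 : F) = 0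
  · refine ⟨_, ?_, ?_, ?_, ?_, ?_, ?_, ?_, fun h' => one_ne_zero (α := F) (by
      linear_combination 9 * (nD_w2.symm.trans h').symm - 22 * h)⟩ <;> rfl
  · refine ⟨_, ?_, ?_, ?_, ?_, ?_, ?_, ?_, fun h' => h (by
      linear_combination (nD_w3.symm.trans h').symm)⟩ <;> rfl

theorem exists_c46 (F : Type) [Field F] : ∃ x : Fin 20 → F, nC.f x ≠ 0 := by
  refine ⟨equivVec (up ⟨0, 1, 0, 0, 1, 0, 0, 0⟩), ?_⟩
  simp only [nC, toM, Equiv.symm_apply_apply]
  rw [red_up rfl]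
  simp [Model.jac, c₄, c₆, b₂, b₄, b₆]

end Field

end SelAvg.FF.T4
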