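import Pool.Agent.H94Q.HtG

/-! The 2-Selmer elements of the curves with a rational 2-torsion point are negligible. -/

namespace SelAvg.FF

open WeierstrassCurve WithZero Filter Topology Matrix
open scoped Classical ENNReal

variable {F : Type} [Field F] [Cv F]

/-- the number of nontrivial 2-Selmer elements, for curves with 2-torsion -/
noncomputable def selT (W : WeierstrassCurve F) : ℝ := ind (¬NoTwoTorsion W) * (SelO W).ncard

omit [Cv F] in
lemma selT_nonneg (W : WeierstrassCurve F) : 0 ≤ selT W :=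
  mul_nonneg (ind_nonneg _) (Nat.cast_nonneg _)

/-- the weight for the curves with 2-torsion -/
noncomputable def upT (g : G (A F)) (f : Model F) : ℝ := ind (¬NoTwoTorsion f.jac) * upF ∅ g f

theorem adm_upT : Adm (upT (F := F)) := by
  refine ⟨fun g f => ?_, fun g f hf => ?_, fun k hk g f hf => ?_, fun γ g f => ?_⟩
  · exact mul_nonneg (ind_nonneg _) ((adm_upF ∅).nonneg g f)
  · exact (mul_le_of_le_one_left ((adm_upF ∅).nonneg g f) (ind_le_one _)).trans
      ((adm_upF ∅).le g f hf)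
  · rw [upT, upT, (adm_upF ∅).K k hk g f hf]
  · rw [upT, upT, (adm_upF ∅).act, G.jac_smul, noTwoTorsion_smul]

lemma two_AvD (D : Div F) : kap F * ENNReal.ofReal (AvD selT D * (WB D).card) =
    ∑ W ∈ WB D, (if MinW D W ∧ ¬NoTwoTorsion W then aut W else 0 : ℝ≥0∞) *
      (kap F * (SelO W).ncard) := by
  have h1 : AvD selT D * (WB D).card = ∑ W ∈ WB D, ind (MinW D W) * aut W * selT W :=
    div_mul_cancel₀ _ (Nat.cast_ne_zero.2 (WB_nonempty D).card_pos.ne')
  rw [h1, ENNReal.ofReal_sum_of_nonneg fun W _ =>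
    mul_nonneg (mul_nonneg (ind_nonneg _) (Nat.cast_nonneg _)) (selT_nonneg W), Finset.mul_sum]
  refine Finset.sum_congr rfl fun W _ => ?_
  by_cases hm : MinW D W
  · by_cases ht : NoTwoTorsion W
    · simp [selT, ind, ht]
    · rw [selT, ind_pos hm, ind_pos ht, if_pos ⟨hm, ht⟩, one_mul, one_mul, ← Nat.cast_mul,
        ENNReal.ofReal_natCast, Nat.cast_mul, mul_left_comm]
  · simp [ind, hm]

theorem two_le_tsum {D : Div F} (hD : (c0 F : ℤ) ≤ deg D)
    {ρ : XG F → ℝ≥0∞} (hρ : IsBru (actG F) ρ) :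
    kap F * ENNReal.ofReal (AvD selT D * (WB D).card) ≤ (GB D).card * ∑' x, ρ x *
      (if x ∈ XD D then (if par (pM x) then ENNReal.ofReal (Psi upT x) else 0) else 0) := by
  rw [two_AvD, ← sum0_swap hD adm_upT.nonneg ρ (fun x W z =>
    (if MinW D W ∧ ¬NoTwoTorsion W then aut W * autF W else 0 : ℝ≥0∞) *
      if z.Over W ∧ ¬z.f.Triv then PhiO ∅ D z x else 0) (fun x W z hz hi => ?_) fun x W z hn => ?_]
  · refine Finset.sum_le_sum fun W hW => ?_
    by_cases hm : MinW D W ∧ ¬NoTwoTorsion W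
    · have h1 := up_card hW hm.1.1 ∅ hρ (finite_SelO hm.1.1).toFinset (by simp)
      rw [← Set.ncard_eq_toFinset_card _ (finite_SelO hm.1.1)] at h1
      simp only [if_pos hm, ENNReal.tsum_mul_left, mul_left_comm (ρ _), mul_assoc]
      exact mul_le_mul_right h1 _
    · simp only [if_neg hm, zero_mul, zero_le]
  · have e1 : aut z.f.jac = aut W := by rw [show z.f.jac = z.γ • W from hz, aut_smul]
    have e2 : autF z.f.jac = autF W := by rw [show z.f.jac = z.γ • W from hz, autF_smul]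
    have e4 : NoTwoTorsion z.f.jac ↔ NoTwoTorsion W := by
      rw [show z.f.jac = z.γ • W from hz, noTwoTorsion_smul]
    have e3 := PhiS_nonneg ∅ x.out z.f
    simp only [upT, upF, PhiO, hi.minW_iff hz, e1, e2, e4]
    by_cases hm : MinM x.out z.f
    · have hd := hm.1
      by_cases hn : NoTwoTorsion W <;> by_cases hp : par (pM x) <;> by_cases ht : z.f.Triv <;>
        simp [ind, hz, hi, hp, ht, hm, hd, hn, ENNReal.ofReal_mul' e3, ENNReal.ofReal_mul]
    · simp [ind, hm]
  · by_cases hz : z.Over W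
    · have hi : ¬IntO D z x.out := fun hi => hn ⟨hz, hi⟩
      simp [PhiO, hi]
    · simp [hz]

lemma two_avg (B Z : Div F) (η : A F) (R : Div F) {L : ℝ} (hL : 0 < L) :
    ∀ᶠ m : ℕ in atTop, avg (VB (gm B Z η R m)) (upT (gm B Z η R m)) ≤ L := by
  filter_upwards [final3_small ((LV B Z η R).tendsto_of_PB _ tendsto_twoTorsion) 768 hL] with m h
  have h6 := avg_mono (s := (LV B Z η R).box m) (F := fun x => upT (gm B Z η R m) (toM x))
    (G := fun x => 768 * ind (¬NoTwoTorsion (toM x).jac)) fun x hx => by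
      have h1 := (adm_upF ∅).le _ _ (mem_LV_box.1 hx)
      have h2 := ind_le_one (¬(toM x).Triv)
      rw [upT, mul_comm]
      exact mul_le_mul_of_nonneg_right (by linarith) (ind_nonneg _)
  rw [avg_const_mul, ← dens_eq_avg] at h6
  rw [avg_VB_gm]
  exact h6.trans h

theorem two_eventually_le (R : Div F) {L : ℝ} (hL : 0 < L) {ε : ℝ} (hε : 0 < ε) :
    ∀ᶠ m : ℕ in atTop, AvD selT (R + m • PP F) ≤ 2 * zt F * L + ε := by
  obtain ⟨ρ₂, h₂⟩ := exists_bru (act2 F) finite_stab2
  obtain ⟨ρ, hρ, hfib⟩ := exists_rhoG h₂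
  obtain ⟨r, hr, hr0, hrs, hru⟩ := sum1_mass h₂
  obtain ⟨C, hC0, hC⟩ := exists_Psi_le (F := F)
  choose B Z η hy using exists_mk_tri (F := F)
  have hq : 0 < qq F := zero_lt_one.trans one_lt_qq
  have hk : 0 < kapR F := kapR_pos
  obtain ⟨Good, hGood⟩ : ∃ Good : ℕ → X2 F → Prop, ∀ m y, Good m y ↔
      (∀ x ∈ XD (R + m • PP F), pM x = RC.mk (K2 F) (tri (B y) (Z y) (η y)) →
        ∃ γ : G F, actG F γ x = RC.mk (KG F) (gm (B y) (Z y) (η y) R m)) ∧
      ((VB (gm (B y) (Z y) (η y) R m)).card : ℝ) = qq F ^ (13 * deg (R + m • PP F) + 8 * cc F) ∧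
      avg (VB (gm (B y) (Z y) (η y) R m)) (upT (gm (B y) (Z y) (η y) R m)) ≤ L :=
    ⟨_, fun _ _ => Iff.rfl⟩
  obtain ⟨u, hu⟩ : ∃ u : ℕ → X2 F → ℝ, ∀ m y, u m y = if Good m y then
      avg (VB (gm (B y) (Z y) (η y) R m)) (upT (gm (B y) (Z y) (η y) R m)) else C :=
    ⟨_, fun _ _ => rfl⟩
  have hub : ∀ m y, 0 ≤ u m y ∧ u m y ≤ max C L := fun m y => by
    rw [hu]
    split_ifs with hg
    · exact ⟨avg_nonneg fun f _ => adm_upT.nonneg _ f,
        ((hGood m y).1 hg).2.2.trans (le_max_right _ _)⟩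
    · exact ⟨hC0.le, le_max_left _ _⟩
  have huL : ∀ y, ∀ᶠ m in atTop, u m y ≤ L := fun y => by
    filter_upwards [exists_gm (B y) (Z y) (η y) R, card_VB_gm (B y) (Z y) (η y) R,
      two_avg (B y) (Z y) (η y) R hL] with m h1 h2 h3
    rw [hu, if_pos ((hGood m y).2 ⟨h1, h2, h3⟩)]
    exact h3
  have hε' : 0 < ε * kapR F * qq F ^ (-3 * cc F) := by positivity
  filter_upwards [tsum_eventually_le hr hr0 u hL.le (Eventually.of_forall hub) huL hε', sum1_deg R]
    with m hm hD
  have hQ : 0 < qq F ^ (13 * deg (R + m • PP F) + 8 * cc F) := zpow_pos hq _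
  have h1 := fibre_le (hfib (R + m • PP F))
    (fun x => if par (pM x) then ENNReal.ofReal (Psi upT x) else 0)
    (fun y => if par y then
      ENNReal.ofReal (u m y * qq F ^ (13 * deg (R + m • PP F) + 8 * cc F)) else 0) fun x hx => by
      split_ifs
      · refine ENNReal.ofReal_le_ofReal ?_
        rw [hu]
        split_ifs with hg
        · obtain ⟨g1, g2, -⟩ := (hGood m _).1 hg
          obtain ⟨γ, hγ⟩ := g1 x hx (hy _)
          exact (sum1_Psi adm_upT hγ hQ g2).le
        · exact hC _ adm_upT _ ((Int.natCast_nonneg _).trans hD) x hx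
      · exact le_rfl
  have hT : 0 ≤ ∑' y, r y * u m y := tsum_nonneg fun y => mul_nonneg (hr0 y) (hub m y).1
  have h2 := (two_le_tsum hD hρ).trans (mul_le_mul_right h1 _)
  rw [hru (u m) _ _ (hub m) hQ.le, sum1_const hD, sum1_kap,
    ENNReal.ofReal_le_ofReal_iff (mul_nonneg (mul_nonneg (zpow_pos hq _).le hT)
      (sum1_WB_pos hD).le), ← mul_assoc] at h2
  have h3 := le_of_mul_le_mul_right h2 (sum1_WB_pos hD)
  have h4 := mul_le_mul_of_nonneg_left hm (zpow_pos hq (3 * cc F)).le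
  rw [hrs] at h4
  refine le_of_mul_le_mul_left (h3.trans (h4.trans_eq ?_)) hk
  linear_combination (2 * L * kapR F * zt F + ε * kapR F) * sum1_inv (F := F)

theorem tendsto_selT (R : Div F) :
    Tendsto (fun m : ℕ => AvD selT (R + m • PP F) / TD (R + m • PP F)) atTop (𝓝 0) := by
  refine tendsto_div_TD R fun ε hε => ?_
  have hz : 0 < zt F := fin2_zt_pos
  filter_upwards [two_eventually_le R (div_pos (div_pos hε four_pos) hz) (half_pos hε)] with m h
  have h0 : 0 ≤ AvD selT (R + m • PP F) := avg_nonneg fun W _ =>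
    mul_nonneg (mul_nonneg (ind_nonneg _) (Nat.cast_nonneg _)) (selT_nonneg W)
  have e : 2 * zt F * (ε / 4 / zt F) = ε / 2 := by
    field_simp
    norm_num
  rw [zero_mul, sub_zero, abs_of_nonneg h0]
  linarith

/-- The average of the 4-Selmer group from the count `N` of the elements outside the image of the
2-Selmer group. -/
theorem selmerAverage_four_of (N : WeierstrassCurve F → ℕ)
    (hN : ∀ (C : VariableChange F) (W : WeierstrassCurve F), N (C • W) = N W)
    (hfin : ∀ W : WeierstrassCurve F, W.Δ ≠ 0 → (Sel W 4).Finite)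
    (hle : ∀ W : WeierstrassCurve F, W.Δ ≠ 0 → (Sel W 4).ncard ≤ N W + (Sel W 2).ncard)
    (hge : ∀ W : WeierstrassCurve F, W.Δ ≠ 0 → N W + 1 ≤ (Sel W 4).ncard)
    (heq : ∀ W : WeierstrassCurve F, W.Δ ≠ 0 → NoTwoTorsion W →
      (Sel W 4).ncard = N W + (Sel W 2).ncard)
    (h : ∀ R : Div F, Tendsto
      (fun m : ℕ => AvD (fun W => N W) (R + m • PP F) / TD (R + m • PP F)) atTop (𝓝 4)) :
    SelmerAverage F 4 7 := by
  have e1 : ∀ (C : VariableChange F) (W : WeierstrassCurve F),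
      (SelO (C • W)).ncard = (SelO W).ncard := fun C W => by
    rw [Set.ncard_def, encard_SelO_smul, ← Set.ncard_def]
  have e2 : ∀ R : Div F, Tendsto (fun m : ℕ =>
      AvD (fun W => (N W : ℝ) + ((SelO W).ncard + 1)) (R + m • PP F) / TD (R + m • PP F))
      atTop (𝓝 7) := fun R => by
    have h1 := (h R).add ((tendsto_ratio R).add (tendsto_const_nhds (x := (1 : ℝ))))
    rw [show (4 : ℝ) + (2 + 1) = 7 by norm_num] at h1
    refine h1.congr' ?_
    filter_upwards [TD_pos R] with m hm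
    rw [AvD_add, AvD_add, AvD_one, add_div, add_div, div_self hm.ne']
    rfl
  refine selmerAverage_gen 4 7 (fun W => (N W : ℝ) + ((SelO W).ncard + 1) - selT W)
    (fun W => (N W : ℝ) + ((SelO W).ncard + 1)) hfin (fun W C hW => ?_) (fun W C hW => ?_)
    (fun R => ?_) e2
  · rw [selT, noTwoTorsion_smul, e1, hN]
    by_cases ht : NoTwoTorsion W
    · rw [ind_neg (not_not.2 ht), heq W hW ht, (finite_Sel_of hW (finite_SelO hW)).2]
      push_cast
      linarith
    · have h1 : ((N W + 1 : ℕ) : ℝ) ≤ (Sel W 4).ncard := Nat.cast_le.2 (hge W hW)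
      rw [ind_pos ht]
      push_cast at h1
      linarith
  · have h1 := hle W hW
    rw [(finite_Sel_of hW (finite_SelO hW)).2] at h1
    rw [e1, hN]
    exact_mod_cast h1
  · have h1 := (e2 R).sub (tendsto_selT R)
    rw [sub_zero] at h1
    refine h1.congr fun m => ?_
    rw [AvD_sub, sub_div]

end SelAvg.FF
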