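import Pool.Agent.H94Q.Orb0
import Pool.Agent.H94Q.Glob1
import Pool.Agent.H81Sel.Vcp

/-! Transfer from objects over Weierstrass equations to pairs of quadrics. -/

namespace SelAvg.FF.T4

open WeierstrassCurve WithZero Filter Topology Matrix SelAvg.Q4
open scoped Classical ENNReal

variable {F : Type} [Field F] [Cv F]

/-- An object `z = (f, γ)` lies over exactly one `W = γ⁻¹ • jac f`, which is in `WB D` if `z` is
integral (`IntO.mem_WB`).  For `f ∈ VB g` the number of `γ` is `card (GB D)` or `0`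
(`exists_intC`, `intC_iff_of_intC`, `IntO.cls_eq`, `G.Gam_u`). -/
theorem transfer {D : Div F} (hD : (c0 F : ℤ) ≤ deg D) (g : G4 (A F)) (h : M4 F → ℝ≥0∞)
    (H : WeierstrassCurve F → Obj4 F → ℝ≥0∞)
    (hH : ∀ W z, z.Over W → IntO D z g → H W z = h z.f) :
    ∑ W ∈ WB D, ∑' z : Obj4 F, (if z.Over W ∧ IntO D z g then H W z else 0) =
      if ∃ u : Fˣ, cls g = D + dv (u : F) then (GB D).card * ∑ f ∈ VB g, h f else 0 := by
  have h1 : ∀ z : Obj4 F, (∑ W ∈ WB D, if z.Over W ∧ IntO D z g then H W z else 0) =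
      if IntO D z g then h z.f else 0 := by
    intro z
    split_ifs with hz
    · have ho : z.Over (z.γ⁻¹ • (red z.f).jac) := over_iff.2 (smul_inv_smul _ _).symm
      rw [Finset.sum_eq_single_of_mem _ (hz.mem_WB ho), if_pos ⟨ho, hz⟩, hH _ _ ho hz]
      intro W _ hW
      refine if_neg fun hc => hW ?_
      rw [show (red z.f).jac = z.γ • W from hc.1, inv_smul_smul]
    · exact Finset.sum_eq_zero fun W _ => if_neg fun hc => hz hc.2
  rw [← Summable.tsum_finsetSum fun _ _ => ENNReal.summable, tsum_congr h1]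
  split_ifs with hu
  · obtain ⟨u, hu⟩ := hu
    let e : M4 F × VariableChange F ≃ Obj4 F :=
      ⟨fun p => ⟨p.1, p.2⟩, fun z => (z.f, z.γ), fun _ => rfl, fun _ => rfl⟩
    have h2 : ∀ f : M4 F, (∑' γ : VariableChange F, if IntO D ⟨f, γ⟩ g then h f else 0) =
        if f ∈ VB g then (GB D).card * h f else 0 := by
      intro f
      split_ifs with hf
      · obtain ⟨γ₀, -, hγ⟩ := exists_intC hD
          ((hh g (mapM (toA F) f)).Gam (red (mapM (toA F) f))) u (by rw [idiv_Gam, ← hu, neg_neg])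
        have h3 : ∀ γ, IntO D ⟨f, γ⟩ g ↔ γ₀⁻¹ * γ ∈ GB D := fun γ => by
          rw [IntO, ← intC_iff_of_intC hγ γ]
          dsimp only
          exact and_iff_right (mem_VB.1 hf)
        simp only [h3]
        rw [← (Equiv.mulLeft γ₀).tsum_eq]
        simp only [Equiv.coe_mulLeft, inv_mul_cancel_left]
        rw [tsum_eq_sum (s := GB D) fun γ hγ' => if_neg hγ', ← nsmul_eq_mul, ← Finset.sum_const]
        exact Finset.sum_congr rfl fun γ hγ' => if_pos hγ'
      · exact ENNReal.tsum_eq_zero.2 fun γ => if_neg fun hc => hf (mem_VB.2 hc.1)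
    rw [← e.tsum_eq, ENNReal.tsum_prod']
    refine (tsum_congr h2).trans ?_
    rw [tsum_eq_sum (s := VB g) fun f hf => if_neg hf, Finset.mul_sum]
    exact Finset.sum_congr rfl fun f hf => if_pos hf
  · exact ENNReal.tsum_eq_zero.2 fun z => if_neg fun hc => hu ⟨_, hc.cls_eq⟩

end SelAvg.FF.T4
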